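import Pool.Agent.U140.RG.Zd

/-! The assembly. -/

set_option linter.unusedSectionVars false
set_option linter.unusedVariables false

namespace Pool.Agent.U140.RG

open Finset Pool.Agent.K1H35.SH Filter Topology
open Pool.Agent.U140.SG (GoodG Rec RecM InB edist_iff rec_of_recM recM_of_good)

variable {n d : ℕ}

set_option maxHeartbeats 400000 in
theorem assembly (hA : ZA) {ε η : ℝ} (hε : 0 < ε) (hη : 0 < η) : ∃ N : ℕ, ∀ n d : ℕ, N ≤ n →
    Even (n * d) → (n : ℝ) ^ ((1 : ℝ) / 4 + ε) ≤ d → (d : ℝ) ≤ n / 2 →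
    (cnt n d (fun G => ¬ Rec G) : ℝ) ≤ η * (reg n d).card := by
  classical
  obtain ⟨M, hM⟩ := exists_nat_ge (30000 + 8 / ε)
  have hM1 : (30000 : ℝ) ≤ M := by linarith [div_pos (by norm_num : (0 : ℝ) < 8) hε]
  have hM2 : 30000 ≤ M := by exact_mod_cast hM1
  have hM3 : 8 / ε ≤ M := by linarith
  obtain ⟨C, hC, hD⟩ := zone_D
  obtain ⟨Λ1, hΛ1⟩ := hA (M + 1) η hη
  obtain ⟨Λ2, hΛ2⟩ := zone_B' M (M + 1) hM2 hη
  obtain ⟨Λ3, hΛ3⟩ := log_small (M + 1) C
  obtain ⟨Λ4, hΛ4⟩ := succ_pow M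
  obtain ⟨Λ5, hΛ5⟩ := exists_nat_ge (C + 1 / η)
  refine ⟨(Λ1 + Λ2 + Λ3 + Λ4 + Λ5 + 2) ^ M, fun n d hn hev h1 h2 => ?_⟩
  obtain ⟨L, l1, l2⟩ := nat_root n M (by omega)
  have hL := root_large (Λ := Λ1 + Λ2 + Λ3 + Λ4 + Λ5 + 1) hn l2
  have hLn : n ≤ L ^ (M + 1) := l2.le.trans (hΛ4 L (by omega))
  have hn1 : 1 ≤ n := le_trans (Nat.one_le_pow _ _ (by omega)) l1
  have hn1' : (1 : ℝ) ≤ n := by exact_mod_cast hn1
  have hn0' : (0 : ℝ) < n := by linarith
  have hLn' : L ≤ n := (Nat.le_self_pow (by omega) L).trans l1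
  have hCn : C + 1 / η ≤ n := hΛ5.trans (by exact_mod_cast (by omega : Λ5 ≤ n))
  have hR0 : (0 : ℝ) ≤ (reg n d).card := Nat.cast_nonneg _
  rcases le_or_gt (8 * L ^ 24 * d ^ 3) n with c1 | c1
  · -- sparse
    have g1 : (L : ℝ) ^ 32 * n ≤ 16 * d ^ 4 := by
      have k1 : ((n : ℝ) ^ ((1 : ℝ) / 4 + ε)) ^ 4 ≤ (d : ℝ) ^ 4 :=
        pow_le_pow_left₀ (by positivity) h1 4
      have k2 : ((n : ℝ) ^ ((1 : ℝ) / 4 + ε)) ^ 4 = n * (n : ℝ) ^ (4 * ε) := by
        rw [← Real.rpow_natCast, ← Real.rpow_mul hn0'.le]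
        have : ((1 : ℝ) / 4 + ε) * ((4 : ℕ) : ℝ) = 1 + 4 * ε := by push_cast; ring
        rw [this, Real.rpow_add hn0', Real.rpow_one]
      have k3 : (L : ℝ) ^ 32 ≤ (n : ℝ) ^ (4 * ε) := by
        have k4 : (L : ℝ) ^ M ≤ n := by exact_mod_cast l1
        have k5 : (L : ℝ) ≤ (n : ℝ) ^ (1 / (M : ℝ)) := by
          have := Real.rpow_le_rpow (by positivity) k4 (show 0 ≤ 1 / (M : ℝ) by positivity)
          rwa [← Real.rpow_natCast, ← Real.rpow_mul (by positivity), mul_one_div_cancel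
            (by linarith), Real.rpow_one] at this
        calc (L : ℝ) ^ 32 ≤ ((n : ℝ) ^ (1 / (M : ℝ))) ^ 32 := pow_le_pow_left₀ (by positivity) k5 32
          _ = (n : ℝ) ^ (1 / (M : ℝ) * 32) := by
            rw [← Real.rpow_natCast, ← Real.rpow_mul hn0'.le]
            norm_num
          _ ≤ (n : ℝ) ^ (4 * ε) := by
            refine Real.rpow_le_rpow_of_exponent_le hn1' ?_
            rw [div_le_iff₀ hε] at hM3
            rw [div_mul_eq_mul_div, one_mul, div_le_iff₀ (by linarith)]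
            linarith
      calc (L : ℝ) ^ 32 * n ≤ (n : ℝ) ^ (4 * ε) * n := mul_le_mul_of_nonneg_right k3 hn0'.le
        _ = n * (n : ℝ) ^ (4 * ε) := mul_comm _ _
        _ ≤ d ^ 4 := by rw [← k2]; exact k1
        _ ≤ 16 * d ^ 4 := by nlinarith [pow_nonneg (show (0 : ℝ) ≤ d by positivity) 4]
    have g2 := hΛ1 n d L (by omega) hn1 hLn c1 (by exact_mod_cast g1)
    have g3 : cnt n d (fun G => ¬ Rec G) ≤ cnt n d (fun G => ¬ RecM G) :=
      cnt_mono fun G _ hG hR => hG (rec_of_recM hR)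
    exact le_trans (Nat.cast_le.2 g3) g2
  · rcases le_or_gt (d ^ 2) (n * L) with c2 | c2
    · have g2 := hΛ2 n d L (by omega) l1 hLn c1.le c2
      have g3 : cnt n d (fun G => ¬ Rec G) ≤ cnt n d (fun G => ¬ GoodG G) :=
        cnt_mono fun G _ hG hR => hG (rec_of_recM (recM_of_good hR))
      exact le_trans (Nat.cast_le.2 g3) g2
    · have g1 : C * (n : ℝ) * Real.log n ^ 4 ≤ (d : ℝ) ^ 2 := by
        have k1 := hΛ3 L n (by omega) hn1 hLn
        have k2 : (n : ℝ) * L ≤ d ^ 2 := by exact_mod_cast c2.le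
        calc C * (n : ℝ) * Real.log n ^ 4 = n * (C * Real.log n ^ 4) := by ring
          _ ≤ (n : ℝ) * L := mul_le_mul_of_nonneg_left k1 hn0'.le
          _ ≤ (d : ℝ) ^ 2 := k2
      have g2 : 2 * d ≤ n := by
        have : (2 : ℝ) * d ≤ n := by linarith
        exact_mod_cast this
      have hη' : 0 < 1 / η := by positivity
      have g3 := hD n d (by linarith) g1 g2
      have g4 : (n : ℝ) * (cnt n d (fun G => ¬ Rec G) : ℝ) ≤ (reg n d).card := by exact_mod_cast g3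
      have g5 : 1 ≤ η * n := by
        have : 1 / η ≤ n := by linarith
        rw [div_le_iff₀ hη] at this
        linarith
      have g6 : (0 : ℝ) ≤ cnt n d (fun G => ¬ Rec G) := Nat.cast_nonneg _
      nlinarith [mul_le_mul_of_nonneg_left g4 hη.le, mul_le_mul_of_nonneg_right g5 g6]

end Pool.Agent.U140.RG
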