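import Pool.Agent.U140.SG.Ac

/-! Anti-concentration in products of different finite sets with toggles. -/

set_option linter.unusedSectionVars false
set_option linter.unusedVariables false

namespace Pool.Agent.U140.RG

open Finset Pool.Agent.Q299.PW Pool.Agent.U140.SG

variable {V α : Type*} [Fintype V] [DecidableEq V] [DecidableEq α]

lemma Ex_xor (b : V → Bool) (F : (V → Bool) → ℝ) :
    Ex (wp (1 / 2)) (fun ε : V → Bool => F fun x => xor (ε x) (b x)) = Ex (wp (1 / 2)) F := by
  unfold Ex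
  have hw : ∀ c : Bool, wp (1 / 2 : ℝ) c = 1 / 2 := by
    intro c
    cases c
    · simp [wp]; norm_num
    · simp [wp]
  simp only [hw]
  refine Fintype.sum_equiv ⟨fun ε x => xor (ε x) (b x), fun ε x => xor (ε x) (b x), ?_, ?_⟩ _ _ ?_
  · intro ε; funext x; simp only; cases h : b x <;> simp
  · intro ε; funext x; simp only; cases h : b x <;> simp
  · intro ε; rfl

structure Tog (X : Finset V) (Ω : V → Finset α) (Z : V → α → ℕ) (τ : V → α → α)
    (Fl : V → α → Prop) : Prop where
  mem : ∀ x ∈ X, ∀ S ∈ Ω x, Fl x S → τ x S ∈ Ω x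
  fl : ∀ x ∈ X, ∀ S ∈ Ω x, Fl x S → Fl x (τ x S)
  inv : ∀ x ∈ X, ∀ S ∈ Ω x, Fl x S → τ x (τ x S) = S
  dv : ∀ x ∈ X, ∀ S ∈ Ω x, Fl x S → Z x (τ x S) / 2 = Z x S / 2
  md : ∀ x ∈ X, ∀ S ∈ Ω x, Fl x S → Z x (τ x S) % 2 ≠ Z x S % 2

variable {X : Finset V} {Ω : V → Finset α} {Z : V → α → ℕ} {τ : V → α → α} {Fl : V → α → Prop}

open Classical in
/-- simultaneous toggles -/
noncomputable def tw (X : Finset V) (τ : V → α → α) (Fl : V → α → Prop) (ε : V → Bool) (S : V → α) :
    V → α := fun x => if x ∈ X ∧ Fl x (S x) ∧ ε x = true then τ x (S x) else S x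

lemma tw_mem (T : Tog X Ω Z τ Fl) (ε : V → Bool) {S : V → α} (hS : S ∈ Fintype.piFinset Ω) :
    tw X τ Fl ε S ∈ Fintype.piFinset Ω := by
  classical
  rw [Fintype.mem_piFinset] at hS ⊢
  intro x
  unfold tw
  split_ifs with h
  · exact T.mem x h.1 _ (hS x) h.2.1
  · exact hS x

lemma tw_tw (T : Tog X Ω Z τ Fl) (ε : V → Bool) {S : V → α} (hS : S ∈ Fintype.piFinset Ω) :
    tw X τ Fl ε (tw X τ Fl ε S) = S := by
  classical
  rw [Fintype.mem_piFinset] at hS
  funext x
  unfold tw
  by_cases h : x ∈ X ∧ Fl x (S x) ∧ ε x = true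
  · simp only [if_pos h]
    rw [if_pos ⟨h.1, T.fl x h.1 _ (hS x) h.2.1, h.2.2⟩]
    exact T.inv x h.1 _ (hS x) h.2.1
  · simp only [if_neg h]

open Classical in
noncomputable def Ac (X : Finset V) (Z : V → α → ℕ) (Fl : V → α → Prop) (i : ℕ) (S : V → α) :
    Finset V := X.filter fun x => Fl x (S x) ∧ Z x (S x) / 2 = i

open Classical in
lemma anti_point (T : Tog X Ω Z τ Fl) {S : V → α} (hS : S ∈ Fintype.piFinset Ω) (J : ℕ)
    (t : ℕ → ℕ) {M₀ : ℝ} (hM : 0 < M₀) (hA : ∀ i < J, M₀ ≤ (Ac X Z Fl i S).card) :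
    Ex (wp (1 / 2)) (fun ε : V → Bool => if (∀ i < J,
      (X.filter fun x => Z x (tw X τ Fl ε S x) = 2 * i).card = t i) then (1 : ℝ) else 0) ≤
      (Real.sqrt (1 / M₀)) ^ J := by
  have hS' := Fintype.mem_piFinset.1 hS
  set b : V → Bool := fun x => decide (Z x (S x) % 2 = 1) with hb
  set k : Fin J → ℕ := fun i => t i -
    (X.filter fun x => ¬ Fl x (S x) ∧ Z x (S x) = 2 * (i : ℕ)).card with hk
  rw [← Ex_xor b]
  refine (Ex_mono (wp_nonneg (by norm_num) (by norm_num)) (g := fun ε : V → Bool => ∏ i : Fin J,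
    (if ((Ac X Z Fl i S).filter fun a => ε a = false).card = k i then (1 : ℝ) else 0))
    fun ε => ?_).trans ?_
  · split_ifs with h
    · rw [prod_eq_one]
      intro i _
      rw [if_pos]
      have h2 := h i i.2
      have h3 : (X.filter fun x => Z x (tw X τ Fl (fun x => xor (ε x) (b x)) S x) = 2 * (i : ℕ)) =
          ((Ac X Z Fl i S).filter fun a => ε a = false) ∪
          (X.filter fun x => ¬ Fl x (S x) ∧ Z x (S x) = 2 * (i : ℕ)) := by
        ext x
        simp only [mem_filter, mem_union, Ac]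
        by_cases hx : x ∈ X
        swap
        · simp [hx]
        by_cases hf : Fl x (S x)
        swap
        · have e : tw X τ Fl (fun x => xor (ε x) (b x)) S x = S x := by
            unfold tw; rw [if_neg]; tauto
          rw [e]; simp [hx, hf]
        have g1 := T.dv x hx _ (hS' x) hf
        have g2 := T.md x hx _ (hS' x) hf
        simp only [hx, hf, true_and, not_true_eq_false, false_and, or_false]
        by_cases hp : Z x (S x) % 2 = 1
        · have hbx : b x = true := by rw [hb]; simpa using hp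
          rcases hε : ε x with _ | _
          · have e : tw X τ Fl (fun x => xor (ε x) (b x)) S x = τ x (S x) := by
              unfold tw; rw [if_pos]
              refine ⟨hx, hf, ?_⟩
              simp only
              rw [hε, hbx]; rfl
            rw [e]
            simp only [and_true]
            omega
          · have e : tw X τ Fl (fun x => xor (ε x) (b x)) S x = S x := by
              unfold tw; rw [if_neg]
              rintro ⟨-, -, h3⟩
              simp only at h3
              rw [hε, hbx] at h3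
              exact absurd h3 (by decide)
            rw [e]
            simp only [Bool.true_eq_false, and_false, iff_false]
            omega
        · have hbx : b x = false := by rw [hb]; simpa using hp
          rcases hε : ε x with _ | _
          · have e : tw X τ Fl (fun x => xor (ε x) (b x)) S x = S x := by
              unfold tw; rw [if_neg]
              rintro ⟨-, -, h3⟩
              simp only at h3
              rw [hε, hbx] at h3
              exact absurd h3 (by decide)
            rw [e]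
            simp only [and_true]
            omega
          · have e : tw X τ Fl (fun x => xor (ε x) (b x)) S x = τ x (S x) := by
              unfold tw; rw [if_pos]
              refine ⟨hx, hf, ?_⟩
              simp only
              rw [hε, hbx]; rfl
            rw [e]
            simp only [Bool.true_eq_false, and_false, iff_false]
            omega
      rw [h3, card_union_of_disjoint] at h2
      · rw [hk]; simp only; omega
      · rw [disjoint_left]
        intro x hx hx'
        simp only [mem_filter, Ac] at hx hx'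
        exact hx'.2.1 hx.1.2.1
    · exact prod_nonneg fun i _ => by split_ifs <;> norm_num
  · rw [Ex_prod_blocks (wp_sum _) (univ : Finset (Fin J)) (fun i => Ac X Z Fl i S)]
    · have h2 : ∀ i ∈ (univ : Finset (Fin J)), Ex (wp (1 / 2)) (fun ε : V → Bool =>
          if ((Ac X Z Fl i S).filter fun a => ε a = false).card = k i then (1 : ℝ) else 0) ≤
          Real.sqrt (1 / M₀) := fun i _ => coin_bound (Ac X Z Fl i S) (k i) hM (hA i i.2)
      refine (prod_le_prod (fun i _ => Ex_nonneg (wp_nonneg (by norm_num) (by norm_num))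
        fun ε => by split_ifs <;> norm_num) h2).trans ?_
      rw [prod_const, card_univ, Fintype.card_fin]
    · intro i _ ε ε' hh
      have : (Ac X Z Fl i S).filter (fun a => ε a = false) =
          (Ac X Z Fl i S).filter (fun a => ε' a = false) :=
        filter_congr fun a ha => by rw [hh a ha]
      rw [this]
    · intro i _ i' _ hne
      rw [disjoint_left]
      intro a ha ha'
      simp only [mem_filter, Ac] at ha ha'
      exact hne (Fin.ext (ha.2.2.symm.trans ha'.2.2))

open Classical in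
lemma few_act (Xg : Finset V) (hXg : Xg ⊆ X) {θ : ℝ} (hθ : 0 ≤ θ) (i : ℕ)
    (h2 : ∀ x ∈ Xg, θ * (Ω x).card ≤ ((Ω x).filter fun S => Fl x S ∧ Z x S / 2 = i).card) :
    (((Fintype.piFinset Ω).filter fun S => ((Ac X Z Fl i S).card : ℝ) ≤ θ * Xg.card / 4).card : ℝ) ≤
      Real.exp (-(θ * Xg.card / 4)) * (Fintype.piFinset Ω).card := by
  set M₀ : ℝ := θ * Xg.card / 4 with hM₀
  set f : V → α → ℝ := fun x S => if x ∈ X ∧ Fl x S ∧ Z x S / 2 = i then Real.exp (-1) else 1 with hf
  have he : Real.exp (-1) ≤ 1 / 2 := by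
    rw [Real.exp_neg, one_div]
    exact inv_anti₀ (by norm_num) (by have := Real.add_one_le_exp (1:ℝ); linarith)
  have hf0 : ∀ x S, 0 ≤ f x S := fun x S => by
    rw [hf]; simp only; split_ifs
    · exact (Real.exp_pos _).le
    · norm_num
  have hf1 : ∀ x S, f x S ≤ 1 := fun x S => by
    rw [hf]; simp only; split_ifs
    · linarith
    · norm_num
  -- pointwise
  have hpt : ∀ S : V → α, ∏ x, f x (S x) = Real.exp (-((Ac X Z Fl i S).card : ℝ)) := by
    intro S
    rw [hf]
    simp only
    rw [prod_ite, prod_const_one, mul_one, prod_const, ← Real.exp_nat_mul]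
    congr 1
    have : (univ.filter fun x => x ∈ X ∧ Fl x (S x) ∧ Z x (S x) / 2 = i) = Ac X Z Fl i S := by
      ext x; simp [Ac]
    rw [this]; ring
  have h3 : (((Fintype.piFinset Ω).filter fun S => ((Ac X Z Fl i S).card : ℝ) ≤ M₀).card : ℝ) ≤
      Real.exp M₀ * ∑ S ∈ Fintype.piFinset Ω, ∏ x, f x (S x) := by
    rw [mul_sum]
    have : ∀ S ∈ (Fintype.piFinset Ω).filter (fun S => ((Ac X Z Fl i S).card : ℝ) ≤ M₀),
        (1 : ℝ) ≤ Real.exp M₀ * ∏ x, f x (S x) := by
      intro S hS
      rw [hpt, ← Real.exp_add]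
      have := (mem_filter.1 hS).2
      rw [← Real.exp_zero]
      exact Real.exp_le_exp.2 (by linarith)
    calc _ = ∑ S ∈ (Fintype.piFinset Ω).filter (fun S => ((Ac X Z Fl i S).card : ℝ) ≤ M₀),
          (1 : ℝ) := by rw [sum_const, nsmul_eq_mul, mul_one]
      _ ≤ ∑ S ∈ (Fintype.piFinset Ω).filter (fun S => ((Ac X Z Fl i S).card : ℝ) ≤ M₀),
          Real.exp M₀ * ∏ x, f x (S x) := sum_le_sum this
      _ ≤ _ := sum_le_sum_of_subset_of_nonneg (filter_subset _ _) fun S _ _ =>
          mul_nonneg (Real.exp_pos _).le (prod_nonneg fun x _ => hf0 x _)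
  refine h3.trans ?_
  rw [← prod_univ_sum]
  have h4 : ∏ x, ∑ S ∈ Ω x, f x S ≤ ∏ x, ((Ω x).card : ℝ) * (if x ∈ Xg then Real.exp (-(θ / 2)) else 1) := by
    refine prod_le_prod (fun x _ => sum_nonneg fun S _ => hf0 x S) fun x _ => ?_
    split_ifs with hx
    · set Y := (Ω x).filter fun S => Fl x S ∧ Z x S / 2 = i with hY
      have e1 : ∑ S ∈ Ω x, f x S = (Y.card : ℝ) * Real.exp (-1) + ((Ω x).card - Y.card) := by
        rw [hf]
        simp only [hXg hx, true_and]
        rw [sum_ite, sum_const, sum_const, nsmul_eq_mul, nsmul_eq_mul, mul_one]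
        have := card_filter_add_card_filter_not (s := Ω x) (fun S => Fl x S ∧ Z x S / 2 = i)
        have h5 : (((Ω x).filter fun S => ¬ (Fl x S ∧ Z x S / 2 = i)).card : ℝ) =
            (Ω x).card - Y.card := by
          rw [eq_sub_iff_add_eq, add_comm]; exact_mod_cast this
        rw [h5]
      rw [e1]
      have h5 := h2 x hx
      have h6 : 1 - θ / 2 ≤ Real.exp (-(θ / 2)) := by
        have := Real.add_one_le_exp (-(θ / 2)); linarith
      have h7 : (0 : ℝ) ≤ (Ω x).card := Nat.cast_nonneg _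
      have h8 : (0 : ℝ) ≤ Y.card := Nat.cast_nonneg _
      have h9 : ((Ω x).card : ℝ) * (1 - θ / 2) ≤ (Ω x).card * Real.exp (-(θ / 2)) :=
        mul_le_mul_of_nonneg_left h6 h7
      have h10 : (Y.card : ℝ) * Real.exp (-1) ≤ Y.card * (1 / 2) := mul_le_mul_of_nonneg_left he h8
      have h5' : θ * (Ω x).card ≤ (Y.card : ℝ) := h5
      linarith
    · rw [mul_one]
      calc ∑ S ∈ Ω x, f x S ≤ ∑ S ∈ Ω x, (1 : ℝ) := sum_le_sum fun S _ => hf1 x S
        _ = _ := by rw [sum_const, nsmul_eq_mul, mul_one]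
  have h5 : ∏ x, ((Ω x).card : ℝ) * (if x ∈ Xg then Real.exp (-(θ / 2)) else 1) =
      (Fintype.piFinset Ω).card * Real.exp (-(θ * Xg.card / 2)) := by
    rw [prod_mul_distrib, Fintype.card_piFinset]
    push_cast
    congr 1
    rw [prod_ite, prod_const_one, mul_one, prod_const, ← Real.exp_nat_mul]
    congr 1
    have : (univ.filter fun x => x ∈ Xg) = Xg := by ext x; simp
    rw [this]; ring
  rw [h5] at h4
  calc Real.exp M₀ * ∏ x, ∑ S ∈ Ω x, f x S
      ≤ Real.exp M₀ * ((Fintype.piFinset Ω).card * Real.exp (-(θ * Xg.card / 2))) :=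
        mul_le_mul_of_nonneg_left h4 (Real.exp_pos _).le
    _ = (Real.exp M₀ * Real.exp (-(θ * Xg.card / 2))) * (Fintype.piFinset Ω).card := by ring
    _ = Real.exp (-(θ * Xg.card / 4)) * (Fintype.piFinset Ω).card := by
        rw [← Real.exp_add]
        congr 2
        rw [hM₀]; ring

open Classical in
theorem anti (T : Tog X Ω Z τ Fl) (Xg : Finset V) (hXg : Xg ⊆ X) (hne : Xg.Nonempty) {θ : ℝ}
    (hθ : 0 < θ) (J : ℕ) (t : ℕ → ℕ)
    (h2 : ∀ x ∈ Xg, ∀ i < J, θ * (Ω x).card ≤ ((Ω x).filter fun S => Fl x S ∧ Z x S / 2 = i).card) :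
    (((Fintype.piFinset Ω).filter fun S => ∀ i < J,
      (X.filter fun x => Z x (S x) = 2 * i).card = t i).card : ℝ) ≤
      (J * Real.exp (-(θ * Xg.card / 4)) + (Real.sqrt (4 / (θ * Xg.card))) ^ J) *
        (Fintype.piFinset Ω).card := by
  set s : ℝ := (Xg.card : ℝ) with hs
  have hs0 : 0 < s := by rw [hs]; exact_mod_cast card_pos.2 hne
  set M₀ : ℝ := θ * s / 4 with hM₀
  have hM : 0 < M₀ := by rw [hM₀]; positivity
  set Q : (V → α) → Prop := fun S => ∀ i < J, (X.filter fun x => Z x (S x) = 2 * i).card = t i with hQ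
  set Pi := Fintype.piFinset Ω with hPi
  -- invariance
  have hinv : ∀ ε : V → Bool, ((Pi.filter Q).card : ℝ) =
      ∑ S ∈ Pi, (if Q (tw X τ Fl ε S) then (1 : ℝ) else 0) := by
    intro ε
    rw [← sum_filter, sum_const, nsmul_eq_mul, mul_one]
    congr 1
    refine card_bij' (fun S _ => tw X τ Fl ε S) (fun S _ => tw X τ Fl ε S) ?_ ?_ ?_ ?_
    · intro S hS
      rw [mem_filter] at hS ⊢
      refine ⟨tw_mem T ε hS.1, ?_⟩
      rw [tw_tw T ε hS.1]; exact hS.2
    · intro S hS
      rw [mem_filter] at hS ⊢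
      exact ⟨tw_mem T ε hS.1, hS.2⟩
    · intro S hS; exact tw_tw T ε (mem_filter.1 hS).1
    · intro S hS; exact tw_tw T ε (mem_filter.1 hS).1
  have havg : ((Pi.filter Q).card : ℝ) = ∑ S ∈ Pi, Ex (wp (1 / 2)) (fun ε : V → Bool =>
      if Q (tw X τ Fl ε S) then (1 : ℝ) else 0) := by
    have h1 : ((Pi.filter Q).card : ℝ) = Ex (wp (1 / 2)) (fun ε : V → Bool =>
        ∑ S ∈ Pi, (if Q (tw X τ Fl ε S) then (1 : ℝ) else 0)) := by
      rw [← Ex_const (ι := V) (wp_sum (1 / 2 : ℝ)) ((Pi.filter Q).card : ℝ)]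
      exact congrArg (Ex _) (funext fun ε => hinv ε)
    rw [h1]
    unfold Ex
    simp only [mul_sum]
    exact sum_comm
  rw [havg]
  have hpt : ∀ S ∈ Pi, Ex (wp (1 / 2)) (fun ε : V → Bool =>
      if Q (tw X τ Fl ε S) then (1 : ℝ) else 0) ≤
      (∑ i ∈ range J, if ((Ac X Z Fl i S).card : ℝ) ≤ M₀ then (1 : ℝ) else 0) +
        (Real.sqrt (1 / M₀)) ^ J := by
    intro S hS
    have h0 : 0 ≤ (Real.sqrt (1 / M₀)) ^ J := by positivity
    by_cases hb : ∃ i < J, ((Ac X Z Fl i S).card : ℝ) ≤ M₀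
    · obtain ⟨i, hi, hc⟩ := hb
      have h1 : Ex (wp (1 / 2)) (fun ε : V → Bool =>
          if Q (tw X τ Fl ε S) then (1 : ℝ) else 0) ≤ 1 := by
        refine (Ex_mono (wp_nonneg (by norm_num) (by norm_num)) (g := fun _ => (1 : ℝ))
          fun ε => ?_).trans (le_of_eq (Ex_const (wp_sum _) 1))
        split_ifs <;> norm_num
      have h2 : (1 : ℝ) ≤ ∑ i ∈ range J, if ((Ac X Z Fl i S).card : ℝ) ≤ M₀ then (1 : ℝ) else 0 := by
        refine le_trans ?_ (single_le_sum (f := fun i => if ((Ac X Z Fl i S).card : ℝ) ≤ M₀ then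
          (1 : ℝ) else 0) (fun j _ => by split_ifs <;> norm_num) (mem_range.2 hi))
        rw [if_pos hc]
      linarith
    · push Not at hb
      have h1 := anti_point T hS J t hM (fun i hi => (hb i hi).le)
      have h2 : (0 : ℝ) ≤ ∑ i ∈ range J, if ((Ac X Z Fl i S).card : ℝ) ≤ M₀ then (1 : ℝ) else 0 :=
        sum_nonneg fun j _ => by split_ifs <;> norm_num
      refine le_trans (le_trans (le_of_eq ?_) h1) (by linarith)
      refine congrArg (Ex _) (funext fun ε => ?_)
      by_cases hh : Q (tw X τ Fl ε S)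
      · rw [if_pos hh]
      · rw [if_neg hh]
  refine (sum_le_sum hpt).trans ?_
  rw [sum_add_distrib, sum_const, nsmul_eq_mul, sum_comm]
  have h3 : ∀ i ∈ range J, ∑ S ∈ Pi, (if ((Ac X Z Fl i S).card : ℝ) ≤ M₀ then (1 : ℝ) else 0) ≤
      Real.exp (-(θ * s / 4)) * Pi.card := by
    intro i hi
    rw [← sum_filter, sum_const, nsmul_eq_mul, mul_one]
    exact few_act Xg hXg hθ.le i fun x hx => h2 x hx i (mem_range.1 hi)
  have h4 := sum_le_sum h3
  rw [sum_const, card_range, nsmul_eq_mul] at h4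
  have h5 : Real.sqrt (1 / M₀) = Real.sqrt (4 / (θ * s)) := by
    congr 1; rw [hM₀]; field_simp
  rw [h5]
  calc _ ≤ (J : ℝ) * (Real.exp (-(θ * s / 4)) * Pi.card) + Pi.card * Real.sqrt (4 / (θ * s)) ^ J := by
        linarith
    _ = _ := by ring

end Pool.Agent.U140.RG
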