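import Pool.Agent.U140.RG.Up

/-! The parity classes of the codegrees with `b` are large. -/

set_option linter.unusedSectionVars false
set_option linter.unusedVariables false

namespace Pool.Agent.U140.RG

open Finset Pool.Agent.K1H35.SH

variable {n d : ℕ}

/-- some codegree is larger than `K` -/
def Bc (K : ℕ) (G : SimpleGraph (Fin n)) : Prop := ∃ u v, u ≠ v ∧ K < codeg G u v

lemma codeg_le {K : ℕ} {G : SimpleGraph (Fin n)} (h : ¬ Bc K G) {u v : Fin n} (huv : u ≠ v) :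
    (nb G u ∩ nb G v).card ≤ K := by
  by_contra hh
  push Not at hh
  exact h ⟨u, v, huv, by unfold codeg; convert hh using 2⟩

lemma card_ge3 {α β γ τ : Type*} [DecidableEq τ] (A : Finset α) (B : α → Finset β)
    (C : α → β → Finset γ) (F : Finset τ) (φ : α → β → γ → τ) {a b c : ℕ} (hA : a ≤ A.card)
    (hB : ∀ x ∈ A, b ≤ (B x).card) (hC : ∀ x ∈ A, ∀ y ∈ B x, c ≤ (C x y).card)
    (hF : ∀ x ∈ A, ∀ y ∈ B x, ∀ z ∈ C x y, φ x y z ∈ F)
    (hinj : ∀ x y z x' y' z', φ x y z = φ x' y' z' → x = x' ∧ y = y' ∧ z = z') :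
    a * b * c ≤ F.card := by
  classical
  have h1 : a * b * c ≤ (A.sigma fun x => (B x).sigma fun y => C x y).card := by
    rw [card_sigma]
    calc a * b * c ≤ A.card * (b * c) := by
          rw [mul_assoc]; exact Nat.mul_le_mul_right _ hA
      _ = ∑ x ∈ A, b * c := by rw [sum_const, smul_eq_mul]
      _ ≤ _ := sum_le_sum fun x hx => by
          rw [card_sigma]
          calc b * c ≤ (B x).card * c := Nat.mul_le_mul_right _ (hB x hx)
            _ = ∑ y ∈ B x, c := by rw [sum_const, smul_eq_mul]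
            _ ≤ _ := sum_le_sum fun y hy => hC x hx y hy
  refine h1.trans ?_
  refine card_le_card_of_injOn (fun p => φ p.1 p.2.1 p.2.2) ?_ ?_
  · rintro ⟨x, y, z⟩ hp
    simp only [coe_sigma, Set.mem_sigma_iff, mem_coe] at hp
    exact hF x hp.1 y hp.2.1 z hp.2.2
  · rintro ⟨x, y, z⟩ - ⟨x', y', z'⟩ - h
    obtain ⟨rfl, rfl, rfl⟩ := hinj _ _ _ _ _ _ h
    rfl

/-- darts between two sets -/
lemma dab (G : SimpleGraph (Fin n)) (A B : Finset (Fin n)) {k : ℕ}
    (h : ∀ z ∈ B, (nb G z ∩ A).card ≤ k) :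
    ((Da G).filter fun q => q.1 ∈ A ∧ q.2 ∈ B).card ≤ B.card * k := by
  classical
  have h1 := card_le_mul_card_image (f := Prod.snd) ((Da G).filter fun q => q.1 ∈ A ∧ q.2 ∈ B) k ?_
  · refine h1.trans ?_
    rw [mul_comm]
    refine Nat.mul_le_mul_right _ (card_le_card ?_)
    intro z hz
    obtain ⟨q, hq, rfl⟩ := mem_image.1 hz
    exact (mem_filter.1 hq).2.2
  · intro z hz
    obtain ⟨q, hq, rfl⟩ := mem_image.1 hz
    refine le_trans ?_ (h q.2 (mem_filter.1 hq).2.2)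
    refine card_le_card_of_injOn Prod.fst ?_ ?_
    · intro q' hq'
      simp only [coe_filter, mem_filter, mem_Da, Set.mem_ofPred_eq] at hq'
      rw [mem_coe, mem_inter, mem_nb, ← hq'.2]
      exact ⟨hq'.1.1.symm, hq'.1.2.1⟩
    · intro q1 h1 q2 h2 hh
      simp only [coe_filter, mem_filter, mem_Da, Set.mem_ofPred_eq] at h1 h2
      exact Prod.ext hh (h1.2.trans h2.2.symm)

/-- common neighbours with `b` -/
noncomputable def cn (G : SimpleGraph (Fin n)) (b w : Fin n) : ℕ := (nb G w ∩ nb G b).card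

open Classical in
/-- parity classes -/
noncomputable def Wp (G : SimpleGraph (Fin n)) (b : Fin n) (σ : ℕ) : Finset (Fin n) :=
  univ.filter fun w => w ≠ b ∧ ¬ G.Adj b w ∧ cn G b w % 2 = σ

lemma mem_Wp {G : SimpleGraph (Fin n)} {b w : Fin n} {σ : ℕ} :
    w ∈ Wp G b σ ↔ w ≠ b ∧ ¬ G.Adj b w ∧ cn G b w % 2 = σ := by
  classical
  simp [Wp]

lemma Wp_cover (G : SimpleGraph (Fin n)) (b : Fin n) {σ : ℕ} (hσ : σ < 2) (hG : G ∈ reg n d) :
    n ≤ (Wp G b σ).card + (Wp G b (1 - σ)).card + (d + 1) := by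
  classical
  have h : (univ : Finset (Fin n)) ⊆ Wp G b σ ∪ (Wp G b (1 - σ) ∪ insert b (nb G b)) := by
    intro w _
    rw [mem_union, mem_union, mem_insert, mem_Wp, mem_Wp, mem_nb]
    by_cases h1 : w = b
    · exact Or.inr (Or.inr (Or.inl h1))
    by_cases h2 : G.Adj b w
    · exact Or.inr (Or.inr (Or.inr h2))
    have : cn G b w % 2 = σ ∨ cn G b w % 2 = 1 - σ := by omega
    tauto
  have h1 := card_le_card h
  rw [card_univ, Fintype.card_fin] at h1
  have h2 := card_union_le (Wp G b σ) (Wp G b (1 - σ) ∪ insert b (nb G b))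
  have h3 := card_union_le (Wp G b (1 - σ)) (insert b (nb G b))
  have h4 := card_insert_le b (nb G b)
  rw [nb_card hG] at h4
  omega

/-- effect of a switch on the parity classes -/
lemma wp_switch {G G' : SimpleGraph (Fin n)} {b t z w u : Fin n} {σ m K : ℕ} (hσ : σ < 2)
    (h : SwF G G' t z w u) (t1 : G.Adj b t) (z1 : z ≠ b) (z2 : ¬ G.Adj b z)
    (z3 : cn G b z % 2 = 1 - σ) (w1 : w ≠ b) (w2 : ¬ G.Adj b w) (w3 : cn G b w % 2 = 1 - σ)
    (t9 : ¬ G.Adj b u) (hX : (Wp G b σ).card = m) (hB : ¬ Bc K G) :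
    (Wp G' b σ).card = m + 2 ∧ G'.Adj b t ∧ z ∈ Wp G' b σ ∧ w ∈ Wp G' b σ ∧ cn G' b w ≤ K + 1 := by
  classical
  have t2 := h.ab
  have t5 := h.ce
  have t6 := h.nac
  have hbt : b ≠ t := t1.ne
  have hbu : b ≠ u := by rintro rfl; exact w2 t5.symm
  have hzw : z ≠ w := by rintro rfl; exact t6 t2
  have htz : t ≠ z := t2.ne
  have hwu : w ≠ u := t5.ne
  have htu : t ≠ u := by rintro rfl; exact t9 t1
  have nbb : nb G' b = nb G b := h.nz b hbt (Ne.symm z1) (Ne.symm w1) hbu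
  have hadjb : ∀ x, G'.Adj b x ↔ G.Adj b x := fun x => by rw [← mem_nb, nbb, mem_nb]
  have cz : cn G' b z + 1 = cn G b z := by
    unfold cn
    rw [h.nb_, nbb]
    have e : insert u ((nb G z).erase t) ∩ nb G b = ((nb G z ∩ nb G b)).erase t := by
      ext x
      simp only [mem_inter, mem_insert, mem_erase, mem_nb]
      constructor
      · rintro ⟨h1 | ⟨h1, h2⟩, h3⟩
        · rw [h1] at h3; exact absurd h3 t9
        · exact ⟨h1, h2, h3⟩
      · rintro ⟨h1, h2, h3⟩; exact ⟨Or.inr ⟨h1, h2⟩, h3⟩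
    rw [e, card_erase_add_one]
    rw [mem_inter, mem_nb, mem_nb]
    exact ⟨t2.symm, t1⟩
  have cw : cn G' b w = cn G b w + 1 := by
    unfold cn
    rw [h.nc, nbb]
    have e : insert t ((nb G w).erase u) ∩ nb G b = insert t (nb G w ∩ nb G b) := by
      ext x
      simp only [mem_inter, mem_insert, mem_erase, mem_nb]
      constructor
      · rintro ⟨h1 | ⟨h1, h2⟩, h3⟩
        · exact Or.inl h1
        · exact Or.inr ⟨h2, h3⟩
      · rintro (h1 | ⟨h2, h3⟩)
        · rw [h1]; exact ⟨Or.inl rfl, t1⟩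
        · refine ⟨Or.inr ⟨?_, h2⟩, h3⟩
          rintro rfl; exact t9 h3
    rw [e, card_insert_of_notMem]
    rw [mem_inter, mem_nb]
    rintro ⟨h, -⟩; exact t6 h.symm
  have cx : ∀ x, x ≠ b → ¬ G.Adj b x → x ≠ z → x ≠ w → cn G' b x = cn G b x := by
    intro x hxb hx hxz hxw
    have hxt : x ≠ t := by rintro rfl; exact hx t1
    unfold cn
    rw [nbb]
    by_cases hxu : x = u
    · subst hxu
      rw [h.ne_]
      congr 1
      ext y
      simp only [mem_inter, mem_insert, mem_erase, mem_nb]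
      constructor
      · rintro ⟨h1 | ⟨h1, h2⟩, h3⟩
        · rw [h1] at h3; exact absurd h3 z2
        · exact ⟨h2, h3⟩
      · rintro ⟨h2, h3⟩
        refine ⟨Or.inr ⟨?_, h2⟩, h3⟩
        rintro rfl; exact w2 h3
    · rw [h.nz x hxt hxz hxw hxu]
  have hWz : z ∈ Wp G' b σ := by
    rw [mem_Wp, hadjb]; refine ⟨z1, z2, ?_⟩; omega
  have hWw : w ∈ Wp G' b σ := by
    rw [mem_Wp, hadjb]; refine ⟨w1, w2, ?_⟩; omega
  refine ⟨?_, (hadjb t).2 t1, hWz, hWw, ?_⟩
  · have e : Wp G' b σ = insert z (insert w (Wp G b σ)) := by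
      ext x
      rw [mem_insert, mem_insert, mem_Wp, mem_Wp, hadjb]
      by_cases hxz : x = z
      · subst hxz
        simp only [true_or, iff_true]
        refine ⟨z1, z2, ?_⟩; omega
      by_cases hxw : x = w
      · subst hxw
        simp only [true_or, or_true, iff_true]
        refine ⟨w1, w2, ?_⟩; omega
      constructor
      · rintro ⟨h1, h2, h3⟩
        rw [cx x h1 h2 hxz hxw] at h3
        exact Or.inr (Or.inr ⟨h1, h2, h3⟩)
      · rintro (h | h | ⟨h1, h2, h3⟩)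
        · exact absurd h hxz
        · exact absurd h hxw
        · rw [cx x h1 h2 hxz hxw]; exact ⟨h1, h2, h3⟩
    have hwn : w ∉ Wp G b σ := by rw [mem_Wp]; rintro ⟨-, -, h⟩; omega
    have hzn : z ∉ insert w (Wp G b σ) := by
      rw [mem_insert, mem_Wp]
      rintro (h | ⟨-, -, h⟩)
      · exact hzw h
      · omega
    rw [e, card_insert_of_notMem hzn, card_insert_of_notMem hwn, hX]
  · rw [cw]
    have := codeg_le hB w1
    unfold cn
    omega

open Classical in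
/-- forward tuples -/
noncomputable def F1 (b : Fin n) (τ : ℕ) (G : SimpleGraph (Fin n)) : Finset (Tup n) :=
  univ.filter fun t => G.Adj b t.1 ∧ G.Adj t.1 t.2.1 ∧ t.2.1 ∈ Wp G b τ ∧
      t.2.2.1 ∈ Wp G b τ ∧ G.Adj t.2.2.1 t.2.2.2 ∧ ¬ G.Adj t.1 t.2.2.1 ∧ ¬ G.Adj t.2.1 t.2.2.2 ∧
      t.2.1 ≠ t.2.2.2 ∧ ¬ G.Adj b t.2.2.2

open Classical in
/-- backward tuples -/
noncomputable def B1 (b : Fin n) (σ K : ℕ) (G : SimpleGraph (Fin n)) : Finset (Tup n) :=
  univ.filter fun t => G.Adj b t.1 ∧ G.Adj t.1 t.2.2.1 ∧ t.2.1 ∈ Wp G b σ ∧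
      t.2.2.1 ∈ Wp G b σ ∧ G.Adj t.2.1 t.2.2.2 ∧ cn G b t.2.2.1 ≤ K + 1

lemma F1_card (b : Fin n) {σ K m : ℕ} (hσ : σ < 2) {G : SimpleGraph (Fin n)} (hG : G ∈ reg n d)
    (hX : (Wp G b σ).card = m) (hB : ¬ Bc K G) :
    (d * d - d * K - d - m * K) * (n - 1 - 2 * d - m) * (d - 2 * K - 1) ≤
      (F1 b (1 - σ) G).card := by
  classical
  set τ := 1 - σ with hτ
  have hcov := Wp_cover G b hσ hG
  have hXτ : n ≤ m + (Wp G b τ).card + (d + 1) := by rw [← hX]; exact hcov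
  refine card_ge3 ((Da G).filter fun q => q.1 ∈ nb G b ∧ q.2 ∈ Wp G b τ)
    (fun q => Wp G b τ \ nb G q.1) (fun q w => nb G w \ (nb G q.2 ∪ (nb G b ∪ {q.2}))) _
    (fun q w u => (q.1, q.2, w, u)) ?_ ?_ ?_ ?_ ?_
  · -- pairs
    have c0 := da_fst hG (nb G b)
    rw [nb_card hG] at c0
    have c1 := dab G (nb G b) (nb G b) (k := K) (fun z hz => by
      rw [mem_nb] at hz; exact codeg_le hB hz.ne')
    have c2 := dab G (nb G b) {b} (k := d) (fun z hz => by
      rw [mem_singleton] at hz; subst hz; rw [inter_self, nb_card hG])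
    have c3 := dab G (nb G b) (Wp G b σ) (k := K) (fun z hz => by
      rw [mem_Wp] at hz; exact codeg_le hB hz.1)
    rw [nb_card hG] at c1
    rw [card_singleton] at c2
    have hX' : (Wp G b σ).card = m := hX
    rw [hX'] at c3
    have hsub : (Da G).filter (fun q => q.1 ∈ nb G b) ⊆
        ((Da G).filter fun q => q.1 ∈ nb G b ∧ q.2 ∈ Wp G b τ) ∪
        (((Da G).filter fun q => q.1 ∈ nb G b ∧ q.2 ∈ nb G b) ∪
        (((Da G).filter fun q => q.1 ∈ nb G b ∧ q.2 ∈ ({b} : Finset (Fin n))) ∪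
        ((Da G).filter fun q => q.1 ∈ nb G b ∧ q.2 ∈ Wp G b σ))) := by
      intro q hq
      obtain ⟨h1, h2⟩ := mem_filter.1 hq
      simp only [mem_union, mem_filter, h1, h2, true_and, mem_singleton]
      by_cases g1 : q.2 = b
      · exact Or.inr (Or.inr (Or.inl g1))
      by_cases g2 : G.Adj b q.2
      · exact Or.inr (Or.inl ((mem_nb G b _).2 g2))
      rw [mem_Wp, mem_Wp]
      have : cn G b q.2 % 2 = σ ∨ cn G b q.2 % 2 = τ := by omega
      tauto
    have u0 := card_le_card hsub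
    have u1 := card_union_le ((Da G).filter fun q => q.1 ∈ nb G b ∧ q.2 ∈ Wp G b τ)
      (((Da G).filter fun q => q.1 ∈ nb G b ∧ q.2 ∈ nb G b) ∪
        (((Da G).filter fun q => q.1 ∈ nb G b ∧ q.2 ∈ ({b} : Finset (Fin n))) ∪
        ((Da G).filter fun q => q.1 ∈ nb G b ∧ q.2 ∈ Wp G b σ)))
    have u2 := card_union_le ((Da G).filter fun q => q.1 ∈ nb G b ∧ q.2 ∈ nb G b)
        (((Da G).filter fun q => q.1 ∈ nb G b ∧ q.2 ∈ ({b} : Finset (Fin n))) ∪
        ((Da G).filter fun q => q.1 ∈ nb G b ∧ q.2 ∈ Wp G b σ))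
    have u3 := card_union_le ((Da G).filter fun q => q.1 ∈ nb G b ∧ q.2 ∈ ({b} : Finset (Fin n)))
        ((Da G).filter fun q => q.1 ∈ nb G b ∧ q.2 ∈ Wp G b σ)
    rw [one_mul] at c2
    omega
  · intro q hq
    have v1 := card_sdiff_add_card_inter (Wp G b τ) (nb G q.1)
    have v2 := card_le_card (inter_subset_right : Wp G b τ ∩ nb G q.1 ⊆ nb G q.1)
    rw [nb_card hG] at v2
    omega
  · intro q hq w hw
    simp only [mem_filter, mem_Da, mem_nb, mem_Wp] at hq
    rw [mem_sdiff, mem_Wp, mem_nb] at hw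
    obtain ⟨⟨w1, w2, w3⟩, w4⟩ := hw
    have hzw : w ≠ q.2 := by rintro rfl; exact w4 hq.1
    have v1 := card_sdiff_add_card_inter (nb G w) (nb G q.2 ∪ (nb G b ∪ {q.2}))
    rw [nb_card hG, inter_union_distrib_left, inter_union_distrib_left] at v1
    have v2 := card_union_le (nb G w ∩ nb G q.2) (nb G w ∩ nb G b ∪ nb G w ∩ {q.2})
    have v3 := card_union_le (nb G w ∩ nb G b) (nb G w ∩ {q.2})
    have v4 := codeg_le hB hzw
    have v5 := codeg_le hB w1
    have v6 : (nb G w ∩ {q.2}).card ≤ 1 := by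
      refine (card_le_card inter_subset_right).trans (by simp)
    omega
  · intro q hq w hw u hu
    simp only [mem_filter, mem_Da, mem_nb] at hq
    rw [mem_sdiff, mem_nb] at hw
    simp only [mem_sdiff, mem_union, mem_nb, mem_singleton, not_or] at hu
    unfold F1
    simp only [mem_filter, mem_univ, true_and]
    exact ⟨hq.2.1, hq.1, hq.2.2, hw.1, hu.1, hw.2, hu.2.1, fun h => hu.2.2.2 h.symm, hu.2.2.1⟩
  · intro x y z x' y' z' h
    simp only [Prod.mk.injEq] at h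
    exact ⟨Prod.ext h.1 h.2.1, h.2.2.1, h.2.2.2⟩

lemma B1_card (b : Fin n) {σ K m : ℕ} {G : SimpleGraph (Fin n)} (hG : G ∈ reg n d)
    (hX : (Wp G b σ).card = m + 2) :
    (B1 b σ K G).card ≤ (K + 1) * d * ((m + 2) * (m + 2)) := by
  classical
  have hX' : (Wp G b σ).card = m + 2 := hX
  set Bs := B1 b σ K G with hBs
  unfold B1 at hBs
  have h1 := card_le_mul_card_image (f := fun t : Tup n => (t.2.1, t.2.2.1)) Bs ((K + 1) * d) ?_
  · refine h1.trans ?_
    refine Nat.mul_le_mul_left _ ?_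
    rw [← hX', ← card_product]
    refine card_le_card ?_
    intro p hp
    obtain ⟨t, ht, rfl⟩ := mem_image.1 hp
    rw [hBs, mem_filter] at ht
    exact mem_product.2 ⟨ht.2.2.2.1, ht.2.2.2.2.1⟩
  · intro p hp
    obtain ⟨t0, ht0, rfl⟩ := mem_image.1 hp
    rw [hBs, mem_filter] at ht0
    obtain ⟨-, -, -, q3, q4, -, q6⟩ := ht0
    have hbound : (nb G t0.2.2.1 ∩ nb G b).card * (nb G t0.2.1).card ≤ (K + 1) * d := by
      rw [nb_card hG]
      exact Nat.mul_le_mul_right _ q6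
    refine le_trans ?_ hbound
    rw [← card_product]
    refine card_le_card_of_injOn (fun t => (t.1, t.2.2.2)) ?_ ?_
    · intro t ht
      rw [mem_coe, mem_filter, hBs, mem_filter] at ht
      obtain ⟨⟨-, r1, r2, r3, r4, r5, r6⟩, r7⟩ := ht
      obtain ⟨r8, r9⟩ := Prod.ext_iff.1 r7
      simp only at r8 r9
      rw [mem_coe, mem_product, mem_inter, mem_nb, mem_nb, mem_nb, ← r8, ← r9]
      exact ⟨⟨r2.symm, r1⟩, r5⟩
    · intro t ht t' ht' hh
      rw [mem_coe, mem_filter] at ht ht'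
      obtain ⟨r8, r9⟩ := Prod.ext_iff.1 (ht.2.trans ht'.2.symm)
      obtain ⟨r1, r2⟩ := Prod.ext_iff.1 hh
      simp only at r8 r9 r1 r2
      obtain ⟨a, b', c, e⟩ := t
      obtain ⟨a', b'', c', e'⟩ := t'
      simp only at r8 r9 r1 r2
      rw [r1, r2, r8, r9]

theorem wp_low (b : Fin n) {σ K s : ℕ} (hσ : σ < 2) (hd : 32 * d ≤ n) (hK : 8 * (K + 1) ≤ d)
    (h1 : 8 * s * K ≤ d * d) (h2 : 16 * s ≤ n) (h3 : 144 * s ^ 2 * (K + 1) ≤ d ^ 2 * n) (hs : 1 ≤ s) :
    (cnt n d (fun G => (Wp G b σ).card < s) : ℝ) ≤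
      s * ((1 / 2) ^ (s / 2) * (reg n d).card + 2 * cnt n d (Bc K)) := by
  classical
  have main := low_chain (n := n) (d := d) (fun _ => True) (Bc K) (fun G => (Wp G b σ).card) 2 s
    (by norm_num) ?_
  · refine le_trans (Nat.cast_le.2 (cnt_mono fun G _ h => ⟨trivial, h⟩)) main
  intro m hm
  set f : ℕ := (d * d - d * K - d - m * K) * (n - 1 - 2 * d - m) * (d - 2 * K - 1) with hf
  set g : ℕ := (K + 1) * d * ((m + 2) * (m + 2)) with hg
  refine step_dc _ _ (F1 b (1 - σ)) (B1 b σ K) f g ?_ ?_ ?_ ?_ ?_ ?_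
  · intro G hG hP t z w u ht
    unfold F1 at ht
    rw [mem_filter] at ht
    obtain ⟨-, t1, t2, t3, t4, t5, t6, t7, t8, t9⟩ := ht
    rw [mem_Wp] at t4
    exact ⟨t2, t5, t6, fun h => t4.2.1 (h ▸ t1), t7, t8⟩
  · intro G hG hP t z w u ht G' hG' hS
    unfold F1 at ht
    rw [mem_filter] at ht
    obtain ⟨-, t1, t2, t3, t4, t5, t6, t7, t8, t9⟩ := ht
    rw [mem_Wp] at t3 t4
    obtain ⟨q1, q2, q3, q4, q5⟩ := wp_switch hσ hS t1 t3.1 t3.2.1 t3.2.2 t4.1 t4.2.1 t4.2.2 t9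
      hP.2.1 hP.2.2
    refine ⟨⟨trivial, q1⟩, ?_⟩
    unfold B1
    rw [mem_filter]
    exact ⟨mem_univ _, q2, hS.ac', q3, q4, hS.be', q5⟩
  · intro G hG hP
    exact F1_card b hσ hG hP.2.1 hP.2.2
  · intro G hG hP
    exact B1_card b hG hP.2
  · -- numbers
    have hm2 : m + 2 ≤ 3 * s := by omega
    have e1 : (m + 2) * (m + 2) ≤ 9 * s ^ 2 := by
      calc (m + 2) * (m + 2) ≤ (3 * s) * (3 * s) := Nat.mul_le_mul hm2 hm2
        _ = 9 * s ^ 2 := by ring
    have e2 : 16 * ((K + 1) * ((m + 2) * (m + 2))) ≤ d ^ 2 * n := by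
      calc 16 * ((K + 1) * ((m + 2) * (m + 2))) ≤ 16 * ((K + 1) * (9 * s ^ 2)) := by gcongr
        _ = 144 * s ^ 2 * (K + 1) := by ring
        _ ≤ _ := h3
    have f1 : d * d ≤ 2 * (d * d - d * K - d - m * K) := by
      have a1 : d * K + d = d * (K + 1) := by ring
      have a2 : 8 * (d * (K + 1)) ≤ d * d := by
        calc 8 * (d * (K + 1)) = d * (8 * (K + 1)) := by ring
          _ ≤ d * d := Nat.mul_le_mul_left _ hK
      have a3 : m * K ≤ 2 * s * K := Nat.mul_le_mul_right _ hm.le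
      have a4 : 2 * s * K * 4 = 8 * s * K := by ring
      omega
    have f2 : n ≤ 2 * (n - 1 - 2 * d - m) := by omega
    have f3 : d ≤ 2 * (d - 2 * K - 1) := by omega
    have e3 : (d * d) * n * d ≤ 8 * f := by
      calc (d * d) * n * d ≤ (2 * (d * d - d * K - d - m * K)) * (2 * (n - 1 - 2 * d - m)) *
            (2 * (d - 2 * K - 1)) := Nat.mul_le_mul (Nat.mul_le_mul f1 f2) f3
        _ = 8 * f := by rw [hf]; ring
    have e4 : 16 * g ≤ (d * d) * n * d := by
      calc 16 * g = 16 * ((K + 1) * ((m + 2) * (m + 2))) * d := by rw [hg]; ring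
        _ ≤ (d ^ 2 * n) * d := Nat.mul_le_mul_right _ e2
        _ = (d * d) * n * d := by ring
    omega
  · -- positivity
    have f1 : 0 < d * d - d * K - d - m * K := by
      have a1 : d * K + d = d * (K + 1) := by ring
      have a2 : 8 * (d * (K + 1)) ≤ d * d := by
        calc 8 * (d * (K + 1)) = d * (8 * (K + 1)) := by ring
          _ ≤ d * d := Nat.mul_le_mul_left _ hK
      have a3 : m * K ≤ 2 * s * K := Nat.mul_le_mul_right _ hm.le
      have a4 : 2 * s * K * 4 = 8 * s * K := by ring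
      have a5 : 0 < d := by omega
      have a6 : 0 < d * d := Nat.mul_pos a5 a5
      omega
    have f2 : 0 < n - 1 - 2 * d - m := by omega
    have f3 : 0 < d - 2 * K - 1 := by omega
    exact Nat.mul_pos (Nat.mul_pos f1 f2) f3

end Pool.Agent.U140.RG
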