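import Pool.Agent.U140.RG.Rs

/-! Many neighbours of `a` have many neighbours in both parity classes. -/

set_option linter.unusedSectionVars false
set_option linter.unusedVariables false

namespace Pool.Agent.U140.RG

open Finset Pool.Agent.K1H35.SH

variable {n d : ℕ} {A0 : Finset (Fin n)} {a b a' b' : Fin n}

/-- the smaller one of the two numbers of private neighbours in the parity classes is `≥ i` -/
def Lv (R : RD n) (b : Fin n) (i : ℕ) (G : SimpleGraph (Fin n)) (x : Fin n) : Prop :=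
  i ≤ (R.P G x ∩ Od G b).card ∧ i ≤ (R.P G x \ Od G b).card

open Classical in
noncomputable def Xl (A0 : Finset (Fin n)) (a b a' b' : Fin n) (i : ℕ) (G : SimpleGraph (Fin n)) :
    Finset (Fin n) :=
  (rd A0 a b a' b' G).X.filter fun x => Lv (rd A0 a b a' b' G) b i G x

noncomputable def Nn (A0 : Finset (Fin n)) (a b a' b' : Fin n) (i : ℕ) (G : SimpleGraph (Fin n)) : ℕ :=
  (Xl A0 a b a' b' i G).card

/-- the bad event -/
def Bd (A0 : Finset (Fin n)) (K s₁ : ℕ) (G : SimpleGraph (Fin n)) : Prop :=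
  Bc K G ∨ (∃ u, K < (nb G u ∩ A0).card) ∨ ∃ b : Fin n, ∃ σ < 2, (Wp G b σ).card < s₁

open Classical in
/-- the class in which `x` has few private neighbours -/
noncomputable def Cl (R : RD n) (b : Fin n) (i : ℕ) (G : SimpleGraph (Fin n)) (x : Fin n) :
    Finset (Fin n) :=
  if (R.P G x ∩ Od G b).card = i then Od G b else univ \ Od G b

lemma Cl_card {R : RD n} {i : ℕ} {G : SimpleGraph (Fin n)} {x : Fin n}
    (h : Lv R b i G x) (h' : ¬ Lv R b (i + 1) G x) :
    (R.P G x ∩ Cl R b i G x).card = i := by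
  classical
  unfold Cl
  split_ifs with hc
  · exact hc
  · unfold Lv at h h'
    have e : R.P G x ∩ (univ \ Od G b) = R.P G x \ Od G b := by
      ext y; simp
    rw [e]
    omega

lemma P_card {R : RD n} {K s₁ : ℕ} {G : SimpleGraph (Fin n)} (hG : G ∈ reg n d)
    (f : RF A0 a b a' b' G R) (hB : ¬ Bd A0 K s₁ G) {x : Fin n} (hx : x ∈ R.X) :
    d ≤ (R.P G x).card + (6 * K + 4) := by
  classical
  unfold Bd at hB
  push Not at hB
  obtain ⟨h1, h2, -⟩ := hB
  have hxy : x ≠ R.y x := fun h => f.ok.XY x hx x hx h.symm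
  obtain ⟨r1, r2, r3, r4⟩ := f.xr x hx
  have c0 := codeg_le h1 hxy
  have c1 := codeg_le h1 r1
  have c2 := codeg_le h1 r2
  have c3 := codeg_le h1 r3
  have c4 := codeg_le h1 r4
  have c5 := h2 x
  have c6 : (nb G x ∩ {a, b, a', b'}).card ≤ 4 := (card_le_card inter_subset_right).trans card_le_four
  have hsub : nb G x ⊆ R.P G x ∪ ((nb G x ∩ nb G (R.y x)) ∪ ((nb G x ∩ nb G a) ∪
      ((nb G x ∩ nb G b) ∪ ((nb G x ∩ nb G a') ∪ ((nb G x ∩ nb G b') ∪
      ((nb G x ∩ {a, b, a', b'}) ∪ (nb G x ∩ A0))))))) := by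
    intro w hw
    by_cases g1 : w ∈ nb G (R.y x)
    · simp only [mem_union, mem_inter, hw, g1, true_and]; tauto
    by_cases g2 : w ∈ R.E
    · have := f.Esub g2
      simp only [mem_union, mem_inter, hw, true_and] at this ⊢
      tauto
    · refine mem_union_left _ ?_
      unfold RD.P
      exact mem_sdiff.2 ⟨mem_sdiff.2 ⟨hw, g1⟩, g2⟩
  have u0 := card_le_card hsub
  rw [nb_card hG] at u0
  have u1 := card_union_le (R.P G x) ((nb G x ∩ nb G (R.y x)) ∪ ((nb G x ∩ nb G a) ∪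
      ((nb G x ∩ nb G b) ∪ ((nb G x ∩ nb G a') ∪ ((nb G x ∩ nb G b') ∪
      ((nb G x ∩ {a, b, a', b'}) ∪ (nb G x ∩ A0)))))))
  have u2 := card_union_le (nb G x ∩ nb G (R.y x)) ((nb G x ∩ nb G a) ∪
      ((nb G x ∩ nb G b) ∪ ((nb G x ∩ nb G a') ∪ ((nb G x ∩ nb G b') ∪
      ((nb G x ∩ {a, b, a', b'}) ∪ (nb G x ∩ A0))))))
  have u3 := card_union_le (nb G x ∩ nb G a)
      ((nb G x ∩ nb G b) ∪ ((nb G x ∩ nb G a') ∪ ((nb G x ∩ nb G b') ∪
      ((nb G x ∩ {a, b, a', b'}) ∪ (nb G x ∩ A0)))))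
  have u4 := card_union_le (nb G x ∩ nb G b) ((nb G x ∩ nb G a') ∪ ((nb G x ∩ nb G b') ∪
      ((nb G x ∩ {a, b, a', b'}) ∪ (nb G x ∩ A0))))
  have u5 := card_union_le (nb G x ∩ nb G a') ((nb G x ∩ nb G b') ∪
      ((nb G x ∩ {a, b, a', b'}) ∪ (nb G x ∩ A0)))
  have u6 := card_union_le (nb G x ∩ nb G b') ((nb G x ∩ {a, b, a', b'}) ∪ (nb G x ∩ A0))
  have u7 := card_union_le (nb G x ∩ {a, b, a', b'}) (nb G x ∩ A0)
  omega

/-- a vertex outside `E` has few neighbours in `E` -/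
lemma out_card {R : RD n} {K s₁ : ℕ} {G : SimpleGraph (Fin n)} (hG : G ∈ reg n d)
    (f : RF A0 a b a' b' G R) (hB : ¬ Bd A0 K s₁ G) {v z : Fin n} (hv : v ∉ R.E) (hvz : v ≠ z) :
    d ≤ (nb G v \ (R.E ∪ (nb G z ∪ {z}))).card + (6 * K + 5) := by
  classical
  unfold Bd at hB
  push Not at hB
  obtain ⟨h1, h2, -⟩ := hB
  obtain ⟨q1, q2, q3, q4⟩ := f.Er
  have r1 : v ≠ a := fun h => hv (h ▸ q1)
  have r2 : v ≠ b := fun h => hv (h ▸ q2)
  have r3 : v ≠ a' := fun h => hv (h ▸ q3)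
  have r4 : v ≠ b' := fun h => hv (h ▸ q4)
  have c0 := codeg_le h1 hvz
  have c1 := codeg_le h1 r1
  have c2 := codeg_le h1 r2
  have c3 := codeg_le h1 r3
  have c4 := codeg_le h1 r4
  have c5 := h2 v
  have c6 : (nb G v ∩ {a, b, a', b'}).card ≤ 4 := (card_le_card inter_subset_right).trans card_le_four
  have c7 : (nb G v ∩ {z}).card ≤ 1 := (card_le_card inter_subset_right).trans (by simp)
  have hsub : nb G v ⊆ (nb G v \ (R.E ∪ (nb G z ∪ {z}))) ∪ ((nb G v ∩ nb G z) ∪ ((nb G v ∩ nb G a) ∪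
      ((nb G v ∩ nb G b) ∪ ((nb G v ∩ nb G a') ∪ ((nb G v ∩ nb G b') ∪
      ((nb G v ∩ {a, b, a', b'}) ∪ ((nb G v ∩ A0) ∪ (nb G v ∩ {z})))))))) := by
    intro w hw
    by_cases g1 : w ∈ nb G z
    · simp only [mem_union, mem_inter, hw, g1, true_and]; tauto
    by_cases g3 : w = z
    · refine mem_union_right _ ?_
      simp only [mem_union, mem_inter, g3, mem_singleton, and_true]
      rw [← g3]; tauto
    by_cases g2 : w ∈ R.E
    · have := f.Esub g2
      simp only [mem_union, mem_inter, hw, true_and] at this ⊢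
      tauto
    · refine mem_union_left _ ?_
      rw [mem_sdiff, mem_union, mem_union, mem_singleton]
      tauto
  have u0 := card_le_card hsub
  rw [nb_card hG] at u0
  have u1 := card_union_le (nb G v \ (R.E ∪ (nb G z ∪ {z}))) ((nb G v ∩ nb G z) ∪ ((nb G v ∩ nb G a) ∪
      ((nb G v ∩ nb G b) ∪ ((nb G v ∩ nb G a') ∪ ((nb G v ∩ nb G b') ∪
      ((nb G v ∩ {a, b, a', b'}) ∪ ((nb G v ∩ A0) ∪ (nb G v ∩ {z}))))))))
  have u2 := card_union_le (nb G v ∩ nb G z) ((nb G v ∩ nb G a) ∪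
      ((nb G v ∩ nb G b) ∪ ((nb G v ∩ nb G a') ∪ ((nb G v ∩ nb G b') ∪
      ((nb G v ∩ {a, b, a', b'}) ∪ ((nb G v ∩ A0) ∪ (nb G v ∩ {z})))))))
  have u3 := card_union_le (nb G v ∩ nb G a)
      ((nb G v ∩ nb G b) ∪ ((nb G v ∩ nb G a') ∪ ((nb G v ∩ nb G b') ∪
      ((nb G v ∩ {a, b, a', b'}) ∪ ((nb G v ∩ A0) ∪ (nb G v ∩ {z}))))))
  have u4 := card_union_le (nb G v ∩ nb G b) ((nb G v ∩ nb G a') ∪ ((nb G v ∩ nb G b') ∪
      ((nb G v ∩ {a, b, a', b'}) ∪ ((nb G v ∩ A0) ∪ (nb G v ∩ {z})))))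
  have u5 := card_union_le (nb G v ∩ nb G a') ((nb G v ∩ nb G b') ∪
      ((nb G v ∩ {a, b, a', b'}) ∪ ((nb G v ∩ A0) ∪ (nb G v ∩ {z}))))
  have u6 := card_union_le (nb G v ∩ nb G b') ((nb G v ∩ {a, b, a', b'}) ∪ ((nb G v ∩ A0) ∪ (nb G v ∩ {z})))
  have u7 := card_union_le (nb G v ∩ {a, b, a', b'}) ((nb G v ∩ A0) ∪ (nb G v ∩ {z}))
  have u8 := card_union_le (nb G v ∩ A0) (nb G v ∩ {z})
  omega

open Classical in
/-- forward tuples -/
noncomputable def F2 (A0 : Finset (Fin n)) (a b a' b' : Fin n) (i : ℕ) (G : SimpleGraph (Fin n)) :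
    Finset (Tup n) :=
  univ.filter fun t => t.1 ∈ Xl A0 a b a' b' i G ∧ t.1 ∉ Xl A0 a b a' b' (i + 1) G ∧
    t.2.1 ∈ (rd A0 a b a' b' G).P G t.1 \ Cl (rd A0 a b a' b' G) b i G t.1 ∧
    t.2.2.1 ∈ Cl (rd A0 a b a' b' G) b i G t.1 \ ((rd A0 a b a' b' G).E ∪
      (nb G ((rd A0 a b a' b' G).y t.1) ∪ nb G t.1)) ∧
    t.2.2.2 ∈ nb G t.2.2.1 \ ((rd A0 a b a' b' G).E ∪ (nb G t.2.1 ∪ {t.2.1}))

open Classical in
/-- backward tuples -/
noncomputable def B2 (A0 : Finset (Fin n)) (a b a' b' : Fin n) (i : ℕ) (G : SimpleGraph (Fin n)) :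
    Finset (Tup n) :=
  univ.filter fun t => t.1 ∈ Xl A0 a b a' b' (i + 1) G ∧
    ((t.2.2.1 ∈ (rd A0 a b a' b' G).P G t.1 ∩ Od G b ∧
        ((rd A0 a b a' b' G).P G t.1 ∩ Od G b).card = i + 1) ∨
     (t.2.2.1 ∈ (rd A0 a b a' b' G).P G t.1 \ Od G b ∧
        ((rd A0 a b a' b' G).P G t.1 \ Od G b).card = i + 1)) ∧ G.Adj t.2.1 t.2.2.2

lemma mem_Xl {i : ℕ} {G : SimpleGraph (Fin n)} {x : Fin n} : x ∈ Xl A0 a b a' b' i G ↔
    x ∈ (rd A0 a b a' b' G).X ∧ Lv (rd A0 a b a' b' G) b i G x := by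
  classical
  simp [Xl]

lemma Xl_anti {i : ℕ} {G : SimpleGraph (Fin n)} :
    Xl A0 a b a' b' (i + 1) G ⊆ Xl A0 a b a' b' i G := by
  intro x hx
  rw [mem_Xl] at hx ⊢
  unfold Lv at *
  refine ⟨hx.1, ?_, ?_⟩ <;> omega

/-- effect of the switch -/
lemma c2_switch {i K s₁ : ℕ} {G G' : SimpleGraph (Fin n)} (hG : G ∈ reg n d) (hG' : G' ∈ reg n d)
    (hA : 5 * d + 4 ≤ A0.card) (hB : ¬ Bd A0 K s₁ G) (hd : 6 * K + 4 + (2 * i + 2) ≤ d)
    {x z v w : Fin n} (h : SwF G G' x z v w) (ht : (x, z, v, w) ∈ F2 A0 a b a' b' i G) :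
    Nn A0 a b a' b' i G' = Nn A0 a b a' b' i G ∧
    Nn A0 a b a' b' (i + 1) G' = Nn A0 a b a' b' (i + 1) G + 1 ∧
    (x, z, v, w) ∈ B2 A0 a b a' b' i G' := by
  classical
  set R := rd A0 a b a' b' G with hR
  have f : RF A0 a b a' b' G R := rf hG hA
  unfold F2 at ht
  rw [mem_filter, mem_Xl, mem_Xl] at ht
  simp only [← hR] at ht
  obtain ⟨-, ⟨hx, hl⟩, hl', hz, hv, hw⟩ := ht
  have hl'' : ¬ Lv R b (i + 1) G x := fun hh => hl' ⟨hx, hh⟩
  rw [mem_sdiff] at hz hv hw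
  obtain ⟨hzP, hzC⟩ := hz
  obtain ⟨hvC, hvE⟩ := hv
  obtain ⟨hvw, hwE⟩ := hw
  rw [mem_union, mem_union, not_or, not_or] at hvE
  rw [mem_union, mem_union, not_or, not_or] at hwE
  have hzE : z ∉ R.E := (mem_sdiff.1 hzP).2
  obtain ⟨k1, k2, k3, k4, k5⟩ := rd_switch hR f h hx hzE hvE.1 hwE.1
  have hvP : v ∉ R.P G x := fun hh => hvE.2.2 (mem_sdiff.1 (mem_sdiff.1 hh).1).1
  have hPx : R.P G' x = insert v ((R.P G x).erase z) := by
    unfold RD.P
    rw [k3, k4]
    ext y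
    simp only [mem_sdiff, mem_insert, mem_erase]
    constructor
    · rintro ⟨⟨h1 | h1, h2⟩, h3⟩
      · exact Or.inl h1
      · exact Or.inr ⟨h1.1, ⟨h1.2, h2⟩, h3⟩
    · rintro (h1 | ⟨h1, ⟨h2, h3⟩, h4⟩)
      · rw [h1]; exact ⟨⟨Or.inl rfl, hvE.2.1⟩, hvE.1⟩
      · exact ⟨⟨Or.inr ⟨h1, h2⟩, h3⟩, h4⟩
  have hPo : ∀ x' ∈ R.X, x' ≠ x → R.P G' x' = R.P G x' := by
    intro x' hx' hne
    obtain ⟨h1, h2⟩ := k5 x' hx' hne
    unfold RD.P
    rw [h1, h2]
  have hLo : ∀ j, ∀ x' ∈ R.X, x' ≠ x → (Lv R b j G' x' ↔ Lv R b j G x') := by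
    intro j x' hx' hne
    unfold Lv
    rw [hPo x' hx' hne, k2]
  have hPc := P_card hG f hB hx
  have hCc := Cl_card hl hl''
  -- the new numbers at `x`
  have hsum : (R.P G x ∩ Od G b).card + (R.P G x \ Od G b).card = (R.P G x).card := by
    rw [add_comm]; exact card_sdiff_add_card_inter _ _
  have hnew : Lv R b (i + 1) G' x ∧ ((v ∈ R.P G' x ∩ Od G' b ∧ (R.P G' x ∩ Od G' b).card = i + 1) ∨
      (v ∈ R.P G' x \ Od G' b ∧ (R.P G' x \ Od G' b).card = i + 1)) := by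
    unfold Lv
    rw [hPx, k2]
    by_cases hc : (R.P G x ∩ Od G b).card = i
    · have hCl : Cl R b i G x = Od G b := by unfold Cl; rw [if_pos hc]
      rw [hCl] at hvC hzC
      have e1 : insert v ((R.P G x).erase z) ∩ Od G b = insert v (R.P G x ∩ Od G b) := by
        ext y
        simp only [mem_inter, mem_insert, mem_erase]
        constructor
        · rintro ⟨h1 | h1, h2⟩
          · exact Or.inl h1
          · exact Or.inr ⟨h1.2, h2⟩
        · rintro (h1 | ⟨h1, h2⟩)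
          · rw [h1]; exact ⟨Or.inl rfl, hvC⟩
          · exact ⟨Or.inr ⟨fun h => hzC (h ▸ h2), h1⟩, h2⟩
      have e2 : insert v ((R.P G x).erase z) \ Od G b = (R.P G x \ Od G b).erase z := by
        ext y
        simp only [mem_sdiff, mem_insert, mem_erase]
        constructor
        · rintro ⟨h1 | h1, h2⟩
          · rw [h1] at h2; exact absurd hvC h2
          · exact ⟨h1.1, h1.2, h2⟩
        · rintro ⟨h1, h2, h3⟩; exact ⟨Or.inr ⟨h1, h2⟩, h3⟩
      have e3 : (insert v (R.P G x ∩ Od G b)).card = i + 1 := by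
        rw [card_insert_of_notMem (fun hh => hvP (mem_inter.1 hh).1), hc]
      have e4 : ((R.P G x \ Od G b).erase z).card + 1 = (R.P G x \ Od G b).card :=
        card_erase_add_one (mem_sdiff.2 ⟨hzP, hzC⟩)
      rw [e1, e2, e3]
      refine ⟨⟨le_rfl, by omega⟩, Or.inl ⟨mem_insert_self _ _, rfl⟩⟩
    · have hCl : Cl R b i G x = univ \ Od G b := by unfold Cl; rw [if_neg hc]
      rw [hCl] at hvC hzC
      have hvC' : v ∉ Od G b := (mem_sdiff.1 hvC).2
      have hzC' : z ∈ Od G b := by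
        by_contra hh; exact hzC (mem_sdiff.2 ⟨mem_univ _, hh⟩)
      have hc2 : (R.P G x \ Od G b).card = i := by
        unfold Lv at hl hl''
        omega
      have e1 : insert v ((R.P G x).erase z) \ Od G b = insert v (R.P G x \ Od G b) := by
        ext y
        simp only [mem_sdiff, mem_insert, mem_erase]
        constructor
        · rintro ⟨h1 | h1, h2⟩
          · exact Or.inl h1
          · exact Or.inr ⟨h1.2, h2⟩
        · rintro (h1 | ⟨h1, h2⟩)
          · rw [h1]; exact ⟨Or.inl rfl, hvC'⟩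
          · exact ⟨Or.inr ⟨fun h => h2 (h ▸ hzC'), h1⟩, h2⟩
      have e2 : insert v ((R.P G x).erase z) ∩ Od G b = (R.P G x ∩ Od G b).erase z := by
        ext y
        simp only [mem_inter, mem_insert, mem_erase]
        constructor
        · rintro ⟨h1 | h1, h2⟩
          · rw [h1] at h2; exact absurd h2 hvC'
          · exact ⟨h1.1, h1.2, h2⟩
        · rintro ⟨h1, h2, h3⟩; exact ⟨Or.inr ⟨h1, h2⟩, h3⟩
      have e3 : (insert v (R.P G x \ Od G b)).card = i + 1 := by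
        rw [card_insert_of_notMem (fun hh => hvP (mem_sdiff.1 hh).1), hc2]
      have e4 : ((R.P G x ∩ Od G b).erase z).card + 1 = (R.P G x ∩ Od G b).card :=
        card_erase_add_one (mem_inter.2 ⟨hzP, hzC'⟩)
      rw [e1, e2, e3]
      refine ⟨⟨by omega, le_rfl⟩, Or.inr ⟨mem_insert_self _ _, rfl⟩⟩
  have hXl : ∀ j, Xl A0 a b a' b' j G' = R.X.filter fun x => Lv R b j G' x := by
    intro j; unfold Xl; rw [k1]
  have hXl0 : ∀ j, Xl A0 a b a' b' j G = R.X.filter fun x => Lv R b j G x := by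
    intro j; unfold Xl; rw [← hR]
  refine ⟨?_, ?_, ?_⟩
  · unfold Nn
    rw [hXl, hXl0]
    congr 1
    refine filter_congr fun x' hx' => ?_
    by_cases hne : x' = x
    · subst hne
      refine iff_of_true ?_ hl
      have := hnew.1
      unfold Lv at this ⊢
      omega
    · exact hLo i x' hx' hne
  · unfold Nn
    rw [hXl, hXl0]
    have e : (R.X.filter fun x => Lv R b (i + 1) G' x) =
        insert x (R.X.filter fun x => Lv R b (i + 1) G x) := by
      ext x'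
      rw [mem_insert, mem_filter, mem_filter]
      by_cases hne : x' = x
      · subst hne
        simp only [true_or, iff_true]
        exact ⟨hx, hnew.1⟩
      · constructor
        · rintro ⟨h1, h2⟩; exact Or.inr ⟨h1, (hLo _ x' h1 hne).1 h2⟩
        · rintro (h1 | ⟨h1, h2⟩)
          · exact absurd h1 hne
          · exact ⟨h1, (hLo _ x' h1 hne).2 h2⟩
    rw [e, card_insert_of_notMem]
    rw [mem_filter]; tauto
  · unfold B2
    rw [mem_filter, mem_Xl, k1]
    exact ⟨mem_univ _, ⟨hx, hnew.1⟩, hnew.2, h.be'⟩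

lemma F2_card {i K s₁ m s : ℕ} {G : SimpleGraph (Fin n)} (hG : G ∈ reg n d)
    (hA : 5 * d + 4 ≤ A0.card) (hB : ¬ Bd A0 K s₁ G)
    (hs : s ≤ Nn A0 a b a' b' i G) (hm : Nn A0 a b a' b' (i + 1) G = m) :
    (s - m) * ((d - (6 * K + 4) - i) * (s₁ - (9 * d + 4))) * (d - (6 * K + 5)) ≤
      (F2 A0 a b a' b' i G).card := by
  classical
  set R := rd A0 a b a' b' G with hR
  have f : RF A0 a b a' b' G R := rf hG hA
  refine card_ge3 (Xl A0 a b a' b' i G \ Xl A0 a b a' b' (i + 1) G)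
    (fun x => (R.P G x \ Cl R b i G x) ×ˢ (Cl R b i G x \ (R.E ∪ (nb G (R.y x) ∪ nb G x))))
    (fun x p => nb G p.2 \ (R.E ∪ (nb G p.1 ∪ {p.1}))) _ (fun x p w => (x, p.1, p.2, w))
    ?_ ?_ ?_ ?_ ?_
  · rw [card_sdiff_of_subset Xl_anti]
    unfold Nn at hs hm
    omega
  · intro x hx
    rw [mem_sdiff, mem_Xl, mem_Xl, ← hR] at hx
    obtain ⟨⟨hx, hl⟩, hl'⟩ := hx
    have hl'' : ¬ Lv R b (i + 1) G x := fun hh => hl' ⟨hx, hh⟩
    rw [card_product]
    have hPc := P_card hG f hB hx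
    have hCc := Cl_card hl hl''
    have h1 := card_sdiff_add_card_inter (R.P G x) (Cl R b i G x)
    have h2 : d - (6 * K + 4) - i ≤ (R.P G x \ Cl R b i G x).card := by omega
    refine Nat.mul_le_mul h2 ?_
    have h3 : s₁ ≤ (Cl R b i G x).card := by
      unfold Bd at hB
      push Not at hB
      obtain ⟨-, -, hW⟩ := hB
      unfold Cl
      split_ifs with hc
      · refine (hW b 1 (by norm_num)).trans (card_le_card fun w hw => ?_)
        rw [mem_Wp] at hw
        rw [mem_Od]; exact hw.2.2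
      · refine (hW b 0 (by norm_num)).trans (card_le_card fun w hw => ?_)
        rw [mem_Wp] at hw
        rw [mem_sdiff, mem_Od]
        exact ⟨mem_univ _, by omega⟩
    have h4 := card_sdiff_add_card_inter (Cl R b i G x) (R.E ∪ (nb G (R.y x) ∪ nb G x))
    have h5 := card_le_card (inter_subset_right :
      Cl R b i G x ∩ (R.E ∪ (nb G (R.y x) ∪ nb G x)) ⊆ (R.E ∪ (nb G (R.y x) ∪ nb G x)))
    have h6 := card_union_le R.E (nb G (R.y x) ∪ nb G x)
    have h7 := card_union_le (nb G (R.y x)) (nb G x)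
    have h8 := f.Ecard
    simp only [nb_card hG] at h7 h8
    omega
  · intro x hx p hp
    rw [mem_product, mem_sdiff, mem_sdiff, mem_union, not_or] at hp
    obtain ⟨⟨hp1, hp2⟩, hp3, hp4, -⟩ := hp
    have hne : p.2 ≠ p.1 := fun h => hp2 (h ▸ hp3)
    have := out_card hG f hB hp4 hne
    omega
  · intro x hx p hp w hw
    rw [mem_sdiff] at hx
    rw [mem_product] at hp
    unfold F2
    rw [mem_filter]
    exact ⟨mem_univ _, hx.1, hx.2, hp.1, hp.2, hw⟩
  · intro x p w x' p' w' h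
    simp only [Prod.mk.injEq] at h
    exact ⟨h.1, Prod.ext h.2.1 h.2.2.1, h.2.2.2⟩

lemma B2_card {i m : ℕ} {G : SimpleGraph (Fin n)} (hG : G ∈ reg n d)
    (hm : Nn A0 a b a' b' (i + 1) G = m) :
    (B2 A0 a b a' b' i G).card ≤ (m * (2 * (i + 1))) * (n * d) := by
  classical
  set R := rd A0 a b a' b' G with hR
  set T : Finset (Fin n × Fin n) := (univ : Finset (Fin n × Fin n)).filter fun q =>
    q.1 ∈ Xl A0 a b a' b' (i + 1) G ∧
      ((q.2 ∈ R.P G q.1 ∩ Od G b ∧ (R.P G q.1 ∩ Od G b).card = i + 1) ∨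
       (q.2 ∈ R.P G q.1 \ Od G b ∧ (R.P G q.1 \ Od G b).card = i + 1)) with hT
  have hTc : T.card ≤ m * (2 * (i + 1)) := by
    have h1 := card_le_mul_card_image (f := Prod.fst) T (2 * (i + 1)) ?_
    · refine h1.trans ?_
      rw [mul_comm]
      refine Nat.mul_le_mul_right _ ?_
      rw [← hm]
      refine card_le_card fun x hx => ?_
      obtain ⟨q, hq, rfl⟩ := mem_image.1 hx
      exact (mem_filter.1 hq).2.1
    · intro x hx
      obtain ⟨q0, hq0, rfl⟩ := mem_image.1 hx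
      have hsub : (T.filter fun q => q.1 = q0.1).image Prod.snd ⊆
          (if (R.P G q0.1 ∩ Od G b).card = i + 1 then R.P G q0.1 ∩ Od G b else ∅) ∪
          (if (R.P G q0.1 \ Od G b).card = i + 1 then R.P G q0.1 \ Od G b else ∅) := by
        intro v hv
        obtain ⟨q, hq, rfl⟩ := mem_image.1 hv
        rw [mem_filter, hT, mem_filter] at hq
        obtain ⟨⟨-, h1, h2⟩, h3⟩ := hq
        rw [h3] at h2
        rw [mem_union]
        rcases h2 with ⟨g1, g2⟩ | ⟨g1, g2⟩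
        · left; rw [if_pos g2]; exact g1
        · right; rw [if_pos g2]; exact g1
      have hc : (T.filter fun q => q.1 = q0.1).card =
          ((T.filter fun q => q.1 = q0.1).image Prod.snd).card := by
        symm
        refine card_image_of_injOn ?_
        intro q hq q' hq' hh
        rw [mem_coe, mem_filter] at hq hq'
        exact Prod.ext (hq.2.trans hq'.2.symm) hh
      rw [hc]
      refine (card_le_card hsub).trans ((card_union_le _ _).trans ?_)
      have e1 : (if (R.P G q0.1 ∩ Od G b).card = i + 1 then R.P G q0.1 ∩ Od G b else ∅).card ≤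
          i + 1 := by
        split_ifs with h
        · exact h.le
        · simp
      have e2 : (if (R.P G q0.1 \ Od G b).card = i + 1 then R.P G q0.1 \ Od G b else ∅).card ≤
          i + 1 := by
        split_ifs with h
        · exact h.le
        · simp
      omega
  have h2 : (B2 A0 a b a' b' i G).card ≤ (T ×ˢ Da G).card := by
    refine card_le_card_of_injOn (fun t => ((t.1, t.2.2.1), (t.2.1, t.2.2.2))) ?_ ?_
    · intro t ht
      rw [mem_coe] at ht
      unfold B2 at ht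
      rw [mem_filter] at ht
      obtain ⟨-, h1, h2, h3⟩ := ht
      rw [mem_coe, mem_product, mem_Da, hT, mem_filter]
      exact ⟨⟨mem_univ _, h1, h2⟩, h3⟩
    · intro t _ t' _ hh
      simp only [Prod.mk.injEq] at hh
      obtain ⟨⟨h1, h2⟩, h3, h4⟩ := hh
      exact Prod.ext h1 (Prod.ext h3 (Prod.ext h2 h4))
  rw [card_product, da_card hG] at h2
  exact h2.trans (Nat.mul_le_mul_right _ hTc)

/-- one level -/
theorem c2_low {i K s₁ si s : ℕ} (hA : 5 * d + 4 ≤ A0.card)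
    (hd : 2 * (6 * K + 5 + i) ≤ d) (hi : 6 * K + 4 + (2 * i + 2) ≤ d) (hs₁ : 2 * (9 * d + 4) ≤ s₁)
    (h1 : 4 * s ≤ si) (h2 : 128 * s * (i + 1) * n ≤ si * s₁ * d) (hs : 1 ≤ s) :
    (cnt n d (fun G => si ≤ Nn A0 a b a' b' i G ∧ Nn A0 a b a' b' (i + 1) G < s) : ℝ) ≤
      s * ((1 / 2) ^ s * (reg n d).card + 2 * cnt n d (Bd A0 K s₁)) := by
  classical
  have main := low_chain (n := n) (d := d) (fun G => si ≤ Nn A0 a b a' b' i G) (Bd A0 K s₁)
    (fun G => Nn A0 a b a' b' (i + 1) G) 1 s le_rfl ?_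
  · rw [Nat.div_one] at main
    exact main
  intro m hm
  have hf0 : 0 < d - (6 * K + 4) - i := by omega
  have hf1 : 0 < s₁ - (9 * d + 4) := by omega
  have hf2 : 0 < d - (6 * K + 5) := by omega
  have hf3 : 0 < si - m := by omega
  refine step_dc _ _ (F2 A0 a b a' b' i) (B2 A0 a b a' b' i)
    ((si - m) * ((d - (6 * K + 4) - i) * (s₁ - (9 * d + 4))) * (d - (6 * K + 5)))
    (((m + 1) * (2 * (i + 1))) * (n * d)) ?_ ?_ ?_ ?_ ?_ ?_
  · intro G hG hP x z v w ht
    unfold F2 at ht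
    rw [mem_filter] at ht
    obtain ⟨-, h3, h4, h5, h6, h7⟩ := ht
    simp only at h3 h4 h5 h6 h7
    rw [mem_sdiff] at h5 h6 h7
    have a1 : G.Adj x z := (mem_nb G x z).1 (mem_sdiff.1 (mem_sdiff.1 h5.1).1).1
    have a2 : G.Adj v w := (mem_nb G v w).1 h7.1
    have b1 := h6.2
    have b2 := h7.2
    simp only [mem_union, mem_nb, mem_singleton, not_or] at b1 b2
    have hxE := (rf hG hA (a := a) (b := b) (a' := a') (b' := b')).ok.XE x (mem_Xl.1 h3).1
    have hxv : x ≠ v := fun h => b1.1 (h ▸ hxE)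
    exact ⟨a1, a2, b1.2.2, hxv, b2.2.1, fun h => b2.2.2 h.symm⟩
  · intro G hG hP x z v w ht G' hG' hS
    obtain ⟨q1, q2, q3⟩ := c2_switch hG hG' hA hP.2.2 hi hS ht
    refine ⟨⟨?_, ?_⟩, q3⟩
    · rw [q1]; exact hP.1
    · rw [q2, hP.2.1]
  · intro G hG hP
    exact F2_card hG hA hP.2.2 hP.1 hP.2.1
  · intro G hG hP
    exact B2_card hG hP.2
  · have g1 : si ≤ 2 * (si - m) := by omega
    have g2 : d ≤ 2 * (d - (6 * K + 4) - i) := by omega
    have g3 : s₁ ≤ 2 * (s₁ - (9 * d + 4)) := by omega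
    have g4 : d ≤ 2 * (d - (6 * K + 5)) := by omega
    have e1 : si * (d * s₁) * d ≤ 16 * ((si - m) * ((d - (6 * K + 4) - i) * (s₁ - (9 * d + 4))) *
        (d - (6 * K + 5))) := by
      calc si * (d * s₁) * d ≤ (2 * (si - m)) * ((2 * (d - (6 * K + 4) - i)) *
            (2 * (s₁ - (9 * d + 4)))) * (2 * (d - (6 * K + 5))) := by gcongr
        _ = _ := by ring
    have e2 : 16 * (2 * (((m + 1) * (2 * (i + 1))) * (n * d))) ≤ si * (d * s₁) * d := by
      calc 16 * (2 * (((m + 1) * (2 * (i + 1))) * (n * d)))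
          = 64 * (m + 1) * (i + 1) * n * d := by ring
        _ ≤ 64 * (2 * s) * (i + 1) * n * d := by gcongr; omega
        _ = (128 * s * (i + 1) * n) * d := by ring
        _ ≤ (si * s₁ * d) * d := Nat.mul_le_mul_right _ h2
        _ = _ := by ring
    omega
  · exact Nat.mul_pos (Nat.mul_pos hf3 (Nat.mul_pos hf0 hf1)) hf2

end Pool.Agent.U140.RG
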