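import Pool.Agent.U140.RG.C1

/-! Resplitting data at four roots. -/

set_option linter.unusedSectionVars false
set_option linter.unusedVariables false

namespace Pool.Agent.U140.RG

open Finset Pool.Agent.K1H35.SH

variable {n d : ℕ}

/-- a function which maps `X` injectively into `T` (if possible) -/
noncomputable def prt (X T : Finset (Fin n)) : Fin n → Fin n := by
  classical
  exact if h : Nonempty ({x // x ∈ X} ↪ {x // x ∈ T}) then
    fun x => if hx : x ∈ X then ((Classical.choice h) ⟨x, hx⟩ : {x // x ∈ T}).1 else x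
  else fun x => x

lemma prt_spec {X T : Finset (Fin n)} (h : X.card ≤ T.card) :
    (∀ x ∈ X, prt X T x ∈ T) ∧ ∀ x ∈ X, ∀ x' ∈ X, prt X T x = prt X T x' → x = x' := by
  classical
  have hne : Nonempty ({x // x ∈ X} ↪ {x // x ∈ T}) :=
    Function.Embedding.nonempty_of_card_le (by simpa using h)
  unfold prt
  rw [dif_pos hne]
  constructor
  · intro x hx
    simp only [dif_pos hx]
    exact (Classical.choice hne ⟨x, hx⟩).2
  · intro x hx x' hx' hh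
    simp only [dif_pos hx, dif_pos hx'] at hh
    have := (Classical.choice hne).injective (Subtype.ext hh)
    exact congrArg Subtype.val this

structure RD (n : ℕ) where
  X : Finset (Fin n)
  y : Fin n → Fin n
  E : Finset (Fin n)

/-- the data at four roots -/
noncomputable def mkRD (A0 : Finset (Fin n)) (a b a' b' : Fin n) (Na Nb Na' Nb' : Finset (Fin n)) :
    RD n where
  X := Na \ (Nb ∪ (Na' ∪ (Nb' ∪ {b, a', b'})))
  y := prt (Na \ (Nb ∪ (Na' ∪ (Nb' ∪ {b, a', b'})))) (A0 \ (Na ∪ (Nb ∪ (Na' ∪ (Nb' ∪ {a, b, a', b'})))))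
  E := (Na ∪ (Nb ∪ (Na' ∪ (Nb' ∪ {a, b, a', b'})))) ∪
    (Na \ (Nb ∪ (Na' ∪ (Nb' ∪ {b, a', b'})))).image
      (prt (Na \ (Nb ∪ (Na' ∪ (Nb' ∪ {b, a', b'}))))
        (A0 \ (Na ∪ (Nb ∪ (Na' ∪ (Nb' ∪ {a, b, a', b'}))))))

noncomputable def rd (A0 : Finset (Fin n)) (a b a' b' : Fin n) (G : SimpleGraph (Fin n)) : RD n :=
  mkRD A0 a b a' b' (nb G a) (nb G b) (nb G a') (nb G b')

namespace RD

/-- private neighbours -/
noncomputable def P (R : RD n) (G : SimpleGraph (Fin n)) (x : Fin n) : Finset (Fin n) :=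
  (nb G x \ nb G (R.y x)) \ R.E

noncomputable def D (R : RD n) (G : SimpleGraph (Fin n)) (x : Fin n) : Finset (Fin n) :=
  ((nb G x \ nb G (R.y x)) ∪ (nb G (R.y x) \ nb G x)) \ R.E

noncomputable def U (R : RD n) (G : SimpleGraph (Fin n)) (x : Fin n) : Finset (Fin n) :=
  (nb G x ∩ nb G (R.y x)) \ R.E

structure Ok (R : RD n) : Prop where
  inj : ∀ x ∈ R.X, ∀ x' ∈ R.X, R.y x = R.y x' → x = x'
  XE : ∀ x ∈ R.X, x ∈ R.E
  YE : ∀ x ∈ R.X, R.y x ∈ R.E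
  XY : ∀ x ∈ R.X, ∀ x' ∈ R.X, R.y x ≠ x'

end RD

/-- facts on the data -/
structure RF (A0 : Finset (Fin n)) (a b a' b' : Fin n) (G : SimpleGraph (Fin n)) (R : RD n) :
    Prop where
  ok : R.Ok
  xa : ∀ x ∈ R.X, G.Adj a x
  xnb : ∀ x ∈ R.X, ¬ G.Adj b x ∧ ¬ G.Adj a' x ∧ ¬ G.Adj b' x
  xr : ∀ x ∈ R.X, x ≠ a ∧ x ≠ b ∧ x ≠ a' ∧ x ≠ b'
  y0 : ∀ x ∈ R.X, R.y x ∈ A0
  ynb : ∀ x ∈ R.X, ¬ G.Adj a (R.y x) ∧ ¬ G.Adj b (R.y x) ∧ ¬ G.Adj a' (R.y x) ∧ ¬ G.Adj b' (R.y x)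
  yr : ∀ x ∈ R.X, R.y x ≠ a ∧ R.y x ≠ b ∧ R.y x ≠ a' ∧ R.y x ≠ b'
  Er : a ∈ R.E ∧ b ∈ R.E ∧ a' ∈ R.E ∧ b' ∈ R.E
  Ea : ∀ w, G.Adj a w → w ∈ R.E
  Eb : ∀ w, G.Adj b w → w ∈ R.E
  Ea' : ∀ w, G.Adj a' w → w ∈ R.E
  Eb' : ∀ w, G.Adj b' w → w ∈ R.E
  Esub : R.E ⊆ (nb G a ∪ (nb G b ∪ (nb G a' ∪ (nb G b' ∪ {a, b, a', b'})))) ∪ A0
  Ecard : R.E.card ≤ 4 * (nb G a).card + (nb G b).card + (nb G a').card + (nb G b').card + 4

lemma rf {A0 : Finset (Fin n)} {a b a' b' : Fin n} {G : SimpleGraph (Fin n)} (hG : G ∈ reg n d)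
    (hA : 5 * d + 4 ≤ A0.card) : RF A0 a b a' b' G (rd A0 a b a' b' G) := by
  classical
  set X := nb G a \ (nb G b ∪ (nb G a' ∪ (nb G b' ∪ {b, a', b'}))) with hX
  set E1 := nb G a ∪ (nb G b ∪ (nb G a' ∪ (nb G b' ∪ {a, b, a', b'}))) with hE1
  set T := A0 \ E1 with hT
  have e1 : (rd A0 a b a' b' G).X = X := rfl
  have e2 : (rd A0 a b a' b' G).y = prt X T := rfl
  have e3 : (rd A0 a b a' b' G).E = E1 ∪ X.image (prt X T) := rfl
  have c1 : E1.card ≤ 4 * d + 4 := by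
    have u1 := card_union_le (nb G a) (nb G b ∪ (nb G a' ∪ (nb G b' ∪ {a, b, a', b'})))
    have u2 := card_union_le (nb G b) (nb G a' ∪ (nb G b' ∪ {a, b, a', b'}))
    have u3 := card_union_le (nb G a') (nb G b' ∪ {a, b, a', b'})
    have u4 := card_union_le (nb G b') ({a, b, a', b'} : Finset (Fin n))
    have u5 : ({a, b, a', b'} : Finset (Fin n)).card ≤ 4 := card_le_four
    simp only [nb_card hG] at u1 u2 u3 u4
    rw [hE1]
    omega
  have c2 : X.card ≤ d := by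
    rw [← nb_card hG a]; exact card_le_card sdiff_subset
  have c3 : X.card ≤ T.card := by
    have := card_sdiff_add_card_inter A0 E1
    have h2 := card_le_card (inter_subset_right : A0 ∩ E1 ⊆ E1)
    rw [hT]
    omega
  obtain ⟨p1, p2⟩ := prt_spec c3
  have hXa : ∀ x ∈ X, G.Adj a x := fun x hx => (mem_nb G a x).1 (mem_sdiff.1 hx).1
  have hXn : ∀ x ∈ X, ¬ G.Adj b x ∧ ¬ G.Adj a' x ∧ ¬ G.Adj b' x ∧ x ≠ b ∧ x ≠ a' ∧ x ≠ b' := by
    intro x hx
    have := (mem_sdiff.1 hx).2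
    simp only [mem_union, mem_nb, mem_insert, mem_singleton, not_or] at this
    tauto
  have hXE : ∀ x ∈ X, x ∈ E1 := fun x hx => mem_union_left _ (mem_sdiff.1 hx).1
  have hYn : ∀ x ∈ X, prt X T x ∉ E1 := fun x hx => (mem_sdiff.1 (p1 x hx)).2
  have hYn' : ∀ x ∈ X, ¬ G.Adj a (prt X T x) ∧ ¬ G.Adj b (prt X T x) ∧ ¬ G.Adj a' (prt X T x) ∧
      ¬ G.Adj b' (prt X T x) ∧ prt X T x ≠ a ∧ prt X T x ≠ b ∧ prt X T x ≠ a' ∧
      prt X T x ≠ b' := by
    intro x hx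
    have := hYn x hx
    simp only [hE1, mem_union, mem_nb, mem_insert, mem_singleton, not_or] at this
    tauto
  refine ⟨⟨?_, ?_, ?_, ?_⟩, ?_, ?_, ?_, ?_, ?_, ?_, ?_, ?_, ?_, ?_, ?_, ?_, ?_⟩
  · rw [e1, e2]; exact p2
  · rw [e1, e3]; exact fun x hx => mem_union_left _ (hXE x hx)
  · rw [e1, e2, e3]; exact fun x hx => mem_union_right _ (mem_image_of_mem _ hx)
  · rw [e1, e2]
    intro x hx x' hx' hh
    exact hYn x hx (hh ▸ hXE x' hx')
  · rw [e1]; exact hXa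
  · rw [e1]; intro x hx; have := hXn x hx; tauto
  · rw [e1]; intro x hx
    have := hXn x hx
    exact ⟨(hXa x hx).ne', this.2.2.2.1, this.2.2.2.2.1, this.2.2.2.2.2⟩
  · rw [e1, e2]; exact fun x hx => (mem_sdiff.1 (p1 x hx)).1
  · rw [e1, e2]; intro x hx; have := hYn' x hx; tauto
  · rw [e1, e2]; intro x hx; have := hYn' x hx; tauto
  · rw [e3]; simp [hE1]
  · rw [e3]; intro w hw; refine mem_union_left _ ?_; simp [hE1, mem_nb, hw]
  · rw [e3]; intro w hw; refine mem_union_left _ ?_; simp [hE1, mem_nb, hw]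
  · rw [e3]; intro w hw; refine mem_union_left _ ?_; simp [hE1, mem_nb, hw]
  · rw [e3]; intro w hw; refine mem_union_left _ ?_; simp [hE1, mem_nb, hw]
  · rw [e3]
    refine union_subset_union Subset.rfl ?_
    intro w hw
    obtain ⟨x, hx, rfl⟩ := mem_image.1 hw
    exact (mem_sdiff.1 (p1 x hx)).1
  · rw [e3]
    have h1 := card_union_le E1 (X.image (prt X T))
    have h2 : (X.image (prt X T)).card ≤ X.card := card_image_le
    simp only [nb_card hG]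
    omega

/-- the odd class -/
noncomputable def Od (G : SimpleGraph (Fin n)) (b : Fin n) : Finset (Fin n) :=
  univ.filter fun w => cn G b w % 2 = 1

lemma mem_Od {G : SimpleGraph (Fin n)} {b w : Fin n} : w ∈ Od G b ↔ cn G b w % 2 = 1 := by
  simp [Od]

lemma inter_insert_erase {A B : Finset (Fin n)} {p q : Fin n} (hp : p ∉ B) (hq : q ∉ B) :
    (insert p (A.erase q)) ∩ B = A ∩ B := by
  ext x
  simp only [mem_inter, mem_insert, mem_erase]
  constructor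
  · rintro ⟨h1 | h1, h2⟩
    · rw [h1] at h2; exact absurd h2 hp
    · exact ⟨h1.2, h2⟩
  · rintro ⟨h1, h2⟩
    exact ⟨Or.inr ⟨fun h => hq (h ▸ h2), h1⟩, h2⟩

/-- effect of a switch `xz, vw → xv, zw` with `x ∈ X` and `z, v, w ∉ E` -/
lemma rd_switch {A0 : Finset (Fin n)} {a b a' b' : Fin n} {G G' : SimpleGraph (Fin n)} {R : RD n}
    (hR : R = rd A0 a b a' b' G) (f : RF A0 a b a' b' G R) {x z v w : Fin n}
    (h : SwF G G' x z v w) (hx : x ∈ R.X) (hz : z ∉ R.E) (hv : v ∉ R.E) (hw : w ∉ R.E) :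
    rd A0 a b a' b' G' = R ∧ Od G' b = Od G b ∧
      nb G' x = insert v ((nb G x).erase z) ∧ nb G' (R.y x) = nb G (R.y x) ∧
      ∀ x' ∈ R.X, x' ≠ x → nb G' x' = nb G x' ∧ nb G' (R.y x') = nb G (R.y x') := by
  classical
  have hnr : ∀ r, r ∈ R.E → r ≠ x → nb G' r = nb G r := fun r hr hrx =>
    h.nz r hrx (fun h => hz (h ▸ hr)) (fun h => hv (h ▸ hr)) (fun h => hw (h ▸ hr))
  obtain ⟨r1, r2, r3, r4⟩ := f.xr x hx
  obtain ⟨q1, q2, q3, q4⟩ := f.Er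
  have na := hnr a q1 r1.symm
  have nbb := hnr b q2 r2.symm
  have na' := hnr a' q3 r3.symm
  have nb' := hnr b' q4 r4.symm
  have hzb : z ∉ nb G b := fun h => hz (f.Eb z ((mem_nb G b z).1 h))
  have hvb : v ∉ nb G b := fun h => hv (f.Eb v ((mem_nb G b v).1 h))
  have hwb : w ∉ nb G b := fun h => hw (f.Eb w ((mem_nb G b w).1 h))
  have hxb : x ∉ nb G b := fun h => (f.xnb x hx).1 ((mem_nb G b x).1 h)
  refine ⟨?_, ?_, h.na, hnr _ (f.ok.YE x hx) (f.ok.XY x hx x hx), ?_⟩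
  · rw [hR]; unfold rd; rw [na, nbb, na', nb']
  · ext u
    rw [mem_Od, mem_Od]
    have : nb G' u ∩ nb G' b = nb G u ∩ nb G b := by
      rw [nbb]
      by_cases h1 : u = x
      · rw [h1, h.na, inter_insert_erase hvb hzb]
      by_cases h2 : u = z
      · rw [h2, h.nb_, inter_insert_erase hwb hxb]
      by_cases h3 : u = v
      · rw [h3, h.nc, inter_insert_erase hxb hwb]
      by_cases h4 : u = w
      · rw [h4, h.ne_, inter_insert_erase hzb hvb]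
      rw [h.nz u h1 h2 h3 h4]
    unfold cn
    rw [this]
  · intro x' hx' hne
    exact ⟨hnr x' (f.ok.XE x' hx') hne, hnr _ (f.ok.YE x' hx') (f.ok.XY x' hx' x hx)⟩

end Pool.Agent.U140.RG
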