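import Pool.Agent.U140.SG.Fp
import Pool.Agent.U140.RG.Rs

/-! Fingerprints from the parities of codegrees. -/

set_option linter.unusedSectionVars false
set_option linter.unusedVariables false

namespace Pool.Agent.U140.RG

open Finset Pool.Agent.K1H35.SH
open Pool.Agent.U140.SG (Mt InB DD mem_DD GoodG card_DD)

variable {n : ℕ} {G H : SimpleGraph (Fin n)} {f g : Fin n → Fin n → Fin n}

/-- number of neighbours of `a` with `j` (modulo `2J`) neighbours of odd codegree with `b` -/
noncomputable def lv (J : ℕ) (G : SimpleGraph (Fin n)) (a b : Fin n) (j : ℕ) : ℕ :=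
  ((nb G a).filter fun x => (nb G x ∩ Od G b).card % (2 * J) = j).card

def UFp (J : ℕ) (G : SimpleGraph (Fin n)) : Prop := ∀ a b a' b' : Fin n, a ≠ b → a' ≠ b' →
  b' ≠ a → (∀ j, lv J G a b j = lv J G a' b' j) → a = a'

lemma inB_two {G : SimpleGraph (Fin n)} {z s w : Fin n} (h1 : G.Adj z s) (h2 : G.Adj s w) :
    InB G z w := Or.inr (Or.inr ⟨s, h1, h2⟩)

lemma pres (m : Mt G H f g) {z a b : Fin n} (ha : InB H z a) (hb : InB H z b)
    (h : H.Adj a b) : G.Adj (g z a) (g z b) := (m.symm.adj z a b ha hb).1 h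

lemma ginj (m : Mt G H f g) {z a b : Fin n} (ha : InB H z a) (hb : InB H z b)
    (h : g z a = g z b) : a = b := by
  rw [← m.fg z a ha, ← m.fg z b hb, h]

/-- codegrees are seen from every ball containing the neighbours of `v` -/
lemma cn_le (m : Mt G H f g) {z v w : Fin n} (hv : ∀ t, H.Adj v t → InB H z t) (hvB : InB H z v)
    (hw : InB H z w) : cn H v w ≤ cn G (g z v) (g z w) := by
  unfold cn
  refine card_le_card_of_injOn (g z) ?_ ?_
  · intro t ht
    rw [mem_coe, mem_inter, mem_nb, mem_nb] at ht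
    rw [mem_coe, mem_inter, mem_nb, mem_nb]
    exact ⟨pres m hw (hv t ht.2) ht.1, pres m hvB (hv t ht.2) ht.2⟩
  · intro t ht t' ht' hh
    rw [mem_coe, mem_inter, mem_nb, mem_nb] at ht ht'
    exact ginj m (hv t ht.2) (hv t' ht'.2) hh

/-- first view: from `u`, with `v` a neighbour of `u` -/
lemma cn1 (m : Mt G H f g) {u v w : Fin n} (hv : H.Adj u v) (hw : InB H u w) :
    cn H v w = cn G (g u v) (g u w) := by
  have h1 := cn_le m (z := u) (v := v) (w := w) (fun t ht => inB_two hv ht) (InB.of_adj hv) hw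
  have hv' := m.g_adj hv
  have h2 := cn_le m.symm (z := u) (v := g u v) (w := g u w) (fun t ht => inB_two hv' ht)
    (InB.of_adj hv') (m.g_in u w hw)
  rw [m.fg_adj hv, m.fg u w hw] at h2
  exact le_antisymm h1 h2

/-- second view: from `v` -/
lemma cn2 (m : Mt G H f g) {v w : Fin n} (hw : InB H v w) :
    cn H v w = cn G v (g v w) := by
  have h1 := cn_le m (z := v) (v := v) (w := w) (fun t ht => InB.of_adj ht) (InB.self _ _) hw
  have h2 := cn_le m.symm (z := v) (v := v) (w := g v w) (fun t ht => InB.of_adj ht)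
    (InB.self _ _) (m.g_in v w hw)
  rw [m.g_self] at h1
  rw [m.f_self, m.fg v w hw] at h2
  exact le_antisymm h1 h2

lemma od1_le (m : Mt G H f g) {u v x : Fin n} (hv : H.Adj u v) (hx : H.Adj u x) :
    (nb H x ∩ Od H v).card ≤ (nb G (g u x) ∩ Od G (g u v)).card := by
  refine card_le_card_of_injOn (g u) ?_ ?_
  · intro w hw
    rw [mem_coe, mem_inter, mem_nb, mem_Od] at hw
    obtain ⟨h1, h2⟩ := hw
    have hwB : InB H u w := inB_two hx h1
    rw [mem_coe, mem_inter, mem_nb, mem_Od]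
    exact ⟨pres m (InB.of_adj hx) hwB h1, by rw [← cn1 m hv hwB]; exact h2⟩
  · intro w hw w' hw' hh
    rw [mem_coe, mem_inter, mem_nb] at hw hw'
    exact ginj m (inB_two hx hw.1) (inB_two hx hw'.1) hh

lemma od1 (m : Mt G H f g) {u v x : Fin n} (hv : H.Adj u v) (hx : H.Adj u x) :
    (nb H x ∩ Od H v).card = (nb G (g u x) ∩ Od G (g u v)).card := by
  refine le_antisymm (od1_le m hv hx) ?_
  have := od1_le m.symm (m.g_adj hv) (m.g_adj hx)
  rwa [m.fg_adj hv, m.fg_adj hx] at this

lemma lv1_le (m : Mt G H f g) {J : ℕ} {u v : Fin n} (hv : H.Adj u v) (j : ℕ) :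
    lv J H u v j ≤ lv J G u (g u v) j := by
  unfold lv
  refine card_le_card_of_injOn (g u) ?_ ?_
  · intro x hx
    rw [mem_coe, mem_filter, mem_nb] at hx
    rw [mem_coe, mem_filter, mem_nb]
    exact ⟨m.g_adj hx.1, by rw [← od1 m hv hx.1]; exact hx.2⟩
  · intro x hx x' hx' hh
    rw [mem_coe, mem_filter, mem_nb] at hx hx'
    exact ginj m (InB.of_adj hx.1) (InB.of_adj hx'.1) hh

lemma lv1 (m : Mt G H f g) {J : ℕ} {u v : Fin n} (hv : H.Adj u v) (j : ℕ) :
    lv J H u v j = lv J G u (g u v) j := by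
  refine le_antisymm (lv1_le m hv j) ?_
  have := lv1_le m.symm (J := J) (m.g_adj hv) j
  rwa [m.fg_adj hv] at this

/-- vertices of odd codegree with `v` are in the ball of `v` -/
lemma od_inB {v w : Fin n} (h : w ∈ Od H v) : InB H v w := by
  rw [mem_Od] at h
  have hne : (nb H w ∩ nb H v).Nonempty := by
    rw [← card_pos]
    unfold cn at h
    omega
  obtain ⟨t, ht⟩ := hne
  rw [mem_inter, mem_nb, mem_nb] at ht
  exact inB_two ht.2 ht.1.symm

lemma od2_le (m : Mt G H f g) {u v x : Fin n} (hv : H.Adj v u) (hx : H.Adj u x) :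
    (nb H x ∩ Od H v).card ≤ (nb G (g v x) ∩ Od G v).card := by
  refine card_le_card_of_injOn (g v) ?_ ?_
  · intro w hw
    rw [mem_coe, mem_inter, mem_nb] at hw
    obtain ⟨h1, h2⟩ := hw
    have hwB := od_inB h2
    rw [mem_coe, mem_inter, mem_nb, mem_Od, ← cn2 m hwB]
    exact ⟨pres m (inB_two hv hx) hwB h1, mem_Od.1 h2⟩
  · intro w hw w' hw' hh
    rw [mem_coe, mem_inter] at hw hw'
    exact ginj m (od_inB hw.2) (od_inB hw'.2) hh

lemma od2 (m : Mt G H f g) {u v x : Fin n} (hv : H.Adj v u) (hx : H.Adj u x) :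
    (nb H x ∩ Od H v).card = (nb G (g v x) ∩ Od G v).card := by
  refine le_antisymm (od2_le m hv hx) ?_
  have hxB : InB H v x := inB_two hv hx
  have := od2_le m.symm (m.g_adj hv) (pres m (InB.of_adj hv) hxB hx)
  rwa [m.fg v x hxB] at this

lemma lv2_le (m : Mt G H f g) {J : ℕ} {u v : Fin n} (hv : H.Adj v u) (j : ℕ) :
    lv J H u v j ≤ lv J G (g v u) v j := by
  unfold lv
  refine card_le_card_of_injOn (g v) ?_ ?_
  · intro x hx
    rw [mem_coe, mem_filter, mem_nb] at hx
    rw [mem_coe, mem_filter, mem_nb]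
    exact ⟨pres m (InB.of_adj hv) (inB_two hv hx.1) hx.1,
      by rw [← od2 m hv hx.1]; exact hx.2⟩
  · intro x hx x' hx' hh
    rw [mem_coe, mem_filter, mem_nb] at hx hx'
    exact ginj m (inB_two hv hx.1) (inB_two hv hx'.1) hh

lemma lv2 (m : Mt G H f g) {J : ℕ} {u v : Fin n} (hv : H.Adj v u) (j : ℕ) :
    lv J H u v j = lv J G (g v u) v j := by
  refine le_antisymm (lv2_le m hv j) ?_
  have := lv2_le m.symm (J := J) (m.g_adj hv) j
  rwa [m.fg_adj hv] at this

/-- unique fingerprints force trivial matchings -/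
theorem good_of_UFp {J : ℕ} (h : UFp J G) : GoodG G := by
  classical
  intro H f g m
  have h1 : DD H g = ∅ := by
    rw [eq_empty_iff_forall_notMem]
    rintro ⟨v, u⟩ hvu
    rw [mem_DD] at hvu
    obtain ⟨hadj, hne⟩ := hvu
    simp only at hadj hne
    apply hne
    have hl : ∀ j, lv J G u (g u v) j = lv J G (g v u) v j := fun j =>
      (lv1 m hadj.symm j).symm.trans (lv2 m hadj j)
    exact (h u (g u v) (g v u) v (m.g_adj hadj.symm).ne (m.g_adj hadj).ne' hadj.ne hl).symm
  have h2 := card_DD m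
  rw [h1, card_empty] at h2
  exact card_eq_zero.1 h2

end Pool.Agent.U140.RG
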