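import Pool.Agent.U140.RG.An

/-! Subsets of a given size: toggles and the distribution of the intersection with a set. -/

set_option linter.unusedSectionVars false
set_option linter.unusedVariables false

namespace Pool.Agent.U140.RG

open Finset

lemma choose_step {M a : ℕ} (ha : a ≤ M) (h1 : M + 2 ≤ 4 * (a + 1)) (h2 : M + 2 ≤ 4 * (M - a + 1)) :
    (M + 2).choose (a + 1) ≤ 8 * M.choose a := by
  obtain ⟨b, rfl⟩ := Nat.exists_eq_add_of_le ha
  rw [Nat.add_sub_cancel_left] at h2
  have e1 : (a + b + 2).choose (a + 1) * ((a + 1) * (b + 1)) = (a + b + 2) * (a + b + 1) *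
      (a + b).choose a := by
    have h3 := Nat.add_one_mul_choose_eq (a + b + 1) a
    have h4 := Nat.add_one_mul_choose_eq (a + b) b
    have h5 : (a + b + 1).choose a = (a + b + 1).choose (b + 1) := by
      rw [← Nat.choose_symm (by omega : a ≤ a + b + 1)]
      congr 1; omega
    have h6 : (a + b).choose b = (a + b).choose a := by
      rw [← Nat.choose_symm (by omega : a ≤ a + b)]
      congr 1; omega
    rw [h6] at h4
    calc (a + b + 2).choose (a + 1) * ((a + 1) * (b + 1))
        = ((a + b + 1 + 1).choose (a + 1) * (a + 1)) * (b + 1) := by ring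
      _ = ((a + b + 1 + 1) * (a + b + 1).choose a) * (b + 1) := by rw [← h3]
      _ = (a + b + 2) * ((a + b + 1).choose (b + 1) * (b + 1)) := by rw [h5]; ring
      _ = (a + b + 2) * ((a + b + 1) * (a + b).choose a) := by rw [← h4]
      _ = _ := by ring
  have e2 : (a + b + 2) * (a + b + 1) ≤ 8 * ((a + 1) * (b + 1)) := by nlinarith
  have e3 : 0 < (a + 1) * (b + 1) := by positivity
  refine Nat.le_of_mul_le_mul_right ?_ e3
  rw [e1]
  calc (a + b + 2) * (a + b + 1) * (a + b).choose a ≤ 8 * ((a + 1) * (b + 1)) * (a + b).choose a :=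
        Nat.mul_le_mul_right _ e2
    _ = _ := by ring

lemma choose_steps (R : ℕ) : ∀ {u v : ℕ}, u + v + 2 * R ≤ 4 * u → u + v + 2 * R ≤ 4 * v →
    (u + v + 2 * R).choose (u + R) ≤ 8 ^ R * (u + v).choose u := by
  induction R with
  | zero => intro u v _ _; simp
  | succ R ih =>
    intro u v h1 h2
    have h3 := choose_step (M := u + v + 2 * R) (a := u + R) (by omega) (by omega) (by omega)
    have h4 := ih (u := u) (v := v) (by omega) (by omega)
    have e : u + v + 2 * (R + 1) = u + v + 2 * R + 2 := by ring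
    rw [e, ← add_assoc]
    calc _ ≤ 8 * (u + v + 2 * R).choose (u + R) := h3
      _ ≤ 8 * (8 ^ R * (u + v).choose u) := Nat.mul_le_mul_left _ h4
      _ = _ := by ring

variable {V : Type*} [DecidableEq V]

/-- the toggle of the pair `α, β` -/
def tg (α β : V) (S : Finset V) : Finset V :=
  if α ∈ S then insert β (S.erase α) else insert α (S.erase β)

def ZZ (c J : ℕ) (O S : Finset V) : ℕ := (c + (S ∩ O).card) % (2 * J)

def FF (α β : V) (c J : ℕ) (O S : Finset V) : Prop :=
  (α ∈ S ∧ β ∉ S ∧ ZZ c J O S % 2 = 1) ∨ (α ∉ S ∧ β ∈ S ∧ ZZ c J O S % 2 = 0)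

lemma mod_pred {x N : ℕ} (h0 : 0 < N) (h : 1 ≤ x % N) : (x - 1) % N = x % N - 1 := by
  have e := Nat.div_add_mod x N
  have hlt := Nat.mod_lt x h0
  have e2 : x - 1 = N * (x / N) + (x % N - 1) := by omega
  rw [e2, Nat.mul_add_mod, Nat.mod_eq_of_lt (by omega)]

lemma mod_succ' {x N : ℕ} (h : x % N + 1 < N) : (x + 1) % N = x % N + 1 := by
  have e := Nat.div_add_mod x N
  have e2 : x + 1 = N * (x / N) + (x % N + 1) := by omega
  have h2 : (x + 1) % N = (N * (x / N) + (x % N + 1)) % N := by rw [← e2]
  rw [h2, Nat.mul_add_mod, Nat.mod_eq_of_lt h]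

section

variable {α β : V} {D O : Finset V} {k c J : ℕ}

lemma tg1 {S : Finset V} (h : α ∈ S) : tg α β S = insert β (S.erase α) := by
  unfold tg; rw [if_pos h]

lemma tg2 {S : Finset V} (h : α ∉ S) : tg α β S = insert α (S.erase β) := by
  unfold tg; rw [if_neg h]

lemma inter1 {S : Finset V} (hα : α ∈ O) (hβ : β ∉ O) (h1 : α ∈ S) (h2 : β ∉ S) :
    (tg α β S ∩ O).card + 1 = (S ∩ O).card := by
  rw [tg1 h1]
  have e : insert β (S.erase α) ∩ O = (S ∩ O).erase α := by
    ext x
    simp only [mem_inter, mem_insert, mem_erase]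
    constructor
    · rintro ⟨h3 | h3, h4⟩
      · rw [h3] at h4; exact absurd h4 hβ
      · exact ⟨h3.1, h3.2, h4⟩
    · rintro ⟨h3, h4, h5⟩; exact ⟨Or.inr ⟨h3, h4⟩, h5⟩
  rw [e, card_erase_add_one (mem_inter.2 ⟨h1, hα⟩)]

lemma inter2 {S : Finset V} (hα : α ∈ O) (hβ : β ∉ O) (h1 : α ∉ S) (h2 : β ∈ S) :
    (tg α β S ∩ O).card = (S ∩ O).card + 1 := by
  rw [tg2 h1]
  have e : insert α (S.erase β) ∩ O = insert α (S ∩ O) := by
    ext x
    simp only [mem_inter, mem_insert, mem_erase]
    constructor
    · rintro ⟨h3 | h3, h4⟩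
      · exact Or.inl h3
      · exact Or.inr ⟨h3.2, h4⟩
    · rintro (h3 | ⟨h3, h4⟩)
      · rw [h3]; exact ⟨Or.inl rfl, hα⟩
      · exact ⟨Or.inr ⟨fun h => hβ (h ▸ h4), h3⟩, h4⟩
  rw [e, card_insert_of_notMem (fun h => h1 (mem_inter.1 h).1)]

/-- all facts on a toggle -/
lemma tg_facts (hJ : 1 ≤ J) (hα : α ∈ O) (hβ : β ∉ O) (hαD : α ∈ D) (hβD : β ∈ D) {S : Finset V}
    (hS : S ∈ powersetCard k D) (hF : FF α β c J O S) :
    tg α β S ∈ powersetCard k D ∧ FF α β c J O (tg α β S) ∧ tg α β (tg α β S) = S ∧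
      ZZ c J O (tg α β S) / 2 = ZZ c J O S / 2 ∧ ZZ c J O (tg α β S) % 2 ≠ ZZ c J O S % 2 := by
  have hne : α ≠ β := fun h => hβ (h ▸ hα)
  obtain ⟨hSD, hSk⟩ := mem_powersetCard.1 hS
  rcases hF with ⟨h1, h2, h3⟩ | ⟨h1, h2, h3⟩
  · have hi := inter1 hα hβ h1 h2
    have h4 : α ∉ tg α β S := by
      rw [tg1 h1, mem_insert, mem_erase]; tauto
    have h5 : β ∈ tg α β S := by rw [tg1 h1]; exact mem_insert_self _ _
    have hz : ZZ c J O (tg α β S) = ZZ c J O S - 1 := by
      unfold ZZ at h3 ⊢
      have : c + (tg α β S ∩ O).card = c + (S ∩ O).card - 1 := by omega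
      rw [this]
      exact mod_pred (by omega) (by omega)
    refine ⟨?_, Or.inr ⟨h4, h5, by omega⟩, ?_, by omega, by omega⟩
    · rw [mem_powersetCard, tg1 h1]
      refine ⟨?_, ?_⟩
      · intro x hx
        rw [mem_insert, mem_erase] at hx
        rcases hx with rfl | hx
        · exact hβD
        · exact hSD hx.2
      · rw [card_insert_of_notMem (fun h => h2 (mem_of_mem_erase h)), card_erase_add_one h1, hSk]
    · rw [tg2 h4, tg1 h1]
      ext x
      simp only [mem_insert, mem_erase]
      constructor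
      · rintro (h | ⟨h, h' | h'⟩)
        · rw [h]; exact h1
        · exact absurd h' h
        · exact h'.2
      · intro h
        by_cases hx : x = α
        · exact Or.inl hx
        · refine Or.inr ⟨?_, Or.inr ⟨hx, h⟩⟩
          rintro rfl; exact h2 h
  · have hi := inter2 hα hβ h1 h2
    have h4 : α ∈ tg α β S := by rw [tg2 h1]; exact mem_insert_self _ _
    have h5 : β ∉ tg α β S := by
      rw [tg2 h1, mem_insert, mem_erase]
      rintro (h | ⟨h, -⟩)
      · exact hne h.symm
      · exact h rfl
    have hz : ZZ c J O (tg α β S) = ZZ c J O S + 1 := by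
      unfold ZZ at h3 ⊢
      rw [hi, ← add_assoc]
      refine mod_succ' ?_
      have := Nat.mod_lt (c + (S ∩ O).card) (by omega : 0 < 2 * J)
      omega
    refine ⟨?_, Or.inl ⟨h4, h5, by omega⟩, ?_, by omega, by omega⟩
    · rw [mem_powersetCard, tg2 h1]
      refine ⟨?_, ?_⟩
      · intro x hx
        rw [mem_insert, mem_erase] at hx
        rcases hx with rfl | hx
        · exact hαD
        · exact hSD hx.2
      · rw [card_insert_of_notMem (fun h => h1 (mem_of_mem_erase h)), card_erase_add_one h2, hSk]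
    · rw [tg1 h4, tg2 h1]
      ext x
      simp only [mem_insert, mem_erase]
      constructor
      · rintro (h | ⟨h, h' | h'⟩)
        · rw [h]; exact h2
        · exact absurd h' h
        · exact h'.2
      · intro h
        by_cases hx : x = β
        · exact Or.inl hx
        · refine Or.inr ⟨?_, Or.inr ⟨hx, h⟩⟩
          rintro rfl; exact h1 h

open Classical in
/-- every value is taken with probability at least `8 ^ (-2J)` -/
lemma sub_count (hJ : 1 ≤ J) (hα : α ∈ D ∩ O) (hβ : β ∈ D \ O) (h1 : 2 * J ≤ (D ∩ O).card)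
    (h2 : 2 * J ≤ (D \ O).card) {k' : ℕ} (hk : D.card = k + k') (hk1 : k + k' + 8 * J ≤ 4 * k)
    (hk2 : k + k' + 8 * J ≤ 4 * k') {i : ℕ} (hi : i < J) :
    (powersetCard k D).card ≤ 8 ^ (2 * J) *
      ((powersetCard k D).filter fun S => FF α β c J O S ∧ ZZ c J O S / 2 = i).card := by
  set r := 2 * J - 1 with hr
  obtain ⟨O', hO1, hO2⟩ := exists_subset_card_eq (s := (D ∩ O).erase α) (n := r)
    (by rw [card_erase_of_mem hα]; omega)
  obtain ⟨E', hE1, hE2⟩ := exists_subset_card_eq (s := (D \ O).erase β) (n := r)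
    (by rw [card_erase_of_mem hβ]; omega)
  have hTo : ∀ h, ∃ T ⊆ O', h ≤ r → T.card = h := by
    intro h
    by_cases hh : h ≤ r
    · obtain ⟨T, t1, t2⟩ := exists_subset_card_eq (s := O') (n := h) (by omega)
      exact ⟨T, t1, fun _ => t2⟩
    · exact ⟨∅, empty_subset _, fun h => absurd h hh⟩
  have hTe : ∀ h, ∃ T ⊆ E', h ≤ r → T.card = h := by
    intro h
    by_cases hh : h ≤ r
    · obtain ⟨T, t1, t2⟩ := exists_subset_card_eq (s := E') (n := h) (by omega)
      exact ⟨T, t1, fun _ => t2⟩
    · exact ⟨∅, empty_subset _, fun h => absurd h hh⟩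
  choose To To1 To2 using hTo
  choose Te Te1 Te2 using hTe
  set D' := D \ (insert α (insert β (O' ∪ E'))) with hD'
  have hαO := (mem_inter.1 hα)
  have hβO := (mem_sdiff.1 hβ)
  have hO'O : ∀ x ∈ O', x ∈ D ∧ x ∈ O ∧ x ≠ α := by
    intro x hx
    have := hO1 hx
    rw [mem_erase, mem_inter] at this
    tauto
  have hE'O : ∀ x ∈ E', x ∈ D ∧ x ∉ O ∧ x ≠ β := by
    intro x hx
    have := hE1 hx
    rw [mem_erase, mem_sdiff] at this
    tauto
  have hdOE : Disjoint O' E' := by
    rw [disjoint_left]; intro x hx hx'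
    exact (hE'O x hx').2.1 (hO'O x hx).2.1
  have hcard : (insert α (insert β (O' ∪ E'))).card = 4 * J := by
    rw [card_insert_of_notMem, card_insert_of_notMem, card_union_of_disjoint hdOE, hO2, hE2]
    · omega
    · rw [mem_union]
      rintro (h | h)
      · exact hβO.2 (hO'O β h).2.1
      · exact (hE'O β h).2.2 rfl
    · rw [mem_insert, mem_union]
      rintro (h | h | h)
      · exact hβO.2 (h ▸ hαO.2)
      · exact (hO'O α h).2.2 rfl
      · exact (hE'O α h).2.1 hαO.2
  have hsubD : insert α (insert β (O' ∪ E')) ⊆ D := by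
    intro x hx
    simp only [mem_insert, mem_union] at hx
    rcases hx with rfl | rfl | hx | hx
    · exact hαO.1
    · exact hβO.1
    · exact (hO'O x hx).1
    · exact (hE'O x hx).1
  have hD'c : D'.card = k + k' - 4 * J := by rw [hD', card_sdiff_of_subset hsubD, hcard, hk]
  -- the injection
  set hh : Finset V → ℕ := fun S => (2 * i + 1 + (2 * J - 1) * (c + (S ∩ O).card + 1)) % (2 * J)
    with hhh
  have hhr : ∀ S, hh S ≤ r := by
    intro S
    have := Nat.mod_lt (2 * i + 1 + (2 * J - 1) * (c + (S ∩ O).card + 1)) (by omega : 0 < 2 * J)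
    rw [hhh]; simp only; omega
  set φ : Finset V → Finset V := fun S => S ∪ insert α (To (hh S) ∪ Te (r - hh S)) with hφ
  have hmain : (powersetCard (k - 2 * J) D').card ≤
      ((powersetCard k D).filter fun S => FF α β c J O S ∧ ZZ c J O S / 2 = i).card := by
    refine card_le_card_of_injOn φ ?_ ?_
    · intro S hS
      rw [mem_coe, mem_powersetCard] at hS
      obtain ⟨hS1, hS2⟩ := hS
      have hSn : ∀ x ∈ S, x ∈ D ∧ x ≠ α ∧ x ≠ β ∧ x ∉ O' ∧ x ∉ E' := by
        intro x hx
        have := hS1 hx
        rw [hD', mem_sdiff] at this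
        simp only [mem_insert, mem_union, not_or] at this
        tauto
      have hTo' : ∀ x ∈ To (hh S), x ∈ O' := fun x hx => To1 _ hx
      have hTe' : ∀ x ∈ Te (r - hh S), x ∈ E' := fun x hx => Te1 _ hx
      have c1 : (To (hh S)).card = hh S := To2 _ (hhr S)
      have c2 : (Te (r - hh S)).card = r - hh S := Te2 _ (by omega)
      have d1 : Disjoint (To (hh S)) (Te (r - hh S)) :=
        (hdOE.mono_left (To1 _)).mono_right (Te1 _)
      have n1 : α ∉ To (hh S) ∪ Te (r - hh S) := by
        rw [mem_union]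
        rintro (h | h)
        · exact (hO'O α (hTo' α h)).2.2 rfl
        · exact (hE'O α (hTe' α h)).2.1 hαO.2
      have d2 : Disjoint S (insert α (To (hh S) ∪ Te (r - hh S))) := by
        rw [disjoint_left]
        intro x hx hx'
        obtain ⟨g1, g2, g3, g4, g5⟩ := hSn x hx
        rw [mem_insert, mem_union] at hx'
        rcases hx' with h | h | h
        · exact g2 h
        · exact g4 (hTo' x h)
        · exact g5 (hTe' x h)
      have cφ : (φ S).card = k := by
        rw [hφ]
        simp only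
        rw [card_union_of_disjoint d2, card_insert_of_notMem n1, card_union_of_disjoint d1, c1, c2,
          hS2]
        have := hhr S
        omega
      have iφ : (φ S ∩ O).card = (S ∩ O).card + 1 + hh S := by
        have e : φ S ∩ O = (S ∩ O) ∪ insert α (To (hh S)) := by
          ext x
          rw [hφ]
          simp only [mem_inter, mem_union, mem_insert]
          constructor
          · rintro ⟨h | h | h | h, h'⟩
            · exact Or.inl ⟨h, h'⟩
            · exact Or.inr (Or.inl h)
            · exact Or.inr (Or.inr h)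
            · exact absurd h' (hE'O x (hTe' x h)).2.1
          · rintro (⟨h, h'⟩ | h | h)
            · exact ⟨Or.inl h, h'⟩
            · exact ⟨Or.inr (Or.inl h), h ▸ hαO.2⟩
            · exact ⟨Or.inr (Or.inr (Or.inl h)), (hO'O x (hTo' x h)).2.1⟩
        rw [e, card_union_of_disjoint, card_insert_of_notMem (fun h => n1 (mem_union_left _ h)), c1]
        · ring
        · rw [disjoint_left] at d2 ⊢
          intro x hx hx'
          refine d2 (mem_inter.1 hx).1 ?_
          rw [mem_insert] at hx' ⊢
          rcases hx' with h | h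
          · exact Or.inl h
          · exact Or.inr (mem_union_left _ h)
      have zφ : ZZ c J O (φ S) = 2 * i + 1 := by
        unfold ZZ
        rw [iφ]
        have e1 : c + ((S ∩ O).card + 1 + hh S) = (c + (S ∩ O).card + 1) + hh S := by ring
        rw [e1, Nat.add_mod, hhh]
        simp only
        rw [Nat.mod_mod, ← Nat.add_mod]
        set m := c + (S ∩ O).card + 1 with hm
        have e2 : m + (2 * i + 1 + (2 * J - 1) * m) = 2 * J * m + (2 * i + 1) := by
          obtain ⟨J', rfl⟩ : ∃ J', J = J' + 1 := ⟨J - 1, by omega⟩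
          have : 2 * (J' + 1) - 1 = 2 * J' + 1 := by omega
          rw [this]; ring
        rw [e2, Nat.mul_add_mod, Nat.mod_eq_of_lt (by omega)]
      rw [mem_coe, mem_filter, mem_powersetCard]
      refine ⟨⟨?_, cφ⟩, Or.inl ⟨?_, ?_, ?_⟩, ?_⟩
      · intro x hx
        rw [hφ] at hx
        simp only [mem_union, mem_insert] at hx
        rcases hx with h | h | h | h
        · exact (hSn x h).1
        · exact h ▸ hαO.1
        · exact (hO'O x (hTo' x h)).1
        · exact (hE'O x (hTe' x h)).1
      · rw [hφ]; exact mem_union_right _ (mem_insert_self _ _)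
      · rw [hφ]
        simp only [mem_union, mem_insert, not_or]
        refine ⟨fun h => (hSn β h).2.2.1 rfl, fun h => hβO.2 (h ▸ hαO.2), fun h => ?_, fun h => ?_⟩
        · exact hβO.2 (hO'O β (hTo' β h)).2.1
        · exact (hE'O β (hTe' β h)).2.2 rfl
      · rw [zφ]; omega
      · rw [zφ]; omega
    · intro S hS S' hS' he
      rw [mem_coe, mem_powersetCard] at hS hS'
      have key : ∀ S : Finset V, S ⊆ D' → φ S ∩ D' = S := by
        intro S hS
        ext x
        rw [hφ]
        simp only [mem_inter, mem_union, mem_insert]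
        constructor
        · rintro ⟨h | h, h'⟩
          · exact h
          · exfalso
            rw [hD', mem_sdiff] at h'
            simp only [mem_insert, mem_union, not_or] at h'
            rcases h with h | h | h
            · exact h'.2.1 h
            · exact h'.2.2.2.1 (To1 _ h)
            · exact h'.2.2.2.2 (Te1 _ h)
        · intro h; exact ⟨Or.inl h, hS h⟩
      rw [← key S hS.1, ← key S' hS'.1, he]
  have hst := choose_steps (2 * J) (u := k - 2 * J) (v := k' - 2 * J) (by omega) (by omega)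
  rw [card_powersetCard, hD'c] at hmain
  rw [card_powersetCard, hk]
  have e1 : k - 2 * J + (k' - 2 * J) + 2 * (2 * J) = k + k' := by omega
  have e2 : k - 2 * J + 2 * J = k := by omega
  have e3 : k - 2 * J + (k' - 2 * J) = k + k' - 4 * J := by omega
  rw [e1, e2, e3] at hst
  exact hst.trans (Nat.mul_le_mul_left _ hmain)

end

end Pool.Agent.U140.RG
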