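import Pool.Agent.U140.RG.C2
import Pool.Agent.U140.RG.Sub

/-! Classes of resplittings. -/

set_option linter.unusedSectionVars false
set_option linter.unusedVariables false

namespace Pool.Agent.U140.RG

open Finset Pool.Agent.K1H35.SH

variable {n d : ℕ}

/-- the pairs which may change -/
def Zo (R : RD n) (e : Sym2 (Fin n)) : Prop :=
  ∃ u w : Fin n, (u ∈ R.X ∨ ∃ x ∈ R.X, u = R.y x) ∧ w ∉ R.E ∧ e = s(u, w)

structure Eqv (R : RD n) (G G₀ : SimpleGraph (Fin n)) : Prop where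
  nz : ∀ e, ¬ Zo R e → (e ∈ G.edgeSet ↔ e ∈ G₀.edgeSet)
  D : ∀ x ∈ R.X, R.D G x = R.D G₀ x
  U : ∀ x ∈ R.X, R.U G x = R.U G₀ x

lemma Eqv.refl (R : RD n) (G : SimpleGraph (Fin n)) : Eqv R G G :=
  ⟨fun _ _ => Iff.rfl, fun _ _ => rfl, fun _ _ => rfl⟩

noncomputable def Ps (R : RD n) (G : SimpleGraph (Fin n)) (x : Fin n) : Finset (Fin n) :=
  if x ∈ R.X then nb G x ∩ R.D G x else ∅

noncomputable def Om0 (R : RD n) (G₀ : SimpleGraph (Fin n)) (x : Fin n) :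
    Finset (Finset (Fin n)) :=
  if x ∈ R.X then powersetCard (nb G₀ x ∩ R.D G₀ x).card (R.D G₀ x) else {∅}

variable {R : RD n} {G G₀ : SimpleGraph (Fin n)}

lemma not_Zo (ok : R.Ok) {u w : Fin n} (hu : u ∈ R.E) (hw : w ∈ R.E) : ¬ Zo R s(u, w) := by
  rintro ⟨p, q, -, hq, h⟩
  rw [Sym2.eq_iff] at h
  rcases h with ⟨-, h⟩ | ⟨h, -⟩
  · exact hq (h ▸ hw)
  · exact hq (h ▸ hu)

lemma not_Zo' (ok : R.Ok) {u w : Fin n} (hu : u ∈ R.E) (hX : u ∉ R.X) (hY : ∀ x ∈ R.X, u ≠ R.y x) :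
    ¬ Zo R s(u, w) := by
  rintro ⟨p, q, hp, hq, h⟩
  rw [Sym2.eq_iff] at h
  rcases h with ⟨h, -⟩ | ⟨h, -⟩
  · subst h
    rcases hp with h | ⟨x, hx, h⟩
    · exact hX h
    · exact hY x hx h
  · exact hq (h ▸ hu)

lemma Eqv.adj_E (h : Eqv R G G₀) (ok : R.Ok) {u w : Fin n} (hu : u ∈ R.E) (hw : w ∈ R.E) :
    G.Adj u w ↔ G₀.Adj u w := h.nz _ (not_Zo ok hu hw)

lemma Eqv.nb_eq (h : Eqv R G G₀) (ok : R.Ok) {u : Fin n} (hu : u ∈ R.E) (hX : u ∉ R.X)
    (hY : ∀ x ∈ R.X, u ≠ R.y x) : nb G u = nb G₀ u := by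
  ext w
  rw [mem_nb, mem_nb]
  exact h.nz _ (not_Zo' ok hu hX hY)

lemma mem_D {x w : Fin n} : w ∈ R.D G x ↔ ((G.Adj x w ∧ ¬ G.Adj (R.y x) w) ∨
    (G.Adj (R.y x) w ∧ ¬ G.Adj x w)) ∧ w ∉ R.E := by
  unfold RD.D
  rw [mem_sdiff, mem_union, mem_sdiff, mem_sdiff, mem_nb, mem_nb]

lemma mem_U {x w : Fin n} : w ∈ R.U G x ↔ (G.Adj x w ∧ G.Adj (R.y x) w) ∧ w ∉ R.E := by
  unfold RD.U
  rw [mem_sdiff, mem_inter, mem_nb, mem_nb]

lemma adj_x {x w : Fin n} (hx : x ∈ R.X) (hw : w ∉ R.E) :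
    G.Adj x w ↔ w ∈ R.U G x ∨ w ∈ Ps R G x := by
  unfold Ps
  rw [if_pos hx, mem_inter, mem_nb, mem_D, mem_U]
  tauto

lemma adj_y {x w : Fin n} (hx : x ∈ R.X) (hw : w ∉ R.E) :
    G.Adj (R.y x) w ↔ w ∈ R.U G x ∨ (w ∈ R.D G x ∧ w ∉ Ps R G x) := by
  unfold Ps
  rw [if_pos hx, mem_inter, mem_nb, mem_D, mem_U]
  tauto

/-- `G` is determined by its splitting -/
lemma Ps_inj (ok : R.Ok) {G' : SimpleGraph (Fin n)} (h : Eqv R G G₀) (h' : Eqv R G' G₀)
    (he : Ps R G = Ps R G') : G = G' := by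
  have key : ∀ u w, (u ∈ R.X ∨ ∃ x ∈ R.X, u = R.y x) → w ∉ R.E → (G.Adj u w ↔ G'.Adj u w) := by
    rintro u w (hu | ⟨x, hx, rfl⟩) hw
    · rw [adj_x hu hw, adj_x hu hw, h.U u hu, h'.U u hu, he]
    · rw [adj_y hx hw, adj_y hx hw, h.U x hx, h'.U x hx, h.D x hx, h'.D x hx, he]
  ext u w
  by_cases hz : Zo R s(u, w)
  · obtain ⟨p, q, hp, hq, hh⟩ := hz
    rw [Sym2.eq_iff] at hh
    rcases hh with ⟨rfl, rfl⟩ | ⟨rfl, rfl⟩
    · exact key _ _ hp hq
    · rw [G.adj_comm, G'.adj_comm]; exact key _ _ hp hq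
  · exact (h.nz _ hz).trans (h'.nz _ hz).symm

lemma nb_split (ok : R.Ok) (h : Eqv R G G₀) {x : Fin n} (hx : x ∈ R.X) :
    nb G x = (nb G₀ x ∩ R.E) ∪ (R.U G₀ x ∪ Ps R G x) := by
  ext w
  rw [mem_nb, mem_union, mem_union, mem_inter, mem_nb]
  by_cases hw : w ∈ R.E
  · have h1 := h.adj_E ok (ok.XE x hx) hw
    have h2 : w ∉ R.U G₀ x := fun hh => (mem_U.1 hh).2 hw
    have h3 : w ∉ Ps R G x := by
      unfold Ps; rw [if_pos hx, mem_inter, mem_D]; tauto
    rw [h1]; tauto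
  · rw [adj_x hx hw, h.U x hx]; tauto

lemma Ps_card (ok : R.Ok) (h : Eqv R G G₀) (hG : G ∈ reg n d) (hG₀ : G₀ ∈ reg n d) {x : Fin n}
    (hx : x ∈ R.X) : (Ps R G x).card = (Ps R G₀ x).card := by
  have key : ∀ {G : SimpleGraph (Fin n)}, Eqv R G G₀ → (nb G x).card =
      (nb G₀ x ∩ R.E).card + ((R.U G₀ x).card + (Ps R G x).card) := by
    intro G h
    have h1 : Disjoint (R.U G₀ x) (Ps R G x) := by
      rw [disjoint_left]
      intro w hw hw'
      rw [← h.U x hx, mem_U] at hw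
      unfold Ps at hw'
      rw [if_pos hx, mem_inter, mem_D] at hw'
      tauto
    have h2 : Disjoint (nb G₀ x ∩ R.E) (R.U G₀ x ∪ Ps R G x) := by
      rw [disjoint_left]
      intro w hw hw'
      rw [mem_inter] at hw
      rw [mem_union] at hw'
      rcases hw' with hw' | hw'
      · exact (mem_U.1 hw').2 hw.2
      · unfold Ps at hw'
        rw [if_pos hx, mem_inter, mem_D] at hw'
        exact hw'.2.2 hw.2
    rw [nb_split ok h hx, card_union_of_disjoint h2, card_union_of_disjoint h1]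
  have e1 := key h
  have e2 := key (Eqv.refl R G₀)
  rw [nb_card hG] at e1
  rw [nb_card hG₀] at e2
  omega

lemma Ps_mem (ok : R.Ok) (h : Eqv R G G₀) (hG : G ∈ reg n d) (hG₀ : G₀ ∈ reg n d) :
    Ps R G ∈ Fintype.piFinset (Om0 R G₀) := by
  rw [Fintype.mem_piFinset]
  intro x
  unfold Om0
  split_ifs with hx
  · rw [mem_powersetCard]
    constructor
    · rw [← h.D x hx]; unfold Ps; rw [if_pos hx]; exact inter_subset_right
    · rw [Ps_card ok h hG hG₀ hx]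
      unfold Ps; rw [if_pos hx]
  · unfold Ps; rw [if_neg hx]; exact mem_singleton_self _

/-- closed under transpositions -/
lemma class_step (ok : R.Ok) (h : Eqv R G G₀) (hG : G ∈ reg n d) {x w w' : Fin n} (hx : x ∈ R.X)
    (hw : w ∈ Ps R G x) (hw' : w' ∈ R.D G₀ x) (hw'' : w' ∉ Ps R G x) :
    ∃ G' ∈ reg n d, Eqv R G' G₀ ∧ Ps R G' x = insert w' ((Ps R G x).erase w) ∧
      ∀ x' ∈ R.X, x' ≠ x → Ps R G' x' = Ps R G x' := by
  classical
  rw [← h.D x hx] at hw'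
  have hPx : Ps R G x = nb G x ∩ R.D G x := by unfold Ps; rw [if_pos hx]
  rw [hPx, mem_inter, mem_nb] at hw hw''
  obtain ⟨w1, w2⟩ := hw
  have w3 := mem_D.1 w2
  have w4 := mem_D.1 hw'
  have w5 : ¬ G.Adj x w' := fun hh => hw'' ⟨hh, hw'⟩
  set y := R.y x with hy
  have w6 : G.Adj y w' := by tauto
  have w7 : ¬ G.Adj y w := by tauto
  have hyE : y ∈ R.E := ok.YE x hx
  have hxE : x ∈ R.E := ok.XE x hx
  have hxy : x ≠ y := fun hh => ok.XY x hx x hx hh.symm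
  have hwy0 : w ≠ y := fun hh => w3.2 (hh ▸ hyE)
  have hxw0 : x ≠ w' := fun hh => w4.2 (hh ▸ hxE)
  have hV : Val G (w, x, y, w') := ⟨w1.symm, w6, fun hh => w7 hh.symm, hwy0, w5, hxw0⟩
  obtain ⟨s1, s2, s3, s4, s5, s6, s7⟩ := Pool.Agent.K1H33.SH.t_SW n G w x y w' hV
  obtain ⟨G', hG'⟩ : ∃ G', G' = sw (w, x, y, w') G := ⟨_, rfl⟩
  rw [← hG'] at s1 s2 s3 s4 s5 s6 s7
  have hwx : w ≠ x := by rintro rfl; exact w3.2 hxE
  have hwy : w ≠ y := by rintro rfl; exact w3.2 hyE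
  have hw'x : w' ≠ x := by rintro rfl; exact w4.2 hxE
  have hw'y : w' ≠ y := by rintro rfl; exact w4.2 hyE
  have hww' : w ≠ w' := by rintro rfl; exact w5 w1
  have ho : ∀ v ∈ R.E, v ≠ x → v ≠ y → nb G' v = nb G v := by
    intro v hv h1 h2
    exact s6 v (fun hh => w3.2 (hh ▸ hv)) h1 h2 (fun hh => w4.2 (hh ▸ hv))
  have hadj : ∀ v ∈ R.E, v ≠ x → v ≠ y → ∀ u, (G'.Adj v u ↔ G.Adj v u) := by
    intro v hv h1 h2 u
    rw [← mem_nb, ho v hv h1 h2, mem_nb]
  have hax : ∀ u, G'.Adj x u ↔ (u = w' ∨ (u ≠ w ∧ G.Adj x u)) := by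
    intro u; rw [← mem_nb, s3, mem_insert, mem_erase, mem_nb]
  have hay : ∀ u, G'.Adj y u ↔ (u = w ∨ (u ≠ w' ∧ G.Adj y u)) := by
    intro u; rw [← mem_nb, s4, mem_insert, mem_erase, mem_nb]
  have hDx : R.D G' x = R.D G x := by
    ext u
    rw [mem_D, mem_D, ← hy, hax, hay]
    by_cases h1 : u = w
    · subst h1; tauto
    by_cases h2 : u = w'
    · subst h2; tauto
    simp only [h1, h2, ne_eq, not_false_eq_true, true_and, false_or]
  have hUx : R.U G' x = R.U G x := by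
    ext u
    rw [mem_U, mem_U, ← hy, hax, hay]
    by_cases h1 : u = w
    · subst h1; tauto
    by_cases h2 : u = w'
    · subst h2; tauto
    simp only [h1, h2, ne_eq, not_false_eq_true, true_and, false_or]
  have hother : ∀ x' ∈ R.X, x' ≠ x → nb G' x' = nb G x' ∧ nb G' (R.y x') = nb G (R.y x') := by
    intro x' hx' hne
    refine ⟨ho x' (ok.XE x' hx') hne (fun hh => ok.XY x hx x' hx' hh.symm), ?_⟩
    exact ho _ (ok.YE x' hx') (ok.XY x' hx' x hx) (fun hh => hne (ok.inj x' hx' x hx hh))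
  refine ⟨G', s7 d hG, ⟨?_, ?_, ?_⟩, ?_, ?_⟩
  · intro e he
    rw [← h.nz e he]
    induction e using Sym2.ind with
    | _ u v =>
    rw [SimpleGraph.mem_edgeSet, SimpleGraph.mem_edgeSet, s1 u v]
    have hz : ∀ p q : Fin n, (p = x ∨ p = y) → q ∉ R.E → s(u, v) ≠ s(p, q) := by
      intro p q hp hq hh
      apply he
      refine ⟨p, q, ?_, hq, hh⟩
      rcases hp with rfl | rfl
      · exact Or.inl hx
      · exact Or.inr ⟨x, hx, rfl⟩
    have n1 : s(u, v) ≠ s(w, y) := by rw [Sym2.eq_swap (a := w)]; exact hz y w (Or.inr rfl) w3.2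
    have n2 : s(u, v) ≠ s(x, w') := hz x w' (Or.inl rfl) w4.2
    have n3 : s(u, v) ≠ s(w, x) := by rw [Sym2.eq_swap (a := w)]; exact hz x w (Or.inl rfl) w3.2
    have n4 : s(u, v) ≠ s(y, w') := hz y w' (Or.inr rfl) w4.2
    tauto
  · intro x' hx'
    rw [← h.D x' hx']
    by_cases hne : x' = x
    · rw [hne]; exact hDx
    · obtain ⟨e1, e2⟩ := hother x' hx' hne
      unfold RD.D; rw [e1, e2]
  · intro x' hx'
    rw [← h.U x' hx']
    by_cases hne : x' = x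
    · rw [hne]; exact hUx
    · obtain ⟨e1, e2⟩ := hother x' hx' hne
      unfold RD.U; rw [e1, e2]
  · have e : Ps R G' x = nb G' x ∩ R.D G' x := by unfold Ps; rw [if_pos hx]
    rw [e, hPx, hDx]
    ext u
    rw [mem_inter, mem_nb, hax, mem_insert, mem_erase, mem_inter, mem_nb]
    constructor
    · rintro ⟨h1 | ⟨h1, h2⟩, h3⟩
      · exact Or.inl h1
      · exact Or.inr ⟨h1, h2, h3⟩
    · rintro (h1 | ⟨h1, h2, h3⟩)
      · subst h1; exact ⟨Or.inl rfl, hw'⟩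
      · exact ⟨Or.inr ⟨h1, h2⟩, h3⟩
  · intro x' hx' hne
    obtain ⟨e1, e2⟩ := hother x' hx' hne
    unfold Ps RD.D
    rw [e1, e2]

/-- every splitting occurs -/
lemma Ps_surj (ok : R.Ok) (hG₀ : G₀ ∈ reg n d) {T : Fin n → Finset (Fin n)}
    (hT : T ∈ Fintype.piFinset (Om0 R G₀)) : ∃ G ∈ reg n d, Eqv R G G₀ ∧ Ps R G = T := by
  classical
  rw [Fintype.mem_piFinset] at hT
  have hTx : ∀ x ∈ R.X, T x ⊆ R.D G₀ x ∧ (T x).card = (Ps R G₀ x).card := by
    intro x hx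
    have := hT x
    unfold Om0 at this
    rw [if_pos hx, mem_powersetCard] at this
    refine ⟨this.1, ?_⟩
    rw [this.2]; unfold Ps; rw [if_pos hx]
  set C := (reg n d).filter fun G => Eqv R G G₀ with hC
  have hne : C.Nonempty := ⟨G₀, mem_filter.2 ⟨hG₀, Eqv.refl R G₀⟩⟩
  obtain ⟨G, hGC, hmin⟩ := exists_min_image C (fun G => ∑ x ∈ R.X, (Ps R G x \ T x).card) hne
  obtain ⟨hG, hE⟩ := mem_filter.1 hGC
  refine ⟨G, hG, hE, ?_⟩
  have hz : ∀ x ∈ R.X, Ps R G x \ T x = ∅ := by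
    intro x hx
    by_contra hcon
    obtain ⟨w, hw⟩ := nonempty_iff_ne_empty.2 hcon
    rw [mem_sdiff] at hw
    have hcc : (Ps R G x).card = (T x).card := by rw [Ps_card ok hE hG hG₀ hx, (hTx x hx).2]
    have hex : ∃ w' ∈ T x, w' ∉ Ps R G x := by
      by_contra hh
      push Not at hh
      have : T x = Ps R G x := eq_of_subset_of_card_le hh hcc.le
      exact hw.2 (this ▸ hw.1)
    obtain ⟨w', hw'1, hw'2⟩ := hex
    obtain ⟨G', hG', hE', hP1, hP2⟩ := class_step ok hE hG hx hw.1 ((hTx x hx).1 hw'1) hw'2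
    have hle := hmin G' (mem_filter.2 ⟨hG', hE'⟩)
    have hlt : ∑ x ∈ R.X, (Ps R G' x \ T x).card < ∑ x ∈ R.X, (Ps R G x \ T x).card := by
      refine sum_lt_sum ?_ ⟨x, hx, ?_⟩
      · intro x' hx'
        by_cases hxx : x' = x
        · rw [hxx, hP1]
          refine card_le_card fun u hu => ?_
          rw [mem_sdiff, mem_insert, mem_erase] at hu
          rw [mem_sdiff]
          rcases hu.1 with h1 | h1
          · exact absurd (h1 ▸ hw'1) hu.2
          · exact ⟨h1.2, hu.2⟩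
        · rw [hP2 x' hx' hxx]
      · rw [hP1]
        refine card_lt_card ?_
        rw [ssubset_iff_of_subset]
        · refine ⟨w, mem_sdiff.2 hw, ?_⟩
          rw [mem_sdiff, mem_insert, mem_erase]
          rintro ⟨h1 | h1, h2⟩
          · exact h2 (h1 ▸ hw'1)
          · exact h1.1 rfl
        · intro u hu
          rw [mem_sdiff, mem_insert, mem_erase] at hu
          rw [mem_sdiff]
          rcases hu.1 with h1 | h1
          · exact absurd (h1 ▸ hw'1) hu.2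
          · exact ⟨h1.2, hu.2⟩
    omega
  funext x
  by_cases hx : x ∈ R.X
  · have h1 : Ps R G x ⊆ T x := sdiff_eq_empty_iff_subset.1 (hz x hx)
    refine eq_of_subset_of_card_le h1 ?_
    rw [(hTx x hx).2, Ps_card ok hE hG hG₀ hx]
  · have h1 := hT x
    unfold Om0 at h1
    rw [if_neg hx, mem_singleton] at h1
    unfold Ps
    rw [if_neg hx, h1]

/-- probability in a class -/
theorem class_bound (ok : R.Ok) (hG₀ : G₀ ∈ reg n d) (Q : (Fin n → Finset (Fin n)) → Prop)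
    [DecidablePred Q] {β : ℝ}
    (h : (((Fintype.piFinset (Om0 R G₀)).filter Q).card : ℝ) ≤
      β * (Fintype.piFinset (Om0 R G₀)).card) :
    (cnt n d (fun G => Eqv R G G₀ ∧ Q (Ps R G)) : ℝ) ≤ β * cnt n d (fun G => Eqv R G G₀) := by
  classical
  have e1 : cnt n d (fun G => Eqv R G G₀) = (Fintype.piFinset (Om0 R G₀)).card := by
    rw [cnt_filter]
    refine card_bij (fun G _ => Ps R G) ?_ ?_ ?_
    · intro G hG
      rw [mem_filter] at hG
      exact Ps_mem ok hG.2 hG.1 hG₀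
    · intro G hG G' hG' he
      rw [mem_filter] at hG hG'
      exact Ps_inj ok hG.2 hG'.2 he
    · intro T hT
      obtain ⟨G, h1, h2, h3⟩ := Ps_surj ok hG₀ hT
      exact ⟨G, mem_filter.2 ⟨h1, h2⟩, h3⟩
  have e2 : cnt n d (fun G => Eqv R G G₀ ∧ Q (Ps R G)) ≤
      ((Fintype.piFinset (Om0 R G₀)).filter Q).card := by
    rw [cnt_filter]
    refine card_le_card_of_injOn (fun G => Ps R G) ?_ ?_
    · intro G hG
      rw [mem_coe, mem_filter] at hG
      exact mem_filter.2 ⟨Ps_mem ok hG.2.1 hG.1 hG₀, hG.2.2⟩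
    · intro G hG G' hG' he
      rw [mem_coe, mem_filter] at hG hG'
      exact Ps_inj ok hG.2.1 hG'.2.1 he
  rw [e1]
  exact (Nat.cast_le.2 e2).trans h

/-- from the classes of a key to everything -/
lemma cnt_key {κ : Type*} (key : SimpleGraph (Fin n) → κ) (P : SimpleGraph (Fin n) → Prop) {B : ℝ}
    (h : ∀ G₀ ∈ reg n d, (cnt n d (fun G => key G = key G₀ ∧ P G) : ℝ) ≤
      B * cnt n d (fun G => key G = key G₀)) :
    (cnt n d P : ℝ) ≤ B * (reg n d).card := by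
  classical
  set T := (reg n d).image key with hT
  have e1 : cnt n d P = ∑ t ∈ T, (((reg n d).filter P).filter fun G => key G = t).card := by
    rw [cnt_filter]
    refine card_eq_sum_card_fiberwise fun G hG => ?_
    exact mem_image_of_mem _ (mem_filter.1 hG).1
  have e2 : (reg n d).card = ∑ t ∈ T, ((reg n d).filter fun G => key G = t).card :=
    card_eq_sum_card_fiberwise fun G hG => mem_image_of_mem _ hG
  rw [e1, e2]
  push_cast
  rw [mul_sum]
  refine sum_le_sum fun t ht => ?_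
  obtain ⟨G₀, hG₀, rfl⟩ := mem_image.1 ht
  have := h G₀ hG₀
  have a1 : cnt n d (fun G => key G = key G₀ ∧ P G) =
      (((reg n d).filter P).filter fun G => key G = key G₀).card := by
    rw [cnt_filter]
    congr 1
    ext G
    simp only [mem_filter]
    tauto
  have a2 : cnt n d (fun G => key G = key G₀) = ((reg n d).filter fun G => key G = key G₀).card := by
    rw [cnt_filter]
  rw [a1, a2] at this
  exact this

end Pool.Agent.U140.RG
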