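import Pool.Agent.U140.RG.Sq

/-! Lower tails by switchings: the chain. -/

set_option linter.unusedSectionVars false
set_option linter.unusedVariables false

namespace Pool.Agent.U140.RG

open Finset Pool.Agent.K1H35.SH

variable {n d : ℕ}

/-- lower tail from one-step estimates -/
theorem low_chain (P₀ Bd : SimpleGraph (Fin n) → Prop) (X : SimpleGraph (Fin n) → ℕ) (δ s : ℕ)
    (hδ : 1 ≤ δ)
    (h : ∀ m < 2 * s, 2 * cnt n d (fun G => P₀ G ∧ X G = m ∧ ¬ Bd G) ≤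
      cnt n d (fun G => P₀ G ∧ X G = m + δ)) :
    (cnt n d (fun G => P₀ G ∧ X G < s) : ℝ) ≤
      s * ((1 / 2) ^ (s / δ) * (reg n d).card + 2 * cnt n d Bd) := by
  classical
  -- one step
  have h1 : ∀ m < 2 * s, (cnt n d (fun G => P₀ G ∧ X G = m) : ℝ) ≤
      (1 / 2) * cnt n d (fun G => P₀ G ∧ X G = m + δ) + cnt n d Bd := by
    intro m hm
    have a1 := h m hm
    have a2 : cnt n d (fun G => P₀ G ∧ X G = m) ≤
        cnt n d (fun G => P₀ G ∧ X G = m ∧ ¬ Bd G) + cnt n d Bd := by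
      refine (cnt_mono fun G _ hG => ?_).trans (cnt_or _ _)
      by_cases hb : Bd G
      · exact Or.inr hb
      · exact Or.inl ⟨hG.1, hG.2, hb⟩
    have a1' : 2 * (cnt n d (fun G => P₀ G ∧ X G = m ∧ ¬ Bd G) : ℝ) ≤
      cnt n d (fun G => P₀ G ∧ X G = m + δ) := by exact_mod_cast a1
    have a2' : (cnt n d (fun G => P₀ G ∧ X G = m) : ℝ) ≤
        cnt n d (fun G => P₀ G ∧ X G = m ∧ ¬ Bd G) + cnt n d Bd := by exact_mod_cast a2
    linarith
  -- iterate
  have h2 : ∀ j m, m + j * δ < 2 * s + δ → (cnt n d (fun G => P₀ G ∧ X G = m) : ℝ) ≤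
      (1 / 2) ^ j * cnt n d (fun G => P₀ G ∧ X G = m + j * δ) + 2 * cnt n d Bd := by
    intro j
    induction j with
    | zero =>
      intro m _
      simp only [pow_zero, one_mul, zero_mul, add_zero]
      have : (0 : ℝ) ≤ cnt n d Bd := Nat.cast_nonneg _
      linarith
    | succ j ih =>
      intro m hm
      have e : (j + 1) * δ = δ + j * δ := by ring
      rw [e] at hm
      have b1 := h1 m (by omega)
      have b2 := ih (m + δ) (by omega)
      have e2 : m + δ + j * δ = m + (j + 1) * δ := by ring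
      rw [e2] at b2
      have : (0 : ℝ) ≤ cnt n d Bd := Nat.cast_nonneg _
      rw [pow_succ]
      nlinarith
  have h3 : ∀ m ∈ range s, (cnt n d (fun G => P₀ G ∧ X G = m) : ℝ) ≤
      (1 / 2) ^ (s / δ) * (reg n d).card + 2 * cnt n d Bd := by
    intro m hm
    have hm' := mem_range.1 hm
    have e : s / δ * δ ≤ s := Nat.div_mul_le_self s δ
    refine (h2 (s / δ) m (by omega)).trans ?_
    have : (cnt n d (fun G => P₀ G ∧ X G = m + s / δ * δ) : ℝ) ≤ (reg n d).card :=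
      Nat.cast_le.2 (cnt_le _)
    have : (1 / 2 : ℝ) ^ (s / δ) * cnt n d (fun G => P₀ G ∧ X G = m + s / δ * δ) ≤
        (1 / 2) ^ (s / δ) * (reg n d).card := mul_le_mul_of_nonneg_left this (by positivity)
    linarith
  have h4 : (cnt n d (fun G => P₀ G ∧ X G < s) : ℝ) ≤
      ∑ m ∈ range s, (cnt n d (fun G => P₀ G ∧ X G = m) : ℝ) := by
    refine le_trans ?_ (cnt_existsR (range s) fun m G => P₀ G ∧ X G = m)
    exact Nat.cast_le.2 (cnt_mono fun G _ hG => ⟨X G, mem_range.2 hG.2, hG.1, rfl⟩)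
  refine h4.trans ((sum_le_sum h3).trans ?_)
  rw [sum_const, card_range, nsmul_eq_mul]

/-- `G'` is obtained from `G` by the switch `ab, ce → ac, be` -/
structure SwF (G G' : SimpleGraph (Fin n)) (a b c e : Fin n) : Prop where
  ab : G.Adj a b
  ce : G.Adj c e
  nac : ¬ G.Adj a c
  hac : a ≠ c
  nbe : ¬ G.Adj b e
  hbe : b ≠ e
  ac' : G'.Adj a c
  be' : G'.Adj b e
  na : nb G' a = insert c ((nb G a).erase b)
  nb_ : nb G' b = insert e ((nb G b).erase a)
  nc : nb G' c = insert a ((nb G c).erase e)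
  ne_ : nb G' e = insert b ((nb G e).erase c)
  nz : ∀ z, z ≠ a → z ≠ b → z ≠ c → z ≠ e → nb G' z = nb G z

/-- one step from a double counting of switchings -/
theorem step_dc (P Q : SimpleGraph (Fin n) → Prop)
    (F B : SimpleGraph (Fin n) → Finset (Tup n)) (f g : ℕ)
    (h0 : ∀ G ∈ reg n d, P G → ∀ a b c e, (a, b, c, e) ∈ F G → Val G (a, b, c, e))
    (h1 : ∀ G ∈ reg n d, P G → ∀ a b c e, (a, b, c, e) ∈ F G → ∀ G' ∈ reg n d,
      SwF G G' a b c e → Q G' ∧ (a, b, c, e) ∈ B G')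
    (h2 : ∀ G ∈ reg n d, P G → f ≤ (F G).card)
    (h3 : ∀ G ∈ reg n d, Q G → (B G).card ≤ g) (hfg : 2 * g ≤ f) (hf : 0 < f) :
    2 * cnt n d P ≤ cnt n d Q := by
  have hSW := Pool.Agent.K1H33.SH.t_SW
  have key := Pool.Agent.K1H33.SH.t_DC n d P Q F B f g (fun G hG hP t ht => by
    obtain ⟨a, b, c, e⟩ := t
    have a1 := h0 G hG hP a b c e ht
    obtain ⟨s1, s2, s3, s4, s5, s6, s7⟩ := hSW n G a b c e a1
    have a2 := h1 G hG hP a b c e ht _ (s7 d hG)
      ⟨a1.1, a1.2.1, a1.2.2.1, a1.2.2.2.1, a1.2.2.2.2.1, a1.2.2.2.2.2,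
        (s1 a c).2 (Or.inl (Or.inl rfl)), (s1 b e).2 (Or.inl (Or.inr rfl)), s2, s3, s4, s5, s6⟩
    exact ⟨s7 d hG, a2⟩) h2 h3
  have h4 : f * (2 * cnt n d P) ≤ f * cnt n d Q := by
    calc f * (2 * cnt n d P) = 2 * (f * cnt n d P) := by ring
      _ ≤ 2 * (g * cnt n d Q) := Nat.mul_le_mul_left _ key
      _ = (2 * g) * cnt n d Q := by ring
      _ ≤ f * cnt n d Q := Nat.mul_le_mul_right _ hfg
  exact Nat.le_of_mul_le_mul_left h4 hf

end Pool.Agent.U140.RG
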