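import Pool.Agent.U140.RG.T0
import Pool.Agent.U140.SG.Greedy

/-! Sequential bound for chains of 3-paths in random regular graphs. -/

set_option linter.unusedSectionVars false
set_option linter.unusedVariables false

namespace Pool.Agent.U140.RG

open Finset Pool.Agent.K1H35.SH
open Pool.Agent.U140.SG (IsP3 pe Chain MaxDeg Wt kn Om gr Wt_nonneg kn_nonneg sum_bound
  pe_distinct not_diag_of_mem_pe mix mix_mem mix_not)

variable {n d : ℕ}

/-! ### counting -/

lemma cnt_filter (P : SimpleGraph (Fin n) → Prop) [DecidablePred P] :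
    cnt n d P = ((reg n d).filter P).card := by
  unfold cnt
  congr 1
  ext G
  simp only [mem_filter]

lemma cnt_mono {P Q : SimpleGraph (Fin n) → Prop} (h : ∀ G ∈ reg n d, P G → Q G) :
    cnt n d P ≤ cnt n d Q := by
  classical
  rw [cnt_filter, cnt_filter]
  refine card_le_card fun G hG => ?_
  rw [mem_filter] at hG ⊢
  exact ⟨hG.1, h G hG.1 hG.2⟩

lemma cnt_le (P : SimpleGraph (Fin n) → Prop) : cnt n d P ≤ (reg n d).card := by
  classical
  rw [cnt_filter]
  exact card_le_card (filter_subset _ _)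

lemma cnt_true : cnt n d (fun _ => True) = (reg n d).card := by
  classical
  rw [cnt_filter]
  congr 1
  exact filter_true_of_mem fun _ _ => trivial

lemma cnt_or (P Q : SimpleGraph (Fin n) → Prop) :
    cnt n d (fun G => P G ∨ Q G) ≤ cnt n d P + cnt n d Q := by
  classical
  rw [cnt_filter, cnt_filter, cnt_filter]
  refine le_trans (card_le_card fun G hG => ?_) (card_union_le _ _)
  rw [mem_union, mem_filter, mem_filter]
  rw [mem_filter] at hG
  tauto

lemma cnt_exists {ι : Type*} (T : Finset ι) (A : ι → SimpleGraph (Fin n) → Prop) :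
    cnt n d (fun G => ∃ i ∈ T, A i G) ≤ ∑ i ∈ T, cnt n d (A i) := by
  classical
  simp only [cnt_filter]
  refine le_trans (card_le_card fun G hG => ?_) card_biUnion_le
  rw [mem_filter] at hG
  obtain ⟨h1, i, hi, h2⟩ := hG
  exact mem_biUnion.2 ⟨i, hi, mem_filter.2 ⟨h1, h2⟩⟩

lemma cnt_existsR {ι : Type*} (T : Finset ι) (A : ι → SimpleGraph (Fin n) → Prop) :
    (cnt n d (fun G => ∃ i ∈ T, A i G) : ℝ) ≤ ∑ i ∈ T, (cnt n d (A i) : ℝ) := by
  exact_mod_cast cnt_exists T A

lemma cnt_exists_list {β : Type*} (L : List β) (A : β → SimpleGraph (Fin n) → Prop) {B : ℝ}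
    (h : ∀ x ∈ L, (cnt n d (A x) : ℝ) ≤ B) :
    (cnt n d (fun G => ∃ x ∈ L, A x G) : ℝ) ≤ L.length * B := by
  classical
  induction L with
  | nil =>
    have : cnt n d (fun G => ∃ x ∈ ([] : List β), A x G) = 0 := by
      refine cnt_zero ?_
      rintro G hG ⟨x, hx, -⟩
      simp at hx
    rw [this]; simp
  | cons x L ih =>
    have h1 : cnt n d (fun G => ∃ y ∈ x :: L, A y G) ≤
        cnt n d (A x) + cnt n d (fun G => ∃ y ∈ L, A y G) := by
      refine (cnt_mono fun G _ hh => ?_).trans (cnt_or _ _)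
      obtain ⟨y, hy, hA⟩ := hh
      rcases List.mem_cons.1 hy with hyx | hy
      · subst hyx; exact Or.inl hA
      · exact Or.inr ⟨y, hy, hA⟩
    have h1' : (cnt n d (fun G => ∃ y ∈ x :: L, A y G) : ℝ) ≤
        cnt n d (A x) + cnt n d (fun G => ∃ y ∈ L, A y G) := by exact_mod_cast h1
    have h2 := ih fun y hy => h y (List.mem_cons_of_mem _ hy)
    have h3 := h x List.mem_cons_self
    rw [List.length_cons]
    push_cast
    linarith

lemma Ag.refl (S : Finset (Sym2 (Fin n))) (G : SimpleGraph (Fin n)) : Ag S G G := fun _ _ => Iff.rfl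

/-- from the classes to everything -/
lemma cnt_classes (S : Finset (Sym2 (Fin n))) (P : SimpleGraph (Fin n) → Prop) {B : ℝ}
    (h : ∀ G₀ ∈ reg n d, (cnt n d (fun G => Ag S G₀ G ∧ P G) : ℝ) ≤
      B * cnt n d (fun G => Ag S G₀ G)) :
    (cnt n d P : ℝ) ≤ B * (reg n d).card := by
  classical
  set key : SimpleGraph (Fin n) → Finset (Sym2 (Fin n)) := fun G => S.filter fun e => e ∈ G.edgeSet
    with hkey
  have hk : ∀ G G' : SimpleGraph (Fin n), key G = key G' ↔ Ag S G' G := by
    intro G G'
    rw [hkey]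
    constructor
    · intro hh e he
      have := Finset.ext_iff.1 hh e
      simp only [mem_filter, he, true_and] at this
      exact this
    · intro hh
      ext e
      simp only [mem_filter]
      constructor
      · rintro ⟨h1, h2⟩; exact ⟨h1, (hh e h1).1 h2⟩
      · rintro ⟨h1, h2⟩; exact ⟨h1, (hh e h1).2 h2⟩
  set T := (reg n d).image key with hT
  have e1 : cnt n d P = ∑ t ∈ T, (((reg n d).filter P).filter fun G => key G = t).card := by
    rw [cnt_filter]
    refine card_eq_sum_card_fiberwise fun G hG => ?_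
    exact mem_image_of_mem _ (mem_filter.1 hG).1
  have e2 : (reg n d).card = ∑ t ∈ T, ((reg n d).filter fun G => key G = t).card :=
    card_eq_sum_card_fiberwise fun G hG => mem_image_of_mem _ hG
  rw [e1, e2]
  push_cast
  rw [mul_sum]
  refine sum_le_sum fun t ht => ?_
  obtain ⟨G₀, hG₀, rfl⟩ := mem_image.1 ht
  have := h G₀ hG₀
  have a1 : cnt n d (fun G => Ag S G₀ G ∧ P G) =
      (((reg n d).filter P).filter fun G => key G = key G₀).card := by
    rw [cnt_filter]
    congr 1
    ext G
    simp only [mem_filter, hk]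
    tauto
  have a2 : cnt n d (fun G => Ag S G₀ G) = ((reg n d).filter fun G => key G = key G₀).card := by
    rw [cnt_filter]
    congr 1
    ext G
    simp only [mem_filter, hk]
  rw [a1, a2] at this
  exact this

/-! ### edges -/

structure Cap (n d : ℕ) (S : Finset (Sym2 (Fin n))) (G₀ : SimpleGraph (Fin n)) (M : ℕ) : Prop where
  hd : 32 * d ≤ n
  hp : ∀ x y : Fin n, x ≠ y → s(x, y) ∉ S → 16 * pd S x ≤ n
  hk : 8 * kd S G₀ ≤ n * d
  hM : 16 * M ≤ n * d

/-- the rate -/
noncomputable def rt (n d : ℕ) : ℝ := 2 * d / n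

lemma rt_nonneg (n d : ℕ) : 0 ≤ rt n d := by unfold rt; positivity

theorem co_bound {S : Finset (Sym2 (Fin n))} {G₀ : SimpleGraph (Fin n)} {M : ℕ}
    (hc : Cap n d S G₀ M) (F : Finset (Sym2 (Fin n))) :
    (∀ e ∈ F, e ∉ S ∧ ¬ e.IsDiag) → F.card ≤ M →
    (cnt n d (fun G => Ag S G₀ G ∧ Co F G) : ℝ) ≤ rt n d ^ F.card * cnt n d (fun G => Ag S G₀ G) := by
  classical
  induction F using Finset.induction with
  | empty =>
    intro _ _
    simp only [card_empty, pow_zero, one_mul]
    exact Nat.cast_le.2 (cnt_mono fun G _ h => h.1)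
  | insert e F he ih =>
    intro hF hM
    rw [card_insert_of_notMem he] at hM ⊢
    have h1 := ih (fun e' he' => hF e' (mem_insert_of_mem he')) (by omega)
    obtain ⟨h2, h3⟩ := hF e (mem_insert_self e F)
    induction e using Sym2.ind with
    | _ x y =>
    rw [Sym2.mk_isDiag_iff] at h3
    have hn : 0 < n := Fin.pos x
    have hyx : s(y, x) ∉ S := by rw [Sym2.eq_swap]; exact h2
    have key := sb S F G₀ x y h2 he hc.hd (hc.hp x y h3 h2) (hc.hp y x (Ne.symm h3) hyx) hc.hk
      (by have := hc.hM; omega)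
    have e1 : cnt n d (fun G => Ag S G₀ G ∧ Co (insert s(x, y) F) G) ≤
        cnt n d (fun G => Ag S G₀ G ∧ Co F G ∧ G.Adj x y) := by
      refine cnt_mono fun G _ h => ⟨h.1, fun e' he' => h.2 e' (mem_insert_of_mem he'), ?_⟩
      exact h.2 _ (mem_insert_self _ _)
    have e2 : n * cnt n d (fun G => Ag S G₀ G ∧ Co (insert s(x, y) F) G) ≤
        2 * d * cnt n d (fun G => Ag S G₀ G ∧ Co F G) := (Nat.mul_le_mul_left _ e1).trans key
    have e3 : (n : ℝ) * cnt n d (fun G => Ag S G₀ G ∧ Co (insert s(x, y) F) G) ≤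
        2 * d * cnt n d (fun G => Ag S G₀ G ∧ Co F G) := by exact_mod_cast e2
    have hn' : (0 : ℝ) < n := by exact_mod_cast hn
    have e4 : (cnt n d (fun G => Ag S G₀ G ∧ Co (insert s(x, y) F) G) : ℝ) ≤
        rt n d * cnt n d (fun G => Ag S G₀ G ∧ Co F G) := by
      unfold rt
      rw [div_mul_eq_mul_div, le_div_iff₀ hn']
      linarith
    refine e4.trans ?_
    rw [pow_succ', mul_assoc]
    exact mul_le_mul_of_nonneg_left h1 (rt_nonneg n d)

lemma maxDeg_reg {G : SimpleGraph (Fin n)} (hG : G ∈ reg n d) : MaxDeg G d := by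
  classical
  intro v
  rw [← nb_card hG v]
  refine card_le_card fun x hx => ?_
  rw [mem_nb]
  exact (mem_filter.1 hx).2

lemma maxDeg_mono {G : SimpleGraph (Fin n)} {D D' : ℕ} (h : MaxDeg G D) (hD : D ≤ D') :
    MaxDeg G D' := fun v => (h v).trans hD

/-- sequential bound -/
theorem rseq {S : Finset (Sym2 (Fin n))} {G₀ : SimpleGraph (Fin n)} {M : ℕ}
    (hc : Cap n d S G₀ M) (l : List (Fin n × Fin n)) :
    ∀ F : Finset (Sym2 (Fin n)), (∀ e ∈ F, e ∉ S ∧ ¬ e.IsDiag) → F.card + 3 * l.length ≤ M →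
    (cnt n d (fun G => Ag S G₀ G ∧ Co F G ∧ Chain G (S ∪ F) l) : ℝ) ≤
      rt n d ^ F.card * (Wt n (rt n d) d ^ l.length * cnt n d (fun G => Ag S G₀ G)) := by
  classical
  induction l with
  | nil =>
    intro F hF hM
    simp only [List.length_nil, pow_zero, one_mul]
    refine le_trans ?_ (co_bound hc F hF (by simpa using hM))
    exact Nat.cast_le.2 (cnt_mono fun G _ h => ⟨h.1, h.2.1⟩)
  | cons q l ih =>
    intro F hF hM
    obtain ⟨x, y⟩ := q
    have hr := rt_nonneg n d
    have hW := Wt_nonneg (n := n) hr d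
    set B : ℝ := Wt n (rt n d) d ^ l.length * cnt n d (fun G => Ag S G₀ G) with hB
    have hB0 : 0 ≤ B := by rw [hB]; positivity
    by_cases hex : ∃ G ∈ reg n d, Ag S G₀ G ∧ Co F G
    swap
    · push Not at hex
      have : cnt n d (fun G => Ag S G₀ G ∧ Co F G ∧ Chain G (S ∪ F) ((x, y) :: l)) = 0 := by
        refine cnt_zero ?_
        rintro G hG ⟨h1, h2, -⟩
        exact hex G hG h1 h2
      rw [this]
      push_cast
      positivity
    obtain ⟨G₁, hG₁, hA₁, hC₁⟩ := hex
    set κ : Om n := fun e => decide (e ∈ G₁.edgeSet) with hκ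
    have hgr : gr (mix (S ∪ F) κ κ) = G₁ := by
      have : mix (S ∪ F) κ κ = κ := by
        funext e
        by_cases h : e ∈ S ∪ F
        · rw [mix_mem h]
        · rw [mix_not h]
      rw [this]
      ext a b
      rw [Pool.Agent.U140.SG.gr_adj, hκ]
      simp only [decide_eq_true_eq, SimpleGraph.mem_edgeSet]
      exact ⟨fun h => h.2, fun h => ⟨h.ne, h⟩⟩
    set A : Fin n × Fin n → SimpleGraph (Fin n) → Prop := fun ab G =>
      Ag S G₀ G ∧ Co F G ∧ IsP3 G x ab.1 ab.2 y ∧ ¬ pe x ab.1 ab.2 y ⊆ S ∪ F ∧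
        Chain G (S ∪ F ∪ pe x ab.1 ab.2 y) l with hA
    have hle : (cnt n d (fun G => Ag S G₀ G ∧ Co F G ∧ Chain G (S ∪ F) ((x, y) :: l)) : ℝ) ≤
        ∑ ab : Fin n × Fin n, (cnt n d (A ab) : ℝ) := by
      refine le_trans ?_ (cnt_existsR univ A)
      refine Nat.cast_le.2 (cnt_mono fun G _ h => ?_)
      obtain ⟨h1, h2, a, b, h3, h4, h5⟩ := h
      exact ⟨(a, b), mem_univ _, h1, h2, h3, h4, h5⟩
    refine hle.trans ?_
    have hterm : ∀ ab : Fin n × Fin n, (cnt n d (A ab) : ℝ) ≤
        ((kn (S ∪ F) κ s(x, ab.1) + rt n d) * (kn (S ∪ F) κ s(ab.1, ab.2) + rt n d) *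
          (kn (S ∪ F) κ s(ab.2, y) + rt n d) -
          kn (S ∪ F) κ s(x, ab.1) * kn (S ∪ F) κ s(ab.1, ab.2) * kn (S ∪ F) κ s(ab.2, y)) *
          (rt n d ^ F.card * B) := by
      rintro ⟨a, b⟩
      simp only
      have k1 := kn_nonneg (S ∪ F) κ s(x, a)
      have k2 := kn_nonneg (S ∪ F) κ s(a, b)
      have k3 := kn_nonneg (S ∪ F) κ s(b, y)
      have hval : 0 ≤ (kn (S ∪ F) κ s(x, a) + rt n d) * (kn (S ∪ F) κ s(a, b) + rt n d) *
          (kn (S ∪ F) κ s(b, y) + rt n d) -
          kn (S ∪ F) κ s(x, a) * kn (S ∪ F) κ s(a, b) * kn (S ∪ F) κ s(b, y) := by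
        have : (kn (S ∪ F) κ s(x, a) + rt n d) * (kn (S ∪ F) κ s(a, b) + rt n d) *
          (kn (S ∪ F) κ s(b, y) + rt n d) -
          kn (S ∪ F) κ s(x, a) * kn (S ∪ F) κ s(a, b) * kn (S ∪ F) κ s(b, y) =
          rt n d * (kn (S ∪ F) κ s(x, a) * kn (S ∪ F) κ s(a, b)) +
          rt n d * (kn (S ∪ F) κ s(x, a) * kn (S ∪ F) κ s(b, y)) +
          rt n d * (kn (S ∪ F) κ s(a, b) * kn (S ∪ F) κ s(b, y)) +
          rt n d ^ 2 * kn (S ∪ F) κ s(x, a) + rt n d ^ 2 * kn (S ∪ F) κ s(a, b) +
          rt n d ^ 2 * kn (S ∪ F) κ s(b, y) + rt n d ^ 3 := by ring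
        rw [this]; positivity
      by_cases hne : ∃ G ∈ reg n d, A (a, b) G
      swap
      · push Not at hne
        have : cnt n d (A (a, b)) = 0 := by
          refine cnt_zero ?_
          intro G hG
          exact hne G hG
        rw [this]
        push_cast
        positivity
      obtain ⟨G₂, hG₂, hA₂, hC₂, hP, hS, -⟩ := hne
      simp only at hP hS
      set N := pe x a b y \ (S ∪ F) with hN
      have hFN : Disjoint F N := by
        rw [hN, disjoint_left]
        intro e he he'
        exact (mem_sdiff.1 he').2 (mem_union_right _ he)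
      have hNc : N.card ≤ 3 := (card_le_card sdiff_subset).trans (by unfold pe; exact card_le_three)
      have hS' : S ∪ F ∪ pe x a b y = S ∪ (F ∪ N) := by
        ext e
        simp only [mem_union, hN, mem_sdiff]
        tauto
      have h1 := ih (F ∪ N) ?_ ?_
      rotate_left
      · intro e he
        rcases mem_union.1 he with he | he
        · exact hF e he
        · rw [hN, mem_sdiff, mem_union, not_or] at he
          exact ⟨he.2.1, not_diag_of_mem_pe hP he.1⟩
      · rw [card_union_of_disjoint hFN]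
        rw [List.length_cons] at hM
        omega
      have h2 : (cnt n d (A (a, b)) : ℝ) ≤
          cnt n d (fun G => Ag S G₀ G ∧ Co (F ∪ N) G ∧ Chain G (S ∪ (F ∪ N)) l) := by
        refine Nat.cast_le.2 (cnt_mono fun G _ h => ?_)
        obtain ⟨g1, g2, g3, g4, g5⟩ := h
        simp only at g3 g4 g5
        rw [hS'] at g5
        refine ⟨g1, ?_, g5⟩
        intro e he
        rcases mem_union.1 he with he | he
        · exact g2 e he
        · have := (mem_sdiff.1 he).1
          unfold pe at this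
          simp only [mem_insert, mem_singleton] at this
          obtain ⟨q1, q2, q3, -⟩ := g3
          rcases this with rfl | rfl | rfl
          · exact q1
          · exact q2
          · exact q3
      refine h2.trans (h1.trans ?_)
      rw [card_union_of_disjoint hFN, pow_add]
      have hrN : rt n d ^ N.card ≤ (kn (S ∪ F) κ s(x, a) + rt n d) *
          (kn (S ∪ F) κ s(a, b) + rt n d) * (kn (S ∪ F) κ s(b, y) + rt n d) -
          kn (S ∪ F) κ s(x, a) * kn (S ∪ F) κ s(a, b) * kn (S ∪ F) κ s(b, y) := by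
        obtain ⟨d1, d2, d3⟩ := pe_distinct hP
        have hprod : ∀ g : Sym2 (Fin n) → ℝ, ∏ e ∈ pe x a b y, g e =
            g s(x, a) * g s(a, b) * g s(b, y) := by
          intro g
          unfold pe
          rw [prod_insert (by simp [d1, d2]), prod_insert (by simp [d3]), prod_singleton]
          ring
        have hopen : ∀ e ∈ pe x a b y, e ∈ G₂.edgeSet := by
          intro e he
          unfold pe at he
          simp only [mem_insert, mem_singleton] at he
          obtain ⟨q1, q2, q3, -⟩ := hP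
          rcases he with rfl | rfl | rfl
          · exact q1
          · exact q2
          · exact q3
        have hknown : ∀ e ∈ pe x a b y, e ∈ S ∪ F → kn (S ∪ F) κ e = 1 := by
          intro e he heS
          have h1 := hopen e he
          have h2 : e ∈ G₁.edgeSet := by
            rcases mem_union.1 heS with h | h
            · rw [hA₁ e h, ← hA₂ e h]; exact h1
            · exact hC₁ e h
          unfold kn
          rw [if_pos ⟨heS, by rw [hκ]; simpa using h2, not_diag_of_mem_pe hP he⟩]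
        have hzero : kn (S ∪ F) κ s(x, a) * kn (S ∪ F) κ s(a, b) * kn (S ∪ F) κ s(b, y) = 0 := by
          rw [← hprod]
          rw [not_subset] at hS
          obtain ⟨e, he, heS⟩ := hS
          refine prod_eq_zero he ?_
          unfold kn
          rw [if_neg (by tauto)]
        rw [hzero, sub_zero, ← hprod (fun e => kn (S ∪ F) κ e + rt n d)]
        have hpN : rt n d ^ N.card = ∏ e ∈ pe x a b y, (if e ∈ S ∪ F then (1 : ℝ) else rt n d) := by
          rw [prod_ite, prod_const_one, one_mul, prod_const]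
          congr 1
          rw [hN]
          congr 1
          ext e
          simp [mem_sdiff, mem_filter]
        rw [hpN]
        refine prod_le_prod (fun e _ => by split_ifs <;> simp [hr]) fun e he => ?_
        by_cases h : e ∈ S ∪ F
        · rw [if_pos h, hknown e he h]; linarith
        · rw [if_neg h]; have := kn_nonneg (S ∪ F) κ e; linarith
      calc rt n d ^ F.card * rt n d ^ N.card * B = rt n d ^ N.card * (rt n d ^ F.card * B) := by ring
        _ ≤ _ := mul_le_mul_of_nonneg_right hrN (by positivity)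
    refine (sum_le_sum fun ab _ => hterm ab).trans ?_
    rw [← sum_mul, Fintype.sum_prod_type, List.length_cons, pow_succ]
    have hsum := sum_bound (S := S ∪ F) (κ := κ) (ω := κ) (D := d) hr
      (by rw [hgr]; exact maxDeg_reg hG₁) x y
    calc _ ≤ Wt n (rt n d) d * (rt n d ^ F.card * B) :=
          mul_le_mul_of_nonneg_right hsum (by positivity)
      _ = _ := by rw [hB]; ring

/-- no known pairs -/
lemma cap0 (hd : 32 * d ≤ n) (G₀ : SimpleGraph (Fin n)) {M : ℕ} (hM : 16 * M ≤ n * d) :
    Cap n d ∅ G₀ M where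
  hd := hd
  hp := by intro x y _ _; simp [pd]
  hk := by simp [kd]
  hM := hM

theorem rseq0 (hd : 32 * d ≤ n) {l : List (Fin n × Fin n)} (hM : 48 * l.length ≤ n * d) :
    (cnt n d (fun G => Chain G ∅ l) : ℝ) ≤ Wt n (rt n d) d ^ l.length * (reg n d).card := by
  have h := rseq (cap0 hd (⊥ : SimpleGraph (Fin n)) (M := 3 * l.length) (by omega)) l ∅ (by simp)
    (by simp)
  simp only [card_empty, pow_zero, one_mul] at h
  have e1 : cnt n d (fun G => Ag ∅ (⊥ : SimpleGraph (Fin n)) G) = (reg n d).card := by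
    rw [← cnt_true]
    exact le_antisymm (cnt_mono fun _ _ _ => trivial) (cnt_mono fun _ _ _ e he => by simp at he)
  rw [e1] at h
  refine le_trans ?_ h
  refine Nat.cast_le.2 (cnt_mono fun G _ hh => ⟨fun e he => by simp at he, fun e he => by simp at he, ?_⟩)
  rwa [union_empty]

end Pool.Agent.U140.RG
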