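import Pool.Agent.K1H33.SH.Sw
import Pool.Agent.K1H33.SH.Dc
import Pool.Agent.K1H35.SH.Fin

/-! Uniform random regular graphs: the probability of a further edge, given the pairs of a sparse
set and finitely many edges. -/

set_option linter.unusedSectionVars false
set_option linter.unusedVariables false

namespace Pool.Agent.U140.RG

open Finset Pool.Agent.K1H35.SH

variable {n d : ℕ}

/-- agreement with `G₀` on `S` -/
def Ag (S : Finset (Sym2 (Fin n))) (G₀ G : SimpleGraph (Fin n)) : Prop :=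
  ∀ e ∈ S, (e ∈ G.edgeSet ↔ e ∈ G₀.edgeSet)

/-- all pairs of `F` are edges -/
def Co (F : Finset (Sym2 (Fin n))) (G : SimpleGraph (Fin n)) : Prop := ∀ e ∈ F, e ∈ G.edgeSet

open Classical in
/-- number of pairs of `S` at `x` -/
noncomputable def pd (S : Finset (Sym2 (Fin n))) (x : Fin n) : ℕ :=
  (univ.filter fun c => s(x, c) ∈ S).card

open Classical in
/-- the darts -/
noncomputable def Da (G : SimpleGraph (Fin n)) : Finset (Fin n × Fin n) :=
  univ.filter fun q => G.Adj q.1 q.2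

open Classical in
/-- the known darts -/
noncomputable def kd (S : Finset (Sym2 (Fin n))) (G : SimpleGraph (Fin n)) : ℕ :=
  ((Da G).filter fun q => s(q.1, q.2) ∈ S).card

lemma mem_Da {G : SimpleGraph (Fin n)} {q : Fin n × Fin n} : q ∈ Da G ↔ G.Adj q.1 q.2 := by
  classical
  simp [Da]

lemma nb_card {G : SimpleGraph (Fin n)} (hG : G ∈ reg n d) (v : Fin n) : (nb G v).card = d :=
  (mem_reg G).1 hG v

lemma da_fst {G : SimpleGraph (Fin n)} (hG : G ∈ reg n d) (A : Finset (Fin n)) :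
    ((Da G).filter fun q => q.1 ∈ A).card = A.card * d := by
  classical
  have h := card_eq_sum_card_fiberwise (f := Prod.fst) (s := (Da G).filter fun q => q.1 ∈ A)
    (t := A) (fun q hq => (mem_filter.1 hq).2)
  rw [h]
  refine (sum_congr rfl fun v hv => ?_).trans (sum_const_nat (m := d) fun v _ => rfl)
  rw [← nb_card hG v]
  refine card_bij' (fun q _ => q.2) (fun x _ => (v, x)) ?_ ?_ ?_ ?_
  · intro q hq
    simp only [mem_filter, mem_Da] at hq
    rw [mem_nb, ← hq.2]; exact hq.1.1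
  · intro x hx
    rw [mem_nb] at hx
    simp only [mem_filter, mem_Da]
    exact ⟨⟨hx, hv⟩, trivial⟩
  · intro q hq
    simp only [mem_filter] at hq
    exact Prod.ext hq.2.symm rfl
  · intro x hx; rfl

lemma da_snd {G : SimpleGraph (Fin n)} (hG : G ∈ reg n d) (A : Finset (Fin n)) :
    ((Da G).filter fun q => q.2 ∈ A).card = A.card * d := by
  classical
  rw [← da_fst hG A]
  refine card_bij' (fun q _ => q.swap) (fun q _ => q.swap) ?_ ?_ ?_ ?_
  · intro q hq
    simp only [mem_filter, mem_Da, Prod.fst_swap, Prod.snd_swap] at hq ⊢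
    exact ⟨hq.1.symm, hq.2⟩
  · intro q hq
    simp only [mem_filter, mem_Da, Prod.fst_swap, Prod.snd_swap] at hq ⊢
    exact ⟨hq.1.symm, hq.2⟩
  · intro q hq; exact Prod.swap_swap q
  · intro q hq; exact Prod.swap_swap q

lemma da_card {G : SimpleGraph (Fin n)} (hG : G ∈ reg n d) : (Da G).card = n * d := by
  classical
  have h := da_fst hG univ
  rw [card_univ, Fintype.card_fin] at h
  rw [← h]
  congr 1
  ext q; simp

/-- darts on a set of pairs -/
lemma da_pairs (G : SimpleGraph (Fin n)) (F : Finset (Sym2 (Fin n))) :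
    ((Da G).filter fun q => s(q.1, q.2) ∈ F).card ≤ 2 * F.card := by
  classical
  have h : (Da G).filter (fun q => s(q.1, q.2) ∈ F) ⊆
      F.biUnion fun e => (univ : Finset (Fin n × Fin n)).filter fun q => s(q.1, q.2) = e := by
    intro q hq
    rw [mem_biUnion]
    exact ⟨_, (mem_filter.1 hq).2, mem_filter.2 ⟨mem_univ _, rfl⟩⟩
  refine (card_le_card h).trans (card_biUnion_le.trans ?_)
  rw [mul_comm]
  refine (sum_le_card_nsmul F _ 2 fun e _ => ?_).trans (by simp)
  induction e using Sym2.ind with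
  | _ a b =>
  have : (univ : Finset (Fin n × Fin n)).filter (fun q => s(q.1, q.2) = s(a, b)) ⊆
      {(a, b), (b, a)} := by
    intro q hq
    have := (mem_filter.1 hq).2
    rw [Sym2.eq_iff] at this
    rw [mem_insert, mem_singleton]
    rcases this with ⟨e1, e2⟩ | ⟨e1, e2⟩
    · exact Or.inl (Prod.ext e1 e2)
    · exact Or.inr (Prod.ext e1 e2)
  exact (card_le_card this).trans card_le_two

lemma kd_ag {S : Finset (Sym2 (Fin n))} {G₀ G : SimpleGraph (Fin n)} (h : Ag S G₀ G) :
    kd S G = kd S G₀ := by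
  classical
  unfold kd
  congr 1
  ext q
  simp only [mem_filter, mem_Da]
  constructor
  · rintro ⟨h1, h2⟩; exact ⟨(h _ h2).1 h1, h2⟩
  · rintro ⟨h1, h2⟩; exact ⟨(h _ h2).2 h1, h2⟩

lemma cnt_zero {P : SimpleGraph (Fin n) → Prop} (h : ∀ G ∈ reg n d, ¬ P G) : cnt n d P = 0 := by
  unfold cnt
  rw [card_eq_zero]
  ext G
  simp only [mem_filter, notMem_empty, iff_false, not_and]
  exact h G

/-- one more edge -/
theorem sb (S F : Finset (Sym2 (Fin n))) (G₀ : SimpleGraph (Fin n)) (x y : Fin n)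
    (hS : s(x, y) ∉ S) (hF : s(x, y) ∉ F) (hd : 32 * d ≤ n)
    (hx : 16 * pd S x ≤ n) (hy : 16 * pd S y ≤ n) (hk : 8 * kd S G₀ ≤ n * d)
    (hFc : 16 * F.card ≤ n * d) :
    n * cnt n d (fun G => Ag S G₀ G ∧ Co F G ∧ G.Adj x y) ≤
      2 * d * cnt n d (fun G => Ag S G₀ G ∧ Co F G) := by
  classical
  have hDC := Pool.Agent.K1H33.SH.t_DC
  have hSW := Pool.Agent.K1H33.SH.t_SW
  set f : ℕ := n * d - n * d / 2 with hf
  have key := hDC n d (fun G => Ag S G₀ G ∧ Co F G ∧ G.Adj x y) (fun G => Ag S G₀ G ∧ Co F G)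
    (fun G => univ.filter fun t => t.1 = x ∧ t.2.1 = y ∧ Val G t ∧ s(t.2.2.1, t.2.2.2) ∉ S ∧
      s(t.2.2.1, t.2.2.2) ∉ F ∧ s(x, t.2.2.1) ∉ S ∧ s(y, t.2.2.2) ∉ S)
    (fun G => univ.filter fun t => t.1 = x ∧ t.2.1 = y ∧ G.Adj x t.2.2.1 ∧ G.Adj y t.2.2.2)
    f (d * d) ?_ ?_ ?_
  · rcases Nat.eq_zero_or_pos d with h0 | h0
    · subst h0
      have : cnt n 0 (fun G => Ag S G₀ G ∧ Co F G ∧ G.Adj x y) = 0 := by
        refine cnt_zero ?_
        rintro G hG ⟨-, -, hh⟩
        have h2 := nb_card hG x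
        rw [card_eq_zero] at h2
        have : y ∈ nb G x := (mem_nb G x y).2 hh
        rw [h2] at this
        exact notMem_empty _ this
      rw [this]; simp
    · have h1 : n * d ≤ 2 * f := by omega
      have h2 : n * d * cnt n d (fun G => Ag S G₀ G ∧ Co F G ∧ G.Adj x y) ≤
          d * (2 * d * cnt n d (fun G => Ag S G₀ G ∧ Co F G)) := by
        calc _ ≤ 2 * f * cnt n d (fun G => Ag S G₀ G ∧ Co F G ∧ G.Adj x y) :=
              Nat.mul_le_mul_right _ h1
          _ = 2 * (f * cnt n d (fun G => Ag S G₀ G ∧ Co F G ∧ G.Adj x y)) := by ring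
          _ ≤ 2 * (d * d * cnt n d (fun G => Ag S G₀ G ∧ Co F G)) := Nat.mul_le_mul_left _ key
          _ = _ := by ring
      refine Nat.le_of_mul_le_mul_left ?_ h0
      calc d * (n * cnt n d (fun G => Ag S G₀ G ∧ Co F G ∧ G.Adj x y))
          = n * d * cnt n d (fun G => Ag S G₀ G ∧ Co F G ∧ G.Adj x y) := by ring
        _ ≤ _ := h2
  · rintro G hG ⟨h1, h2, h3⟩ ⟨a, b, c, e⟩ ht
    simp only [mem_filter, mem_univ, true_and] at ht
    obtain ⟨rfl, rfl, hV, t1, t2, t3, t4⟩ := ht
    obtain ⟨s1, s2, s3, s4, s5, s6, s7⟩ := hSW n G a b c e hV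
    refine ⟨s7 d hG, ⟨?_, ?_⟩, ?_⟩
    · intro q hq
      rw [← h1 q hq]
      induction q using Sym2.ind with
      | _ u v =>
      rw [SimpleGraph.mem_edgeSet, SimpleGraph.mem_edgeSet, s1 u v]
      have n1 : s(u, v) ≠ s(a, c) := fun h => t3 (h ▸ hq)
      have n2 : s(u, v) ≠ s(b, e) := fun h => t4 (h ▸ hq)
      have n3 : s(u, v) ≠ s(a, b) := fun h => hS (h ▸ hq)
      have n4 : s(u, v) ≠ s(c, e) := fun h => t1 (h ▸ hq)
      tauto
    · intro q hq
      have hqG := h2 q hq
      induction q using Sym2.ind with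
      | _ u v =>
      rw [SimpleGraph.mem_edgeSet] at hqG ⊢
      rw [s1 u v]
      have n3 : s(u, v) ≠ s(a, b) := fun h => hF (h ▸ hq)
      have n4 : s(u, v) ≠ s(c, e) := fun h => t2 (h ▸ hq)
      exact Or.inr ⟨hqG, n3, n4⟩
    · simp only [mem_filter, mem_univ, true_and]
      exact ⟨(s1 a c).2 (Or.inl (Or.inl rfl)), (s1 b e).2 (Or.inl (Or.inr rfl))⟩
  · rintro G hG ⟨h1, h2, h3⟩
    -- the darts
    set X1 := (Da G).filter fun q => s(q.1, q.2) ∈ S with hX1
    set X2 := (Da G).filter fun q => s(q.1, q.2) ∈ F with hX2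
    set X3 := (Da G).filter fun q => q.1 ∈ (univ.filter fun c => s(x, c) ∈ S) with hX3
    set X4 := (Da G).filter fun q => q.2 ∈ (univ.filter fun c => s(y, c) ∈ S) with hX4
    set X5 := (Da G).filter fun q => q.1 ∈ insert x (nb G x) with hX5
    set X6 := (Da G).filter fun q => q.2 ∈ insert y (nb G y) with hX6
    have c1 : 8 * X1.card ≤ n * d := by
      have : X1.card = kd S G₀ := by rw [← kd_ag h1]; rfl
      rw [this]; exact hk
    have c2 : X2.card ≤ 2 * F.card := da_pairs G F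
    have c3 : X3.card = pd S x * d := by rw [hX3, da_fst hG]; rfl
    have c4 : X4.card = pd S y * d := by rw [hX4, da_snd hG]; rfl
    have hxx : x ∉ nb G x := fun h => G.loopless.irrefl x ((mem_nb G x x).1 h)
    have hyy : y ∉ nb G y := fun h => G.loopless.irrefl y ((mem_nb G y y).1 h)
    have c5 : X5.card = (d + 1) * d := by
      rw [hX5, da_fst hG, card_insert_of_notMem hxx, nb_card hG]
    have c6 : X6.card = (d + 1) * d := by
      rw [hX6, da_snd hG, card_insert_of_notMem hyy, nb_card hG]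
    set T := (Da G) \ (X1 ∪ (X2 ∪ (X3 ∪ (X4 ∪ (X5 ∪ X6))))) with hT
    have hTc : n * d ≤ T.card + (X1.card + (X2.card + (X3.card + (X4.card + (X5.card + X6.card))))) := by
      rw [← da_card hG]
      have u0 : Da G ⊆ T ∪ (X1 ∪ (X2 ∪ (X3 ∪ (X4 ∪ (X5 ∪ X6))))) := by
        rw [hT, sdiff_union_self_eq_union]; exact subset_union_left
      have u1 := card_le_card u0
      have u2 := card_union_le T (X1 ∪ (X2 ∪ (X3 ∪ (X4 ∪ (X5 ∪ X6)))))
      have u3 := card_union_le X1 (X2 ∪ (X3 ∪ (X4 ∪ (X5 ∪ X6))))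
      have u4 := card_union_le X2 (X3 ∪ (X4 ∪ (X5 ∪ X6)))
      have u5 := card_union_le X3 (X4 ∪ (X5 ∪ X6))
      have u6 := card_union_le X4 (X5 ∪ X6)
      have u7 := card_union_le X5 X6
      omega
    have hd1 : 1 ≤ d := by
      rw [← nb_card hG x]
      exact card_pos.2 ⟨y, (mem_nb G x y).2 h3⟩
    have e3 : 16 * (pd S x * d) ≤ n * d := by
      calc 16 * (pd S x * d) = 16 * pd S x * d := by ring
        _ ≤ n * d := Nat.mul_le_mul_right _ hx
    have e4 : 16 * (pd S y * d) ≤ n * d := by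
      calc 16 * (pd S y * d) = 16 * pd S y * d := by ring
        _ ≤ n * d := Nat.mul_le_mul_right _ hy
    have e5 : 16 * ((d + 1) * d) ≤ n * d := by
      calc 16 * ((d + 1) * d) = (16 * (d + 1)) * d := by ring
        _ ≤ n * d := Nat.mul_le_mul_right _ (by omega)
    have hTn : f ≤ T.card := by omega
    refine hTn.trans ?_
    refine card_le_card_of_injOn (fun q => (x, y, q.1, q.2)) ?_ ?_
    · intro q hq
      rw [mem_coe, hT, mem_sdiff] at hq
      simp only [mem_union, hX1, hX2, hX3, hX4, hX5, hX6, mem_filter, mem_univ, true_and,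
        not_or, not_and, mem_Da, mem_insert, mem_nb] at hq
      obtain ⟨g0, g1, g2, g3, g4, g5, g6⟩ := hq
      simp only [coe_filter, mem_univ, true_and, Set.mem_ofPred_eq]
      have g5' := g5 g0
      have g6' := g6 g0
      refine ⟨⟨h3, g0, g5'.2, fun h => g5'.1 h.symm, g6'.2, fun h => g6'.1 h.symm⟩,
        g1 g0, g2 g0, g3 g0, g4 g0⟩
    · intro q _ q' _ h
      simp only [Prod.mk.injEq, true_and] at h
      exact Prod.ext h.1 h.2
  · rintro G hG -
    rw [← nb_card hG x]
    nth_rw 2 [nb_card hG x]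
    rw [← nb_card hG y, ← card_product]
    refine card_le_card_of_injOn (fun t => (t.2.2.1, t.2.2.2)) ?_ ?_
    · intro t ht
      simp only [coe_filter, mem_univ, true_and, Set.mem_ofPred_eq] at ht
      rw [mem_coe, mem_product, mem_nb, mem_nb]
      exact ht.2.2
    · intro t ht t' ht' h
      simp only [coe_filter, mem_univ, true_and, Set.mem_ofPred_eq] at ht ht'
      simp only [Prod.mk.injEq] at h
      obtain ⟨a, b, c, e⟩ := t
      obtain ⟨a', b', c', e'⟩ := t'
      simp only at ht ht' h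
      simp only [Prod.mk.injEq]
      exact ⟨ht.1.trans ht'.1.symm, ht.2.1.trans ht'.2.1.symm, h⟩

end Pool.Agent.U140.RG
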