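import Pool.Agent.U140.RG.Lt

/-! Codegrees and neighbours in a fixed set. -/

set_option linter.unusedSectionVars false
set_option linter.unusedVariables false

namespace Pool.Agent.U140.RG

open Finset Pool.Agent.K1H35.SH
open Pool.Agent.U140.SG (choose_le_exp)

variable {n d : ℕ}

lemma cnt_Co (hd : 32 * d ≤ n) (F : Finset (Sym2 (Fin n))) (hF : ∀ e ∈ F, ¬ e.IsDiag)
    (hM : 16 * F.card ≤ n * d) :
    (cnt n d (Co F) : ℝ) ≤ rt n d ^ F.card * (reg n d).card := by
  have h := co_bound (cap0 hd (⊥ : SimpleGraph (Fin n)) (M := F.card) hM) F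
    (fun e he => ⟨by simp, hF e he⟩) le_rfl
  have e1 : cnt n d (fun G => Ag ∅ (⊥ : SimpleGraph (Fin n)) G) = (reg n d).card := by
    rw [← cnt_true]
    exact le_antisymm (cnt_mono fun _ _ _ => trivial) (cnt_mono fun _ _ _ e he => by simp at he)
  rw [e1] at h
  refine le_trans ?_ h
  exact Nat.cast_le.2 (cnt_mono fun G _ hh => ⟨fun e he => by simp at he, hh⟩)

lemma pow_le_half {a : ℝ} (h0 : 0 ≤ a) (h1 : a ≤ 1 / 2) (k : ℕ) : a ^ k ≤ (1 / 2) ^ k :=
  pow_le_pow_left₀ h0 h1 k

theorem codeg_bound (hd : 32 * d ≤ n) {K : ℕ} (hK : 32 * (K + 1) ≤ n * d)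
    (hK2 : 24 * (d : ℝ) ^ 2 ≤ (K + 1) * n) :
    (cnt n d (fun G => ∃ u v, u ≠ v ∧ K < codeg G u v) : ℝ) ≤
      n ^ 2 * (1 / 2) ^ (K + 1) * (reg n d).card := by
  classical
  rcases Nat.eq_zero_or_pos n with h0 | hn0
  · subst h0
    have : cnt 0 d (fun G => ∃ u v, u ≠ v ∧ K < codeg G u v) = 0 := by
      refine cnt_zero ?_
      rintro G hG ⟨u, -⟩
      exact u.elim0
    rw [this]; simp
  have hn : (0 : ℝ) < n := by exact_mod_cast hn0
  have hle : (cnt n d (fun G => ∃ u v, u ≠ v ∧ K < codeg G u v) : ℝ) ≤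
      ∑ uv : Fin n × Fin n, ∑ T ∈ powersetCard (K + 1) (univ : Finset (Fin n)),
        (cnt n d (fun G => uv.1 ≠ uv.2 ∧ T ⊆ nb G uv.1 ∩ nb G uv.2) : ℝ) := by
    refine le_trans ?_ ((cnt_existsR univ fun (uv : Fin n × Fin n) G =>
      ∃ T ∈ powersetCard (K + 1) (univ : Finset (Fin n)), uv.1 ≠ uv.2 ∧
        T ⊆ nb G uv.1 ∩ nb G uv.2).trans (sum_le_sum fun uv _ => cnt_existsR _ _))
    refine Nat.cast_le.2 (cnt_mono fun G _ h => ?_)
    obtain ⟨u, v, huv, hK⟩ := h
    have hK' : K + 1 ≤ (nb G u ∩ nb G v).card := by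
      unfold codeg at hK
      refine Nat.succ_le_iff.2 ?_
      convert hK using 2
    obtain ⟨T, hT1, hT2⟩ := exists_subset_card_eq hK'
    exact ⟨(u, v), mem_univ _, T, mem_powersetCard.2 ⟨subset_univ _, hT2⟩, huv, hT1⟩
  refine hle.trans ?_
  have hr := rt_nonneg n d
  have hterm : ∀ uv : Fin n × Fin n, ∀ T ∈ powersetCard (K + 1) (univ : Finset (Fin n)),
      (cnt n d (fun G => uv.1 ≠ uv.2 ∧ T ⊆ nb G uv.1 ∩ nb G uv.2) : ℝ) ≤
        (rt n d ^ 2) ^ (K + 1) * (reg n d).card := by
    rintro ⟨u, v⟩ T hT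
    simp only
    by_cases huv : u = v ∨ u ∈ T ∨ v ∈ T
    · have : cnt n d (fun G => u ≠ v ∧ T ⊆ nb G u ∩ nb G v) = 0 := by
        refine cnt_zero ?_
        rintro G hG ⟨h1, h2⟩
        rcases huv with h | h | h
        · exact h1 h
        · have := (mem_inter.1 (h2 h)).1
          rw [mem_nb] at this
          exact G.loopless.irrefl u this
        · have := (mem_inter.1 (h2 h)).2
          rw [mem_nb] at this
          exact G.loopless.irrefl v this
      rw [this]
      push_cast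
      positivity
    push Not at huv
    obtain ⟨huv, huT, hvT⟩ := huv
    set F : Finset (Sym2 (Fin n)) := T.image (fun w => s(u, w)) ∪ T.image (fun w => s(v, w)) with hF
    have hinj : ∀ z : Fin n, Function.Injective (fun w : Fin n => s(z, w)) :=
      fun z w w' hh => Sym2.congr_right.1 hh
    have hdis : Disjoint (T.image (fun w => s(u, w))) (T.image (fun w => s(v, w))) := by
      rw [disjoint_left]
      intro e h1 h2
      obtain ⟨w, hw, rfl⟩ := mem_image.1 h1
      obtain ⟨w', hw', h3⟩ := mem_image.1 h2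
      rw [Sym2.eq_iff] at h3
      rcases h3 with ⟨h3, -⟩ | ⟨h3, -⟩
      · exact huv h3.symm
      · exact hvT (h3 ▸ hw)
    have hFc : F.card = 2 * (K + 1) := by
      rw [hF, card_union_of_disjoint hdis, card_image_of_injective _ (hinj u),
        card_image_of_injective _ (hinj v), (mem_powersetCard.1 hT).2]
      ring
    have h1 := cnt_Co hd F ?_ (by rw [hFc]; omega)
    · rw [hFc, pow_mul] at h1
      refine le_trans (Nat.cast_le.2 (cnt_mono fun G _ h => ?_)) h1
      intro e he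
      rw [hF, mem_union] at he
      rcases he with he | he
      · obtain ⟨w, hw, rfl⟩ := mem_image.1 he
        exact (mem_nb G u w).1 (mem_inter.1 (h.2 hw)).1
      · obtain ⟨w, hw, rfl⟩ := mem_image.1 he
        exact (mem_nb G v w).1 (mem_inter.1 (h.2 hw)).2
    · intro e he
      rw [hF, mem_union] at he
      rcases he with he | he
      · obtain ⟨w, hw, rfl⟩ := mem_image.1 he
        rw [Sym2.mk_isDiag_iff]
        rintro rfl
        exact huT hw
      · obtain ⟨w, hw, rfl⟩ := mem_image.1 he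
        rw [Sym2.mk_isDiag_iff]
        rintro rfl
        exact hvT hw
  refine (sum_le_sum fun uv _ => sum_le_sum fun T hT => hterm uv T hT).trans ?_
  rw [sum_const, sum_const, card_powersetCard, card_univ, card_univ, Fintype.card_prod,
    Fintype.card_fin, nsmul_eq_mul, nsmul_eq_mul]
  push_cast
  have h2 := choose_le_exp n (K + 1) (Nat.succ_pos K)
  have h3 : (n.choose (K + 1) : ℝ) * (rt n d ^ 2) ^ (K + 1) ≤ (1 / 2) ^ (K + 1) := by
    calc (n.choose (K + 1) : ℝ) * (rt n d ^ 2) ^ (K + 1)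
        ≤ (Real.exp 1 * n / (K + 1 : ℕ)) ^ (K + 1) * (rt n d ^ 2) ^ (K + 1) :=
          mul_le_mul_of_nonneg_right h2 (by positivity)
      _ = (Real.exp 1 * n / (K + 1 : ℕ) * rt n d ^ 2) ^ (K + 1) := by rw [mul_pow]
      _ ≤ (1 / 2) ^ (K + 1) := by
          refine pow_le_half (by positivity) ?_ _
          unfold rt
          have he := Real.exp_one_lt_d9
          have hK0 : (0 : ℝ) < ((K + 1 : ℕ) : ℝ) := by positivity
          have e : Real.exp 1 * n / (K + 1 : ℕ) * (2 * d / n) ^ 2 =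
              (4 * Real.exp 1 * d ^ 2) / ((K + 1 : ℕ) * n) := by
            field_simp
            ring
          rw [e, div_le_iff₀ (by positivity)]
          push_cast
          have : 4 * Real.exp 1 * (d : ℝ) ^ 2 ≤ 12 * d ^ 2 := by
            have : (0 : ℝ) ≤ (d : ℝ) ^ 2 := by positivity
            nlinarith
          linarith
  calc (n : ℝ) * n * ((n.choose (K + 1) : ℝ) * ((rt n d ^ 2) ^ (K + 1) * ((reg n d).card : ℝ)))
      = (n : ℝ) ^ 2 * ((n.choose (K + 1) : ℝ) * (rt n d ^ 2) ^ (K + 1)) * ((reg n d).card : ℝ) := by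
        ring
    _ ≤ (n : ℝ) ^ 2 * (1 / 2) ^ (K + 1) * ((reg n d).card : ℝ) := by gcongr

theorem nbset_bound (hd : 32 * d ≤ n) (A : Finset (Fin n)) {K : ℕ} (hK : 16 * (K + 1) ≤ n * d)
    (hK2 : 12 * (A.card : ℝ) * d ≤ (K + 1) * n) :
    (cnt n d (fun G => ∃ u, K < (nb G u ∩ A).card) : ℝ) ≤
      n * (1 / 2) ^ (K + 1) * (reg n d).card := by
  classical
  rcases Nat.eq_zero_or_pos n with h0 | hn0
  · subst h0
    have : cnt 0 d (fun G => ∃ u, K < (nb G u ∩ A).card) = 0 := by
      refine cnt_zero ?_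
      rintro G hG ⟨u, -⟩
      exact u.elim0
    rw [this]; simp
  have hn : (0 : ℝ) < n := by exact_mod_cast hn0
  have hle : (cnt n d (fun G => ∃ u, K < (nb G u ∩ A).card) : ℝ) ≤
      ∑ u : Fin n, ∑ T ∈ powersetCard (K + 1) A, (cnt n d (fun G => T ⊆ nb G u) : ℝ) := by
    refine le_trans ?_ ((cnt_existsR univ fun (u : Fin n) G =>
      ∃ T ∈ powersetCard (K + 1) A, T ⊆ nb G u).trans (sum_le_sum fun u _ => cnt_existsR _ _))
    refine Nat.cast_le.2 (cnt_mono fun G _ h => ?_)
    obtain ⟨u, hK⟩ := h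
    obtain ⟨T, hT1, hT2⟩ := exists_subset_card_eq (Nat.succ_le_iff.2 hK)
    exact ⟨u, mem_univ _, T, mem_powersetCard.2 ⟨hT1.trans inter_subset_right, hT2⟩,
      hT1.trans inter_subset_left⟩
  refine hle.trans ?_
  have hr := rt_nonneg n d
  have hterm : ∀ u : Fin n, ∀ T ∈ powersetCard (K + 1) A,
      (cnt n d (fun G => T ⊆ nb G u) : ℝ) ≤ rt n d ^ (K + 1) * (reg n d).card := by
    intro u T hT
    by_cases huT : u ∈ T
    · have : cnt n d (fun G => T ⊆ nb G u) = 0 := by
        refine cnt_zero ?_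
        intro G hG h2
        have := h2 huT
        rw [mem_nb] at this
        exact G.loopless.irrefl u this
      rw [this]
      push_cast
      positivity
    set F : Finset (Sym2 (Fin n)) := T.image (fun w => s(u, w)) with hF
    have hinj : Function.Injective (fun w : Fin n => s(u, w)) :=
      fun w w' hh => Sym2.congr_right.1 hh
    have hFc : F.card = K + 1 := by
      rw [hF, card_image_of_injective _ hinj, (mem_powersetCard.1 hT).2]
    have h1 := cnt_Co hd F ?_ (by rw [hFc]; omega)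
    · rw [hFc] at h1
      refine le_trans (Nat.cast_le.2 (cnt_mono fun G _ h => ?_)) h1
      intro e he
      obtain ⟨w, hw, rfl⟩ := mem_image.1 he
      exact (mem_nb G u w).1 (h hw)
    · intro e he
      obtain ⟨w, hw, rfl⟩ := mem_image.1 he
      rw [Sym2.mk_isDiag_iff]
      rintro rfl
      exact huT hw
  refine (sum_le_sum fun uv _ => sum_le_sum fun T hT => hterm uv T hT).trans ?_
  rw [sum_const, sum_const, card_powersetCard, card_univ, Fintype.card_fin, nsmul_eq_mul,
    nsmul_eq_mul]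
  have h2 := choose_le_exp A.card (K + 1) (Nat.succ_pos K)
  have h3 : (A.card.choose (K + 1) : ℝ) * rt n d ^ (K + 1) ≤ (1 / 2) ^ (K + 1) := by
    calc (A.card.choose (K + 1) : ℝ) * rt n d ^ (K + 1)
        ≤ (Real.exp 1 * A.card / (K + 1 : ℕ)) ^ (K + 1) * rt n d ^ (K + 1) :=
          mul_le_mul_of_nonneg_right h2 (by positivity)
      _ = (Real.exp 1 * A.card / (K + 1 : ℕ) * rt n d) ^ (K + 1) := by rw [mul_pow]
      _ ≤ (1 / 2) ^ (K + 1) := by
          refine pow_le_half (by positivity) ?_ _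
          unfold rt
          have he := Real.exp_one_lt_d9
          have e : Real.exp 1 * A.card / (K + 1 : ℕ) * (2 * d / n) =
              (2 * Real.exp 1 * A.card * d) / ((K + 1 : ℕ) * n) := by
            field_simp
          rw [e, div_le_iff₀ (by positivity)]
          push_cast
          have : 2 * Real.exp 1 * (A.card : ℝ) * d ≤ 6 * (A.card * d) := by
            have : (0 : ℝ) ≤ (A.card : ℝ) * d := by positivity
            nlinarith
          linarith
  calc (n : ℝ) * ((A.card.choose (K + 1) : ℝ) * (rt n d ^ (K + 1) * ((reg n d).card : ℝ)))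
      = (n : ℝ) * ((A.card.choose (K + 1) : ℝ) * rt n d ^ (K + 1)) * ((reg n d).card : ℝ) := by ring
    _ ≤ (n : ℝ) * (1 / 2) ^ (K + 1) * ((reg n d).card : ℝ) := by gcongr

end Pool.Agent.U140.RG
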