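import Pool.Agent.U140.RG.Up
import Pool.Agent.U140.SG.Ty3

/-! The sparse range: upper tails. -/

set_option linter.unusedSectionVars false
set_option linter.unusedVariables false

namespace Pool.Agent.U140.RG

open Finset Pool.Agent.K1H35.SH
open Pool.Agent.U140.SG (IsP3 pe Chain MaxDeg Wt Wt_nonneg choose_le_exp T3 t3_det UpB up_det star
  mem_star SSP card_le_fib sum_pow_card KRP Bf kr_det blk length_flatMap_blk)

variable {n d : ℕ}

lemma Wt_mono {p : ℝ} (h0 : 0 ≤ p) {D D' : ℕ} (h : D ≤ D') : Wt n p D ≤ Wt n p D' := by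
  unfold Wt
  have h' : (D : ℝ) ≤ D' := by exact_mod_cast h
  gcongr

theorem rt3 {D : ℕ} (hD : d ≤ D) (hd : 32 * d ≤ n) {r : ℕ} (hr : 48 * r ≤ n * d) :
    (cnt n d (fun G => ¬ T3 G (3 * r * (3 * r))) : ℝ) ≤
      n ^ 2 * Wt n (rt n d) D ^ r * (reg n d).card := by
  classical
  have hr0 := rt_nonneg n d
  have h1 : (cnt n d (fun G => ¬ T3 G (3 * r * (3 * r))) : ℝ) ≤
      ∑ xy : Fin n × Fin n, (cnt n d (fun G => Chain G ∅ (List.replicate r xy)) : ℝ) := by
    refine le_trans ?_ (cnt_existsR univ fun (xy : Fin n × Fin n) G =>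
      Chain G ∅ (List.replicate r xy))
    refine Nat.cast_le.2 (cnt_mono fun G _ h => ?_)
    obtain ⟨x, y, hxy⟩ := t3_det h
    exact ⟨(x, y), mem_univ _, hxy⟩
  refine h1.trans ?_
  have h2 : ∀ xy ∈ (univ : Finset (Fin n × Fin n)),
      (cnt n d (fun G => Chain G ∅ (List.replicate r xy)) : ℝ) ≤
      Wt n (rt n d) D ^ r * (reg n d).card := by
    intro xy _
    have := rseq0 (n := n) (d := d) hd (l := List.replicate r xy) (by rw [List.length_replicate]; exact hr)
    rw [List.length_replicate] at this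
    refine this.trans (mul_le_mul_of_nonneg_right ?_ (Nat.cast_nonneg _))
    exact pow_le_pow_left₀ (Wt_nonneg hr0 d) (Wt_mono hr0 hD) r
  refine (sum_le_sum h2).trans (le_of_eq ?_)
  rw [sum_const, card_univ, Fintype.card_prod, Fintype.card_fin, nsmul_eq_mul]
  push_cast
  ring

lemma sg_nb (G : SimpleGraph (Fin n)) (u : Fin n) : Pool.Agent.U140.SG.nb G u = nb G u := by
  classical
  ext w
  rw [mem_nb]
  unfold Pool.Agent.U140.SG.nb
  simp

lemma nb_ag {G G₀ : SimpleGraph (Fin n)} {S : Finset (Sym2 (Fin n))} {u : Fin n}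
    (h : Ag S G₀ G) (hS : star u ⊆ S) : nb G u = nb G₀ u := by
  ext w
  rw [mem_nb, mem_nb]
  exact h s(u, w) (hS (mem_star.2 (Sym2.mem_mk_left _ _)))

lemma cap_star (hd1 : 1 ≤ d) (hd : 32 * d ≤ n) (u : Fin n) {G₀ : SimpleGraph (Fin n)} (hG₀ : G₀ ∈ reg n d) {M : ℕ}
    (hM : 16 * M ≤ n * d) : Cap n d (star u) G₀ M where
  hd := hd
  hp := by
    classical
    intro x y hxy hS
    have hxu : u ≠ x := by
      rintro rfl
      exact hS (mem_star.2 (Sym2.mem_mk_left _ _))
    have h1 : pd (star u) x ≤ 1 := by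
      unfold pd
      refine (card_le_card (t := {u}) fun c hc => ?_).trans (by simp)
      rw [mem_filter, mem_star, Sym2.mem_iff] at hc
      rw [mem_singleton]
      rcases hc.2 with h | h
      · exact absurd h hxu
      · exact h.symm
    omega
  hk := by
    classical
    have h1 : kd (star u) G₀ ≤ 2 * d := by
      unfold kd
      have h2 : (Da G₀).filter (fun q => s(q.1, q.2) ∈ star u) ⊆
          ((Da G₀).filter fun q => q.1 ∈ ({u} : Finset (Fin n))) ∪
          ((Da G₀).filter fun q => q.2 ∈ ({u} : Finset (Fin n))) := by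
        intro q hq
        rw [mem_filter, mem_star, Sym2.mem_iff] at hq
        rw [mem_union, mem_filter, mem_filter, mem_singleton, mem_singleton]
        rcases hq.2 with h | h
        · exact Or.inl ⟨hq.1, h.symm⟩
        · exact Or.inr ⟨hq.1, h.symm⟩
      refine (card_le_card h2).trans ((card_union_le _ _).trans ?_)
      rw [da_fst hG₀, da_snd hG₀, card_singleton]
      omega
    have h3 : 16 * d ≤ n * d := by
      rcases Nat.eq_zero_or_pos d with h0 | h0
      · subst h0; simp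
      · exact Nat.mul_le_mul_right _ (by omega)
    omega
  hM := hM

theorem rup {D K r₀ : ℕ} (hD : d ≤ D) (hd1 : 1 ≤ d) (hd : 32 * d ≤ n) (hr : 48 * r₀ ≤ n * d) :
    (cnt n d (fun G => T3 G K ∧ ¬ UpB G (K * r₀ + 6 * r₀ * (K + 1))) : ℝ) ≤
      n ^ 2 * ((D.choose r₀ : ℝ) * Wt n (rt n d) D ^ r₀) * (reg n d).card := by
  classical
  have hr0 := rt_nonneg n d
  have hWt := Wt_nonneg (n := n) hr0 D
  have h1 : (cnt n d (fun G => T3 G K ∧ ¬ UpB G (K * r₀ + 6 * r₀ * (K + 1))) : ℝ) ≤
      ∑ uv : Fin n × Fin n, (cnt n d (fun G => ∃ l' ∈ List.sublistsLen r₀ (nb G uv.1).toList,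
      Chain G (star uv.1) (l'.map fun w => (uv.2, w))) : ℝ) := by
    refine le_trans ?_ (cnt_existsR univ fun (uv : Fin n × Fin n) G =>
      ∃ l' ∈ List.sublistsLen r₀ (nb G uv.1).toList,
      Chain G (star uv.1) (l'.map fun w => (uv.2, w)))
    refine Nat.cast_le.2 (cnt_mono fun G _ h => ?_)
    obtain ⟨hT, hU⟩ := h
    unfold UpB at hU
    push Not at hU
    obtain ⟨u, v, S, hS, hlt⟩ := hU
    have := up_det hT u v S hS hlt
    rw [sg_nb] at this
    exact ⟨(u, v), mem_univ _, this⟩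
  refine h1.trans ?_
  have h2 : ∀ uv ∈ (univ : Finset (Fin n × Fin n)),
      (cnt n d (fun G => ∃ l' ∈ List.sublistsLen r₀ (nb G uv.1).toList,
      Chain G (star uv.1) (l'.map fun w => (uv.2, w))) : ℝ) ≤
      ((D.choose r₀ : ℝ) * Wt n (rt n d) D ^ r₀) * (reg n d).card := by
    rintro ⟨u, v⟩ -
    simp only
    refine cnt_classes (star u) _ fun G₀ hG₀ => ?_
    have hcap := cap_star hd1 hd u hG₀ (M := 3 * r₀) (by omega)
    set N : ℝ := (cnt n d (fun G => Ag (star u) G₀ G) : ℝ) with hN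
    have hN0 : 0 ≤ N := Nat.cast_nonneg _
    have h3 : (cnt n d (fun G => Ag (star u) G₀ G ∧ ∃ l' ∈ List.sublistsLen r₀ (nb G u).toList,
        Chain G (star u) (l'.map fun w => (v, w))) : ℝ) ≤
        cnt n d (fun G => ∃ l' ∈ List.sublistsLen r₀ (nb G₀ u).toList,
          (Ag (star u) G₀ G ∧ Chain G (star u) (l'.map fun w => (v, w)))) := by
      refine Nat.cast_le.2 (cnt_mono fun G _ h => ?_)
      obtain ⟨g1, l', g2, g3⟩ := h
      rw [nb_ag g1 Subset.rfl] at g2
      exact ⟨l', g2, g1, g3⟩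
    refine h3.trans ((cnt_exists_list _ _ (B := Wt n (rt n d) D ^ r₀ * N) ?_).trans ?_)
    · intro l' hl'
      have := rseq hcap (l'.map fun w => (v, w)) ∅ (by simp) (by
        rw [List.length_map, (List.mem_sublistsLen.1 hl').2]; simp)
      rw [List.length_map, (List.mem_sublistsLen.1 hl').2] at this
      simp only [card_empty, pow_zero, one_mul, union_empty] at this
      refine le_trans (Nat.cast_le.2 (cnt_mono fun G _ h => ?_)) (this.trans ?_)
      · exact ⟨h.1, fun e he => by simp at he, h.2⟩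
      · refine mul_le_mul_of_nonneg_right ?_ hN0
        exact pow_le_pow_left₀ (Wt_nonneg hr0 d) (Wt_mono hr0 hD) r₀
    · rw [List.length_sublistsLen, length_toList, nb_card hG₀, ← mul_assoc]
      refine mul_le_mul_of_nonneg_right (mul_le_mul_of_nonneg_right ?_ (by positivity)) hN0
      exact Nat.cast_le.2 (Nat.choose_le_choose _ hD)
  refine (sum_le_sum h2).trans (le_of_eq ?_)
  rw [sum_const, card_univ, Fintype.card_prod, Fintype.card_fin, nsmul_eq_mul]
  push_cast
  ring

theorem rssp {D : ℕ} (hd : 32 * d ≤ n) (hD : 224 * D ≤ n * d) :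
    (cnt n d (fun G => ¬ SSP G D) : ℝ) ≤
      ((1 + (Real.exp 1 * (2 * D) / 7 * rt n d) ^ 7) ^ n - 1) * (reg n d).card := by
  classical
  have hr0 := rt_nonneg n d
  set R : ℝ := ((reg n d).card : ℝ) with hR
  have hR0 : 0 ≤ R := Nat.cast_nonneg _
  set ζ : ℝ := (Real.exp 1 * (2 * D) / 7 * rt n d) ^ 7 with hζ
  have hζ0 : 0 ≤ ζ := by rw [hζ]; positivity
  set PZ : Finset (Fin n) → Finset (Sym2 (Fin n)) := fun Z => (Z ×ˢ Z).image fun q => s(q.1, q.2)
    with hPZ
  set A : Finset (Fin n) → SimpleGraph (Fin n) → Prop := fun Z G => Z.card ≤ 2 * D ∧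
    ∃ F ∈ powersetCard (7 * Z.card) (PZ Z), Co F G with hA
  have hstep : (cnt n d (fun G => ¬ SSP G D) : ℝ) ≤
      ∑ Z ∈ (univ : Finset (Finset (Fin n))).erase ∅, (cnt n d (A Z) : ℝ) := by
    refine le_trans (Nat.cast_le.2 (cnt_mono fun G _ h => ?_)) (cnt_existsR _ A)
    unfold SSP at h
    push Not at h
    obtain ⟨X, Y, hX, hY, S, hS, hlt⟩ := h
    set Z := X ∪ Y with hZ
    set I := S.image fun q => s(q.1, q.2) with hI
    have hSI : S.card ≤ I.card * 2 := by
      refine card_le_fib S I (fun q e => s(q.1, q.2) = e) 2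
        (fun q hq => ⟨_, mem_image_of_mem _ hq, rfl⟩) ?_
      intro e he S' hS' hr
      induction e using Sym2.ind with
      | _ a b =>
      have : S' ⊆ {(a, b), (b, a)} := by
        intro q hq
        have := hr q hq
        rw [Sym2.eq_iff] at this
        rw [mem_insert, mem_singleton]
        rcases this with ⟨e1, e2⟩ | ⟨e1, e2⟩
        · exact Or.inl (Prod.ext e1 e2)
        · exact Or.inr (Prod.ext e1 e2)
      exact (card_le_card this).trans card_le_two
    have hZc : Z.card ≤ X.card + Y.card := card_union_le _ _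
    have hI7 : 7 * Z.card ≤ I.card := by omega
    have hZ0 : Z ≠ ∅ := by
      intro h0
      have : S = ∅ := by
        rw [eq_empty_iff_forall_notMem]
        intro q hq
        have := (hS q hq).1
        have h2 : q.1 ∈ Z := mem_union_left _ this
        rw [h0] at h2
        exact notMem_empty _ h2
      rw [this] at hlt
      simp at hlt
    refine ⟨Z, mem_erase.2 ⟨hZ0, mem_univ _⟩, by omega, ?_⟩
    obtain ⟨F, hF1, hF2⟩ := exists_subset_card_eq hI7
    refine ⟨F, mem_powersetCard.2 ⟨fun e he => ?_, hF2⟩, fun e he => ?_⟩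
    · obtain ⟨q, hq, rfl⟩ := mem_image.1 (hF1 he)
      obtain ⟨g1, g2, g3⟩ := hS q hq
      exact mem_image.2 ⟨q, mem_product.2 ⟨mem_union_left _ g1, mem_union_right _ g2⟩, rfl⟩
    · obtain ⟨q, hq, rfl⟩ := mem_image.1 (hF1 he)
      exact (hS q hq).2.2
  refine hstep.trans ?_
  have hterm : ∀ Z ∈ (univ : Finset (Finset (Fin n))).erase ∅, (cnt n d (A Z) : ℝ) ≤
      ζ ^ Z.card * R := by
    intro Z hZ
    have hZc : 0 < Z.card := card_pos.2 (nonempty_iff_ne_empty.2 (mem_erase.1 hZ).1)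
    by_cases hc : Z.card ≤ 2 * D
    swap
    · rw [cnt_zero fun G _ h => hc h.1]
      push_cast
      positivity
    have h2 : ∀ F ∈ powersetCard (7 * Z.card) (PZ Z),
        (cnt n d (Co F) : ℝ) ≤ rt n d ^ (7 * Z.card) * R := by
      intro F hF
      obtain ⟨hF1, hF2⟩ := mem_powersetCard.1 hF
      by_cases hdg : ∀ e ∈ F, ¬ e.IsDiag
      · have := cnt_Co hd F hdg (by rw [hF2]; omega)
        rw [hF2] at this
        exact this
      · push Not at hdg
        obtain ⟨e, he, hed⟩ := hdg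
        rw [cnt_zero fun G _ h => G.not_isDiag_of_mem_edgeSet (h e he) hed]
        push_cast
        positivity
    have h2' : (cnt n d (A Z) : ℝ) ≤
        ∑ F ∈ powersetCard (7 * Z.card) (PZ Z), (cnt n d (Co F) : ℝ) :=
      le_trans (Nat.cast_le.2 (cnt_mono fun G _ h => h.2)) (cnt_existsR _ fun F G => Co F G)
    refine h2'.trans ((sum_le_sum h2).trans ?_)
    rw [sum_const, card_powersetCard, nsmul_eq_mul, ← mul_assoc]
    refine mul_le_mul_of_nonneg_right ?_ hR0
    have h3 : ((PZ Z).card.choose (7 * Z.card) : ℝ) ≤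
        ((Z.card * Z.card).choose (7 * Z.card) : ℕ) := by
      refine Nat.cast_le.2 (Nat.choose_le_choose _ ?_)
      exact card_image_le.trans (by rw [card_product])
    have h4 := choose_le_exp (Z.card * Z.card) (7 * Z.card) (Nat.mul_pos (by norm_num) hZc)
    have h5 : (Real.exp 1 * ((Z.card * Z.card : ℕ) : ℝ) / ((7 * Z.card : ℕ) : ℝ)) ≤
        Real.exp 1 * (2 * D) / 7 := by
      push_cast
      have a1 : (Z.card : ℝ) ≠ 0 := by exact_mod_cast hZc.ne'
      have e : Real.exp 1 * ((Z.card : ℝ) * Z.card) / (7 * Z.card) = Real.exp 1 * Z.card / 7 := by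
        field_simp
      rw [e]
      have a3 : (Z.card : ℝ) ≤ 2 * D := by exact_mod_cast hc
      gcongr
    calc ((PZ Z).card.choose (7 * Z.card) : ℝ) * rt n d ^ (7 * Z.card)
        ≤ (Real.exp 1 * ((Z.card * Z.card : ℕ) : ℝ) / ((7 * Z.card : ℕ) : ℝ)) ^ (7 * Z.card) *
          rt n d ^ (7 * Z.card) := mul_le_mul_of_nonneg_right (h3.trans h4) (by positivity)
      _ ≤ (Real.exp 1 * (2 * D) / 7) ^ (7 * Z.card) * rt n d ^ (7 * Z.card) := by
          refine mul_le_mul_of_nonneg_right (pow_le_pow_left₀ (by positivity) h5 _) (by positivity)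
      _ = ζ ^ Z.card := by rw [hζ, ← pow_mul, mul_pow]
  refine (sum_le_sum hterm).trans ?_
  rw [← sum_mul]
  refine mul_le_mul_of_nonneg_right ?_ hR0
  have h6 := sum_pow_card (β := Fin n) ζ
  have h7 := add_sum_erase (univ : Finset (Finset (Fin n))) (fun I => ζ ^ I.card) (mem_univ ∅)
  simp only [card_empty, pow_zero] at h7
  rw [Fintype.card_fin] at h6
  linarith

theorem rkr {D K m r₁ : ℕ} (hD : d ≤ D) (hd : 32 * d ≤ n) (hr : 0 < r₁)
    (hM : 96 * (r₁ * (m * D)) ≤ n * d) :
    (cnt n d (fun G => T3 G K ∧ ¬ KRP G m (Bf K m r₁)) : ℝ) ≤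
      ((1 + (Real.exp 1 * (m * D) / r₁ * Wt n (rt n d) D ^ 2) ^ r₁) ^ (n * n) - 1) *
        (reg n d).card := by
  classical
  have hr0 := rt_nonneg n d
  set R : ℝ := ((reg n d).card : ℝ) with hR
  have hR0 : 0 ≤ R := Nat.cast_nonneg _
  set ξ : ℝ := (Real.exp 1 * (m * D) / r₁ * Wt n (rt n d) D ^ 2) ^ r₁ with hξ
  have hWt := Wt_nonneg (n := n) hr0 D
  have hξ0 : 0 ≤ ξ := by rw [hξ]; positivity
  set A : Finset (Fin n × Fin n) → SimpleGraph (Fin n) → Prop := fun M G => M.card ≤ m * D ∧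
    ∃ l' ∈ List.sublistsLen (r₁ * M.card) (M ×ˢ M).toList, Chain G ∅ (l'.flatMap blk) with hA
  have hstep : (cnt n d (fun G => T3 G K ∧ ¬ KRP G m (Bf K m r₁)) : ℝ) ≤
      ∑ M ∈ (univ : Finset (Finset (Fin n × Fin n))).erase ∅, (cnt n d (A M) : ℝ) := by
    refine le_trans (Nat.cast_le.2 (cnt_mono fun G hG h => ?_)) (cnt_existsR _ A)
    obtain ⟨hT, hk⟩ := h
    obtain ⟨M, hM0, hMc, l', hl', hch⟩ := kr_det hT (maxDeg_mono (maxDeg_reg hG) hD) hk
    exact ⟨M, mem_erase.2 ⟨hM0, mem_univ _⟩, hMc, l', hl', hch⟩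
  refine hstep.trans ?_
  have hterm : ∀ M ∈ (univ : Finset (Finset (Fin n × Fin n))).erase ∅,
      (cnt n d (A M) : ℝ) ≤ ξ ^ M.card * R := by
    intro M hM'
    have hMc : 0 < M.card := card_pos.2 (nonempty_iff_ne_empty.2 (mem_erase.1 hM').1)
    by_cases hc : M.card ≤ m * D
    swap
    · rw [cnt_zero fun G _ h => hc h.1]
      push_cast
      positivity
    have h2 : (cnt n d (A M) : ℝ) ≤
        (List.sublistsLen (r₁ * M.card) (M ×ˢ M).toList).length *
          (Wt n (rt n d) D ^ (2 * (r₁ * M.card)) * R) := by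
      refine le_trans (Nat.cast_le.2 (cnt_mono fun G _ h => h.2)) (cnt_exists_list _ _ ?_)
      intro l' hl'
      have hlen : 48 * (l'.flatMap blk).length ≤ n * d := by
        rw [length_flatMap_blk, (List.mem_sublistsLen.1 hl').2]
        have : r₁ * M.card ≤ r₁ * (m * D) := Nat.mul_le_mul_left _ hc
        omega
      have := rseq0 (n := n) (d := d) hd hlen
      rw [length_flatMap_blk, (List.mem_sublistsLen.1 hl').2] at this
      refine this.trans (mul_le_mul_of_nonneg_right ?_ hR0)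
      exact pow_le_pow_left₀ (Wt_nonneg hr0 d) (Wt_mono hr0 hD) _
    refine h2.trans ?_
    rw [List.length_sublistsLen, length_toList, card_product, ← mul_assoc]
    refine mul_le_mul_of_nonneg_right ?_ hR0
    have h3 := choose_le_exp (M.card * M.card) (r₁ * M.card) (Nat.mul_pos hr hMc)
    have h4 : (Real.exp 1 * ((M.card * M.card : ℕ) : ℝ) / ((r₁ * M.card : ℕ) : ℝ)) ≤
        Real.exp 1 * (m * D) / r₁ := by
      push_cast
      have a1 : (M.card : ℝ) ≠ 0 := by exact_mod_cast hMc.ne'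
      have a2 : (0 : ℝ) < r₁ := by exact_mod_cast hr
      have e : Real.exp 1 * ((M.card : ℝ) * M.card) / (r₁ * M.card) = Real.exp 1 * M.card / r₁ := by
        field_simp
      rw [e]
      have a3 : (M.card : ℝ) ≤ m * D := by exact_mod_cast hc
      gcongr
    calc (((M.card * M.card).choose (r₁ * M.card) : ℕ) : ℝ) *
          (Wt n (rt n d) D) ^ (2 * (r₁ * M.card))
        ≤ (Real.exp 1 * ((M.card * M.card : ℕ) : ℝ) / ((r₁ * M.card : ℕ) : ℝ)) ^ (r₁ * M.card) *
          (Wt n (rt n d) D) ^ (2 * (r₁ * M.card)) := mul_le_mul_of_nonneg_right h3 (by positivity)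
      _ ≤ (Real.exp 1 * (m * D) / r₁) ^ (r₁ * M.card) *
          (Wt n (rt n d) D) ^ (2 * (r₁ * M.card)) := by
          refine mul_le_mul_of_nonneg_right (pow_le_pow_left₀ (by positivity) h4 _) (by positivity)
      _ = ξ ^ M.card := by rw [hξ, ← pow_mul, mul_pow, ← pow_mul]
  refine (sum_le_sum hterm).trans ?_
  rw [← sum_mul]
  refine mul_le_mul_of_nonneg_right ?_ hR0
  have h6 := sum_pow_card (β := Fin n × Fin n) ξ
  have h7 := add_sum_erase (univ : Finset (Finset (Fin n × Fin n))) (fun I => ξ ^ I.card)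
    (mem_univ ∅)
  simp only [card_empty, pow_zero] at h7
  rw [Fintype.card_prod, Fintype.card_fin] at h6
  linarith

end Pool.Agent.U140.RG
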