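import Pool.Agent.U140.RG.C1
import Pool.Agent.U140.SG.Ty2

/-! The sparse range: every dart is in many 5-cycles. -/

set_option linter.unusedSectionVars false
set_option linter.unusedVariables false

namespace Pool.Agent.U140.RG

open Finset Pool.Agent.K1H35.SH
open Pool.Agent.U140.SG (IsP3 T3 LoB IsC5 mkC5 mem_paths3 paths3 cn_card mem_cn)

variable {n d : ℕ}

lemma t3_codeg {G : SimpleGraph (Fin n)} {K : ℕ} (hT : T3 G K) {x y : Fin n} (h : x ≠ y) :
    (nb G x ∩ nb G y).card ≤ K + 1 := by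
  refine le_trans (card_le_card fun z hz => ?_) (cn_card hT h)
  rw [mem_inter, mem_nb, mem_nb] at hz
  rw [mem_cn]
  exact ⟨hz.1.symm, hz.2.symm⟩

open Classical in
noncomputable def Bq (G : SimpleGraph (Fin n)) (u v : Fin n) : Finset (Fin n) :=
  univ.filter fun b => b ≠ u ∧ b ≠ v ∧ ¬ G.Adj u b ∧ ¬ G.Adj v b ∧ ∃ a, G.Adj v a ∧ G.Adj a b

open Classical in
noncomputable def Wq (G : SimpleGraph (Fin n)) (u v : Fin n) : Finset (Fin n) :=
  univ.filter fun w => G.Adj u w ∧ w ≠ v ∧ ¬ G.Adj v w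

open Classical in
noncomputable def Xq (G : SimpleGraph (Fin n)) (u v : Fin n) : Finset (Fin n × Fin n) :=
  (Bq G u v ×ˢ Wq G u v).filter fun q => G.Adj q.1 q.2

variable {G G' : SimpleGraph (Fin n)} {u v : Fin n}

lemma mem_Bq {b : Fin n} : b ∈ Bq G u v ↔ b ≠ u ∧ b ≠ v ∧ ¬ G.Adj u b ∧ ¬ G.Adj v b ∧
    ∃ a, G.Adj v a ∧ G.Adj a b := by
  classical
  simp [Bq]

lemma mem_Wq {w : Fin n} : w ∈ Wq G u v ↔ G.Adj u w ∧ w ≠ v ∧ ¬ G.Adj v w := by
  classical
  simp [Wq]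

lemma mem_Xq {q : Fin n × Fin n} : q ∈ Xq G u v ↔ (q.1 ∈ Bq G u v ∧ q.2 ∈ Wq G u v) ∧
    G.Adj q.1 q.2 := by
  classical
  simp [Xq]

/-- many pairs give many cycles -/
lemma lob_of_Xq {s : ℕ} (huv : G.Adj u v) (h : s ≤ (Xq G u v).card) :
    ∃ S : Finset (Fin 5 → Fin n), (∀ c ∈ S, IsC5 G c ∧ c 0 = u ∧ c 1 = v) ∧ s ≤ S.card := by
  classical
  have hch : ∀ b ∈ Bq G u v, ∃ a, G.Adj v a ∧ G.Adj a b := fun b hb => (mem_Bq.1 hb).2.2.2.2
  choose! ch hch1 hch2 using hch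
  refine ⟨(Xq G u v).image fun q => ![u, v, ch q.1, q.1, q.2], ?_, ?_⟩
  · intro c hc
    obtain ⟨⟨b, w⟩, hbw, rfl⟩ := mem_image.1 hc
    rw [mem_Xq] at hbw
    obtain ⟨⟨h1, h2⟩, h3⟩ := hbw
    simp only at h1 h2 h3
    have a1 := hch1 b h1
    have a2 := hch2 b h1
    rw [mem_Bq] at h1
    rw [mem_Wq] at h2
    obtain ⟨k1, k2, k3, k4, -⟩ := h1
    obtain ⟨l1, l2, l3⟩ := h2
    refine ⟨mkC5 huv a1 a2 h3 l1.symm ?_ (Ne.symm k1) (Ne.symm k2) (Ne.symm l2) ?_, rfl, rfl⟩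
    · intro h
      rw [← h] at a2
      exact k3 a2
    · intro h
      simp only at h
      rw [h] at a1
      exact l3 a1
  · rw [card_image_of_injective _ ?_]
    · exact h
    · intro q q' hh
      exact Prod.ext (congrFun hh 3) (congrFun hh 4)

/-- the effect of a switch -/
lemma xq_switch {b x w y : Fin n} {m : ℕ} (h : SwF G G' b x w y) (hb : b ∈ Bq G u v)
    (hw : w ∈ Wq G u v) (ux : ¬ G.Adj u x) (vx : ¬ G.Adj v x) (yu : y ≠ u) (uy : ¬ G.Adj u y)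
    (vy : ¬ G.Adj v y) (yB : y ∉ Bq G u v) (huv : G.Adj u v) (hX : (Xq G u v).card = m) :
    G'.Adj u v ∧ b ∈ Bq G' u v ∧ w ∈ Wq G' u v ∧ (Xq G' u v).card = m + 1 := by
  classical
  have hb' := mem_Bq.1 hb
  have hw' := mem_Wq.1 hw
  obtain ⟨b1, b2, b3, b4, b5⟩ := hb'
  obtain ⟨w1, w2, w3⟩ := hw'
  have xu : x ≠ u := by rintro rfl; exact b3 h.ab.symm
  have xv : x ≠ v := by rintro rfl; exact b4 h.ab.symm
  have wu : w ≠ u := w1.ne'
  have yv : y ≠ v := by rintro rfl; exact w3 h.ce.symm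
  have adj_of : ∀ z, nb G' z = nb G z → ∀ t, (G'.Adj z t ↔ G.Adj z t) := by
    intro z hz t
    rw [← mem_nb, hz, mem_nb]
  have hu := adj_of u (h.nz u (Ne.symm b1) (Ne.symm xu) (Ne.symm wu) (Ne.symm yu))
  have hv := adj_of v (h.nz v (Ne.symm b2) (Ne.symm xv) (Ne.symm w2) (Ne.symm yv))
  have ha : ∀ a, G.Adj v a → ∀ t, (G'.Adj a t ↔ G.Adj a t) := by
    intro a hva
    refine adj_of a (h.nz a ?_ ?_ ?_ ?_)
    · rintro rfl; exact b4 hva
    · rintro rfl; exact vx hva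
    · rintro rfl; exact w3 hva
    · rintro rfl; exact vy hva
  have hB : Bq G' u v = Bq G u v := by
    ext z
    rw [mem_Bq, mem_Bq, hu, hv]
    refine and_congr_right fun _ => and_congr_right fun _ => and_congr_right fun _ =>
      and_congr_right fun _ => exists_congr fun a => ?_
    rw [hv]
    exact and_congr_right fun h => ha a h z
  have hW : Wq G' u v = Wq G u v := by
    ext z
    rw [mem_Wq, mem_Wq, hu, hv]
  have hXe : Xq G' u v = insert (b, w) (Xq G u v) := by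
    ext ⟨p, q⟩
    rw [mem_insert, mem_Xq, mem_Xq, hB, hW]
    simp only [Prod.mk.injEq]
    constructor
    · rintro ⟨⟨h1, h2⟩, h3⟩
      by_cases hqw : q = w
      · subst hqw
        have h4 : p ∈ nb G' q := (mem_nb G' q p).2 h3.symm
        rw [h.nc, mem_insert, mem_erase, mem_nb] at h4
        rcases h4 with h4 | ⟨-, h4⟩
        · exact Or.inl ⟨h4, rfl⟩
        · exact Or.inr ⟨⟨h1, h2⟩, h4.symm⟩
      · right
        refine ⟨⟨h1, h2⟩, ?_⟩
        have hq := (mem_Wq.1 h2).1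
        have h5 := adj_of q (h.nz q (by rintro rfl; exact b3 hq) (by rintro rfl; exact ux hq) hqw
          (by rintro rfl; exact uy hq)) p
        exact (h5.1 h3.symm).symm
    · rintro (⟨rfl, rfl⟩ | ⟨⟨h1, h2⟩, h3⟩)
      · exact ⟨⟨hb, hw⟩, h.ac'⟩
      · refine ⟨⟨h1, h2⟩, ?_⟩
        by_cases hqw : q = w
        · subst hqw
          have h4 : p ∈ nb G' q := by
            rw [h.nc, mem_insert, mem_erase, mem_nb]
            refine Or.inr ⟨?_, h3.symm⟩
            rintro rfl; exact yB h1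
          exact ((mem_nb G' q p).1 h4).symm
        · have hq := (mem_Wq.1 h2).1
          have h5 := adj_of q (h.nz q (by rintro rfl; exact b3 hq) (by rintro rfl; exact ux hq) hqw
            (by rintro rfl; exact uy hq)) p
          exact (h5.2 h3.symm).symm
  refine ⟨(hu v).2 huv, by rw [hB]; exact hb, by rw [hW]; exact hw, ?_⟩
  rw [hXe, card_insert_of_notMem, hX]
  rw [mem_Xq]
  rintro ⟨-, h1⟩
  exact h.nac h1

open Classical in
/-- forward tuples -/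
noncomputable def F5 (u v : Fin n) (G : SimpleGraph (Fin n)) : Finset (Tup n) :=
  univ.filter fun t => t.1 ∈ Bq G u v ∧ G.Adj t.1 t.2.1 ∧ ¬ G.Adj u t.2.1 ∧ ¬ G.Adj v t.2.1 ∧
    t.2.2.1 ∈ Wq G u v ∧ ¬ G.Adj t.1 t.2.2.1 ∧ G.Adj t.2.2.1 t.2.2.2 ∧ t.2.2.2 ≠ u ∧
    ¬ G.Adj u t.2.2.2 ∧ ¬ G.Adj v t.2.2.2 ∧ t.2.2.2 ∉ Bq G u v ∧ ¬ G.Adj t.2.1 t.2.2.2 ∧
    t.2.1 ≠ t.2.2.2

open Classical in
/-- backward tuples -/
noncomputable def B5 (u v : Fin n) (G : SimpleGraph (Fin n)) : Finset (Tup n) :=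
  univ.filter fun t => (t.1, t.2.2.1) ∈ Xq G u v ∧ (t.2.1, t.2.2.2) ∈ Da G

lemma B5_card (hG : G ∈ reg n d) : (B5 u v G).card ≤ (Xq G u v).card * (n * d) := by
  classical
  rw [← da_card hG, ← card_product]
  refine card_le_card_of_injOn (fun t => ((t.1, t.2.2.1), (t.2.1, t.2.2.2))) ?_ ?_
  · intro t ht
    unfold B5 at ht
    rw [mem_coe, mem_filter] at ht
    rw [mem_coe, mem_product]
    exact ht.2
  · rintro ⟨a, b, c, e⟩ _ ⟨a', b', c', e'⟩ _ hh
    simp only [Prod.mk.injEq] at hh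
    obtain ⟨⟨h1, h2⟩, h3, h4⟩ := hh
    rw [h1, h2, h3, h4]

lemma wB_card {K : ℕ} (hT : T3 G K) {w : Fin n} (hw : w ∈ Wq G u v) :
    (nb G w ∩ Bq G u v).card ≤ K := by
  classical
  have hch : ∀ b ∈ Bq G u v, ∃ a, G.Adj v a ∧ G.Adj a b := fun b hb => (mem_Bq.1 hb).2.2.2.2
  choose! ch hch1 hch2 using hch
  obtain ⟨w1, w2, w3⟩ := mem_Wq.1 hw
  refine le_trans ?_ (hT w v)
  refine card_le_card_of_injOn (fun y => (y, ch y)) ?_ ?_
  · intro y hy
    rw [mem_coe, mem_inter, mem_nb] at hy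
    obtain ⟨y1, y2⟩ := hy
    have a1 := hch1 y y2
    have a2 := hch2 y y2
    rw [mem_coe, mem_paths3]
    refine ⟨y1, a2.symm, a1.symm, ?_, (mem_Bq.1 y2).2.1, w2⟩
    rintro h
    simp only at h
    exact w3 (h ▸ a1)
  · intro y _ y' _ hh
    exact (Prod.ext_iff.1 hh).1

lemma Bq_card {K : ℕ} (hG : G ∈ reg n d) (hT : T3 G K) (huv : G.Adj u v) :
    (d - 1) * (d - 2 * (K + 1) - 2) ≤ (Bq G u v).card * (K + 1) := by
  classical
  have h1 := dab G ((nb G v).erase u) (Bq G u v) (k := K + 1) (fun z hz => by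
    refine (card_le_card (inter_subset_inter_left (u := (nb G v).erase u) Subset.rfl)).trans ?_
    refine (card_le_card (inter_subset_inter_left (erase_subset _ _))).trans ?_
    exact t3_codeg hT (mem_Bq.1 hz).2.1)
  refine le_trans ?_ h1
  have h2 := card_ge3 (τ := Fin n × Fin n) (γ := Unit) ((nb G v).erase u)
    (fun a => nb G a \ (nb G u ∪ (nb G v ∪ {u, v}))) (fun _ _ => {()})
    ((Da G).filter fun q => q.1 ∈ (nb G v).erase u ∧ q.2 ∈ Bq G u v)
    (fun a b _ => (a, b)) (a := d - 1) (b := d - 2 * (K + 1) - 2) (c := 1) ?_ ?_ ?_ ?_ ?_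
  · rwa [mul_one] at h2
  · rw [card_erase_of_mem ((mem_nb G v u).2 huv.symm), nb_card hG]
  · intro a ha
    rw [mem_erase, mem_nb] at ha
    have v1 := card_sdiff_add_card_inter (nb G a) (nb G u ∪ (nb G v ∪ {u, v}))
    rw [nb_card hG, inter_union_distrib_left, inter_union_distrib_left] at v1
    have v2 := card_union_le (nb G a ∩ nb G u) (nb G a ∩ nb G v ∪ nb G a ∩ {u, v})
    have v3 := card_union_le (nb G a ∩ nb G v) (nb G a ∩ {u, v})
    have v4 := t3_codeg hT ha.1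
    have v5 := t3_codeg hT ha.2.ne'
    have v6 : (nb G a ∩ {u, v}).card ≤ 2 := (card_le_card inter_subset_right).trans card_le_two
    omega
  · intro _ _ _ _; simp
  · intro a ha b hb _ _
    rw [mem_sdiff, mem_union, mem_union, mem_nb, mem_nb, mem_nb, mem_insert, mem_singleton] at hb
    push Not at hb
    rw [mem_erase, mem_nb] at ha
    rw [mem_filter, mem_Da, mem_erase, mem_nb, mem_Bq]
    exact ⟨hb.1, ha, hb.2.2.2.1, hb.2.2.2.2, hb.2.1, hb.2.2.1, a, ha.2, hb.1⟩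
  · intro x y z x' y' z' hh
    simp only [Prod.mk.injEq] at hh
    exact ⟨hh.1, hh.2, rfl⟩

lemma F5_card {K : ℕ} (hG : G ∈ reg n d) (hT : T3 G K) (huv : G.Adj u v) :
    ((d - 1) * (d - 2 * (K + 1) - 2) / (K + 1)) * ((d - 2 * (K + 1)) * (d - 1 - 2 * (K + 1))) *
      (d - 4 * (K + 1) - 2) ≤ (F5 u v G).card := by
  classical
  refine card_ge3 (Bq G u v) (fun b => (nb G b \ (nb G u ∪ nb G v)) ×ˢ (Wq G u v \ nb G b))
    (fun b xw => nb G xw.2 \ ({u, xw.1} ∪ (nb G u ∪ (nb G v ∪ (Bq G u v ∪ nb G xw.1))))) _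
    (fun b xw y => (b, xw.1, xw.2, y)) ?_ ?_ ?_ ?_ ?_
  · have := Bq_card hG hT huv
    exact Nat.div_le_of_le_mul (by rw [mul_comm (K + 1)]; exact this)
  · intro b hb
    obtain ⟨b1, b2, b3, b4, b5⟩ := mem_Bq.1 hb
    rw [card_product]
    refine Nat.mul_le_mul ?_ ?_
    · have v1 := card_sdiff_add_card_inter (nb G b) (nb G u ∪ nb G v)
      rw [nb_card hG, inter_union_distrib_left] at v1
      have v2 := card_union_le (nb G b ∩ nb G u) (nb G b ∩ nb G v)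
      have v4 := t3_codeg hT b1
      have v5 := t3_codeg hT b2
      omega
    · have hsub : nb G u ⊆ (Wq G u v \ nb G b) ∪ ({v} ∪ (nb G u ∩ nb G v ∪ nb G b ∩ nb G u)) := by
        intro w hw
        have hw' := (mem_nb G u w).1 hw
        simp only [mem_union, mem_sdiff, mem_Wq, mem_singleton, mem_inter, mem_nb]
        by_cases h1 : w = v
        · exact Or.inr (Or.inl h1)
        by_cases h2 : G.Adj v w
        · exact Or.inr (Or.inr (Or.inl ⟨hw', h2⟩))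
        by_cases h3 : G.Adj b w
        · exact Or.inr (Or.inr (Or.inr ⟨h3, hw'⟩))
        · exact Or.inl ⟨⟨hw', h1, h2⟩, h3⟩
      have c1 := card_le_card hsub
      rw [nb_card hG] at c1
      have c2 := card_union_le (Wq G u v \ nb G b) ({v} ∪ (nb G u ∩ nb G v ∪ nb G b ∩ nb G u))
      have c3 := card_union_le ({v} : Finset (Fin n)) (nb G u ∩ nb G v ∪ nb G b ∩ nb G u)
      have c4 := card_union_le (nb G u ∩ nb G v) (nb G b ∩ nb G u)
      have v4 := t3_codeg hT b1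
      have v5 := t3_codeg hT huv.ne
      rw [card_singleton] at c3
      omega
  · rintro b hb ⟨x, w⟩ hxw
    rw [mem_product] at hxw
    simp only at hxw
    obtain ⟨hx, hw⟩ := hxw
    rw [mem_sdiff, mem_union, mem_nb, mem_nb, mem_nb, not_or] at hx
    rw [mem_sdiff, mem_nb] at hw
    obtain ⟨w1, w2, w3⟩ := mem_Wq.1 hw.1
    have hxw : w ≠ x := by rintro rfl; exact hw.2 hx.1
    simp only
    have v1 := card_sdiff_add_card_inter (nb G w) ({u, x} ∪ (nb G u ∪ (nb G v ∪ (Bq G u v ∪ nb G x))))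
    rw [nb_card hG, inter_union_distrib_left, inter_union_distrib_left, inter_union_distrib_left,
      inter_union_distrib_left] at v1
    have c1 := card_union_le (nb G w ∩ {u, x}) (nb G w ∩ nb G u ∪ (nb G w ∩ nb G v ∪
      (nb G w ∩ Bq G u v ∪ nb G w ∩ nb G x)))
    have c2 := card_union_le (nb G w ∩ nb G u) (nb G w ∩ nb G v ∪
      (nb G w ∩ Bq G u v ∪ nb G w ∩ nb G x))
    have c3 := card_union_le (nb G w ∩ nb G v) (nb G w ∩ Bq G u v ∪ nb G w ∩ nb G x)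
    have c4 := card_union_le (nb G w ∩ Bq G u v) (nb G w ∩ nb G x)
    have k1 : (nb G w ∩ {u, x}).card ≤ 2 := (card_le_card inter_subset_right).trans card_le_two
    have k2 := t3_codeg hT w1.ne'
    have k3 := t3_codeg hT w2
    have k4 := wB_card hT hw.1
    have k5 := t3_codeg hT hxw
    omega
  · rintro b hb ⟨x, w⟩ hxw y hy
    rw [mem_product] at hxw
    simp only at hxw hy
    obtain ⟨hx, hw⟩ := hxw
    rw [mem_sdiff, mem_union, mem_nb, mem_nb, mem_nb, not_or] at hx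
    rw [mem_sdiff, mem_nb] at hw
    simp only [mem_sdiff, mem_union, mem_insert, mem_singleton, mem_nb, not_or] at hy
    obtain ⟨y1, ⟨y2, y3⟩, y4, y5, y6, y7⟩ := hy
    unfold F5
    rw [mem_filter]
    exact ⟨mem_univ _, hb, hx.1, hx.2.1, hx.2.2, hw.1, hw.2, y1, y2, y4, y5, y6, y7, Ne.symm y3⟩
  · rintro x ⟨y, z⟩ t x' ⟨y', z'⟩ t' hh
    simp only [Prod.mk.injEq] at hh
    exact ⟨hh.1, Prod.ext hh.2.1 hh.2.2.1, hh.2.2.2⟩

theorem rlo_one {K s : ℕ} (hd : 8 * (K + 1) + 8 ≤ d) (hs : 256 * s * n * (K + 1) ≤ d ^ 4)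
    (u v : Fin n) :
    (cnt n d (fun G => G.Adj u v ∧ (Xq G u v).card < s) : ℝ) ≤
      s * ((1 / 2) ^ s * (reg n d).card + 2 * cnt n d (fun G => ¬ T3 G K)) := by
  classical
  have main := low_chain (n := n) (d := d) (fun G => G.Adj u v) (fun G => ¬ T3 G K)
    (fun G => (Xq G u v).card) 1 s le_rfl ?_
  · rw [Nat.div_one] at main
    exact main
  intro m hm
  set f : ℕ := ((d - 1) * (d - 2 * (K + 1) - 2) / (K + 1)) *
    ((d - 2 * (K + 1)) * (d - 1 - 2 * (K + 1))) * (d - 4 * (K + 1) - 2) with hf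
  have hn0 : 0 < n := Fin.pos u
  -- numbers
  have f1 : d ≤ 2 * (d - 2 * (K + 1)) := by omega
  have f2 : d ≤ 2 * (d - 1 - 2 * (K + 1)) := by omega
  have f3 : d ≤ 2 * (d - 4 * (K + 1) - 2) := by omega
  have f4 : d * d ≤ 8 * (K + 1) * ((d - 1) * (d - 2 * (K + 1) - 2) / (K + 1)) := by
    set A := (d - 1) * (d - 2 * (K + 1) - 2) with hA
    have e1 : d ≤ 2 * (d - 1) := by omega
    have e2 : d ≤ 2 * (d - 2 * (K + 1) - 2) := by omega
    have e3 : d * d ≤ 4 * A := by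
      calc d * d ≤ (2 * (d - 1)) * (2 * (d - 2 * (K + 1) - 2)) := Nat.mul_le_mul e1 e2
        _ = 4 * A := by rw [hA]; ring
    have e4 : A < (A / (K + 1) + 1) * (K + 1) :=
      Nat.lt_mul_of_div_lt (Nat.lt_succ_self _) (Nat.succ_pos K)
    have e5 : 8 * (K + 1) ≤ d * d := by
      calc 8 * (K + 1) ≤ d * 1 := by omega
        _ ≤ d * d := Nat.mul_le_mul_left _ (by omega)
    have e6 : (A / (K + 1) + 1) * (K + 1) = (K + 1) * (A / (K + 1)) + (K + 1) := by ring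
    have e7 : 8 * (K + 1) * (A / (K + 1)) = 8 * ((K + 1) * (A / (K + 1))) := by ring
    omega
  have e1 : d ^ 5 ≤ 64 * (K + 1) * f := by
    calc d ^ 5 = (d * d) * (d * d) * d := by ring
      _ ≤ (8 * (K + 1) * ((d - 1) * (d - 2 * (K + 1) - 2) / (K + 1))) *
          ((2 * (d - 2 * (K + 1))) * (2 * (d - 1 - 2 * (K + 1)))) * (2 * (d - 4 * (K + 1) - 2)) :=
          Nat.mul_le_mul (Nat.mul_le_mul f4 (Nat.mul_le_mul f1 f2)) f3
      _ = 64 * (K + 1) * f := by rw [hf]; ring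
  have e2 : 64 * (K + 1) * (4 * s * (n * d)) ≤ 64 * (K + 1) * f := by
    calc 64 * (K + 1) * (4 * s * (n * d)) = (256 * s * n * (K + 1)) * d := by ring
      _ ≤ d ^ 4 * d := Nat.mul_le_mul_right _ hs
      _ = d ^ 5 := by ring
      _ ≤ _ := e1
  have e3 : 4 * s * (n * d) ≤ f := Nat.le_of_mul_le_mul_left e2 (by positivity)
  refine step_dc _ _ (F5 u v) (B5 u v) f ((m + 1) * (n * d)) ?_ ?_ ?_ ?_ ?_ ?_
  · intro G hG hP b x w y ht
    unfold F5 at ht
    rw [mem_filter] at ht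
    obtain ⟨-, t1, t2, t3, t4, t5, t6, t7, t8, t9, t10, t11, t12, t13⟩ := ht
    simp only at t1 t2 t3 t4 t5 t6 t7 t8 t9 t10 t11 t12 t13
    refine ⟨t2, t7, t6, ?_, t12, t13⟩
    intro h
    have h' : b = w := h
    exact (mem_Bq.1 t1).2.2.1 (h' ▸ (mem_Wq.1 t5).1)
  · intro G hG hP b x w y ht G' hG' hS
    unfold F5 at ht
    rw [mem_filter] at ht
    obtain ⟨-, t1, t2, t3, t4, t5, t6, t7, t8, t9, t10, t11, t12, t13⟩ := ht
    simp only at t1 t2 t3 t4 t5 t6 t7 t8 t9 t10 t11 t12 t13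
    obtain ⟨q1, q2, q3, q4⟩ := xq_switch hS t1 t5 t3 t4 t8 t9 t10 t11 hP.1 hP.2.1
    refine ⟨⟨q1, q4⟩, ?_⟩
    unfold B5
    rw [mem_filter, mem_Xq, mem_Da]
    exact ⟨mem_univ _, ⟨⟨q2, q3⟩, hS.ac'⟩, hS.be'⟩
  · intro G hG hP
    exact F5_card hG (not_not.1 hP.2.2) hP.1
  · intro G hG hP
    have := B5_card (u := u) (v := v) hG
    rw [hP.2] at this
    exact this
  · have : 2 * ((m + 1) * (n * d)) ≤ 4 * s * (n * d) := by
      calc 2 * ((m + 1) * (n * d)) = 2 * (m + 1) * (n * d) := by ring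
        _ ≤ 4 * s * (n * d) := Nat.mul_le_mul_right _ (by omega)
    omega
  · have h0 : 0 < d ^ 5 := by
      have : 0 < d := by omega
      positivity
    have h1 : 0 < 64 * (K + 1) * f := lt_of_lt_of_le h0 e1
    exact Nat.pos_of_ne_zero fun h => by rw [h] at h1; simp at h1

theorem rlo {K s : ℕ} (hd : 8 * (K + 1) + 8 ≤ d) (hs : 256 * s * n * (K + 1) ≤ d ^ 4) :
    (cnt n d (fun G => ¬ LoB G s) : ℝ) ≤
      n ^ 2 * (s * ((1 / 2) ^ s * (reg n d).card + 2 * cnt n d (fun G => ¬ T3 G K))) := by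
  classical
  have h1 : (cnt n d (fun G => ¬ LoB G s) : ℝ) ≤
      ∑ uv : Fin n × Fin n, (cnt n d (fun G => G.Adj uv.1 uv.2 ∧ (Xq G uv.1 uv.2).card < s) : ℝ) := by
    refine le_trans ?_ (cnt_existsR univ fun (uv : Fin n × Fin n) G =>
      G.Adj uv.1 uv.2 ∧ (Xq G uv.1 uv.2).card < s)
    refine Nat.cast_le.2 (cnt_mono fun G _ h => ?_)
    unfold LoB at h
    push Not at h
    obtain ⟨u, v, huv, hS⟩ := h
    refine ⟨(u, v), mem_univ _, huv, ?_⟩
    by_contra hcon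
    push Not at hcon
    obtain ⟨S, hS1, hS2⟩ := lob_of_Xq huv hcon
    have := hS S hS1
    omega
  refine h1.trans ((sum_le_sum fun uv _ => rlo_one hd hs uv.1 uv.2).trans (le_of_eq ?_))
  rw [sum_const, card_univ, Fintype.card_prod, Fintype.card_fin, nsmul_eq_mul]
  push_cast
  ring

end Pool.Agent.U140.RG
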