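import Pool.Agent.U140.RG.Za1
import Pool.Agent.U140.SG.Core

/-! The sparse range: the bad event for a random exposure. -/

set_option linter.unusedSectionVars false
set_option linter.unusedVariables false

namespace Pool.Agent.U140.RG

open Finset Pool.Agent.K1H35.SH Pool.Agent.Q299.PW
open Pool.Agent.U140.SG (Chain Wt Wt_nonneg choose_le_exp sum_pow_card It MCs dem Hrec Qo mem_Qo Om
  wp wp_nonneg wp_sum pr_all)

variable {n d : ℕ}

/-- the bad event, with few items -/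
def BadB (G : SimpleGraph (Fin n)) (Q : Finset (Sym2 (Fin n))) (L₀ C₀ i₀ : ℕ) : Prop :=
  ∃ I : Finset (It n), I ≠ ∅ ∧ I.card ≤ i₀ ∧ (MCs G Q I).card ≤ L₀ * I.card ∧
    ∃ l' ∈ List.sublistsLen (C₀ * I.card) (MCs G Q I).toList, Chain G Q (l'.map (dem I))

lemma MCs_ag {G G₀ : SimpleGraph (Fin n)} {Q : Finset (Sym2 (Fin n))} (h : Ag Q G₀ G)
    (I : Finset (It n)) : MCs G Q I = MCs G₀ Q I := by
  have h1 : Hrec G Q I = Hrec G₀ Q I := by
    ext a b
    unfold Hrec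
    simp only
    refine and_congr_right fun h1 => and_congr_right fun h2 => ?_
    have h3 : G.Adj a b ↔ G₀.Adj a b := h s(a, b) h2
    rw [h3]
  unfold MCs
  rw [h1]

theorem rbad_one {D L₀ C₀ i₀ : ℕ} (hD : d ≤ D) (hd : 32 * d ≤ n) (hC : 0 < C₀)
    (hi : 48 * (C₀ * i₀) ≤ n * d) (Q : Finset (Sym2 (Fin n))) (hQ : ∀ x, 16 * pd Q x ≤ n) :
    (cnt n d (fun G => 8 * kd Q G ≤ n * d ∧ BadB G Q L₀ C₀ i₀) : ℝ) ≤
      ((1 + (Real.exp 1 * L₀ / C₀ * Wt n (rt n d) D) ^ C₀) ^ (Fintype.card (It n)) - 1) *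
        (reg n d).card := by
  classical
  have hr0 := rt_nonneg n d
  have hWt := Wt_nonneg (n := n) hr0 D
  set ξ : ℝ := (Real.exp 1 * L₀ / C₀ * Wt n (rt n d) D) ^ C₀ with hξ
  have hξ0 : 0 ≤ ξ := by rw [hξ]; positivity
  have hX0 : 0 ≤ (1 + ξ) ^ (Fintype.card (It n)) - 1 := by
    have := one_le_pow₀ (n := Fintype.card (It n)) (show (1 : ℝ) ≤ 1 + ξ by linarith)
    linarith
  refine cnt_classes Q _ fun G₀ hG₀ => ?_
  set N : ℝ := (cnt n d (fun G => Ag Q G₀ G) : ℝ) with hN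
  have hN0 : 0 ≤ N := Nat.cast_nonneg _
  by_cases hk : 8 * kd Q G₀ ≤ n * d
  swap
  · rw [cnt_zero fun G _ h => hk (by rw [← kd_ag h.1]; exact h.2.1)]
    push_cast
    exact mul_nonneg hX0 hN0
  have hcap : Cap n d Q G₀ (3 * (C₀ * i₀)) := ⟨hd, fun x _ _ _ => hQ x, hk, by omega⟩
  set A : Finset (It n) → SimpleGraph (Fin n) → Prop := fun I G =>
    I.card ≤ i₀ ∧ (MCs G₀ Q I).card ≤ L₀ * I.card ∧
    ∃ l' ∈ List.sublistsLen (C₀ * I.card) (MCs G₀ Q I).toList,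
      (Ag Q G₀ G ∧ Chain G Q (l'.map (dem I))) with hA
  have hstep : (cnt n d (fun G => Ag Q G₀ G ∧ 8 * kd Q G ≤ n * d ∧ BadB G Q L₀ C₀ i₀) : ℝ) ≤
      ∑ I ∈ (univ : Finset (Finset (It n))).erase ∅, (cnt n d (A I) : ℝ) := by
    refine le_trans (Nat.cast_le.2 (cnt_mono fun G hG h => ?_)) (cnt_existsR _ A)
    obtain ⟨hag, -, I, hI, hIc, hc, l', hl', hch⟩ := h
    rw [MCs_ag hag] at hc hl'
    exact ⟨I, mem_erase.2 ⟨hI, mem_univ _⟩, hIc, hc, l', hl', hag, hch⟩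
  refine hstep.trans ?_
  have hterm : ∀ I ∈ (univ : Finset (Finset (It n))).erase ∅,
      (cnt n d (A I) : ℝ) ≤ ξ ^ I.card * N := by
    intro I hI
    have hIc : 0 < I.card := card_pos.2 (nonempty_iff_ne_empty.2 (mem_erase.1 hI).1)
    by_cases hi' : I.card ≤ i₀
    swap
    · rw [cnt_zero fun G _ h => hi' h.1]
      push_cast
      positivity
    by_cases hc : (MCs G₀ Q I).card ≤ L₀ * I.card
    swap
    · rw [cnt_zero fun G _ h => hc h.2.1]
      push_cast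
      positivity
    have h2 : (cnt n d (A I) : ℝ) ≤
        (List.sublistsLen (C₀ * I.card) (MCs G₀ Q I).toList).length *
          (Wt n (rt n d) D ^ (C₀ * I.card) * N) := by
      refine le_trans (Nat.cast_le.2 (cnt_mono fun G _ h => h.2.2)) (cnt_exists_list _ _ ?_)
      intro l' hl'
      have hlen : 3 * (l'.map (dem I)).length ≤ 3 * (C₀ * i₀) := by
        rw [List.length_map, (List.mem_sublistsLen.1 hl').2]
        exact Nat.mul_le_mul_left _ (Nat.mul_le_mul_left _ hi')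
      have := rseq hcap (l'.map (dem I)) ∅ (by simp) (by rw [card_empty, zero_add]; exact hlen)
      rw [List.length_map, (List.mem_sublistsLen.1 hl').2] at this
      simp only [card_empty, pow_zero, one_mul, union_empty] at this
      refine le_trans (Nat.cast_le.2 (cnt_mono fun G _ h => ?_)) (this.trans ?_)
      · exact ⟨h.1, fun e he => by simp at he, h.2⟩
      · refine mul_le_mul_of_nonneg_right ?_ hN0
        exact pow_le_pow_left₀ (Wt_nonneg hr0 d) (Wt_mono hr0 hD) _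
    refine h2.trans ?_
    rw [List.length_sublistsLen, length_toList, ← mul_assoc]
    refine mul_le_mul_of_nonneg_right ?_ hN0
    have h3 : (((MCs G₀ Q I).card.choose (C₀ * I.card) : ℕ) : ℝ) ≤
        (Real.exp 1 * L₀ / C₀) ^ (C₀ * I.card) := by
      have h4 : (((MCs G₀ Q I).card.choose (C₀ * I.card) : ℕ) : ℝ) ≤
          (((L₀ * I.card).choose (C₀ * I.card) : ℕ) : ℝ) :=
        Nat.cast_le.2 (Nat.choose_le_choose _ hc)
      refine h4.trans ?_
      have h5 := choose_le_exp (L₀ * I.card) (C₀ * I.card) (Nat.mul_pos hC hIc)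
      refine h5.trans (le_of_eq ?_)
      congr 1
      push_cast
      have : (I.card : ℝ) ≠ 0 := by exact_mod_cast hIc.ne'
      have : (C₀ : ℝ) ≠ 0 := by exact_mod_cast hC.ne'
      field_simp
    calc (((MCs G₀ Q I).card.choose (C₀ * I.card) : ℕ) : ℝ) *
          (Wt n (rt n d) D) ^ (C₀ * I.card)
        ≤ (Real.exp 1 * L₀ / C₀) ^ (C₀ * I.card) * (Wt n (rt n d) D) ^ (C₀ * I.card) :=
          mul_le_mul_of_nonneg_right h3 (by positivity)
      _ = ξ ^ I.card := by rw [hξ, ← mul_pow, ← pow_mul]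
  refine (sum_le_sum hterm).trans ?_
  rw [← sum_mul]
  refine mul_le_mul_of_nonneg_right ?_ hN0
  have h6 := sum_pow_card (β := It n) ξ
  have h7 := add_sum_erase (univ : Finset (Finset (It n))) (fun I => ξ ^ I.card) (mem_univ ∅)
  simp only [card_empty, pow_zero] at h7
  linarith

/-- sums over graphs of probabilities -/
lemma sum_Pr {ρ : ℝ} (h0 : 0 ≤ ρ) (h1 : ρ ≤ 1) (A : SimpleGraph (Fin n) → Om n → Prop) {B : ℝ}
    (h : ∀ ω : Om n, (cnt n d (fun G => A G ω) : ℝ) ≤ B) :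
    ∑ G ∈ reg n d, Pr (wp ρ) (fun ω : Om n => A G ω) ≤ B := by
  classical
  have hw := wp_nonneg h0 h1
  have e1 : ∑ G ∈ reg n d, Pr (wp ρ) (fun ω : Om n => A G ω) =
      Ex (wp ρ) (fun ω : Om n => (cnt n d (fun G => A G ω) : ℝ)) := by
    unfold Pr
    rw [← Ex_sum]
    refine congrArg (Ex _) (funext fun ω => ?_)
    rw [cnt_filter, card_filter]
    push_cast
    refine sum_congr rfl fun G _ => ?_
    by_cases h : A G ω
    · simp only [if_pos h]
    · simp only [if_neg h]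
  rw [e1]
  exact (Ex_mono hw h).trans (le_of_eq (Ex_const (wp_sum ρ) B))

theorem rbad {ρ β δ₁ δ₂ : ℝ} (h0 : 0 ≤ ρ) (h1 : ρ ≤ 1) (hβ : 0 < β) {D L₀ C₀ i₀ : ℕ} (hD : d ≤ D)
    (hd : 32 * d ≤ n) (hC : 0 < C₀) (hi : 48 * (C₀ * i₀) ≤ n * d)
    (hδ₁ : Pr (wp ρ) (fun ω : Om n => ¬ ∀ x, 16 * pd (Qo ω) x ≤ n) ≤ δ₁)
    (hδ₂ : ∀ G ∈ reg n d, Pr (wp ρ) (fun ω : Om n => n * d < 8 * kd (Qo ω) G) ≤ δ₂) :
    (cnt n d (fun G => ¬ (Pr (wp ρ) (fun ω : Om n => BadB G (Qo ω) L₀ C₀ i₀) ≤ β)) : ℝ) ≤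
      (((1 + (Real.exp 1 * L₀ / C₀ * Wt n (rt n d) D) ^ C₀) ^ (Fintype.card (It n)) - 1) / β +
        (δ₁ + δ₂) / β) * (reg n d).card := by
  classical
  have hw := wp_nonneg h0 h1
  set R : ℝ := ((reg n d).card : ℝ) with hR
  have hR0 : 0 ≤ R := Nat.cast_nonneg _
  have hr0 := rt_nonneg n d
  have hWt := Wt_nonneg (n := n) hr0 D
  set X : ℝ := (1 + (Real.exp 1 * L₀ / C₀ * Wt n (rt n d) D) ^ C₀) ^ (Fintype.card (It n)) - 1
    with hX
  have hX0 : 0 ≤ X := by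
    have := one_le_pow₀ (n := Fintype.card (It n))
      (show (1 : ℝ) ≤ 1 + (Real.exp 1 * L₀ / C₀ * Wt n (rt n d) D) ^ C₀ by
        have : 0 ≤ (Real.exp 1 * L₀ / C₀ * Wt n (rt n d) D) ^ C₀ := by positivity
        linarith)
    rw [hX]; linarith
  set P : SimpleGraph (Fin n) → ℝ := fun G => Pr (wp ρ) (fun ω : Om n => BadB G (Qo ω) L₀ C₀ i₀)
    with hP
  -- the sum of all probabilities
  have hsum : ∑ G ∈ reg n d, P G ≤ X * R + (δ₁ + δ₂) * R := by
    have e1 : ∀ G ∈ reg n d, P G ≤ Pr (wp ρ) (fun ω : Om n => (∀ x, 16 * pd (Qo ω) x ≤ n) ∧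
        8 * kd (Qo ω) G ≤ n * d ∧ BadB G (Qo ω) L₀ C₀ i₀) + (δ₁ + δ₂) := by
      intro G hG
      have a1 := Pr_or_le hw (fun ω : Om n => (∀ x, 16 * pd (Qo ω) x ≤ n) ∧
        8 * kd (Qo ω) G ≤ n * d ∧ BadB G (Qo ω) L₀ C₀ i₀)
        (fun ω => (¬ ∀ x, 16 * pd (Qo ω) x ≤ n) ∨ n * d < 8 * kd (Qo ω) G)
      have a2 := Pr_or_le hw (fun ω : Om n => ¬ ∀ x, 16 * pd (Qo ω) x ≤ n)
        (fun ω => n * d < 8 * kd (Qo ω) G)
      have a3 := hδ₂ G hG
      have a4 : P G ≤ Pr (wp ρ) (fun ω : Om n => ((∀ x, 16 * pd (Qo ω) x ≤ n) ∧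
        8 * kd (Qo ω) G ≤ n * d ∧ BadB G (Qo ω) L₀ C₀ i₀) ∨
        ((¬ ∀ x, 16 * pd (Qo ω) x ≤ n) ∨ n * d < 8 * kd (Qo ω) G)) := by
        refine Pr_mono hw fun ω h => ?_
        by_cases g1 : ∀ x, 16 * pd (Qo ω) x ≤ n
        · by_cases g2 : 8 * kd (Qo ω) G ≤ n * d
          · exact Or.inl ⟨g1, g2, h⟩
          · exact Or.inr (Or.inr (not_le.1 g2))
        · exact Or.inr (Or.inl g1)
      linarith
    refine (sum_le_sum e1).trans ?_
    rw [sum_add_distrib, sum_const, nsmul_eq_mul, mul_comm (((reg n d).card : ℝ))]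
    refine add_le_add ?_ le_rfl
    refine sum_Pr h0 h1 (fun G ω => (∀ x, 16 * pd (Qo ω) x ≤ n) ∧
        8 * kd (Qo ω) G ≤ n * d ∧ BadB G (Qo ω) L₀ C₀ i₀) fun ω => ?_
    by_cases g1 : ∀ x, 16 * pd (Qo ω) x ≤ n
    · refine le_trans (Nat.cast_le.2 (cnt_mono fun G _ h => h.2)) ?_
      exact rbad_one hD hd hC hi (Qo ω) g1
    · rw [cnt_zero fun G _ h => g1 h.1]
      push_cast
      exact mul_nonneg hX0 hR0
  -- Markov
  have hP0 : ∀ G, 0 ≤ P G := fun G => Pr_nonneg hw _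
  have hM : β * (cnt n d (fun G => ¬ (P G ≤ β)) : ℝ) ≤ ∑ G ∈ reg n d, P G := by
    rw [cnt_filter]
    calc β * (((reg n d).filter fun G => ¬ (P G ≤ β)).card : ℝ)
        = ∑ G ∈ (reg n d).filter (fun G => ¬ (P G ≤ β)), β := by
          rw [sum_const, nsmul_eq_mul]; ring
      _ ≤ ∑ G ∈ (reg n d).filter (fun G => ¬ (P G ≤ β)), P G :=
          sum_le_sum fun G hG => (not_le.1 (mem_filter.1 hG).2).le
      _ ≤ ∑ G ∈ reg n d, P G :=
          sum_le_sum_of_subset_of_nonneg (filter_subset _ _) fun G _ _ => hP0 G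
  have h5 : (cnt n d (fun G => ¬ (P G ≤ β)) : ℝ) ≤ (X * R + (δ₁ + δ₂) * R) / β := by
    rw [le_div_iff₀ hβ]
    linarith
  refine h5.trans (le_of_eq ?_)
  ring

/-! ### tails for the exposure -/

lemma up_tail {ρ : ℝ} (h0 : 0 ≤ ρ) (h1 : ρ ≤ 1) (F : Finset (Sym2 (Fin n))) {t : ℕ} (ht : 0 < t) :
    Pr (wp ρ) (fun ω : Om n => t ≤ (F.filter fun e => ω e = true).card) ≤
      (Real.exp 1 * F.card / t * ρ) ^ t := by
  classical
  have hw := wp_nonneg h0 h1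
  have h2 : Pr (wp ρ) (fun ω : Om n => t ≤ (F.filter fun e => ω e = true).card) ≤
      ∑ T ∈ powersetCard t F, Pr (wp ρ) (fun ω : Om n => ∀ e ∈ T, ω e = true) := by
    refine le_trans (Pr_mono hw fun ω h => ?_) (Pr_exists_le hw _ _)
    obtain ⟨T, hT1, hT2⟩ := exists_subset_card_eq h
    exact ⟨T, mem_powersetCard.2 ⟨hT1.trans (filter_subset _ _), hT2⟩,
      fun e he => (mem_filter.1 (hT1 he)).2⟩
  refine h2.trans ?_
  have h3 : ∀ T ∈ powersetCard t F, Pr (wp ρ) (fun ω : Om n => ∀ e ∈ T, ω e = true) = ρ ^ t := by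
    intro T hT
    rw [pr_all, (mem_powersetCard.1 hT).2]
  rw [sum_congr rfl h3, sum_const, card_powersetCard, nsmul_eq_mul, mul_pow]
  exact mul_le_mul_of_nonneg_right (choose_le_exp _ _ ht) (by positivity)

lemma upc {ρ : ℝ} (h0 : 0 ≤ ρ) (h1 : ρ ≤ 1) (F : Finset (Sym2 (Fin n))) {N a c : ℕ} (hc : 0 < c)
    (hF : F.card ≤ a * N) :
    Pr (wp ρ) (fun ω : Om n => N < c * (F.filter fun e => ω e = true).card) ≤
      (Real.exp 1 * (a * c) * ρ) ^ (N / c + 1) := by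
  classical
  have hw := wp_nonneg h0 h1
  have h2 := up_tail h0 h1 F (Nat.succ_pos (N / c))
  refine le_trans (Pr_mono hw fun ω h => ?_) (h2.trans ?_)
  · exact Nat.succ_le_iff.2 ((Nat.div_lt_iff_lt_mul hc).2 (by rw [mul_comm]; exact h))
  · refine pow_le_pow_left₀ (by positivity) ?_ _
    refine mul_le_mul_of_nonneg_right ?_ h0
    rw [div_le_iff₀ (by positivity), mul_assoc]
    refine mul_le_mul_of_nonneg_left ?_ (Real.exp_pos _).le
    have h3 : N ≤ c * (N / c + 1) := (Nat.lt_mul_div_succ N hc).le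
    have h4 : F.card ≤ a * (c * (N / c + 1)) := hF.trans (Nat.mul_le_mul_left _ h3)
    have h5 : (F.card : ℝ) ≤ a * (c * ((N / c + 1 : ℕ) : ℝ)) := by exact_mod_cast h4
    linarith

lemma pd_tail {ρ : ℝ} (h0 : 0 ≤ ρ) (h1 : ρ ≤ 1) :
    Pr (wp ρ) (fun ω : Om n => ¬ ∀ x, 16 * pd (Qo ω) x ≤ n) ≤
      n * (Real.exp 1 * (((1 : ℕ) : ℝ) * ((16 : ℕ) : ℝ)) * ρ) ^ (n / 16 + 1) := by
  classical
  have hw := wp_nonneg h0 h1
  have hs : Pr (wp ρ) (fun ω : Om n => ¬ ∀ x, 16 * pd (Qo ω) x ≤ n) ≤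
      ∑ x : Fin n, Pr (wp ρ) (fun ω : Om n => n < 16 *
        (((univ : Finset (Fin n)).image fun c => s(x, c)).filter fun e => ω e = true).card) := by
    refine le_trans (Pr_mono hw fun ω h => ?_) (Pr_exists_le hw _ _)
    push Not at h
    obtain ⟨x, hx⟩ := h
    refine ⟨x, mem_univ _, lt_of_lt_of_le hx (Nat.mul_le_mul_left _ ?_)⟩
    unfold pd
    refine card_le_card_of_injOn (fun c => s(x, c)) ?_ ?_
    · intro c hc
      rw [mem_coe, mem_filter, mem_Qo] at hc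
      rw [mem_coe, mem_filter]
      exact ⟨mem_image_of_mem _ (mem_univ _), hc.2⟩
    · intro c _ c' _ hh
      exact Sym2.congr_right.1 hh
  refine hs.trans ((sum_le_sum fun x _ => upc h0 h1 ((univ : Finset (Fin n)).image fun c => s(x, c))
    (N := n) (a := 1) (c := 16) (by norm_num) (by
      rw [one_mul]; exact card_image_le.trans (by simp))).trans (le_of_eq ?_))
  rw [sum_const, card_univ, Fintype.card_fin, nsmul_eq_mul]

open Classical in
/-- the edges as a finset -/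
noncomputable def Eg (G : SimpleGraph (Fin n)) : Finset (Sym2 (Fin n)) :=
  univ.filter fun e => e ∈ G.edgeSet

lemma mem_Eg {G : SimpleGraph (Fin n)} {e : Sym2 (Fin n)} : e ∈ Eg G ↔ e ∈ G.edgeSet := by
  classical
  simp [Eg]

lemma Eg_card (G : SimpleGraph (Fin n)) : (Eg G).card ≤ (Da G).card := by
  classical
  refine le_trans (card_le_card (t := (Da G).image fun q => s(q.1, q.2)) fun e he => ?_) card_image_le
  rw [mem_Eg] at he
  induction e using Sym2.ind with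
  | _ a b => exact mem_image.2 ⟨(a, b), mem_Da.2 he, rfl⟩

lemma kd_tail {ρ : ℝ} (h0 : 0 ≤ ρ) (h1 : ρ ≤ 1) {G : SimpleGraph (Fin n)} (hG : G ∈ reg n d) :
    Pr (wp ρ) (fun ω : Om n => n * d < 8 * kd (Qo ω) G) ≤
      (Real.exp 1 * (((1 : ℕ) : ℝ) * ((16 : ℕ) : ℝ)) * ρ) ^ (n * d / 16 + 1) := by
  classical
  have hw := wp_nonneg h0 h1
  refine le_trans (Pr_mono hw fun ω h => ?_) (upc h0 h1 (Eg G) (N := n * d) (a := 1) (c := 16)
    (by norm_num) (by rw [one_mul, ← da_card hG]; exact Eg_card G))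
  have h2 : kd (Qo ω) G ≤ 2 * ((Eg G).filter fun e => ω e = true).card := by
    refine le_trans (card_le_card fun q hq => ?_) (da_pairs G ((Eg G).filter fun e => ω e = true))
    rw [mem_filter, mem_Qo] at hq
    rw [mem_filter, mem_filter, mem_Eg]
    exact ⟨hq.1, mem_Da.1 hq.1, hq.2⟩
  omega

end Pool.Agent.U140.RG
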