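import Pool.Agent.U140.RG.Za3

/-! The sparse range: deterministic part with few items. -/

set_option linter.unusedSectionVars false
set_option linter.unusedVariables false

namespace Pool.Agent.U140.SG

open Finset Pool.Agent.Q299.PW

variable {n : ℕ} {G H : SimpleGraph (Fin n)} {f g : Fin n → Fin n → Fin n} {K : ℕ}

/-- if not bad, few pairs are discovered -/
lemma AA_cardR (m : Mt G H f g) {L₀ C₀ i₀ : ℕ} (ω : Om n)
    (hb : ¬ Pool.Agent.U140.RG.BadB G (univ.filter fun e => ω e = true) L₀ C₀ i₀)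
    (hi : (I0 G H f (univ.filter fun e => ω e = true)).card ≤ i₀)
    (hc : (MCs G (univ.filter fun e => ω e = true)
      (I0 G H f (univ.filter fun e => ω e = true))).card ≤
        L₀ * (I0 G H f (univ.filter fun e => ω e = true)).card) :
    (AA H g ω).card ≤ 3 * (C₀ * (I0 G H f (univ.filter fun e => ω e = true)).card) := by
  classical
  set Q : Finset (Sym2 (Fin n)) := univ.filter fun e => ω e = true with hQ
  set I := I0 G H f Q with hI
  have hmQ : ∀ e, e ∈ Q ↔ ω e = true := fun e => by rw [hQ, mem_filter]; simp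
  obtain ⟨l', T, h1, h2, h3, h4, h5⟩ := greedy
    (P := fun (C : Fin 5 → Fin n) (c : Fin n × Fin n × Fin n × Fin n) =>
      C ∈ MCs G Q I ∧ c = (vw g C 0 1, vw g C 0 2, vw g C 0 3, vw g C 0 4))
    (New := fun S c => ¬ pe c.1 c.2.1 c.2.2.1 c.2.2.2 ⊆ S)
    (es := fun c => pe c.1 c.2.1 c.2.2.1 c.2.2.2)
    (fun S T c hST h h' => h (h'.trans hST)) (M := 3)
    (fun c => by unfold pe; exact card_le_three) (MCs G Q I).toList Q
  -- discovered pairs are in `T`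
  have hAT : AA H g ω ⊆ T \ Q := by
    intro e he
    unfold AA at he
    rw [mem_filter] at he
    obtain ⟨-, e1, C, c1, c2, c3, c4⟩ := he
    rw [mem_sdiff, hmQ, e1]
    refine ⟨?_, by simp⟩
    have hEs : Es C ⊆ Q := fun h hh => (hmQ h).2 (c4 h hh)
    have hC : C ∈ MCs G Q I := (mem_MCs_I0 m Q C).2 ⟨c1, hEs, c2⟩
    rcases h5 C (mem_toList.2 hC) with ⟨-, c, ⟨-, hc1⟩, hc2⟩ | h
    · rw [hc1] at hc2
      exact hc2 c3
    · have := h (vw g C 0 1, vw g C 0 2, vw g C 0 3, vw g C 0 4) ⟨hC, rfl⟩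
      rw [not_not] at this
      exact this c3
  have hA3 : (AA H g ω).card ≤ 3 * l'.length := (card_le_card hAT).trans h3
  by_contra hcon
  push Not at hcon
  have hlen : C₀ * I.card ≤ l'.length := by
    by_contra hh
    push Not at hh
    have := Nat.mul_le_mul_left 3 hh.le
    omega
  -- conversion to a chain
  have hconv : ∀ (l : List (Fin 5 → Fin n)) (S : Finset (Sym2 (Fin n))),
      GChain (P := fun (C : Fin 5 → Fin n) (c : Fin n × Fin n × Fin n × Fin n) =>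
        C ∈ MCs G Q I ∧ c = (vw g C 0 1, vw g C 0 2, vw g C 0 3, vw g C 0 4))
        (fun S c => ¬ pe c.1 c.2.1 c.2.2.1 c.2.2.2 ⊆ S)
        (fun c => pe c.1 c.2.1 c.2.2.1 c.2.2.2) S l → Chain G S (l.map (dem I)) := by
    intro l
    induction l with
    | nil => intro S _; trivial
    | cons C l ih =>
      intro S h
      obtain ⟨c, ⟨hc1, hc2⟩, hc3, hc4⟩ := h
      subst hc2
      obtain ⟨q1, q2, q3⟩ := (mem_MCs_I0 m Q C).1 hc1
      rw [List.map_cons]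
      have v := m.vw_cyc q1 0
      refine ⟨vw g C 0 2, vw g C 0 3, ?_, ?_, ?_⟩
      · rw [hI, dem_I0 m Q q1 q2]
        exact ⟨v.adj 1, v.adj 2, v.adj 3, v.inj.ne (by decide), v.inj.ne (by decide),
          v.inj.ne (by decide)⟩
      · rw [hI, dem_I0 m Q q1 q2]
        exact hc3
      · rw [hI, dem_I0 m Q q1 q2]
        exact ih _ hc4
  apply hb
  refine ⟨I, ?_, hi, hc, l'.take (C₀ * I.card), ?_, hconv _ _ (h4.take _)⟩
  · intro hI0
    have hM : (MCs G Q I).card ≤ 0 := by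
      refine hc.trans ?_
      rw [hI0]; simp
    have hM0 : (MCs G Q I) = ∅ := card_eq_zero.1 (Nat.le_zero.1 hM)
    rw [hM0] at h1
    simp only [toList_empty, List.sublist_nil] at h1
    rw [h1] at hA3
    simp at hA3
    rw [hA3] at hcon
    simp at hcon
  · rw [List.mem_sublistsLen]
    refine ⟨(List.take_sublist _ _).trans h1, ?_⟩
    rw [List.length_take, min_eq_left hlen]


theorem gl_mainR (m : Mt G H f g) (hT : T3 G K) {Up : ℕ} (hUp : UpB G Up) {ρ : ℝ} (h0 : 0 ≤ ρ)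
    (h1 : ρ ≤ 1) {C₀ k i₀ : ℕ} {β β₂ : ℝ}
    (hβ : Pr (wp ρ) (fun ω : Om n => Pool.Agent.U140.RG.BadB G (Qo ω) (10 * (k * (1 + 5 * K5 K))) C₀ i₀) ≤ β)
    (hβ₂ : Pr (wp ρ) (fun ω : Om n => i₀ < (I0 G H f (Qo ω)).card) ≤ β₂) :
    Ex (wp ρ) (fun ω : Om n => ((AA H g ω).card : ℝ)) ≤ 6 * C₀ * ρ * (DD G f).card +
      (Fintype.card (Sym2 (Fin n)) : ℝ) * (β + β₂ + n ^ 2 * ((Up.choose k : ℝ) * ρ ^ (4 * k))) := by
  classical
  have hw := wp_nonneg h0 h1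
  have hw1 := wp_sum ρ
  set L₁ := k * (1 + 5 * K5 K) with hL₁
  set B1 : Om n → Prop := fun ω => Pool.Agent.U140.RG.BadB G (Qo ω) (10 * L₁) C₀ i₀ ∨
    i₀ < (I0 G H f (Qo ω)).card with hB1
  set B2 : Fin n × Fin n → Om n → Prop := fun zw ω => ∃ S : Finset (Fin 5 → Fin n),
      (∀ C ∈ S, IsC5 H C ∧ C 0 = zw.1 ∧ C 1 = zw.2 ∧ Es C ⊆ Qo ω) ∧ L₁ < S.card with hB2
  set N : ℝ := (Fintype.card (Sym2 (Fin n)) : ℝ) with hN
  have hpt : ∀ ω : Om n, ((AA H g ω).card : ℝ) ≤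
      (3 * C₀ : ℝ) * (∑ zx ∈ DD G f, (if ω s(zx.1, f zx.1 zx.2) = true then (1 : ℝ) else 0) +
        ∑ e ∈ EGH G H, (if ω e = true then (1 : ℝ) else 0)) +
      N * (if (B1 ω ∨ ∃ zw ∈ (univ : Finset (Fin n × Fin n)), B2 zw ω) then (1 : ℝ) else 0) := by
    intro ω
    have hS1 : 0 ≤ ∑ zx ∈ DD G f, (if ω s(zx.1, f zx.1 zx.2) = true then (1 : ℝ) else 0) +
        ∑ e ∈ EGH G H, (if ω e = true then (1 : ℝ) else 0) := by
      refine add_nonneg (sum_nonneg fun _ _ => ?_) (sum_nonneg fun _ _ => ?_) <;>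
        split_ifs <;> norm_num
    by_cases hb : B1 ω ∨ ∃ zw ∈ (univ : Finset (Fin n × Fin n)), B2 zw ω
    · rw [if_pos hb, mul_one]
      have : ((AA H g ω).card : ℝ) ≤ N := by
        rw [hN]; exact_mod_cast card_le_univ _
      have h3 : 0 ≤ (3 * C₀ : ℝ) * (∑ zx ∈ DD G f,
          (if ω s(zx.1, f zx.1 zx.2) = true then (1 : ℝ) else 0) +
        ∑ e ∈ EGH G H, (if ω e = true then (1 : ℝ) else 0)) := mul_nonneg (by positivity) hS1
      linarith
    · rw [if_neg hb, mul_zero, add_zero]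
      push Not at hb
      have hL : ∀ z w, ∀ S : Finset (Fin 5 → Fin n),
          (∀ C ∈ S, IsC5 H C ∧ C 0 = z ∧ C 1 = w ∧ Es C ⊆ Qo ω) → S.card ≤ L₁ := by
        intro z w S hS
        by_contra hh
        push Not at hh
        exact hb.2 (z, w) (mem_univ _) ⟨S, hS, hh⟩
      have h4 := MCs_card m ω hL
      have hb1 := not_or.1 hb.1
      have h5 := AA_cardR m (L₀ := 10 * L₁) (C₀ := C₀) (i₀ := i₀) ω hb1.1 (not_lt.1 hb1.2) h4
      have h6 : ((AA H g ω).card : ℝ) ≤ 3 * (C₀ * (I0 G H f (Qo ω)).card) := by exact_mod_cast h5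
      refine h6.trans ?_
      calc (3 : ℝ) * (C₀ * (I0 G H f (Qo ω)).card) = (3 * C₀ : ℝ) * (I0 G H f (Qo ω)).card := by ring
        _ ≤ _ := mul_le_mul_of_nonneg_left (I0_card ω) (by positivity)
  refine (Ex_mono hw hpt).trans ?_
  rw [Ex_add, Ex_smul, Ex_smul, Ex_add, Ex_sum, Ex_sum]
  have e1 : ∑ zx ∈ DD G f, Ex (wp ρ) (fun ω : Om n =>
      if ω s(zx.1, f zx.1 zx.2) = true then (1 : ℝ) else 0) = (DD G f).card * ρ := by
    rw [sum_congr rfl fun zx _ => Ex_true ρ s(zx.1, f zx.1 zx.2), sum_const, nsmul_eq_mul]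
  have e2 : ∑ e ∈ EGH G H, Ex (wp ρ) (fun ω : Om n => if ω e = true then (1 : ℝ) else 0) =
      (EGH G H).card * ρ := by
    rw [sum_congr rfl fun e _ => Ex_true ρ e, sum_const, nsmul_eq_mul]
  have e3 : Ex (wp ρ) (fun ω : Om n =>
      if (B1 ω ∨ ∃ zw ∈ (univ : Finset (Fin n × Fin n)), B2 zw ω) then (1 : ℝ) else 0) =
      Pr (wp ρ) (fun ω => B1 ω ∨ ∃ zw ∈ (univ : Finset (Fin n × Fin n)), B2 zw ω) := by
    unfold Pr
    congr 1
    funext ω
    by_cases h : (B1 ω ∨ ∃ zw ∈ (univ : Finset (Fin n × Fin n)), B2 zw ω)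
    · rw [if_pos h, if_pos h]
    · rw [if_neg h, if_neg h]
  rw [e1, e2, e3]
  have h7 : Pr (wp ρ) (fun ω => B1 ω ∨ ∃ zw ∈ (univ : Finset (Fin n × Fin n)), B2 zw ω) ≤
      β + β₂ + n ^ 2 * ((Up.choose k : ℝ) * ρ ^ (4 * k)) := by
    refine (Pr_or_le hw _ _).trans (add_le_add ((Pr_or_le hw _ _).trans (add_le_add hβ hβ₂)) ?_)
    refine (Pr_exists_le hw _ _).trans ?_
    refine (sum_le_sum fun zw _ => dart_tail m hT hUp h0 h1 k zw.1 zw.2).trans ?_
    rw [sum_const, card_univ, Fintype.card_prod, Fintype.card_fin, nsmul_eq_mul]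
    push_cast
    rw [sq]
  have h8 : ((EGH G H).card : ℝ) ≤ (DD G f).card := by exact_mod_cast card_EGH m
  have h9 : N * Pr (wp ρ) (fun ω => B1 ω ∨ ∃ zw ∈ (univ : Finset (Fin n × Fin n)), B2 zw ω) ≤
      N * (β + β₂ + n ^ 2 * ((Up.choose k : ℝ) * ρ ^ (4 * k))) :=
    mul_le_mul_of_nonneg_left h7 (by rw [hN]; positivity)
  have h10 : (3 * C₀ : ℝ) * (((DD G f).card : ℝ) * ρ + (EGH G H).card * ρ) ≤
      6 * C₀ * ρ * (DD G f).card := by
    have : ((EGH G H).card : ℝ) * ρ ≤ (DD G f).card * ρ := mul_le_mul_of_nonneg_right h8 h0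
    have h11 : (3 * C₀ : ℝ) * (((DD G f).card : ℝ) * ρ + (EGH G H).card * ρ) ≤
        (3 * C₀ : ℝ) * (((DD G f).card : ℝ) * ρ + (DD G f).card * ρ) :=
      mul_le_mul_of_nonneg_left (by linarith) (by positivity)
    refine h11.trans (le_of_eq ?_)
    ring
  linarith


structure TypR (G : SimpleGraph (Fin n)) (K Lo Up Dg μ B C₀ k i₀ : ℕ) (ρ β : ℝ) : Prop where
  t3 : T3 G K
  lo : LoB G Lo
  up : UpB G Up
  dg : MaxDeg G Dg
  ss : SSP G Dg
  kr : KRP G (μ + 1) B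
  bad : Pr (wp ρ) (fun ω : Om n =>
    Pool.Agent.U140.RG.BadB G (Qo ω) (10 * (k * (1 + 5 * K5 K))) C₀ i₀) ≤ β

theorem coreR {K Lo Up Dg μ B C₀ k i₀ τ : ℕ} {ρ β β₂ : ℝ} (t : TypR G K Lo Up Dg μ B C₀ k i₀ ρ β)
    (hβ₂ : Pr (wp ρ) (fun ω : Om n => i₀ < (I0 G H f (Qo ω)).card) ≤ β₂)
    (m : Mt G H f g) (h0 : 0 < ρ) (h1 : ρ ≤ 1 / 2) (hτ0 : 0 < τ) (hτρ : (τ : ℝ) * ρ ^ 4 ≤ 1)
    (hτρ' : 1 ≤ 2 * (τ : ℝ) * ρ ^ 4) (hU : (10 * Up : ℝ) * ρ ^ 5 ≤ 1)
    (hμ : 50 * Up < (μ + 1) * τ)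
    (herr : (Fintype.card (Sym2 (Fin n)) : ℝ) *
      (β + β₂ + n ^ 2 * ((Up.choose k : ℝ) * ρ ^ (4 * k))) ≤ ρ)
    {c₁ : ℝ} (hc₁ : c₁ = (500 * K5 K + 12) * (6 * C₀ + 1))
    (hnum : 10 * (2 * K5 K + c₁ / ρ ^ 4 + 400 * c₁ * K5 K + 200 * c₁ * μ * K5 K + K * K5 K +
      50 * B * (40 * c₁ + K + 30)) < Lo) : DD G f = ∅ := by
  classical
  by_contra hD
  have hDc : 1 ≤ (DD G f).card := Nat.one_le_iff_ne_zero.2 fun h => hD (card_eq_zero.1 h)
  have hDr : (1 : ℝ) ≤ (DD G f).card := by exact_mod_cast hDc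
  set d : ℝ := ((DD G f).card : ℝ) with hd
  set R : ℝ := (6 * C₀ + 1) * ρ * d with hR
  have hEx : Ex (wp ρ) (fun ω : Om n => ((AA H g ω).card : ℝ)) ≤ R := by
    refine (gl_mainR m t.t3 t.up h0.le (by linarith) t.bad hβ₂).trans ?_
    have : ρ ≤ ρ * d := by nlinarith
    rw [hR]
    linarith
  obtain ⟨P, Nt, p1, p2, p3, p4, p5⟩ := pop m t.t3 t.up h0 h1 hτ0 hτρ hU hEx
  have hμ1 : ∀ T : Finset (Sym2 (Fin n)), T.card * τ ≤ 50 * Up → T.card ≤ μ := by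
    intro T hT
    have h2 := lt_of_le_of_lt hT hμ
    have := Nat.lt_of_mul_lt_mul_right h2
    omega
  have hrig := rigid m t.t3 t.lo t.dg t.ss t.kr P (fun k T hT => hμ1 T (p3 k T hT))
    (fun e T hT => hμ1 T (p4 e T hT)) (B3 := Nt) p5
  have hrig' : d * Lo ≤ 10 * (d * (2 * K5 K) + Nt + P.card * (40 * K5 K) +
      P.card * (μ * (20 * K5 K)) + d * (K * K5 K) +
      50 * (B * (4 * P.card + (K + 30) * d))) := by
    rw [hd]; exact_mod_cast hrig
  have hρ4 : 0 < ρ ^ 4 := by positivity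
  have hc0 : 0 ≤ c₁ := by rw [hc₁]; positivity
  have hNt : (Nt : ℝ) ≤ c₁ / ρ ^ 4 * d := by
    have : (Nt : ℝ) * ρ ^ 5 ≤ c₁ * ρ * d := by
      refine p1.trans (le_of_eq ?_)
      rw [hR, hc₁]; ring
    have h2 : (Nt : ℝ) * ρ ^ 4 * ρ ≤ c₁ * d * ρ := by
      calc (Nt : ℝ) * ρ ^ 4 * ρ = Nt * ρ ^ 5 := by ring
        _ ≤ c₁ * ρ * d := this
        _ = c₁ * d * ρ := by ring
    have h3 := le_of_mul_le_mul_right h2 h0
    rw [div_mul_eq_mul_div, le_div_iff₀ hρ4]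
    exact h3
  have hPc : (P.card : ℝ) ≤ 10 * c₁ * d := by
    have h2 : (P.card : ℝ) * τ ≤ 5 * Nt := by exact_mod_cast p2
    have h3 : (P.card : ℝ) * 1 ≤ P.card * (2 * τ * ρ ^ 4) :=
      mul_le_mul_of_nonneg_left hτρ' (by positivity)
    have h4 : (P.card : ℝ) * (2 * τ * ρ ^ 4) = 2 * ρ ^ 4 * (P.card * τ) := by ring
    have h5 : 2 * ρ ^ 4 * (P.card * τ) ≤ 2 * ρ ^ 4 * (5 * Nt) :=
      mul_le_mul_of_nonneg_left h2 (by positivity)
    have h6 : 2 * ρ ^ 4 * (5 * (Nt : ℝ)) ≤ 2 * ρ ^ 4 * (5 * (c₁ / ρ ^ 4 * d)) :=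
      mul_le_mul_of_nonneg_left (by linarith) (by positivity)
    have h7 : 2 * ρ ^ 4 * (5 * (c₁ / ρ ^ 4 * d)) = 10 * c₁ * d := by field_simp; ring
    linarith
  have hK : (0 : ℝ) ≤ K5 K := by positivity
  have hB : (0 : ℝ) ≤ B := by positivity
  have hm : (0 : ℝ) ≤ μ := by positivity
  have hd0 : 0 < d := by linarith
  have hbig : d * Lo ≤ d * (10 * (2 * K5 K + c₁ / ρ ^ 4 + 400 * c₁ * K5 K +
      200 * c₁ * μ * K5 K + K * K5 K + 50 * B * (40 * c₁ + K + 30))) := by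
    refine hrig'.trans ?_
    have a1 : (P.card : ℝ) * (40 * K5 K) ≤ 10 * c₁ * d * (40 * K5 K) :=
      mul_le_mul_of_nonneg_right hPc (by positivity)
    have a2 : (P.card : ℝ) * (μ * (20 * K5 K)) ≤ 10 * c₁ * d * (μ * (20 * K5 K)) :=
      mul_le_mul_of_nonneg_right hPc (by positivity)
    have a3 : 50 * (B * (4 * (P.card : ℝ) + (K + 30) * d)) ≤
        50 * (B * (4 * (10 * c₁ * d) + (K + 30) * d)) := by
      refine mul_le_mul_of_nonneg_left (mul_le_mul_of_nonneg_left (by linarith) hB) (by norm_num)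
    calc _ ≤ 10 * (d * (2 * K5 K) + c₁ / ρ ^ 4 * d + 10 * c₁ * d * (40 * K5 K) +
      10 * c₁ * d * (μ * (20 * K5 K)) + d * (K * K5 K) +
      50 * (B * (4 * (10 * c₁ * d) + (K + 30) * d))) := by linarith
      _ = _ := by ring
  have := le_of_mul_le_mul_left hbig hd0
  linarith


open Pool.Agent.U140.RG in
lemma I0_le (m : Mt G H f g) (ω : Om n) : (I0 G H f (Qo ω)).card ≤
    3 * ((Eg G ∪ Eg H).filter fun e => ω e = true).card := by
  classical
  set F := (Eg G ∪ Eg H).filter fun e => ω e = true with hF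
  set J : Finset (Fin n × Fin n × Fin n) := univ.filter fun t => (Sum.inl t : It n) ∈ I0 G H f (Qo ω)
    with hJ
  have h1 : I0 G H f (Qo ω) ⊆ J.image (fun t => (Sum.inl t : It n)) ∪
      F.image (fun e => (Sum.inr e : It n)) := by
    intro t ht
    rw [mem_union, mem_image, mem_image]
    rcases t with t | e
    · exact Or.inl ⟨t, mem_filter.2 ⟨mem_univ _, ht⟩, rfl⟩
    · right
      rw [mem_I0_inr, mem_Qo] at ht
      refine ⟨e, ?_, rfl⟩
      rw [hF, mem_filter, mem_union, mem_Eg, mem_Eg]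
      exact ⟨Or.inl ht.1, ht.2.2⟩
  have h2 : J.card ≤ 2 * F.card := by
    refine le_trans ?_ (da_pairs H F)
    refine card_le_card_of_injOn (fun t => (t.1, t.2.2)) ?_ ?_
    · rintro ⟨z, x, w⟩ ht
      rw [mem_coe, hJ, mem_filter, mem_I0_inl, mem_Qo] at ht
      obtain ⟨-, k1, k2, k3, k4⟩ := ht
      have k5 := m.f_adj k1
      rw [k2] at k5
      rw [mem_coe, mem_filter, mem_Da, hF, mem_filter, mem_union, mem_Eg, mem_Eg]
      exact ⟨k5, Or.inr k5, k4⟩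
    · rintro ⟨z, x, w⟩ ht ⟨z', x', w'⟩ ht' hh
      rw [mem_coe, hJ, mem_filter, mem_I0_inl] at ht ht'
      obtain ⟨-, k1, k2, k3, k4⟩ := ht
      obtain ⟨-, k1', k2', k3', k4'⟩ := ht'
      simp only [Prod.mk.injEq] at hh
      obtain ⟨e1, e2⟩ := hh
      subst e1
      have e3 := m.gf_adj k1
      have e4 := m.gf_adj k1'
      rw [k2] at e3
      rw [k2', ← e2] at e4
      rw [← e3, ← e4, e2]
  have h3 := card_le_card h1
  have h4 := card_union_le (J.image (fun t => (Sum.inl t : It n))) (F.image (fun e => (Sum.inr e : It n)))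
  have h5 : (J.image (fun t => (Sum.inl t : It n))).card ≤ J.card := card_image_le
  have h6 : (F.image (fun e => (Sum.inr e : It n))).card ≤ F.card := card_image_le
  omega

open Pool.Agent.U140.RG Pool.Agent.K1H35.SH in
lemma I0_tail {d C₀ : ℕ} (hG : G ∈ reg n d) (m : Mt G H f g) (hC : 0 < C₀) {ρ : ℝ} (h0 : 0 ≤ ρ)
    (h1 : ρ ≤ 1) :
    Pr (wp ρ) (fun ω : Om n => n * d / (48 * C₀) < (I0 G H f (Qo ω)).card) ≤
      (Real.exp 1 * (((2 : ℕ) : ℝ) * ((144 * C₀ : ℕ) : ℝ)) * ρ) ^ (n * d / (144 * C₀) + 1) := by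
  classical
  have hw := wp_nonneg h0 h1
  have hDH : (Da H).card ≤ (Da G).card := by
    refine card_le_card_of_injOn (fun q => (q.1, g q.1 q.2)) ?_ ?_
    · intro q hq
      rw [mem_coe, mem_Da] at hq
      rw [mem_coe, mem_Da]
      exact m.g_adj hq
    · rintro ⟨z, w⟩ hq ⟨z', w'⟩ hq' hh
      rw [mem_coe, mem_Da] at hq hq'
      simp only [Prod.mk.injEq] at hh
      obtain ⟨e1, e2⟩ := hh
      subst e1
      have e3 := m.fg_adj hq
      have e4 := m.fg_adj hq'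
      simp only at e3 e4
      rw [← e2, e3] at e4
      rw [e4]
  have hc : (Eg G ∪ Eg H).card ≤ 2 * (n * d) := by
    have h2 := card_union_le (Eg G) (Eg H)
    have h3 := Eg_card G
    have h4 := Eg_card H
    have h5 := da_card hG
    omega
  refine le_trans (Pr_mono hw fun ω h => ?_) (upc h0 h1 (Eg G ∪ Eg H) (N := n * d) (a := 2)
    (c := 144 * C₀) (by positivity) hc)
  have h2 := lt_of_lt_of_le h (I0_le m ω)
  rw [Nat.div_lt_iff_lt_mul (by positivity)] at h2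
  calc n * d < 3 * ((Eg G ∪ Eg H).filter fun e => ω e = true).card * (48 * C₀) := h2
    _ = 144 * C₀ * ((Eg G ∪ Eg H).filter fun e => ω e = true).card := by ring

end Pool.Agent.U140.SG
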