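import Pool.Agent.U140.RG.Za2
import Pool.Agent.U140.RG.Za4
import Pool.Agent.U140.SG.Par4

/-! The sparse range: numerics. -/

set_option linter.unusedSectionVars false
set_option linter.unusedVariables false

namespace Pool.Agent.U140.RG

open Finset Pool.Agent.K1H35.SH Pool.Agent.Q299.PW Filter Topology
open Pool.Agent.U140.SG (Om Wt Wt_nonneg T3 LoB UpB SSP KRP Bf TypR coreR GoodG Hyp Dp Dp_ge Dp_le
  rM Kc C2 Upc rho tau muc kc L0c C0c r1c Loc' w0 b0 C4 C8 rp rp_ge rp_le De1 r1_le mu_le rho_le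
  rho_pos rho_half rho_ge tau_pos tau_rho tau_rho' mu_lt hU_ok choose_rho card_sym2_le I0 I0_tail
  K5 pow_half_le part2 part3 part5 part6 part7 hnum_ok Wt_le_inv N_facts b0w0_ge wp wp_nonneg Qo Mt
  half_le_exp C2_ge')

variable {n d M : ℕ} {L : ℝ}

/-- the sparse range -/
lemma hyp_of {L : ℕ} (hd : 1 ≤ d) (hL : 2 ≤ L) (hM : n ≤ L ^ M) (h1 : 8 * L ^ 24 * d ^ 3 ≤ n)
    (h2 : L ^ 32 * n ≤ 16 * d ^ 4) : Hyp n M (rt n d) L := by
  have hd0 : (1 : ℝ) ≤ d := by exact_mod_cast hd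
  have hL0 : (2 : ℝ) ≤ L := by exact_mod_cast hL
  have h1' : 8 * (L : ℝ) ^ 24 * d ^ 3 ≤ n := by exact_mod_cast h1
  have h2' : (L : ℝ) ^ 32 * n ≤ 16 * d ^ 4 := by exact_mod_cast h2
  have hL24 : (1 : ℝ) ≤ (L : ℝ) ^ 24 := one_le_pow₀ (by linarith)
  have hd3 : (d : ℝ) ≤ (d : ℝ) ^ 3 := le_self_pow₀ hd0 (by norm_num)
  have hn8 : 8 * (d : ℝ) ≤ n := by
    calc 8 * (d : ℝ) ≤ 8 * (d : ℝ) ^ 3 := by linarith
      _ = 8 * 1 * d ^ 3 := by ring
      _ ≤ 8 * (L : ℝ) ^ 24 * d ^ 3 := by gcongr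
      _ ≤ n := h1'
  have hn0 : (0 : ℝ) < n := by linarith
  unfold rt
  refine ⟨by positivity, ?_, by linarith, by linarith, by exact_mod_cast hM, ?_, ?_⟩
  · rw [div_le_one hn0]; linarith
  · have e : (n : ℝ) ^ 2 * (2 * d / n) ^ 3 * L ^ 24 = (8 * L ^ 24 * d ^ 3) / n := by
      field_simp
      ring
    rw [e, div_le_one hn0]
    exact h1'
  · have e : (n : ℝ) ^ 3 * (2 * d / n) ^ 4 = (16 * d ^ 4) / n := by
      field_simp
      ring
    rw [e, le_div_iff₀ hn0]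
    exact h2'

lemma np_eq (hn : 0 < n) : (n : ℝ) * rt n d = 2 * d := by
  unfold rt
  have : (n : ℝ) ≠ 0 := by exact_mod_cast hn.ne'
  field_simp

/-- the natural number conditions -/
structure Nat5 (n d M : ℕ) (L : ℝ) : Prop where
  a : 32 * d ≤ n
  b : 48 * rM M ≤ n * d
  c : 48 * rp n (rt n d) ≤ n * d
  e : 224 * Dp n (rt n d) ≤ n * d
  f : 96 * (r1c n (rt n d) L * ((muc M n (rt n d) L + 1) * Dp n (rt n d))) ≤ n * d
  g : 8 * (Kc M + 1) + 8 ≤ d
  i : 256 * Loc' n (Kc M) (rt n d) * n * (Kc M + 1) ≤ d ^ 4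
  dD : d ≤ Dp n (rt n d)

lemma nat5 (h : Hyp n M (rt n d) L) (hd : 1 ≤ d) (hn : 8 ≤ n) (hL : 10 ^ 7 ≤ L)
    (hM : (48 * (rM M : ℝ)) ≤ L) (hC : (725214 : ℝ) * C2 M ≤ L)
    (hK : 131072 * (Kc M + 1 : ℝ) ≤ L) (h32 : 32 * d ≤ n) : Nat5 n d M L := by
  have hn0 : 0 < n := by omega
  have hnp := np_eq (d := d) hn0
  have hL1 := h.L1
  have hL0 : 0 < L := by linarith
  have hp0 := h.p0
  have hDe := De1 h
  have hnL : L ≤ n := h.L32.trans h.X_ge
  have hd1 : (1 : ℝ) ≤ d := by exact_mod_cast hd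
  have hd0 : (0 : ℝ) < d := by linarith
  have hn0' : (0 : ℝ) < n := by exact_mod_cast hn0
  have hdn : (n : ℝ) ≤ n * d := by nlinarith
  have hDp := Dp_le h
  rw [hnp] at hDp
  have hled : (n : ℝ) ^ 3 * rt n d ^ 4 ≤ 2 * d := by
    have := h.ledelta
    rw [hnp] at this
    exact this
  have hDn : (n : ℝ) ^ 3 * rt n d ^ 4 ≤ n := by
    have : (32 : ℝ) * d ≤ n := by exact_mod_cast h32
    linarith
  have hd2 : L ^ 32 ≤ 2 * (d : ℝ) := by
    have := h.d_ge
    rw [hnp] at this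
    exact this
  refine ⟨h32, ?_, ?_, ?_, ?_, ?_, ?_, ?_⟩
  · have : (48 : ℝ) * rM M ≤ n * d := by linarith
    exact_mod_cast this
  · have h1 := rp_le h
    have : (48 : ℝ) * rp n (rt n d) ≤ n * d := by
      have h2 : (48 : ℝ) * rp n (rt n d) ≤ 48 * (7001 * (2 * d)) := by linarith
      have h3 : (48 : ℝ) * (7001 * (2 * d)) = 672096 * d := by ring
      have h4 : (672096 : ℝ) * d ≤ n * d := by
        refine mul_le_mul_of_nonneg_right ?_ hd0.le
        linarith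
      linarith
    exact_mod_cast this
  · have : (224 : ℝ) * Dp n (rt n d) ≤ n * d := by
      have h4 : (3136 : ℝ) * d ≤ n * d := mul_le_mul_of_nonneg_right (by linarith) hd0.le
      linarith
    exact_mod_cast this
  · have h1 := r1_le h
    have h2 := mu_le h
    have hC2 := C2_ge' M
    have h3 : ((muc M n (rt n d) L : ℝ) + 1) ≤ 101 * (C2 M * L) := by
      have : 1 ≤ (C2 M : ℝ) * L := by nlinarith
      linarith
    have h4 : (96 : ℝ) * (r1c n (rt n d) L * (((muc M n (rt n d) L : ℝ) + 1) * Dp n (rt n d))) ≤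
        n * d := by
      calc (96 : ℝ) * (r1c n (rt n d) L * (((muc M n (rt n d) L : ℝ) + 1) * Dp n (rt n d)))
          ≤ 96 * (((n : ℝ) ^ 3 * rt n d ^ 4 / L ^ 3) * ((101 * (C2 M * L)) * (7 * (2 * d)))) := by
            gcongr
        _ ≤ 96 * ((n / L ^ 3) * ((101 * (C2 M * L)) * (7 * (2 * d)))) := by gcongr
        _ = (135744 * C2 M / L ^ 2) * (n * d) := by field_simp; ring
        _ ≤ 1 * (n * d) := by
            refine mul_le_mul_of_nonneg_right ?_ (by positivity)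
            rw [div_le_one (by positivity)]
            nlinarith
        _ = n * d := one_mul _
    exact_mod_cast h4
  · have : (8 : ℝ) * (Kc M + 1) + 8 ≤ d := by
      have h1 : L * 4 ≤ L ^ 32 := by
        calc L * 4 ≤ L * L := mul_le_mul_of_nonneg_left (by linarith) hL0.le
          _ = L ^ 2 := by ring
          _ ≤ L ^ 32 := pow_le_pow_right₀ hL1 (by norm_num)
      have h2 : (0 : ℝ) ≤ Kc M := Nat.cast_nonneg _
      linarith
    exact_mod_cast this
  · -- the lower bound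
    have hK0 : (0 : ℝ) < Kc M + 1 := by positivity
    have hq : ((n / 4 : ℕ) : ℝ) ≤ n / 4 := Nat.cast_div_le
    have hq0 : (0 : ℝ) ≤ ((n / 4 : ℕ) : ℝ) := Nat.cast_nonneg _
    have hw : w0 n (rt n d) ≤ d / 8 := by
      unfold w0
      have : ((n / 4 : ℕ) : ℝ) * rt n d ≤ n / 4 * rt n d := mul_le_mul_of_nonneg_right hq hp0.le
      have e : (n : ℝ) / 4 * rt n d = d / 2 := by
        have : (n : ℝ) / 4 * rt n d = (n * rt n d) / 4 := by ring
        rw [this, hnp]; ring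
      linarith
    have hw0 : 0 ≤ w0 n (rt n d) := by unfold w0; positivity
    have hb : b0 n (Kc M) (rt n d) * (Kc M + 1) ≤ d ^ 2 / 64 := by
      unfold b0
      rw [div_mul_cancel₀ _ hK0.ne']
      have e1 : w0 n (rt n d) * ((n / 4 : ℕ) : ℝ) * rt n d / 4 =
          w0 n (rt n d) * w0 n (rt n d) := by
        unfold w0; ring
      rw [e1]
      calc w0 n (rt n d) * w0 n (rt n d) ≤ (d / 8) * (d / 8) := by gcongr
        _ = d ^ 2 / 64 := by ring
    have hb0 : 0 ≤ b0 n (Kc M) (rt n d) := by unfold b0; positivity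
    have hloc : (Loc' n (Kc M) (rt n d) : ℝ) ≤ b0 n (Kc M) (rt n d) * w0 n (rt n d) * rt n d / 4 :=
      Nat.floor_le (by positivity)
    have : (256 : ℝ) * Loc' n (Kc M) (rt n d) * n * (Kc M + 1) ≤ d ^ 4 := by
      calc (256 : ℝ) * Loc' n (Kc M) (rt n d) * n * (Kc M + 1)
          ≤ 256 * (b0 n (Kc M) (rt n d) * w0 n (rt n d) * rt n d / 4) * n * (Kc M + 1) := by gcongr
        _ = 64 * ((b0 n (Kc M) (rt n d) * (Kc M + 1)) * w0 n (rt n d) * (n * rt n d)) := by ring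
        _ ≤ 64 * ((d ^ 2 / 64) * (d / 8) * (2 * d)) := by
            rw [hnp]
            gcongr
        _ = d ^ 4 / 4 := by ring
        _ ≤ d ^ 4 := by
            have : (0 : ℝ) ≤ (d : ℝ) ^ 4 := by positivity
            linarith
    exact_mod_cast this
  · have h1 := Dp_ge n (rt n d)
    rw [hnp] at h1
    have : (d : ℝ) ≤ Dp n (rt n d) := by linarith
    exact_mod_cast this

end Pool.Agent.U140.RG
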