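import Pool.Agent.U140.RG.Zb3
import Pool.Agent.U140.SG.Fin1
import Pool.Agent.K1H35.SH.Top

/-! The dense range, and the assembly. -/

set_option linter.unusedSectionVars false
set_option linter.unusedVariables false

namespace Pool.Agent.U140.RG

open Finset Pool.Agent.K1H35.SH Filter Topology
open Pool.Agent.U140.SG (GoodG Rec RecM InB edist_iff rec_of_recM recM_of_good)

variable {n d : ℕ}

theorem rec_of_recon {G : SimpleGraph (Fin n)} (h : Recon G) : Rec G := by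
  classical
  rintro H ⟨σ, hσ⟩
  refine h (Fin n) H σ fun v => ?_
  obtain ⟨f, h1, h2, h3⟩ := hσ v
  have hv : v ∈ {w | G.edist v w ≤ 2} := (edist_iff G v v).2 (Or.inl rfl)
  have hin : ∀ x ∈ ball G v, x ∈ {w | G.edist v w ≤ 2} := by
    rintro x (rfl | hx)
    · exact hv
    · exact (edist_iff G v x).2 (Or.inr (Or.inl hx))
  have hm : ∀ x ∈ ball G v, f x ∈ ball H (σ v) := by
    rintro x (rfl | hx)
    · exact Or.inl h1
    · have := (h3 v hv x (hin x (Or.inr hx))).1 hx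
      rw [h1] at this
      exact Or.inr this
  have hbij : Function.Bijective (fun x : ball G v => (⟨f x, hm x x.2⟩ : ball H (σ v))) := by
    constructor
    · intro x y hxy
      have : f x = f y := congrArg Subtype.val hxy
      exact Subtype.ext (h2.2.1 (hin x x.2) (hin y y.2) this)
    · rintro ⟨y, hy | hy⟩
      · exact ⟨⟨v, Or.inl rfl⟩, Subtype.ext (h1.trans hy.symm)⟩
      · obtain ⟨x, hx, hxy⟩ := h2.2.2 ((edist_iff H (σ v) y).2 (Or.inr (Or.inl hy)))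
        refine ⟨⟨x, Or.inr ?_⟩, Subtype.ext hxy⟩
        refine (h3 v hv x hx).2 ?_
        rw [h1, hxy]
        exact hy
  refine ⟨Equiv.ofBijective _ hbij, h1, fun x y => ?_⟩
  exact h3 x (hin x x.2) y (hin y y.2)

theorem zone_D : ∃ C : ℝ, 0 < C ∧ ∀ n d : ℕ, C ≤ (n : ℝ) →
    C * (n : ℝ) * (Real.log n) ^ 4 ≤ (d : ℝ) ^ 2 →
    2 * d ≤ n → n * cnt n d (fun G => ¬ Rec G) ≤ (reg n d).card := by
  obtain ⟨C, hC, h⟩ := r_FULL
  refine ⟨C, hC, fun n d h1 h2 h3 => (Nat.mul_le_mul_left _ ?_).trans (h n d h1 h2 h3)⟩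
  exact cnt_mono fun G _ hG hR => hG (rec_of_recon hR)

/-- the statement for the sparse range -/
def ZA : Prop := ∀ (M : ℕ) (η : ℝ), 0 < η → ∃ Λ : ℕ, ∀ n d L : ℕ, Λ ≤ L → 1 ≤ n →
    n ≤ L ^ M → 8 * L ^ 24 * d ^ 3 ≤ n → L ^ 32 * n ≤ 16 * d ^ 4 →
    (cnt n d (fun G => ¬ RecM G) : ℝ) ≤ η * (reg n d).card

lemma nat_root (n M : ℕ) (hM : 1 ≤ M) : ∃ L : ℕ, L ^ M ≤ n ∧ n < (L + 1) ^ M := by
  refine ⟨Nat.nthRoot M n, ?_, ?_⟩
  · exact Nat.pow_nthRoot_le_iff.2 (by simp [Nat.one_le_iff_ne_zero.1 hM])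
  · exact Nat.lt_pow_nthRoot_add_one (by omega) n

lemma root_large {n M L Λ : ℕ} (hn : (Λ + 1) ^ M ≤ n) (h2 : n < (L + 1) ^ M) : Λ ≤ L := by
  by_contra hcon
  push Not at hcon
  have : (L + 1) ^ M ≤ (Λ + 1) ^ M := Nat.pow_le_pow_left (by omega) M
  omega

lemma succ_pow (M : ℕ) : ∃ Λ : ℕ, ∀ L : ℕ, Λ ≤ L → (L + 1) ^ M ≤ L ^ (M + 1) := by
  refine ⟨2 ^ M + 1, fun L hL => ?_⟩
  have h1 : 1 ≤ L := (Nat.le_add_left _ _).trans hL
  have h2 : 2 ^ M ≤ L := (Nat.le_succ _).trans hL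
  calc (L + 1) ^ M ≤ (2 * L) ^ M := Nat.pow_le_pow_left (by omega) M
    _ = 2 ^ M * L ^ M := by rw [mul_pow]
    _ ≤ L * L ^ M := Nat.mul_le_mul_right _ h2
    _ = L ^ (M + 1) := by rw [pow_succ]; ring

lemma log_small (M : ℕ) (C : ℝ) : ∃ Λ : ℕ, ∀ L n : ℕ, Λ ≤ L → 1 ≤ n → n ≤ L ^ M →
    C * Real.log n ^ 4 ≤ L := by
  have h2 : Tendsto (fun x : ℝ => Real.log x ^ 4 / x) atTop (nhds 0) := by
    have h3 := (isLittleO_log_rpow_rpow_atTop (s := 1) 4 (by positivity)).tendsto_div_nhds_zero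
    refine h3.congr (fun x => ?_)
    norm_num
  have h3 := (h2.comp (tendsto_natCast_atTop_atTop (R := ℝ))).const_mul (|C| * (M : ℝ) ^ 4)
  rw [mul_zero] at h3
  obtain ⟨Λ, hΛ⟩ := eventually_atTop.1 ((h3.eventually (gt_mem_nhds (show (0 : ℝ) < 1 by norm_num))).and
    (eventually_ge_atTop 1))
  refine ⟨Λ, fun L n hL hn h => ?_⟩
  obtain ⟨g1, g2⟩ := hΛ L hL
  have hL0 : (0 : ℝ) < L := by exact_mod_cast g2
  have hn0 : (1 : ℝ) ≤ n := by exact_mod_cast hn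
  simp only [Function.comp_apply] at g1
  have e1 : |C| * (M : ℝ) ^ 4 * Real.log L ^ 4 ≤ L := by
    have e2 : |C| * (M : ℝ) ^ 4 * (Real.log L ^ 4 / L) = (|C| * (M : ℝ) ^ 4 * Real.log L ^ 4) / L := by
      ring
    rw [e2, div_lt_one hL0] at g1
    exact g1.le
  have e3 : Real.log n ≤ M * Real.log L := by
    rw [← Real.log_pow]
    refine Real.log_le_log (by linarith) ?_
    exact_mod_cast h
  have e4 : 0 ≤ Real.log n := Real.log_nonneg hn0
  calc C * Real.log n ^ 4 ≤ |C| * Real.log n ^ 4 :=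
        mul_le_mul_of_nonneg_right (le_abs_self C) (by positivity)
    _ ≤ |C| * (M * Real.log L) ^ 4 := by
        refine mul_le_mul_of_nonneg_left (pow_le_pow_left₀ e4 e3 4) (abs_nonneg _)
    _ = |C| * (M : ℝ) ^ 4 * Real.log L ^ 4 := by ring
    _ ≤ L := e1

end Pool.Agent.U140.RG
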