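import Pool.Agent.U140.RG.Za5
import Pool.Agent.U140.RG.Zd

/-! The sparse range: main theorem. -/

set_option linter.unusedSectionVars false
set_option linter.unusedVariables false

namespace Pool.Agent.U140.RG

open Finset Pool.Agent.K1H35.SH Pool.Agent.Q299.PW Filter Topology
open Pool.Agent.U140.SG (Om Wt Wt_nonneg T3 LoB UpB SSP KRP Bf TypR coreR GoodG RecM recM_of_good Hyp
  Dp Dp_ge Dp_le
  rM Kc C2 Upc rho tau muc kc L0c C0c r1c Loc' w0 b0 C4 C8 rp rp_ge rp_le De1 r1_le mu_le rho_le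
  rho_pos rho_half rho_ge tau_pos tau_rho tau_rho' mu_lt hU_ok choose_rho card_sym2_le I0 I0_tail
  K5 pow_half_le part2 part3 part5 part6 part7 hnum_ok Wt_le_inv N_facts b0w0_ge wp wp_nonneg Qo Mt
  half_le_exp C2_ge' r1_big)

variable {n d M : ℕ} {L : ℝ}

lemma tail_small {ρ : ℝ} (h0 : 0 ≤ ρ) (hL : 1 ≤ L) (hρ : ρ ≤ 1 / L ^ 2) {a c N : ℕ} (hc : 0 < c)
    (h1 : 6 * ((a : ℝ) * (c : ℝ)) ≤ L ^ 2) (h2 : 2 * L * c ≤ N) :
    (Real.exp 1 * ((a : ℝ) * (c : ℝ)) * ρ) ^ (N / c + 1) ≤ Real.exp (-L) := by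
  have hL2 : 0 < L ^ 2 := by positivity
  have he := Real.exp_one_lt_d9
  have hac : (0 : ℝ) ≤ (a : ℝ) * c := by positivity
  refine pow_half_le (by positivity) ?_ ?_
  · calc Real.exp 1 * ((a : ℝ) * (c : ℝ)) * ρ ≤ 3 * ((a : ℝ) * (c : ℝ)) * (1 / L ^ 2) := by
          gcongr
          linarith
      _ = (6 * ((a : ℝ) * (c : ℝ))) / L ^ 2 / 2 := by ring
      _ ≤ 1 / 2 := by
          have : (6 * ((a : ℝ) * (c : ℝ))) / L ^ 2 ≤ 1 := by rw [div_le_one hL2]; exact h1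
          linarith
  · have hc' : (0 : ℝ) < c := by exact_mod_cast hc
    have h3 : (N : ℝ) < c * ((N / c + 1 : ℕ) : ℝ) := by exact_mod_cast Nat.lt_mul_div_succ N hc
    have h4 : 2 * L * c < ((N / c + 1 : ℕ) : ℝ) * c := by linarith
    exact (lt_of_mul_lt_mul_right h4 hc'.le).le

lemma herr2 {p : ℝ} (h : Hyp n M p L) (hL2 : 3 ≤ L) (hE : L ^ (5 * M) * Real.exp (-L) ≤ 1) :
    (Fintype.card (Sym2 (Fin n)) : ℝ) * (1 / (n : ℝ) ^ 4 + Real.exp (-L) +
      n ^ 2 * (((Upc M n p).choose (kc M L) : ℝ) * rho n p L ^ (4 * kc M L))) ≤ rho n p L := by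
  have h1 := choose_rho h
  have h2 := card_sym2_le n
  have h3 := rho_ge h
  have hX := h.X1
  have hX0 : (0 : ℝ) < n := by linarith
  have hr := rho_pos h
  have he0 := Real.exp_pos (-L)
  refine le_trans ?_ h3
  have hn2 : (1 : ℝ) ≤ (n : ℝ) ^ 2 := one_le_pow₀ hX
  have h4 : (Fintype.card (Sym2 (Fin n)) : ℝ) * (1 / (n : ℝ) ^ 4 + Real.exp (-L) +
      n ^ 2 * (((Upc M n p).choose (kc M L) : ℝ) * rho n p L ^ (4 * kc M L))) ≤
      (n : ℝ) ^ 2 * (1 / (n : ℝ) ^ 4 + 2 * (n ^ 2 * Real.exp (-L))) := by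
    refine mul_le_mul h2 ?_ (by positivity) (by positivity)
    have := mul_le_mul_of_nonneg_left h1 (by positivity : (0 : ℝ) ≤ (n : ℝ) ^ 2)
    have : Real.exp (-L) ≤ (n : ℝ) ^ 2 * Real.exp (-L) := le_mul_of_one_le_left he0.le hn2
    linarith
  refine h4.trans ?_
  rw [le_div_iff₀ hX0]
  have e1 : (n : ℝ) ^ 2 * (1 / (n : ℝ) ^ 4 + 2 * (n ^ 2 * Real.exp (-L))) * n =
      1 / n + 2 * (n ^ 5 * Real.exp (-L)) := by field_simp
  rw [e1]
  have e2 : 1 / (n : ℝ) ≤ 1 := by rw [div_le_one hX0]; exact hX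
  have e3 : (n : ℝ) ^ 5 * Real.exp (-L) ≤ 1 := by
    refine le_trans ?_ hE
    refine mul_le_mul_of_nonneg_right ?_ he0.le
    calc (n : ℝ) ^ 5 ≤ (L ^ M) ^ 5 := pow_le_pow_left₀ hX0.le h.XM 5
      _ = L ^ (5 * M) := by rw [← pow_mul, mul_comm]
  linarith

noncomputable def tot5 (M : ℕ) (L : ℝ) : ℝ :=
  1 / L + L ^ (2 * M) * Real.exp (-L) + (L ^ (3 * M) * Real.exp (-L) + 2 * (1 / L)) +
    2 * (6 ^ 7 / L) + 2 * (1 / L) + (4 * (1 / L) + 2 * (L ^ (5 * M) * Real.exp (-L)))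

lemma tot5_tendsto (M : ℕ) : Tendsto (tot5 M) atTop (𝓝 0) := by
  have h1 : ∀ j : ℕ, Tendsto (fun L : ℝ => L ^ j * Real.exp (-L)) atTop (𝓝 0) := fun j =>
    Real.tendsto_pow_mul_exp_neg_atTop_nhds_zero j
  have h2 : Tendsto (fun L : ℝ => 1 / L) atTop (𝓝 0) := by
    simpa using tendsto_inv_atTop_zero (𝕜 := ℝ)
  have h3 : Tendsto (fun L : ℝ => (6 ^ 7 : ℝ) / L) atTop (𝓝 0) :=
    tendsto_const_nhds.div_atTop tendsto_id
  have h4 := ((((h2.add (h1 (2 * M))).add ((h1 (3 * M)).add (h2.const_mul 2))).add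
    (h3.const_mul 2)).add (h2.const_mul 2)).add ((h2.const_mul 4).add ((h1 (5 * M)).const_mul 2))
  simp only [mul_zero, add_zero] at h4
  exact h4

/-- the lower bound part -/
lemma lo_part {M₀ : ℕ} (h : Hyp n M (rt n d) L) (hM : M = 3 * M₀ + 3) (hn : 8 ≤ n)
    (hXM : (n : ℝ) ≤ L ^ M₀) (hL : 169 ≤ L)
    (hK : 131072 * (Kc M + 1 : ℝ) ≤ L) (N : Nat5 n d M L) :
    (cnt n d (fun G => ¬ LoB G (Loc' n (Kc M) (rt n d))) : ℝ) ≤
      (L ^ (3 * M) * Real.exp (-L) + 2 * (1 / L)) * (reg n d).card := by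
  have hn0 : 0 < n := by omega
  have hnp := np_eq (d := d) hn0
  have hp0 := h.p0
  have hL1 := h.L1
  have hL0 : 0 < L := by linarith
  set R : ℝ := ((reg n d).card : ℝ) with hR
  have hR0 : 0 ≤ R := Nat.cast_nonneg _
  set s := Loc' n (Kc M) (rt n d) with hs
  set W := Wt n (rt n d) (Dp n (rt n d)) with hW
  have hW0 : 0 ≤ W := Wt_nonneg hp0.le _
  have b1 : (cnt n d (fun G => ¬ T3 G (Kc M)) : ℝ) ≤ n ^ 2 * W ^ rM M * R :=
    rt3 N.dD N.a N.b
  have b2 := rlo (n := n) (d := d) N.g N.i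
  have hX := h.X1
  have hn0' : (0 : ℝ) < n := by linarith
  -- `s ≤ n`
  have hDe := De1 h
  have hsn : (s : ℝ) ≤ n := by
    have hd0 : 0 < d := by have := N.g; omega
    have h1 := N.i
    rw [← hs] at h1
    have hd' : d ≤ n := by have := N.a; omega
    have : s ≤ n := by
      by_contra hcon
      push Not at hcon
      have e1 : n * n < 256 * s * n * (Kc M + 1) := by
        calc n * n < s * n := Nat.mul_lt_mul_of_pos_right hcon hn0
          _ = 1 * s * n * 1 := by ring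
          _ ≤ 256 * s * n * (Kc M + 1) := by gcongr <;> omega
      -- `d ^ 4 ≤ n * n`
      have e2 : d ^ 4 ≤ n * n := by
        have h3 := h.q1
        have h4 : (d : ℝ) ^ 3 ≤ n := by
          unfold rt at h3
          have e : (n : ℝ) ^ 2 * (2 * d / n) ^ 3 = (8 * d ^ 3) / n := by field_simp; ring
          rw [e, div_le_one hn0'] at h3
          have : (0 : ℝ) ≤ (d : ℝ) ^ 3 := by positivity
          linarith
        have h5 : d ^ 3 ≤ n := by exact_mod_cast h4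
        calc d ^ 4 = d ^ 3 * d := by ring
          _ ≤ n * n := Nat.mul_le_mul h5 hd'
      omega
    exact_mod_cast this
  -- `2 L ≤ s`
  have hsL : 2 * L ≤ s := by
    have h1 : (n : ℝ) ^ 3 * rt n d ^ 4 / C4 M - 1 < s := by
      have h1 := Nat.lt_floor_add_one (b0 n (Kc M) (rt n d) * w0 n (rt n d) * rt n d / 4)
      have h2 := b0w0_ge hn hp0 (Kc M)
      rw [hs]
      unfold Loc' C4
      linarith
    have hC4 : 0 < C4 M := by unfold C4; positivity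
    have h2 : L ^ 31 ≤ (n : ℝ) ^ 3 * rt n d ^ 4 / C4 M := by
      rw [le_div_iff₀ hC4]
      calc L ^ 31 * C4 M ≤ L ^ 31 * L := by
            refine mul_le_mul_of_nonneg_left ?_ (by positivity)
            unfold C4; exact hK
        _ = L ^ 32 := by ring
        _ ≤ _ := h.De
    have h3 : 3 * L ≤ L ^ 31 := by
      calc 3 * L ≤ L * L := mul_le_mul_of_nonneg_right (by linarith) hL0.le
        _ = L ^ 2 := by ring
        _ ≤ L ^ 31 := pow_le_pow_right₀ hL1 (by norm_num)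
    linarith
  have hhalf : (1 / 2 : ℝ) ^ s ≤ Real.exp (-L) := pow_half_le (by norm_num) le_rfl hsL
  have hWL : W ≤ 1 / L := by
    have hW1 := Wt_le_inv h hL (C := 1) (by norm_num) h.L1 (j := 1) (by norm_num)
    rw [le_div_iff₀ hL0]
    rw [← hW] at hW1
    linarith
  have hX3 : (n : ℝ) ^ 3 ≤ L ^ (3 * M) := by
    calc (n : ℝ) ^ 3 ≤ (L ^ M) ^ 3 := pow_le_pow_left₀ (by positivity) h.XM 3
      _ = L ^ (3 * M) := by rw [← pow_mul, mul_comm]
  have hX5 : (n : ℝ) ^ 5 ≤ L ^ (5 * M₀) := by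
    calc (n : ℝ) ^ 5 ≤ (L ^ M₀) ^ 5 := pow_le_pow_left₀ (by positivity) hXM 5
      _ = L ^ (5 * M₀) := by rw [← pow_mul, mul_comm]
  have hW5 : (n : ℝ) ^ 5 * W ^ rM M ≤ 1 / L := by
    have e1 : W ^ rM M ≤ (1 / L) ^ rM M := pow_le_pow_left₀ hW0 hWL _
    have e2 : (1 / L) ^ rM M ≤ (1 / L) ^ (5 * M₀ + 1) := by
      refine pow_le_pow_of_le_one (by positivity) (by rw [div_le_one hL0]; exact hL1) ?_
      unfold rM; omega
    calc (n : ℝ) ^ 5 * W ^ rM M ≤ L ^ (5 * M₀) * (1 / L) ^ (5 * M₀ + 1) :=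
          mul_le_mul hX5 (e1.trans e2) (by positivity) (by positivity)
      _ = 1 / L := by
          rw [pow_succ (1 / L), div_pow, one_pow]
          field_simp
  calc (cnt n d (fun G => ¬ LoB G s) : ℝ)
      ≤ n ^ 2 * (s * ((1 / 2) ^ s * R + 2 * cnt n d (fun G => ¬ T3 G (Kc M)))) := b2
    _ ≤ n ^ 2 * (n * (Real.exp (-L) * R + 2 * (n ^ 2 * W ^ rM M * R))) := by gcongr
    _ = (n ^ 3 * Real.exp (-L) + 2 * (n ^ 5 * W ^ rM M)) * R := by ring
    _ ≤ (L ^ (3 * M) * Real.exp (-L) + 2 * (1 / L)) * R := by gcongr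

end Pool.Agent.U140.RG
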