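import Pool.Agent.U140.RG.Za6

/-! The sparse range: main theorem. -/

set_option linter.unusedSectionVars false
set_option linter.unusedVariables false

namespace Pool.Agent.U140.RG

open Finset Pool.Agent.K1H35.SH Pool.Agent.Q299.PW Filter Topology
open Pool.Agent.U140.SG (Om Wt Wt_nonneg T3 LoB UpB SSP KRP Bf TypR coreR GoodG RecM recM_of_good Hyp
  Dp Dp_ge Dp_le
  rM Kc C2 Upc rho tau muc kc L0c C0c r1c Loc' w0 b0 C4 C8 rp rp_ge rp_le De1 r1_le mu_le rho_le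
  rho_pos rho_half rho_ge tau_pos tau_rho tau_rho' mu_lt hU_ok choose_rho card_sym2_le I0 I0_tail
  K5 pow_half_le part2 part3 part5 part6 part7 hnum_ok Wt_le_inv N_facts b0w0_ge wp wp_nonneg Qo Mt
  half_le_exp C2_ge' r1_big)

variable {n d M : ℕ} {L : ℝ}

/-- the parts of the bound -/
theorem za_core {M₀ : ℕ} (h : Hyp n M (rt n d) L) (hM : M = 3 * M₀ + 3) (hn : 8 ≤ n) (hd : 1 ≤ d)
    (hXM : (n : ℝ) ≤ L ^ M₀) (f3 : 10 ^ 7 ≤ L)
    (f4 : (6 : ℝ) ^ 7 ≤ L) (f5 : 131072 * (Kc M + 1 : ℝ) ≤ L) (f6 : (725214 : ℝ) * C2 M ≤ L)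
    (f7 : (4 * M + 2 : ℝ) ≤ L) (f8 : (210 : ℝ) * (C2 M * (1 + 5 * K5 (Kc M))) ≤ L)
    (f9 : 2 * C4 M * (C8 M + 1) ≤ L) (f10 : (48 * (rM M : ℝ)) ≤ L) (f11 : (1728 : ℝ) * C0c M ≤ L)
    (f12 : L ^ (5 * M) * Real.exp (-L) ≤ 1) (h32 : 32 * d ≤ n) :
    (cnt n d (fun G => ¬ GoodG G) : ℝ) ≤ tot5 M L * (reg n d).card := by
  classical
  have N := nat5 h hd hn f3 f10 f6 f5 h32
  have hp0 := h.p0
  have hL1 := h.L1
  have hL0 : 0 < L := by linarith
  have hX := h.X1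
  have hn0' : (0 : ℝ) < n := by linarith
  set R : ℝ := ((reg n d).card : ℝ) with hR
  have hR0 : 0 ≤ R := Nat.cast_nonneg _
  have hrρ := rho_pos h
  have hrho1 := rho_half h (by linarith)
  have hrho2 := rho_le h
  have hρ1 : rho n (rt n d) L ≤ 1 := by linarith
  have hb : (0 : ℝ) < 1 / (n : ℝ) ^ 4 := by positivity
  have hr1 : 0 < r1c n (rt n d) L := by
    have h1 := r1_big h
    have h2 : (1 : ℝ) ≤ L ^ 29 := one_le_pow₀ h.L1
    have h3 : (0 : ℝ) < r1c n (rt n d) L := by linarith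
    exact_mod_cast h3
  have hC0 : 0 < C0c M := by unfold C0c; omega
  have hC0r : (1 : ℝ) ≤ C0c M := by exact_mod_cast hC0
  have hL2 : L ≤ L ^ 2 := le_self_pow₀ hL1 (by norm_num)
  have hnL : L ^ 2 ≤ n := (pow_le_pow_right₀ hL1 (by norm_num : 2 ≤ 32)).trans h.X_ge
  have hd1 : (1 : ℝ) ≤ d := by exact_mod_cast hd
  have hndL : L ^ 2 ≤ ((n * d : ℕ) : ℝ) := by push_cast; nlinarith
  set i₀ := n * d / (48 * C0c M) with hi₀
  have hi : 48 * (C0c M * i₀) ≤ n * d := by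
    calc 48 * (C0c M * i₀) = (n * d / (48 * C0c M)) * (48 * C0c M) := by rw [hi₀]; ring
      _ ≤ n * d := Nat.div_mul_le_self _ _
  set D := Dp n (rt n d) with hD
  set K := Kc M with hK
  set ρ := rho n (rt n d) L with hρ
  -- tails
  have t1 : Pr (wp ρ) (fun ω : Om n => ¬ ∀ x, 16 * pd (Qo ω) x ≤ n) ≤ n * Real.exp (-L) := by
    refine (pd_tail hrρ.le hρ1).trans (mul_le_mul_of_nonneg_left ?_ hn0'.le)
    refine tail_small hrρ.le hL1 hrho2 (by norm_num) ?_ ?_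
    · push_cast; nlinarith
    · push_cast; nlinarith
  have t2 : ∀ G ∈ reg n d, Pr (wp ρ) (fun ω : Om n => n * d < 8 * kd (Qo ω) G) ≤
      Real.exp (-L) := by
    intro G hG
    refine (kd_tail hrρ.le hρ1 hG).trans ?_
    refine tail_small hrρ.le hL1 hrho2 (by norm_num) ?_ ?_
    · push_cast; nlinarith
    · refine le_trans ?_ hndL
      push_cast; nlinarith
  have t3 : (Real.exp 1 * (((2 : ℕ) : ℝ) * ((144 * C0c M : ℕ) : ℝ)) * ρ) ^
      (n * d / (144 * C0c M) + 1) ≤ Real.exp (-L) := by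
    refine tail_small hrρ.le hL1 hrho2 (by positivity) ?_ ?_
    · push_cast; nlinarith
    · refine le_trans ?_ hndL
      push_cast; nlinarith
  -- the failure events
  set E2 : SimpleGraph (Fin n) → Prop := fun G => ¬ T3 G K with hE2
  set E3 : SimpleGraph (Fin n) → Prop := fun G => T3 G K ∧ ¬ UpB G (Upc M n (rt n d)) with hE3
  set E4 : SimpleGraph (Fin n) → Prop := fun G => ¬ LoB G (Loc' n K (rt n d)) with hE4
  set E5 : SimpleGraph (Fin n) → Prop := fun G => ¬ SSP G D with hE5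
  set E6 : SimpleGraph (Fin n) → Prop := fun G => T3 G K ∧
    ¬ KRP G (muc M n (rt n d) L + 1) (Bf K (muc M n (rt n d) L + 1) (r1c n (rt n d) L)) with hE6
  set E7 : SimpleGraph (Fin n) → Prop := fun G =>
    ¬ (Pr (wp ρ) (fun ω : Om n => BadB G (Qo ω) (L0c M L) (C0c M) i₀) ≤ 1 / (n : ℝ) ^ 4) with hE7
  have hdet : ∀ G ∈ reg n d, ¬ E2 G → ¬ E3 G → ¬ E4 G → ¬ E5 G → ¬ E6 G → ¬ E7 G → GoodG G := by
    intro G hG g2 g3 g4 g5 g6 g7
    have m2 : T3 G K := not_not.1 g2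
    have hT : TypR G K (Loc' n K (rt n d)) (Upc M n (rt n d)) D (muc M n (rt n d) L)
        (Bf K (muc M n (rt n d) L + 1) (r1c n (rt n d) L)) (C0c M) (kc M L) i₀ ρ
        (1 / (n : ℝ) ^ 4) := by
      refine ⟨m2, not_not.1 g4, ?_, maxDeg_mono (maxDeg_reg hG) N.dD, not_not.1 g5, ?_, not_not.1 g7⟩
      · by_contra hh; exact g3 ⟨m2, hh⟩
      · by_contra hh; exact g6 ⟨m2, hh⟩
    intro H f g m
    refine coreR hT ((I0_tail hG m hC0 hrρ.le hρ1).trans t3) m hrρ hrho1 (tau_pos h) (tau_rho h)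
      (tau_rho' h) ?_ (mu_lt h) ?_ rfl ?_
    · exact hU_ok h (by nlinarith [C2_ge' M])
    · exact herr2 h (by linarith) f12
    · exact hnum_ok h hn f9
  have hle : (cnt n d (fun G => ¬ GoodG G) : ℝ) ≤ cnt n d E2 + cnt n d E3 + cnt n d E4 +
      cnt n d E5 + cnt n d E6 + cnt n d E7 := by
    have h1 : cnt n d (fun G => ¬ GoodG G) ≤
        cnt n d (fun G => ((((E2 G ∨ E3 G) ∨ E4 G) ∨ E5 G) ∨ E6 G) ∨ E7 G) := by
      refine cnt_mono fun G hG hh => ?_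
      by_contra hcon
      push Not at hcon
      obtain ⟨⟨⟨⟨⟨g2, g3⟩, g4⟩, g5⟩, g6⟩, g7⟩ := hcon
      exact hh (hdet G hG g2 g3 g4 g5 g6 g7)
    have c7 := cnt_or (n := n) (d := d) (fun G => ((((E2 G ∨ E3 G) ∨ E4 G) ∨ E5 G) ∨ E6 G)) E7
    have c6 := cnt_or (n := n) (d := d) (fun G => (((E2 G ∨ E3 G) ∨ E4 G) ∨ E5 G)) E6
    have c5 := cnt_or (n := n) (d := d) (fun G => ((E2 G ∨ E3 G) ∨ E4 G)) E5
    have c4 := cnt_or (n := n) (d := d) (fun G => (E2 G ∨ E3 G)) E4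
    have c3 := cnt_or (n := n) (d := d) E2 E3
    have : cnt n d (fun G => ¬ GoodG G) ≤ cnt n d E2 + cnt n d E3 + cnt n d E4 +
      cnt n d E5 + cnt n d E6 + cnt n d E7 := by omega
    exact_mod_cast this
  have hL169 : (169 : ℝ) ≤ L := by linarith
  have b2 : (cnt n d E2 : ℝ) ≤ 1 / L * R := by
    have h1 : (cnt n d E2 : ℝ) ≤ n ^ 2 * Wt n (rt n d) D ^ rM M * R := rt3 N.dD N.a N.b
    refine h1.trans (mul_le_mul_of_nonneg_right ?_ hR0)
    exact part2 h hL169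
  have b3 : (cnt n d E3 : ℝ) ≤ L ^ (2 * M) * Real.exp (-L) * R := by
    have h1 : (cnt n d E3 : ℝ) ≤
        n ^ 2 * ((D.choose (rp n (rt n d)) : ℝ) * Wt n (rt n d) D ^ rp n (rt n d)) * R :=
      rup N.dD hd N.a N.c
    exact h1.trans (mul_le_mul_of_nonneg_right (part3 h) hR0)
  have b4 : (cnt n d E4 : ℝ) ≤ (L ^ (3 * M) * Real.exp (-L) + 2 * (1 / L)) * R :=
    lo_part h hM hn hXM hL169 f5 N
  have b5 : (cnt n d E5 : ℝ) ≤ 2 * (6 ^ 7 / L) * R :=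
    (rssp N.a N.e).trans (mul_le_mul_of_nonneg_right (part5 h f4) hR0)
  have b6 : (cnt n d E6 : ℝ) ≤ 2 * (1 / L) * R :=
    (rkr N.dD N.a hr1 N.f).trans (mul_le_mul_of_nonneg_right (part6 h hL169 f6 f7) hR0)
  have b7 : (cnt n d E7 : ℝ) ≤ (4 * (1 / L) + 2 * (L ^ (5 * M) * Real.exp (-L))) * R := by
    refine (rbad hrρ.le hρ1 hb N.dD N.a hC0 hi t1 t2).trans (mul_le_mul_of_nonneg_right ?_ hR0)
    refine add_le_add (part7 h hL169 f8) ?_
    have he0 := Real.exp_pos (-L)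
    have e1 : ((n : ℝ) * Real.exp (-L) + Real.exp (-L)) / (1 / (n : ℝ) ^ 4) =
        (n ^ 5 + n ^ 4) * Real.exp (-L) := by
      field_simp
    rw [e1]
    have e2 : (n : ℝ) ^ 4 ≤ n ^ 5 := pow_le_pow_right₀ hX (by norm_num)
    have e3 : (n : ℝ) ^ 5 ≤ L ^ (5 * M) := by
      calc (n : ℝ) ^ 5 ≤ (L ^ M) ^ 5 := pow_le_pow_left₀ hn0'.le h.XM 5
        _ = L ^ (5 * M) := by rw [← pow_mul, mul_comm]
    calc ((n : ℝ) ^ 5 + n ^ 4) * Real.exp (-L) ≤ (L ^ (5 * M) + L ^ (5 * M)) * Real.exp (-L) := by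
          refine mul_le_mul_of_nonneg_right (by linarith) he0.le
      _ = 2 * (L ^ (5 * M) * Real.exp (-L)) := by ring
  refine hle.trans ?_
  unfold tot5
  have : (1 / L + L ^ (2 * M) * Real.exp (-L) + (L ^ (3 * M) * Real.exp (-L) + 2 * (1 / L)) +
    2 * (6 ^ 7 / L) + 2 * (1 / L) + (4 * (1 / L) + 2 * (L ^ (5 * M) * Real.exp (-L)))) * R =
    1 / L * R + L ^ (2 * M) * Real.exp (-L) * R +
    (L ^ (3 * M) * Real.exp (-L) + 2 * (1 / L)) * R +
    2 * (6 ^ 7 / L) * R + 2 * (1 / L) * R +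
    (4 * (1 / L) + 2 * (L ^ (5 * M) * Real.exp (-L))) * R := by ring
  rw [this]
  linarith

theorem zone_A : ZA := by
  classical
  intro M₀ η hη
  set M := 3 * M₀ + 3 with hM
  have e1 : ∀ᶠ L : ℝ in atTop, tot5 M L ≤ η := (tot5_tendsto M).eventually_le_const hη
  have e2 : ∀ᶠ L : ℝ in atTop, L ^ (5 * M) * Real.exp (-L) ≤ 1 :=
    (Real.tendsto_pow_mul_exp_neg_atTop_nhds_zero (5 * M)).eventually_le_const (by norm_num)
  have e3 := eventually_ge_atTop ((10 : ℝ) ^ 7)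
  have e4 := eventually_ge_atTop ((6 : ℝ) ^ 7)
  have e5 := eventually_ge_atTop (131072 * ((Kc M : ℝ) + 1))
  have e6 := eventually_ge_atTop ((725214 : ℝ) * C2 M)
  have e7 := eventually_ge_atTop ((4 * M + 2 : ℝ))
  have e8 := eventually_ge_atTop ((210 : ℝ) * (C2 M * (1 + 5 * K5 (Kc M))))
  have e9 := eventually_ge_atTop (2 * C4 M * (C8 M + 1))
  have e10 := eventually_ge_atTop (48 * (rM M : ℝ))
  have e11 := eventually_ge_atTop ((1728 : ℝ) * C0c M)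
  obtain ⟨Λ, hΛ⟩ := eventually_atTop.1 (e1.and (e2.and (e3.and (e4.and (e5.and (e6.and (e7.and
    (e8.and (e9.and (e10.and e11))))))))))
  obtain ⟨Λ', hΛ'⟩ := exists_nat_ge Λ
  refine ⟨Λ' + 4, fun n d L hL hn1 hLn h1 h2 => ?_⟩
  have hLr : Λ ≤ (L : ℝ) := hΛ'.trans (by exact_mod_cast (by omega : Λ' ≤ L))
  obtain ⟨f1, f2, f3, f4, f5, f6, f7, f8, f9, f10, f11⟩ := hΛ L hLr
  have hL4 : 4 ≤ L := by omega
  have hd : 1 ≤ d := by
    by_contra hcon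
    have h0 : d = 0 := by omega
    subst h0
    have : 0 < L ^ 32 * n := Nat.mul_pos (by positivity) hn1
    omega
  have h32 : 32 * d ≤ n := by
    have a1 : d ≤ d ^ 3 := Nat.le_self_pow (by norm_num) d
    have a2 : 4 ≤ L ^ 24 := hL4.trans (Nat.le_self_pow (by norm_num) L)
    calc 32 * d = 8 * 4 * d := by ring
      _ ≤ 8 * L ^ 24 * d ^ 3 := Nat.mul_le_mul (Nat.mul_le_mul_left _ a2) a1
      _ ≤ n := h1
  have hLM : n ≤ L ^ M := hLn.trans (Nat.pow_le_pow_right (by omega) (by omega))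
  have h := hyp_of hd (by omega) hLM h1 h2
  have hn8 : 8 ≤ n := by omega
  have key := za_core (M₀ := M₀) h hM hn8 hd (by exact_mod_cast hLn) f3 f4 f5 f6 f7 f8 f9 f10 f11
    f2 h32
  have hR0 : (0 : ℝ) ≤ (reg n d).card := Nat.cast_nonneg _
  have key2 : (cnt n d (fun G => ¬ GoodG G) : ℝ) ≤ η * (reg n d).card :=
    key.trans (mul_le_mul_of_nonneg_right f1 hR0)
  have g3 : cnt n d (fun G => ¬ RecM G) ≤ cnt n d (fun G => ¬ GoodG G) :=
    cnt_mono fun G _ hG hR => hG (recM_of_good hR)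
  exact le_trans (Nat.cast_le.2 g3) key2

end Pool.Agent.U140.RG
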