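import Pool.Agent.U140.RG.Kl
import Pool.Agent.U140.RG.Fb

/-! Equality of two fingerprints is unlikely. -/

set_option linter.unusedSectionVars false
set_option linter.unusedVariables false

namespace Pool.Agent.U140.RG

open Finset Pool.Agent.K1H35.SH

variable {n d : ℕ} {A0 : Finset (Fin n)} {a b a' b' : Fin n}

/-- the key of a class -/
noncomputable def key (A0 : Finset (Fin n)) (a b a' b' : Fin n) (G : SimpleGraph (Fin n)) :
    (Finset (Fin n) × Finset (Fin n) × Finset (Fin n) × Finset (Fin n)) ×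
      Set (Sym2 (Fin n)) × (Fin n → Finset (Fin n)) × (Fin n → Finset (Fin n)) :=
  ((nb G a, nb G b, nb G a', nb G b'),
    {e | ¬ Zo (rd A0 a b a' b' G) e ∧ e ∈ G.edgeSet},
    (fun x => if x ∈ (rd A0 a b a' b' G).X then (rd A0 a b a' b' G).D G x else ∅),
    (fun x => if x ∈ (rd A0 a b a' b' G).X then (rd A0 a b a' b' G).U G x else ∅))

lemma notX {R : RD n} {G : SimpleGraph (Fin n)} (f : RF A0 a b a' b' G R) :
    (∀ t, G.Adj b t → t ∉ R.X ∧ ∀ x ∈ R.X, t ≠ R.y x) ∧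
    (∀ t, G.Adj a' t → t ∉ R.X ∧ ∀ x ∈ R.X, t ≠ R.y x) ∧
    (∀ t, G.Adj b' t → t ∉ R.X ∧ ∀ x ∈ R.X, t ≠ R.y x) ∧
    (∀ t, G.Adj a t → ∀ x ∈ R.X, t ≠ R.y x) := by
  refine ⟨fun t ht => ⟨fun h => (f.xnb t h).1 ht, fun x hx h => (f.ynb x hx).2.1 (h ▸ ht)⟩,
    fun t ht => ⟨fun h => (f.xnb t h).2.1 ht, fun x hx h => (f.ynb x hx).2.2.1 (h ▸ ht)⟩,
    fun t ht => ⟨fun h => (f.xnb t h).2.2 ht, fun x hx h => (f.ynb x hx).2.2.2 (h ▸ ht)⟩,
    fun t ht x hx h => (f.ynb x hx).1 (h ▸ ht)⟩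

lemma roots_nb {R : RD n} {G G₀ : SimpleGraph (Fin n)} (f : RF A0 a b a' b' G₀ R)
    (h : Eqv R G G₀) : nb G a = nb G₀ a ∧ nb G b = nb G₀ b ∧ nb G a' = nb G₀ a' ∧
      nb G b' = nb G₀ b' := by
  obtain ⟨q1, q2, q3, q4⟩ := f.Er
  refine ⟨h.nb_eq f.ok q1 (fun hh => (f.xr a hh).1 rfl) (fun x hx => (f.yr x hx).1.symm),
    h.nb_eq f.ok q2 (fun hh => (f.xr b hh).2.1 rfl) (fun x hx => (f.yr x hx).2.1.symm),
    h.nb_eq f.ok q3 (fun hh => (f.xr a' hh).2.2.1 rfl) (fun x hx => (f.yr x hx).2.2.1.symm),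
    h.nb_eq f.ok q4 (fun hh => (f.xr b' hh).2.2.2 rfl) (fun x hx => (f.yr x hx).2.2.2.symm)⟩

lemma key_iff {G G₀ : SimpleGraph (Fin n)} (hG₀ : G₀ ∈ reg n d) (hA : 5 * d + 4 ≤ A0.card) :
    key A0 a b a' b' G = key A0 a b a' b' G₀ ↔ Eqv (rd A0 a b a' b' G₀) G G₀ := by
  have f : RF A0 a b a' b' G₀ (rd A0 a b a' b' G₀) := rf hG₀ hA
  constructor
  · intro h
    unfold key at h
    simp only [Prod.mk.injEq] at h
    obtain ⟨⟨h1, h2, h3, h4⟩, h5, h6, h7⟩ := h
    have hR : rd A0 a b a' b' G = rd A0 a b a' b' G₀ := by unfold rd; rw [h1, h2, h3, h4]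
    rw [hR] at h5 h6 h7
    refine ⟨?_, ?_, ?_⟩
    · intro e he
      have := Set.ext_iff.1 h5 e
      simp only [Set.mem_ofPred_eq, he, not_false_eq_true, true_and] at this
      exact this
    · intro x hx
      have := congrFun h6 x
      simpa [hx] using this
    · intro x hx
      have := congrFun h7 x
      simpa [hx] using this
  · intro h
    obtain ⟨h1, h2, h3, h4⟩ := roots_nb f h
    have hR : rd A0 a b a' b' G = rd A0 a b a' b' G₀ := by unfold rd; rw [h1, h2, h3, h4]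
    unfold key
    rw [hR, h1, h2, h3, h4]
    refine Prod.ext rfl (Prod.ext ?_ (Prod.ext ?_ ?_))
    · ext e
      simp only [Set.mem_ofPred_eq]
      exact and_congr_right fun he => h.nz e he
    · funext x
      by_cases hx : x ∈ (rd A0 a b a' b' G₀).X
      · simp only [if_pos hx]; exact h.D x hx
      · simp only [if_neg hx]
    · funext x
      by_cases hx : x ∈ (rd A0 a b a' b' G₀).X
      · simp only [if_pos hx]; exact h.U x hx
      · simp only [if_neg hx]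

lemma Od_eq {R : RD n} {G G₀ : SimpleGraph (Fin n)} {r : Fin n} (ok : R.Ok) (h : Eqv R G G₀)
    (h1 : nb G r = nb G₀ r) (h2 : ∀ t, G₀.Adj r t → t ∈ R.E ∧ t ∉ R.X ∧ ∀ x ∈ R.X, t ≠ R.y x) :
    Od G r = Od G₀ r := by
  ext w
  rw [mem_Od, mem_Od]
  have : cn G r w = cn G₀ r w := by
    unfold cn
    congr 1
    ext t
    rw [mem_inter, mem_inter, h1]
    refine and_congr_left fun ht => ?_
    rw [mem_nb] at ht
    obtain ⟨g1, g2, g3⟩ := h2 t ht
    have e := h.nb_eq ok g1 g2 g3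
    rw [mem_nb, mem_nb, G.adj_comm, G₀.adj_comm, ← mem_nb, ← mem_nb, e]
  rw [this]

/-- good vertices: balanced differences with many elements in both classes -/
def Gx (J : ℕ) (R : RD n) (O : Finset (Fin n)) (G : SimpleGraph (Fin n)) (x : Fin n) : Prop :=
  2 * J ≤ (R.D G x ∩ O).card ∧ 2 * J ≤ (R.D G x \ O).card ∧
    (Ps R G x).card + ((R.D G x).card - (Ps R G x).card) + 8 * J ≤ 4 * (Ps R G x).card ∧
    (Ps R G x).card + ((R.D G x).card - (Ps R G x).card) + 8 * J ≤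
      4 * ((R.D G x).card - (Ps R G x).card)

open Classical in
noncomputable def Gs (J : ℕ) (R : RD n) (O : Finset (Fin n)) (G : SimpleGraph (Fin n)) :
    Finset (Fin n) := R.X.filter fun x => Gx J R O G x

lemma Gs_eq {J : ℕ} {R : RD n} {O : Finset (Fin n)} {G G₀ : SimpleGraph (Fin n)} (ok : R.Ok)
    (h : Eqv R G G₀) (hG : G ∈ reg n d) (hG₀ : G₀ ∈ reg n d) : Gs J R O G = Gs J R O G₀ := by
  classical
  unfold Gs
  refine filter_congr fun x hx => ?_
  unfold Gx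
  rw [h.D x hx, Ps_card ok h hG hG₀ hx]

/-- the constant set part of the neighbourhood -/
noncomputable def cx (R : RD n) (O : Finset (Fin n)) (G₀ : SimpleGraph (Fin n)) (x : Fin n) : ℕ :=
  (((nb G₀ x ∩ R.E) ∪ R.U G₀ x) ∩ O).card

lemma nbO {R : RD n} {O : Finset (Fin n)} {G G₀ : SimpleGraph (Fin n)} (ok : R.Ok)
    (h : Eqv R G G₀) {x : Fin n} (hx : x ∈ R.X) :
    (nb G x ∩ O).card = cx R O G₀ x + (Ps R G x ∩ O).card := by
  rw [nb_split ok h hx, ← union_assoc, union_inter_distrib_right, card_union_of_disjoint]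
  · rfl
  · rw [disjoint_left]
    intro w hw hw'
    rw [mem_inter, mem_union] at hw
    rw [mem_inter] at hw'
    have hw'' := hw'.1
    unfold Ps at hw''
    rw [if_pos hx, mem_inter, mem_D] at hw''
    rcases hw.1 with h1 | h1
    · exact hw''.2.2 (mem_inter.1 h1).2
    · rw [← h.U x hx, mem_U] at h1
      tauto

noncomputable def be (J s : ℕ) : ℝ :=
  J * Real.exp (-((1 / 8 ^ (2 * J)) * s / 4)) + (Real.sqrt (4 / ((1 / 8 ^ (2 * J)) * s))) ^ J

lemma be_nonneg (J s : ℕ) : 0 ≤ be J s := by unfold be; positivity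

lemma be_anti {J s s' : ℕ} (hs : 1 ≤ s) (h : s ≤ s') : be J s' ≤ be J s := by
  unfold be
  have h1 : (s : ℝ) ≤ s' := by exact_mod_cast h
  have h0 : (1 : ℝ) ≤ s := by exact_mod_cast hs
  have h8 : (0 : ℝ) < 1 / 8 ^ (2 * J) := by positivity
  refine add_le_add ?_ ?_
  · refine mul_le_mul_of_nonneg_left (Real.exp_le_exp.2 ?_) (Nat.cast_nonneg _)
    nlinarith [mul_le_mul_of_nonneg_left h1 h8.le]
  · refine pow_le_pow_left₀ (Real.sqrt_nonneg _) (Real.sqrt_le_sqrt ?_) _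
    refine div_le_div_of_nonneg_left (by norm_num) (by positivity) ?_
    exact mul_le_mul_of_nonneg_left h1 h8.le

theorem fp_class {J s : ℕ} (hJ : 1 ≤ J) (hs : 1 ≤ s) (hA : 5 * d + 4 ≤ A0.card)
    {G₀ : SimpleGraph (Fin n)} (hG₀ : G₀ ∈ reg n d) :
    (cnt n d (fun G => key A0 a b a' b' G = key A0 a b a' b' G₀ ∧
      (s ≤ (Gs J (rd A0 a b a' b' G) (Od G b) G).card ∧ ∀ j, lv J G a b j = lv J G a' b' j)) : ℝ) ≤
      be J s * cnt n d (fun G => key A0 a b a' b' G = key A0 a b a' b' G₀) := by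
  classical
  set R := rd A0 a b a' b' G₀ with hR
  have f : RF A0 a b a' b' G₀ R := rf hG₀ hA
  have ok := f.ok
  obtain ⟨nX1, nX2, nX3, nX4⟩ := notX f
  set O := Od G₀ b with hO
  -- invariants
  have hinv : ∀ G ∈ reg n d, Eqv R G G₀ → rd A0 a b a' b' G = R ∧ Od G b = O ∧ Od G b' = Od G₀ b' ∧
      nb G a = nb G₀ a ∧ nb G a' = nb G₀ a' := by
    intro G hG h
    obtain ⟨h1, h2, h3, h4⟩ := roots_nb f h
    refine ⟨by rw [hR]; unfold rd; rw [h1, h2, h3, h4], ?_, ?_, h1, h3⟩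
    · exact Od_eq ok h h2 fun t ht => ⟨f.Eb t ht, nX1 t ht⟩
    · exact Od_eq ok h h4 fun t ht => ⟨f.Eb' t ht, nX3 t ht⟩
  have hk : cnt n d (fun G => key A0 a b a' b' G = key A0 a b a' b' G₀) =
      cnt n d (fun G => Eqv R G G₀) :=
    le_antisymm (cnt_mono fun G _ h => (key_iff hG₀ hA).1 h)
      (cnt_mono fun G _ h => (key_iff hG₀ hA).2 h)
  rw [hk]
  by_cases hsG : s ≤ (Gs J R O G₀).card
  swap
  · have : cnt n d (fun G => key A0 a b a' b' G = key A0 a b a' b' G₀ ∧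
      (s ≤ (Gs J (rd A0 a b a' b' G) (Od G b) G).card ∧
        ∀ j, lv J G a b j = lv J G a' b' j)) = 0 := by
      refine cnt_zero ?_
      rintro G hG ⟨h1, h2, -⟩
      have hE := (key_iff hG₀ hA).1 h1
      obtain ⟨e1, e2, -⟩ := hinv G hG hE
      rw [e1, e2, Gs_eq ok hE hG hG₀] at h2
      exact hsG h2
    rw [this]
    have := be_nonneg J s
    push_cast
    positivity
  set Xg := Gs J R O G₀ with hXg
  have hXgX : Xg ⊆ R.X := filter_subset _ _
  have hgx : ∀ x ∈ Xg, Gx J R O G₀ x := fun x hx => (mem_filter.1 hx).2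
  -- the toggled elements
  have hex : ∀ x, ∃ p : Fin n × Fin n, x ∈ Xg → p.1 ∈ R.D G₀ x ∩ O ∧ p.2 ∈ R.D G₀ x \ O := by
    intro x
    by_cases hx : x ∈ Xg
    · obtain ⟨g1, g2, -, -⟩ := hgx x hx
      obtain ⟨p, hp⟩ := card_pos.1 (by omega : 0 < (R.D G₀ x ∩ O).card)
      obtain ⟨q, hq⟩ := card_pos.1 (by omega : 0 < (R.D G₀ x \ O).card)
      exact ⟨(p, q), fun _ => ⟨hp, hq⟩⟩
    · exact ⟨(x, x), fun h => absurd h hx⟩
  choose pq hpq using hex
  have hOm : ∀ x ∈ Xg, Om0 R G₀ x = powersetCard (nb G₀ x ∩ R.D G₀ x).card (R.D G₀ x) := by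
    intro x hx
    unfold Om0; rw [if_pos (hXgX hx)]
  have hT : Tog R.X (Om0 R G₀) (fun x S => ZZ (cx R O G₀ x) J O S)
      (fun x S => tg (pq x).1 (pq x).2 S)
      (fun x S => x ∈ Xg ∧ FF (pq x).1 (pq x).2 (cx R O G₀ x) J O S) := by
    have key2 : ∀ x S, S ∈ Om0 R G₀ x → (x ∈ Xg ∧ FF (pq x).1 (pq x).2 (cx R O G₀ x) J O S) → _ :=
      fun x S hS hF => by
        obtain ⟨g1, g2⟩ := hpq x hF.1
        rw [mem_inter] at g1
        rw [mem_sdiff] at g2
        rw [hOm x hF.1] at hS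
        exact tg_facts hJ g1.2 g2.2 g1.1 g2.1 hS hF.2
    refine ⟨?_, ?_, ?_, ?_, ?_⟩
    · intro x hx S hS hF
      have := (key2 x S hS hF).1
      rw [hOm x hF.1]; exact this
    · intro x hx S hS hF
      exact ⟨hF.1, (key2 x S hS hF).2.1⟩
    · intro x hx S hS hF
      exact (key2 x S hS hF).2.2.1
    · intro x hx S hS hF
      exact (key2 x S hS hF).2.2.2.1
    · intro x hx S hS hF
      exact (key2 x S hS hF).2.2.2.2
  set t : ℕ → ℕ := fun i => lv J G₀ a' b' (2 * i) -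
    ((nb G₀ a \ R.X).filter fun x => (nb G₀ x ∩ O).card % (2 * J) = 2 * i).card with ht
  have hne : Xg.Nonempty := card_pos.1 (by omega)
  have hanti := anti hT Xg hXgX hne (θ := 1 / 8 ^ (2 * J)) (by positivity) J t ?_
  swap
  · intro x hx i hi
    obtain ⟨g1, g2, g3, g4⟩ := hgx x hx
    obtain ⟨p1, p2⟩ := hpq x hx
    have hPs : Ps R G₀ x = nb G₀ x ∩ R.D G₀ x := by unfold Ps; rw [if_pos (hXgX hx)]
    have hle : (Ps R G₀ x).card ≤ (R.D G₀ x).card := by
      rw [hPs]; exact card_le_card inter_subset_right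
    rw [hPs] at g3 g4 hle
    have h1 := sub_count (c := cx R O G₀ x) hJ p1 p2 g1 g2
      (k' := (R.D G₀ x).card - (nb G₀ x ∩ R.D G₀ x).card) (by omega) g3 g4 hi
    rw [hOm x hx]
    have h2 : ((powersetCard (nb G₀ x ∩ R.D G₀ x).card (R.D G₀ x)).card : ℝ) ≤
        8 ^ (2 * J) * (((powersetCard (nb G₀ x ∩ R.D G₀ x).card (R.D G₀ x)).filter fun S =>
          FF (pq x).1 (pq x).2 (cx R O G₀ x) J O S ∧ ZZ (cx R O G₀ x) J O S / 2 = i).card : ℝ) := by
      exact_mod_cast h1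
    rw [one_div, inv_mul_le_iff₀ (by positivity)]
    refine h2.trans (mul_le_mul_of_nonneg_left (Nat.cast_le.2 (card_le_card ?_)) (by positivity))
    intro S hS
    simp only [mem_filter] at hS ⊢
    exact ⟨hS.1, ⟨hx, hS.2.1⟩, hS.2.2⟩
  set Q : (Fin n → Finset (Fin n)) → Prop := fun T => ∀ i < J,
      (R.X.filter fun x => ZZ (cx R O G₀ x) J O (T x) = 2 * i).card = t i with hQ
  have hanti' : (((Fintype.piFinset (Om0 R G₀)).filter Q).card : ℝ) ≤
      be J Xg.card * (Fintype.piFinset (Om0 R G₀)).card := by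
    refine le_trans (Nat.cast_le.2 (card_le_card ?_)) hanti
    intro S hS
    simp only [mem_filter] at hS ⊢
    exact hS
  have hcb := class_bound ok hG₀ Q hanti'
  have hcb' : be J Xg.card ≤ be J s := be_anti hs hsG
  refine le_trans ?_ (hcb.trans (mul_le_mul_of_nonneg_right hcb' (Nat.cast_nonneg _)))
  refine Nat.cast_le.2 (cnt_mono fun G hG h => ?_)
  obtain ⟨h1, h2, h3⟩ := h
  have hE := (key_iff hG₀ hA).1 h1
  obtain ⟨e1, e2, e3, e4, e5⟩ := hinv G hG hE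
  refine ⟨hE, fun i hi => ?_⟩
  have h4 := h3 (2 * i)
  -- right side
  have r1 : lv J G a' b' (2 * i) = lv J G₀ a' b' (2 * i) := by
    unfold lv
    rw [e5, e3]
    congr 1
    refine filter_congr fun x hx => ?_
    rw [mem_nb] at hx
    obtain ⟨g1, g2⟩ := nX2 x hx
    rw [hE.nb_eq ok (f.Ea' x hx) g1 g2]
  -- left side
  have r2 : lv J G a b (2 * i) =
      ((nb G₀ a \ R.X).filter fun x => (nb G₀ x ∩ O).card % (2 * J) = 2 * i).card +
      (R.X.filter fun x => ZZ (cx R O G₀ x) J O (Ps R G x) = 2 * i).card := by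
    unfold lv
    rw [e4, e2]
    have hXa : R.X ⊆ nb G₀ a := fun x hx => (mem_nb G₀ a x).2 (f.xa x hx)
    have hs1 : (nb G₀ a).filter (fun x => (nb G x ∩ O).card % (2 * J) = 2 * i) =
        ((nb G₀ a \ R.X).filter fun x => (nb G₀ x ∩ O).card % (2 * J) = 2 * i) ∪
        (R.X.filter fun x => ZZ (cx R O G₀ x) J O (Ps R G x) = 2 * i) := by
      ext x
      rw [mem_union, mem_filter, mem_filter, mem_filter, mem_sdiff]
      by_cases hx : x ∈ R.X
      · have : (nb G x ∩ O).card % (2 * J) = ZZ (cx R O G₀ x) J O (Ps R G x) := by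
          unfold ZZ; rw [nbO ok hE hx]
        rw [this]
        have := hXa hx
        tauto
      · by_cases hxa : x ∈ nb G₀ a
        · have hxa' := (mem_nb G₀ a x).1 hxa
          rw [hE.nb_eq ok (f.Ea x hxa') hx (nX4 x hxa')]
          tauto
        · tauto
    rw [hs1, card_union_of_disjoint]
    rw [disjoint_left]
    intro x hx hx'
    exact (mem_sdiff.1 (mem_filter.1 hx).1).2 (mem_filter.1 hx').1
  rw [r1, r2] at h4
  show (R.X.filter fun x => ZZ (cx R O G₀ x) J O (Ps R G x) = 2 * i).card = t i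
  rw [ht]
  simp only
  omega

theorem fp_bound {J s : ℕ} (hJ : 1 ≤ J) (hs : 1 ≤ s) (hA : 5 * d + 4 ≤ A0.card) :
    (cnt n d (fun G => s ≤ (Gs J (rd A0 a b a' b' G) (Od G b) G).card ∧
      ∀ j, lv J G a b j = lv J G a' b' j) : ℝ) ≤ be J s * (reg n d).card :=
  cnt_key (key A0 a b a' b') _ fun G₀ hG₀ => fp_class hJ hs hA hG₀

end Pool.Agent.U140.RG
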