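import Pool.Agent.U140.RG.Zb1

/-! The middle range: assembly. -/

set_option linter.unusedSectionVars false
set_option linter.unusedVariables false

namespace Pool.Agent.U140.RG

open Finset Pool.Agent.K1H35.SH
open Pool.Agent.U140.SG (GoodG)

variable {n d : ℕ} {A0 : Finset (Fin n)} {a b a' b' : Fin n}

lemma priv_card {R : RD n} {K s₁ : ℕ} {G : SimpleGraph (Fin n)} (hG : G ∈ reg n d)
    (f : RF A0 a b a' b' G R) (hB : ¬ Bd A0 K s₁ G) {v z : Fin n} (hvz : v ≠ z)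
    (r1 : v ≠ a) (r2 : v ≠ b) (r3 : v ≠ a') (r4 : v ≠ b') :
    d ≤ ((nb G v \ nb G z) \ R.E).card + (6 * K + 4) := by
  classical
  unfold Bd at hB
  push Not at hB
  obtain ⟨h1, h2, -⟩ := hB
  have c0 := codeg_le h1 hvz
  have c1 := codeg_le h1 r1
  have c2 := codeg_le h1 r2
  have c3 := codeg_le h1 r3
  have c4 := codeg_le h1 r4
  have c5 := h2 v
  have c6 : (nb G v ∩ {a, b, a', b'}).card ≤ 4 := (card_le_card inter_subset_right).trans card_le_four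
  have hsub : nb G v ⊆ ((nb G v \ nb G z) \ R.E) ∪ ((nb G v ∩ nb G z) ∪ ((nb G v ∩ nb G a) ∪
      ((nb G v ∩ nb G b) ∪ ((nb G v ∩ nb G a') ∪ ((nb G v ∩ nb G b') ∪
      ((nb G v ∩ {a, b, a', b'}) ∪ (nb G v ∩ A0))))))) := by
    intro w hw
    by_cases g1 : w ∈ nb G z
    · simp only [mem_union, mem_inter, hw, g1, true_and]; tauto
    by_cases g2 : w ∈ R.E
    · have := f.Esub g2
      simp only [mem_union, mem_inter, hw, true_and] at this ⊢
      tauto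
    · refine mem_union_left _ ?_
      exact mem_sdiff.2 ⟨mem_sdiff.2 ⟨hw, g1⟩, g2⟩
  have u0 := card_le_card hsub
  rw [nb_card hG] at u0
  have u1 := card_union_le ((nb G v \ nb G z) \ R.E) ((nb G v ∩ nb G z) ∪ ((nb G v ∩ nb G a) ∪
      ((nb G v ∩ nb G b) ∪ ((nb G v ∩ nb G a') ∪ ((nb G v ∩ nb G b') ∪
      ((nb G v ∩ {a, b, a', b'}) ∪ (nb G v ∩ A0)))))))
  have u2 := card_union_le (nb G v ∩ nb G z) ((nb G v ∩ nb G a) ∪
      ((nb G v ∩ nb G b) ∪ ((nb G v ∩ nb G a') ∪ ((nb G v ∩ nb G b') ∪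
      ((nb G v ∩ {a, b, a', b'}) ∪ (nb G v ∩ A0))))))
  have u3 := card_union_le (nb G v ∩ nb G a)
      ((nb G v ∩ nb G b) ∪ ((nb G v ∩ nb G a') ∪ ((nb G v ∩ nb G b') ∪
      ((nb G v ∩ {a, b, a', b'}) ∪ (nb G v ∩ A0)))))
  have u4 := card_union_le (nb G v ∩ nb G b) ((nb G v ∩ nb G a') ∪ ((nb G v ∩ nb G b') ∪
      ((nb G v ∩ {a, b, a', b'}) ∪ (nb G v ∩ A0))))
  have u5 := card_union_le (nb G v ∩ nb G a') ((nb G v ∩ nb G b') ∪
      ((nb G v ∩ {a, b, a', b'}) ∪ (nb G v ∩ A0)))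
  have u6 := card_union_le (nb G v ∩ nb G b') ((nb G v ∩ {a, b, a', b'}) ∪ (nb G v ∩ A0))
  have u7 := card_union_le (nb G v ∩ {a, b, a', b'}) (nb G v ∩ A0)
  omega

/-- number of candidates -/
lemma X_card {K s₁ : ℕ} {G : SimpleGraph (Fin n)} (hG : G ∈ reg n d) (hB : ¬ Bd A0 K s₁ G)
    (hab : a ≠ b) (haa : a ≠ a') (hab' : a ≠ b') :
    d ≤ Nn A0 a b a' b' 0 G + (3 * K + 3) := by
  classical
  have e : Xl A0 a b a' b' 0 G = (rd A0 a b a' b' G).X := by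
    unfold Xl
    refine filter_true_of_mem fun x _ => ?_
    unfold Lv
    exact ⟨Nat.zero_le _, Nat.zero_le _⟩
  unfold Nn
  rw [e]
  have e2 : (rd A0 a b a' b' G).X = nb G a \ (nb G b ∪ (nb G a' ∪ (nb G b' ∪ {b, a', b'}))) := rfl
  rw [e2]
  unfold Bd at hB
  push Not at hB
  obtain ⟨h1, -, -⟩ := hB
  have c1 := codeg_le h1 hab
  have c2 := codeg_le h1 haa
  have c3 := codeg_le h1 hab'
  have c4 : (nb G a ∩ {b, a', b'}).card ≤ 3 := (card_le_card inter_subset_right).trans card_le_three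
  have u0 := card_sdiff_add_card_inter (nb G a) (nb G b ∪ (nb G a' ∪ (nb G b' ∪ {b, a', b'})))
  rw [nb_card hG, inter_union_distrib_left, inter_union_distrib_left,
    inter_union_distrib_left] at u0
  have u1 := card_union_le (nb G a ∩ nb G b)
    (nb G a ∩ nb G a' ∪ (nb G a ∩ nb G b' ∪ nb G a ∩ {b, a', b'}))
  have u2 := card_union_le (nb G a ∩ nb G a') (nb G a ∩ nb G b' ∪ nb G a ∩ {b, a', b'})
  have u3 := card_union_le (nb G a ∩ nb G b') (nb G a ∩ {b, a', b'})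
  omega

/-- vertices of the last level are good -/
lemma Xl_Gs {J K s₁ : ℕ} {G : SimpleGraph (Fin n)} (hG : G ∈ reg n d) (hA : 5 * d + 4 ≤ A0.card)
    (hB : ¬ Bd A0 K s₁ G) (hd : 12 * K + 8 + 4 * J ≤ d) :
    Xl A0 a b a' b' (2 * J) G ⊆ Gs J (rd A0 a b a' b' G) (Od G b) G := by
  classical
  intro x hx
  rw [mem_Xl] at hx
  obtain ⟨hx, h1, h2⟩ := hx
  set R := rd A0 a b a' b' G with hR
  have f : RF A0 a b a' b' G R := rf hG hA
  unfold Gs
  rw [mem_filter]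
  refine ⟨hx, ?_⟩
  obtain ⟨r1, r2, r3, r4⟩ := f.xr x hx
  obtain ⟨y1, y2, y3, y4⟩ := f.yr x hx
  have hxy : x ≠ R.y x := fun h => f.ok.XY x hx x hx h.symm
  have p1 := priv_card hG f hB hxy r1 r2 r3 r4
  have p2 := priv_card hG f hB hxy.symm y1 y2 y3 y4
  have hPD : R.P G x ⊆ R.D G x := by
    unfold RD.P RD.D
    exact sdiff_subset_sdiff subset_union_left Subset.rfl
  have hPs : Ps R G x = R.P G x := by
    unfold Ps
    rw [if_pos hx]
    ext w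
    rw [mem_inter, mem_D, mem_nb]
    unfold RD.P
    rw [mem_sdiff, mem_sdiff, mem_nb, mem_nb]
    tauto
  have hDc : (R.D G x).card = (R.P G x).card + ((nb G (R.y x) \ nb G x) \ R.E).card := by
    have : R.D G x = R.P G x ∪ ((nb G (R.y x) \ nb G x) \ R.E) := by
      unfold RD.P RD.D
      rw [union_sdiff_distrib]
    rw [this, card_union_of_disjoint]
    rw [disjoint_left]
    intro w hw hw'
    unfold RD.P at hw
    rw [mem_sdiff, mem_sdiff] at hw hw'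
    exact hw'.1.2 hw.1.1
  have u1 : (R.P G x).card ≤ d := by
    rw [← nb_card hG x]
    unfold RD.P
    exact card_le_card (sdiff_subset.trans sdiff_subset)
  have u2 : ((nb G (R.y x) \ nb G x) \ R.E).card ≤ d := by
    rw [← nb_card hG (R.y x)]
    exact card_le_card (sdiff_subset.trans sdiff_subset)
  have p1' : d ≤ (R.P G x).card + (6 * K + 4) := p1
  refine ⟨h1.trans (card_le_card (inter_subset_inter hPD Subset.rfl)),
    h2.trans (card_le_card (sdiff_subset_sdiff hPD Subset.rfl)), ?_, ?_⟩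
  · rw [hPs, hDc]; omega
  · rw [hPs, hDc]; omega

/-- iteration of the levels -/
lemma levels {J K s₁ B Q : ℕ} (hA : 5 * d + 4 ≤ A0.card) (hd : 12 * K + 10 + 4 * J ≤ d)
    (hs₁ : 2 * (9 * d + 4) ≤ s₁) (hB : 4 ≤ B) (hBn : 256 * J * n ≤ B * s₁ * d) (hQ : 1 ≤ Q)
    (hQd : Q * B ^ (2 * J) ≤ d) :
    ∀ i ≤ 2 * J, (cnt n d (fun G => Nn A0 a b a' b' i G < Q * B ^ (2 * J - i)) : ℝ) ≤
      cnt n d (fun G => Nn A0 a b a' b' 0 G < Q * B ^ (2 * J)) +
      i * (d * ((1 / 2) ^ Q * (reg n d).card + 2 * cnt n d (Bd A0 K s₁))) := by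
  intro i
  induction i with
  | zero => intro _; simp
  | succ i ih =>
    intro hi
    have h1 := ih (by omega)
    have hB1 : 1 ≤ B := by omega
    have hpow : ∀ j, 1 ≤ B ^ j := fun j => Nat.one_le_pow _ _ (by omega)
    set s := Q * B ^ (2 * J - (i + 1)) with hs
    set si := Q * B ^ (2 * J - i) with hsi
    have hsi' : si = s * B := by
      rw [hs, hsi]
      have : 2 * J - i = (2 * J - (i + 1)) + 1 := by omega
      rw [this, pow_succ]; ring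
    have hsQ : Q ≤ s := Nat.le_mul_of_pos_right _ (hpow _)
    have hsd : s ≤ d := by
      refine le_trans ?_ hQd
      rw [hs]
      exact Nat.mul_le_mul_left _ (Nat.pow_le_pow_right hB1 (by omega))
    have h2 := c2_low (n := n) (d := d) (A0 := A0) (a := a) (b := b) (a' := a') (b' := b') (i := i)
      (K := K) (s₁ := s₁) (si := si) (s := s) hA (by omega) (by omega) hs₁
      (by rw [hsi', mul_comm]; exact Nat.mul_le_mul_left _ hB) ?_ (by omega)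
    · have h3 : (cnt n d (fun G => Nn A0 a b a' b' (i + 1) G < s) : ℝ) ≤
          cnt n d (fun G => Nn A0 a b a' b' i G < si) +
          cnt n d (fun G => si ≤ Nn A0 a b a' b' i G ∧ Nn A0 a b a' b' (i + 1) G < s) := by
        have : cnt n d (fun G => Nn A0 a b a' b' (i + 1) G < s) ≤
          cnt n d (fun G => Nn A0 a b a' b' i G < si) +
          cnt n d (fun G => si ≤ Nn A0 a b a' b' i G ∧ Nn A0 a b a' b' (i + 1) G < s) := by
          refine (cnt_mono fun G _ h => ?_).trans (cnt_or _ _)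
          by_cases hh : Nn A0 a b a' b' i G < si
          · exact Or.inl hh
          · exact Or.inr ⟨not_lt.1 hh, h⟩
        exact_mod_cast this
      have h4 : (s : ℝ) * ((1 / 2) ^ s * (reg n d).card + 2 * cnt n d (Bd A0 K s₁)) ≤
          d * ((1 / 2) ^ Q * (reg n d).card + 2 * cnt n d (Bd A0 K s₁)) := by
        have e1 : (s : ℝ) ≤ d := by exact_mod_cast hsd
        have e2 : (1 / 2 : ℝ) ^ s ≤ (1 / 2) ^ Q :=
          pow_le_pow_of_le_one (by norm_num) (by norm_num) hsQ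
        gcongr
      push_cast
      linarith
    · rw [hsi']
      calc 128 * s * (i + 1) * n ≤ 128 * s * (2 * J) * n := by gcongr
        _ = s * (256 * J * n) := by ring
        _ ≤ s * (B * s₁ * d) := Nat.mul_le_mul_left _ hBn
        _ = s * B * s₁ * d := by ring

theorem pair_bound {J K s₁ B Q : ℕ} (hJ : 1 ≤ J) (hA : 5 * d + 4 ≤ A0.card)
    (hd : 12 * K + 10 + 4 * J ≤ d)
    (hs₁ : 2 * (9 * d + 4) ≤ s₁) (hB : 4 ≤ B) (hBn : 256 * J * n ≤ B * s₁ * d) (hQ : 1 ≤ Q)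
    (hQd : Q * B ^ (2 * J) + 3 * K + 3 ≤ d) (hab : a ≠ b) (haa : a ≠ a') (hab' : a ≠ b') :
    (cnt n d (fun G => ∀ j, lv J G a b j = lv J G a' b' j) : ℝ) ≤
      (be J Q + 2 * J * d * (1 / 2) ^ Q) * (reg n d).card +
        (4 * J * d + 2) * cnt n d (Bd A0 K s₁) := by
  classical
  have h1 := levels (n := n) (d := d) (A0 := A0) (a := a) (b := b) (a' := a') (b' := b') (J := J)
    hA hd hs₁ hB hBn hQ (by omega) (2 * J) le_rfl
  rw [Nat.sub_self, pow_zero, mul_one] at h1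
  have h2 : (cnt n d (fun G => Nn A0 a b a' b' 0 G < Q * B ^ (2 * J)) : ℝ) ≤
      cnt n d (Bd A0 K s₁) := by
    refine Nat.cast_le.2 (cnt_mono fun G hG h => ?_)
    by_contra hh
    have := X_card (a := a) (b := b) (a' := a') (b' := b') hG hh hab haa hab'
    omega
  have h3 := fp_bound (n := n) (d := d) (A0 := A0) (a := a) (b := b) (a' := a') (b' := b')
    (J := J) (s := Q) hJ hQ hA
  have h4 : (cnt n d (fun G => ∀ j, lv J G a b j = lv J G a' b' j) : ℝ) ≤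
      cnt n d (fun G => Q ≤ (Gs J (rd A0 a b a' b' G) (Od G b) G).card ∧
        ∀ j, lv J G a b j = lv J G a' b' j) +
      (cnt n d (fun G => Nn A0 a b a' b' (2 * J) G < Q) + cnt n d (Bd A0 K s₁)) := by
    have : cnt n d (fun G => ∀ j, lv J G a b j = lv J G a' b' j) ≤
      cnt n d (fun G => Q ≤ (Gs J (rd A0 a b a' b' G) (Od G b) G).card ∧
        ∀ j, lv J G a b j = lv J G a' b' j) +
      (cnt n d (fun G => Nn A0 a b a' b' (2 * J) G < Q) + cnt n d (Bd A0 K s₁)) := by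
      refine le_trans (cnt_mono fun G hG h => ?_) ((cnt_or _ _).trans
        (Nat.add_le_add_left (cnt_or (fun G => Nn A0 a b a' b' (2 * J) G < Q) (Bd A0 K s₁)) _))
      by_cases g1 : Q ≤ (Gs J (rd A0 a b a' b' G) (Od G b) G).card
      · exact Or.inl ⟨g1, h⟩
      · right
        by_cases g2 : Bd A0 K s₁ G
        · exact Or.inr g2
        · left
          have := card_le_card (Xl_Gs (a := a) (b := b) (a' := a') (b' := b') (J := J) hG hA g2
            (by omega))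
          unfold Nn
          omega
    exact_mod_cast this
  push_cast at h1
  have h5 : (0 : ℝ) ≤ cnt n d (Bd A0 K s₁) := Nat.cast_nonneg _
  have h6 : 2 * (J : ℝ) * (d * ((1 / 2) ^ Q * (reg n d).card + 2 * cnt n d (Bd A0 K s₁))) =
      2 * J * d * (1 / 2) ^ Q * (reg n d).card + 4 * J * d * cnt n d (Bd A0 K s₁) := by ring
  rw [h6] at h1
  linarith

theorem uf_bound {J K s₁ B Q : ℕ} (hJ : 1 ≤ J) (hA : 5 * d + 4 ≤ A0.card)
    (hd : 12 * K + 10 + 4 * J ≤ d)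
    (hs₁ : 2 * (9 * d + 4) ≤ s₁) (hB : 4 ≤ B) (hBn : 256 * J * n ≤ B * s₁ * d) (hQ : 1 ≤ Q)
    (hQd : Q * B ^ (2 * J) + 3 * K + 3 ≤ d) :
    (cnt n d (fun G => ¬ GoodG G) : ℝ) ≤ n ^ 4 *
      ((be J Q + 2 * J * d * (1 / 2) ^ Q) * (reg n d).card +
        (4 * J * d + 2) * cnt n d (Bd A0 K s₁)) := by
  classical
  set W := (be J Q + 2 * J * d * (1 / 2) ^ Q) * ((reg n d).card : ℝ) +
        (4 * J * d + 2) * cnt n d (Bd A0 K s₁) with hW
  have hW0 : 0 ≤ W := by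
    have := be_nonneg J Q
    rw [hW]; positivity
  have h1 : (cnt n d (fun G => ¬ GoodG G) : ℝ) ≤
      ∑ p : (Fin n × Fin n) × (Fin n × Fin n), (cnt n d (fun G => p.1.1 ≠ p.1.2 ∧ p.1.1 ≠ p.2.1 ∧
        p.1.1 ≠ p.2.2 ∧ ∀ j, lv J G p.1.1 p.1.2 j = lv J G p.2.1 p.2.2 j) : ℝ) := by
    refine le_trans ?_ (cnt_existsR univ fun (p : (Fin n × Fin n) × (Fin n × Fin n)) G =>
      p.1.1 ≠ p.1.2 ∧ p.1.1 ≠ p.2.1 ∧
        p.1.1 ≠ p.2.2 ∧ ∀ j, lv J G p.1.1 p.1.2 j = lv J G p.2.1 p.2.2 j)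
    refine Nat.cast_le.2 (cnt_mono fun G hG h => ?_)
    by_contra hcon
    push Not at hcon
    apply h
    refine good_of_UFp (J := J) ?_
    intro a b a' b' g1 g2 g3 g4
    by_contra g5
    obtain ⟨j, hj⟩ := hcon ((a, b), (a', b')) (mem_univ _) g1 g5 (Ne.symm g3)
    exact hj (g4 j)
  refine h1.trans ?_
  have h2 : ∀ p ∈ (univ : Finset ((Fin n × Fin n) × (Fin n × Fin n))),
      (cnt n d (fun G => p.1.1 ≠ p.1.2 ∧ p.1.1 ≠ p.2.1 ∧
        p.1.1 ≠ p.2.2 ∧ ∀ j, lv J G p.1.1 p.1.2 j = lv J G p.2.1 p.2.2 j) : ℝ) ≤ W := by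
    rintro ⟨⟨a, b⟩, ⟨a', b'⟩⟩ -
    simp only
    by_cases hc : a ≠ b ∧ a ≠ a' ∧ a ≠ b'
    · refine le_trans (Nat.cast_le.2 (cnt_mono fun G _ h => h.2.2.2)) ?_
      exact pair_bound hJ hA hd hs₁ hB hBn hQ hQd hc.1 hc.2.1 hc.2.2
    · have : cnt n d (fun G => a ≠ b ∧ a ≠ a' ∧ a ≠ b' ∧ ∀ j, lv J G a b j = lv J G a' b' j) = 0 :=
        cnt_zero fun G _ h => hc ⟨h.1, h.2.1, h.2.2.1⟩
      rw [this]; simpa using hW0
  refine (sum_le_sum h2).trans (le_of_eq ?_)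
  rw [sum_const, card_univ, Fintype.card_prod, Fintype.card_prod, Fintype.card_fin, nsmul_eq_mul]
  push_cast
  ring

/-- the probability of the bad event -/
theorem bd_bound {K s₁ : ℕ} (hd : 32 * d ≤ n) (hK : 8 * (K + 1) ≤ d)
    (hK2 : 12 * (A0.card : ℝ) * d ≤ (K + 1) * n) (hK3 : 24 * (d : ℝ) ^ 2 ≤ (K + 1) * n)
    (h1 : 8 * s₁ * K ≤ d * d) (h2 : 16 * s₁ ≤ n) (h3 : 144 * s₁ ^ 2 * (K + 1) ≤ d ^ 2 * n)
    (hs : 1 ≤ s₁) :
    (cnt n d (Bd A0 K s₁) : ℝ) ≤ (6 * n ^ 4 * (1 / 2) ^ (K + 1) + 2 * n ^ 2 * (1 / 2) ^ (s₁ / 2)) *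
      (reg n d).card := by
  classical
  rcases Nat.eq_zero_or_pos n with h0 | hn0
  · subst h0
    have : s₁ = 0 := by omega
    omega
  have hn : (1 : ℝ) ≤ n := by exact_mod_cast hn0
  have hKn : 32 * (K + 1) ≤ n * d := by
    have hdp : 1 ≤ d := by omega
    calc 32 * (K + 1) ≤ 32 * d := by omega
      _ ≤ n := hd
      _ ≤ n * d := Nat.le_mul_of_pos_right _ hdp
  have b1 : (cnt n d (Bc K) : ℝ) ≤ n ^ 2 * (1 / 2) ^ (K + 1) * (reg n d).card :=
    codeg_bound hd hKn hK3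
  have b2 := nbset_bound hd A0 (K := K) (by omega) hK2
  have b3 : ∀ b : Fin n, ∀ σ ∈ range 2, (cnt n d (fun G => (Wp G b σ).card < s₁) : ℝ) ≤
      s₁ * ((1 / 2) ^ (s₁ / 2) * (reg n d).card + 2 * cnt n d (Bc K)) := fun b σ hσ =>
    wp_low b (mem_range.1 hσ) hd hK h1 h2 h3 hs
  have h4 : (cnt n d (Bd A0 K s₁) : ℝ) ≤ cnt n d (Bc K) +
      (cnt n d (fun G => ∃ u, K < (nb G u ∩ A0).card) +
      ∑ b : Fin n, ∑ σ ∈ range 2, (cnt n d (fun G => (Wp G b σ).card < s₁) : ℝ)) := by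
    have e1 : cnt n d (Bd A0 K s₁) ≤ cnt n d (Bc K) +
      (cnt n d (fun G => ∃ u, K < (nb G u ∩ A0).card) +
        cnt n d (fun G => ∃ b ∈ (univ : Finset (Fin n)), ∃ σ ∈ range 2, (Wp G b σ).card < s₁)) := by
      refine le_trans (cnt_mono fun G hG h => ?_) ((cnt_or (Bc K) _).trans
        (Nat.add_le_add_left (cnt_or (fun G => ∃ u, K < (nb G u ∩ A0).card)
          (fun G => ∃ b ∈ (univ : Finset (Fin n)), ∃ σ ∈ range 2, (Wp G b σ).card < s₁)) _))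
      rcases h with h | h | ⟨b, σ, hσ, h⟩
      · exact Or.inl h
      · exact Or.inr (Or.inl h)
      · exact Or.inr (Or.inr ⟨b, mem_univ _, σ, mem_range.2 hσ, h⟩)
    have e2 : (cnt n d (fun G => ∃ b ∈ (univ : Finset (Fin n)), ∃ σ ∈ range 2,
        (Wp G b σ).card < s₁) : ℝ) ≤
        ∑ b : Fin n, ∑ σ ∈ range 2, (cnt n d (fun G => (Wp G b σ).card < s₁) : ℝ) :=
      (cnt_existsR univ fun (b : Fin n) G => ∃ σ ∈ range 2, (Wp G b σ).card < s₁).trans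
        (sum_le_sum fun b _ => cnt_existsR _ _)
    have e3 : (cnt n d (Bd A0 K s₁) : ℝ) ≤ cnt n d (Bc K) +
      (cnt n d (fun G => ∃ u, K < (nb G u ∩ A0).card) +
        cnt n d (fun G => ∃ b ∈ (univ : Finset (Fin n)), ∃ σ ∈ range 2, (Wp G b σ).card < s₁)) := by
      exact_mod_cast e1
    linarith
  have h5 : ∑ b : Fin n, ∑ σ ∈ range 2, (cnt n d (fun G => (Wp G b σ).card < s₁) : ℝ) ≤
      n * (2 * (s₁ * ((1 / 2) ^ (s₁ / 2) * (reg n d).card + 2 * cnt n d (Bc K)))) := by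
    refine (sum_le_sum fun b _ => sum_le_sum fun σ hσ => b3 b σ hσ).trans (le_of_eq ?_)
    rw [sum_const, sum_const, card_univ, Fintype.card_fin, card_range, nsmul_eq_mul, nsmul_eq_mul]
    push_cast
    ring
  have hs' : (s₁ : ℝ) ≤ n := by exact_mod_cast (by omega : s₁ ≤ n)
  have hR : (0 : ℝ) ≤ (reg n d).card := Nat.cast_nonneg _
  have hp : (0 : ℝ) ≤ (1 / 2) ^ (K + 1) := by positivity
  have hp2 : (0 : ℝ) ≤ (1 / 2) ^ (s₁ / 2) := by positivity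
  have hC0 : (0 : ℝ) ≤ cnt n d (Bc K) := Nat.cast_nonneg _
  have h6 : (n : ℝ) * (2 * (s₁ * ((1 / 2) ^ (s₁ / 2) * (reg n d).card + 2 * cnt n d (Bc K)))) ≤
      n * (2 * (n * ((1 / 2) ^ (s₁ / 2) * (reg n d).card +
        2 * (n ^ 2 * (1 / 2) ^ (K + 1) * (reg n d).card)))) := by
    gcongr
  have h7 : (cnt n d (Bd A0 K s₁) : ℝ) ≤ n ^ 2 * (1 / 2) ^ (K + 1) * (reg n d).card +
      (n * (1 / 2) ^ (K + 1) * (reg n d).card + n * (2 * (n * ((1 / 2) ^ (s₁ / 2) * (reg n d).card +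
        2 * (n ^ 2 * (1 / 2) ^ (K + 1) * (reg n d).card))))) := by linarith
  have g1 : (n : ℝ) ^ 2 ≤ n ^ 4 / 2 + n ^ 4 / 2 := by
    have : (n : ℝ) ^ 2 ≤ n ^ 4 := pow_le_pow_right₀ hn (by norm_num)
    linarith
  have g2 : (n : ℝ) ≤ n ^ 4 := le_self_pow₀ hn (by norm_num)
  have g3 : (n : ℝ) ^ 2 ≤ n ^ 4 := pow_le_pow_right₀ hn (by norm_num)
  set p := (1 / 2 : ℝ) ^ (K + 1) with hpdef
  set p2 := (1 / 2 : ℝ) ^ (s₁ / 2) with hp2def
  set Rr : ℝ := ((reg n d).card : ℝ) with hRr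
  have hpR : 0 ≤ p * Rr := mul_nonneg hp hR
  have k1 : (n : ℝ) ^ 2 * p * Rr ≤ n ^ 4 * p * Rr / 2 + n ^ 4 * p * Rr / 2 := by
    have := mul_le_mul_of_nonneg_right g3 hpR
    nlinarith
  have k2 : (n : ℝ) * p * Rr ≤ n ^ 4 * p * Rr := by
    have := mul_le_mul_of_nonneg_right g2 hpR
    nlinarith
  have k3 : (n : ℝ) * (2 * (n * (p2 * Rr + 2 * (n ^ 2 * p * Rr)))) =
      2 * n ^ 2 * p2 * Rr + 4 * n ^ 4 * p * Rr := by ring
  rw [k3] at h7
  have k4 : (6 * (n : ℝ) ^ 4 * p + 2 * n ^ 2 * p2) * Rr =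
      6 * (n ^ 4 * p * Rr) + 2 * n ^ 2 * p2 * Rr := by ring
  have k5 : 4 * (n : ℝ) ^ 4 * p * Rr = 4 * (n ^ 4 * p * Rr) := by ring
  rw [k4]
  rw [k5] at h7
  linarith

end Pool.Agent.U140.RG
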