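import Pool.Agent.U140.RG.Zb2

/-! The middle range: numerics. -/

set_option linter.unusedSectionVars false
set_option linter.unusedVariables false

namespace Pool.Agent.U140.RG

open Finset Pool.Agent.K1H35.SH Filter Topology
open Pool.Agent.U140.SG (GoodG)

variable {n d : ℕ}

/-- the natural number conditions of the middle range -/
structure NatH (n d L : ℕ) : Prop where
  hL : 10 ^ 10 ≤ L
  h1 : L ^ 30000 ≤ n
  h2 : n ≤ 8 * L ^ 24 * d ^ 3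
  h3 : d ^ 2 ≤ n * L

lemma NatH.d_low {L : ℕ} (h : NatH n d L) : L ^ 9990 ≤ d := by
  by_contra hcon
  push Not at hcon
  have hL := h.hL
  have h1 := h.h1
  have h2 := h.h2
  have e1 : d ^ 3 ≤ (L ^ 9990) ^ 3 := Nat.pow_le_pow_left hcon.le 3
  have e2 : n ≤ 8 * L ^ 24 * L ^ 29970 := by
    calc n ≤ 8 * L ^ 24 * d ^ 3 := h2
      _ ≤ 8 * L ^ 24 * (L ^ 9990) ^ 3 := Nat.mul_le_mul_left _ e1
      _ = 8 * L ^ 24 * L ^ 29970 := by rw [← pow_mul]
  have e3 : 8 * L ^ 24 * L ^ 29970 = 8 * L ^ 29994 := by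
    rw [mul_assoc, ← pow_add]
  have e4 : 8 * L ^ 29994 < L ^ 30000 := by
    have : L ^ 30000 = L ^ 6 * L ^ 29994 := by rw [← pow_add]
    rw [this]
    have h6 : 8 < L ^ 6 := by
      calc 8 < L ^ 1 := by rw [pow_one]; omega
        _ ≤ L ^ 6 := Nat.pow_le_pow_right (by omega) (by norm_num)
    exact Nat.mul_lt_mul_of_pos_right h6 (by positivity)
  omega

lemma NatH.pow_le {L : ℕ} (h : NatH n d L) {k : ℕ} (hk : k ≤ 9990) : L ^ k ≤ d :=
  (Nat.pow_le_pow_right (by have := h.hL; omega) hk).trans h.d_low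

lemma NatH.mul_pow_le {L : ℕ} (h : NatH n d L) {c k : ℕ} (hc : c ≤ 10 ^ 10) (hk : k ≤ 9989) :
    c * L ^ k ≤ d := by
  calc c * L ^ k ≤ L * L ^ k := Nat.mul_le_mul_right _ (hc.trans h.hL)
    _ = L ^ (k + 1) := by rw [pow_succ]; ring
    _ ≤ d := h.pow_le (by omega)

/-- `d` times any small power is at most `n` -/
lemma NatH.d_mul {L : ℕ} (h : NatH n d L) {c : ℕ} (hc : c ≤ L ^ 20) : c * d ≤ n := by
  by_contra hcon
  push Not at hcon
  have hL := h.hL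
  have h3 := h.h3
  have h1 := h.h1
  have e1 : n * n < c * d * (c * d) := Nat.mul_lt_mul'' hcon hcon
  have e2 : c * d * (c * d) = c * c * d ^ 2 := by ring
  have e3 : c * c * d ^ 2 ≤ L ^ 40 * (n * L) := by
    have : c * c ≤ L ^ 20 * L ^ 20 := Nat.mul_le_mul hc hc
    rw [← pow_add] at this
    exact Nat.mul_le_mul this h3
  have e4 : L ^ 40 * (n * L) = L ^ 41 * n := by ring
  have e5 : L ^ 41 ≤ n := (Nat.pow_le_pow_right (by omega) (by norm_num)).trans h1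
  have e6 : L ^ 41 * n ≤ n * n := Nat.mul_le_mul_right _ e5
  omega

theorem zb_nat {L : ℕ} (h : NatH n d L) : ∃ (A0 : Finset (Fin n)) (K s₁ B Q : ℕ),
    (5 * d + 4 ≤ A0.card ∧ 12 * K + 10 + 4 * 30 ≤ d ∧ 2 * (9 * d + 4) ≤ s₁ ∧ 4 ≤ B ∧
    256 * 30 * n ≤ B * s₁ * d ∧ 1 ≤ Q ∧ Q * B ^ (2 * 30) + 3 * K + 3 ≤ d) ∧
    (32 * d ≤ n ∧ 8 * (K + 1) ≤ d ∧ 12 * (A0.card) * d ≤ (K + 1) * n ∧
    24 * d ^ 2 ≤ (K + 1) * n ∧ 8 * s₁ * K ≤ d * d ∧ 16 * s₁ ≤ n ∧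
    144 * s₁ ^ 2 * (K + 1) ≤ d ^ 2 * n ∧ 1 ≤ s₁) ∧
    (L ≤ K + 1 ∧ L ≤ s₁ / 2 ∧ L ≤ Q ∧ n ≤ 512 * L ^ 4704 * Q ^ 3) := by
  have hL := h.hL
  have h3 := h.h3
  have hdL1 : 10 ^ 10 * L ^ 1 ≤ d := h.mul_pow_le le_rfl (by norm_num)
  rw [pow_one] at hdL1
  have hnd1 : 10 ^ 10 * d ≤ n := h.d_mul (hL.trans (Nat.le_self_pow (by norm_num) L))
  obtain ⟨A0, -, hA0⟩ := Finset.exists_subset_card_eq (s := (univ : Finset (Fin n)))
    (n := 5 * d + 4) (by rw [card_univ, Fintype.card_fin]; omega)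
  set K := 108 * L with hK
  set D := 144 * (K + 1) with hD
  have hD0 : 0 < D := by omega
  set s₁ := min (d ^ 2) n / D with hs₁
  set B := L ^ 26 with hB
  set Q := d / (2 * B ^ 60) with hQ
  have hDL : D ≤ 10 ^ 5 * L := by omega
  -- lower bound on s₁
  have hDd : 10 ^ 5 * L * (27 * d) ≤ n := by
    have : 10 ^ 5 * L * 27 * d ≤ n := by
      refine h.d_mul ?_
      calc 10 ^ 5 * L * 27 ≤ L * L := by nlinarith
        _ = L ^ 2 := by ring
        _ ≤ L ^ 20 := Nat.pow_le_pow_right (by omega) (by norm_num)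
    calc 10 ^ 5 * L * (27 * d) = 10 ^ 5 * L * 27 * d := by ring
      _ ≤ n := this
  have hDd2 : 10 ^ 5 * L * (27 * d) ≤ d ^ 2 := by
    calc 10 ^ 5 * L * (27 * d) = (27 * 10 ^ 5 * L) * d := by ring
      _ ≤ d * d := Nat.mul_le_mul_right _ (by omega)
      _ = d ^ 2 := by ring
  have hsl : 27 * d ≤ s₁ := by
    rw [hs₁, Nat.le_div_iff_mul_le hD0]
    have : 27 * d * D ≤ 10 ^ 5 * L * (27 * d) := by
      calc 27 * d * D ≤ 27 * d * (10 ^ 5 * L) := Nat.mul_le_mul_left _ hDL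
        _ = 10 ^ 5 * L * (27 * d) := by ring
    exact le_min (this.trans hDd2) (this.trans hDd)
  have hsD : s₁ * D ≤ min (d ^ 2) n := Nat.div_mul_le_self _ _
  have hsD1 : s₁ * D ≤ d ^ 2 := hsD.trans (min_le_left _ _)
  have hsD2 : s₁ * D ≤ n := hsD.trans (min_le_right _ _)
  have hsD3 : min (d ^ 2) n < (s₁ + 1) * D := by
    rw [hs₁]
    exact Nat.lt_mul_of_div_lt (Nat.lt_succ_self _) hD0
  have hsD4 : min (d ^ 2) n ≤ 2 * s₁ * D := by
    have : (s₁ + 1) * D ≤ 2 * s₁ * D := Nat.mul_le_mul_right _ (by omega)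
    omega
  -- B
  have hBL : L ≤ B := Nat.le_self_pow (by norm_num) L
  have hB60 : B ^ 60 = L ^ 1560 := by rw [hB, ← pow_mul]
  have hBd : 4 * L ^ 1560 ≤ d := h.mul_pow_le (by norm_num) (by norm_num)
  have hBn : 256 * 30 * n ≤ B * s₁ * d := by
    -- `min (d^3) (n d) ≤ 2 s₁ D d`
    have hm : n ≤ 8 * L ^ 24 * (min (d ^ 2) n * d) := by
      rcases le_total (d ^ 2) n with g | g
      · rw [min_eq_left g]
        calc n ≤ 8 * L ^ 24 * d ^ 3 := h.h2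
          _ = 8 * L ^ 24 * (d ^ 2 * d) := by ring
      · rw [min_eq_right g]
        calc n = 1 * (n * 1) := by ring
          _ ≤ 8 * L ^ 24 * (n * d) := by
            refine Nat.mul_le_mul (Nat.mul_pos (by norm_num) (by positivity)) ?_
            exact Nat.mul_le_mul_left _ (by omega)
    calc 256 * 30 * n ≤ 256 * 30 * (8 * L ^ 24 * (min (d ^ 2) n * d)) := Nat.mul_le_mul_left _ hm
      _ ≤ 256 * 30 * (8 * L ^ 24 * (2 * s₁ * D * d)) := by gcongr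
      _ ≤ 256 * 30 * (8 * L ^ 24 * (2 * s₁ * (144 * (109 * L)) * d)) := by
        gcongr
        omega
      _ = (256 * 30 * 8 * 2 * 144 * 109) * (L ^ 25 * s₁ * d) := by ring
      _ ≤ L * (L ^ 25 * s₁ * d) := by
        refine Nat.mul_le_mul_right _ (le_trans (by norm_num) hL)
      _ = B * s₁ * d := by rw [hB]; ring
  have hQB : Q * (2 * B ^ 60) ≤ d := Nat.div_mul_le_self _ _
  have hQlow : d < (Q + 1) * (2 * B ^ 60) := by
    rw [hQ]
    exact Nat.lt_mul_of_div_lt (Nat.lt_succ_self _) (by positivity)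
  have hQL : L ≤ Q := by
    rw [hQ, Nat.le_div_iff_mul_le (by positivity), hB60]
    calc L * (2 * L ^ 1560) = 2 * L ^ 1561 := by ring
      _ ≤ d := h.mul_pow_le (by norm_num) (by norm_num)
  have hQ4 : d ≤ 4 * L ^ 1560 * Q := by
    rw [hB60] at hQlow
    have : (Q + 1) * (2 * L ^ 1560) ≤ (2 * Q) * (2 * L ^ 1560) := Nat.mul_le_mul_right _ (by omega)
    calc d ≤ (2 * Q) * (2 * L ^ 1560) := by omega
      _ = 4 * L ^ 1560 * Q := by ring
  have hAd : A0.card * d ≤ 9 * (n * L) := by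
    calc A0.card * d ≤ 9 * d * d := Nat.mul_le_mul_right _ (by omega)
      _ = 9 * d ^ 2 := by ring
      _ ≤ 9 * (n * L) := Nat.mul_le_mul_left _ h.h3
  refine ⟨A0, K, s₁, B, Q, ⟨?_, ?_, ?_, ?_, hBn, ?_, ?_⟩, ⟨?_, ?_, ?_, ?_, ?_, ?_, ?_, ?_⟩, ?_, ?_, ?_, ?_⟩
  · omega
  · omega
  · omega
  · omega
  · omega
  · have : 2 * (Q * B ^ (2 * 30)) ≤ d := by
      calc 2 * (Q * B ^ (2 * 30)) = Q * (2 * B ^ 60) := by ring
        _ ≤ d := hQB
    omega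
  · omega
  · omega
  · calc 12 * A0.card * d = 12 * (A0.card * d) := by ring
      _ ≤ 12 * (9 * (n * L)) := Nat.mul_le_mul_left _ hAd
      _ = K * n := by rw [hK]; ring
      _ ≤ (K + 1) * n := Nat.mul_le_mul_right _ (by omega)
  · calc 24 * d ^ 2 ≤ 24 * (n * L) := Nat.mul_le_mul_left _ h.h3
      _ = 24 * L * n := by ring
      _ ≤ (K + 1) * n := Nat.mul_le_mul_right _ (by omega)
  · calc 8 * s₁ * K = s₁ * (8 * K) := by ring
      _ ≤ s₁ * D := Nat.mul_le_mul_left _ (by omega)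
      _ ≤ d ^ 2 := hsD1
      _ = d * d := by ring
  · calc 16 * s₁ = s₁ * 16 := by ring
      _ ≤ s₁ * D := Nat.mul_le_mul_left _ (by omega)
      _ ≤ n := hsD2
  · calc 144 * s₁ ^ 2 * (K + 1) = s₁ * (s₁ * D) := by rw [hD]; ring
      _ ≤ (s₁ * D) * (s₁ * D) := Nat.mul_le_mul_right _ (Nat.le_mul_of_pos_right _ hD0)
      _ ≤ d ^ 2 * n := Nat.mul_le_mul hsD1 hsD2
  · omega
  · omega
  · omega
  · exact hQL
  · calc n ≤ 8 * L ^ 24 * d ^ 3 := h.h2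
      _ ≤ 8 * L ^ 24 * (4 * L ^ 1560 * Q) ^ 3 := by gcongr
      _ = 512 * L ^ 4704 * Q ^ 3 := by
        rw [mul_pow, mul_pow, ← pow_mul]
        ring

lemma poly_small (k : ℕ) (C : ℝ) {r : ℝ} (hr : |r| < 1) {η : ℝ} (hη : 0 < η) :
    ∀ᶠ L : ℕ in atTop, C * ((L : ℝ) ^ k * r ^ L) ≤ η := by
  have h := (tendsto_pow_const_mul_const_pow_of_abs_lt_one k hr).const_mul C
  rw [mul_zero] at h
  exact (h.eventually (gt_mem_nhds hη)).mono fun L h => h.le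

theorem zone_B (M : ℕ) {η : ℝ} (hη : 0 < η) : ∃ Λ : ℕ, ∀ n d L : ℕ, Λ ≤ L → L ^ 30000 ≤ n →
    n ≤ L ^ M → n ≤ 8 * L ^ 24 * d ^ 3 → d ^ 2 ≤ n * L →
    (cnt n d (fun G => ¬ GoodG G) : ℝ) ≤ η * (reg n d).card := by
  classical
  set θ : ℝ := 1 / 8 ^ (2 * 30) with hθ
  have hθ0 : 0 < θ := by rw [hθ]; positivity
  have hr : |Real.exp (-(θ / 4))| < 1 := by
    rw [abs_of_pos (Real.exp_pos _)]
    rw [← Real.exp_zero]
    exact Real.exp_lt_exp.2 (by linarith [div_pos hθ0 (by norm_num : (0 : ℝ) < 4)])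
  have hhalf : |(1 / 2 : ℝ)| < 1 := by rw [abs_of_pos (by norm_num)]; norm_num
  have E1 := poly_small (4 * M) 30 hr (show 0 < η / 3 by linarith)
  have E2 := poly_small (9 * M) 1036 hhalf (show 0 < η / 3 by linarith)
  set C : ℝ := (4 / θ) ^ 15 * 512 ^ 5 with hC
  have hC0 : 0 < C := by rw [hC]; positivity
  have E3 : ∀ᶠ L : ℕ in atTop, C / (L : ℝ) ≤ η / 3 :=
    ((tendsto_const_div_atTop_nhds_zero_nat C).eventually
      (gt_mem_nhds (show 0 < η / 3 by linarith))).mono fun L h => h.le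
  obtain ⟨Λ, hΛ⟩ := eventually_atTop.1 (E1.and (E2.and (E3.and (eventually_ge_atTop (10 ^ 10)))))
  refine ⟨Λ, fun n d L hL h1 hM h2 h3 => ?_⟩
  obtain ⟨e1, e2, e3, e4⟩ := hΛ L hL
  have hN : NatH n d L := ⟨e4, h1, h2, h3⟩
  obtain ⟨A0, K, s₁, B, Q, ⟨a1, a2, a3, a4, a5, a6, a7⟩, ⟨b1, b2, b3, b4, b5, b6, b7, b8⟩,
    c1, c2, c3, c4⟩ := zb_nat hN
  have hU := uf_bound (n := n) (d := d) (A0 := A0) (J := 30) (K := K) (s₁ := s₁) (B := B) (Q := Q)
    (by norm_num) a1 a2 a3 a4 a5 a6 a7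
  have hB := bd_bound (n := n) (d := d) (A0 := A0) (K := K) (s₁ := s₁) b1 b2
    (by exact_mod_cast b3) (by exact_mod_cast b4) b5 b6 b7 b8
  set R : ℝ := ((reg n d).card : ℝ) with hRdef
  have hR0 : 0 ≤ R := Nat.cast_nonneg _
  set q : ℝ := (1 / 2) ^ L with hq
  have hq0 : 0 ≤ q := by rw [hq]; positivity
  have hqle : ∀ k : ℕ, L ≤ k → (1 / 2 : ℝ) ^ k ≤ q := fun k hk =>
    pow_le_pow_of_le_one (by norm_num) (by norm_num) hk
  have hn1 : (1 : ℝ) ≤ n := by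
    have : 1 ≤ L ^ 30000 := Nat.one_le_pow _ _ (by omega)
    exact_mod_cast this.trans h1
  have hdn : (d : ℝ) ≤ n := by exact_mod_cast (by omega : d ≤ n)
  have hd0 : (0 : ℝ) ≤ d := Nat.cast_nonneg _
  have n24 : (n : ℝ) ^ 2 ≤ n ^ 4 := pow_le_pow_right₀ hn1 (by norm_num)
  have n59 : (n : ℝ) ^ 5 ≤ n ^ 9 := pow_le_pow_right₀ hn1 (by norm_num)
  have hBd : (cnt n d (Bd A0 K s₁) : ℝ) ≤ 8 * n ^ 4 * q * R := by
    refine hB.trans (mul_le_mul_of_nonneg_right ?_ hR0)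
    have g1 : 6 * (n : ℝ) ^ 4 * (1 / 2) ^ (K + 1) ≤ 6 * n ^ 4 * q :=
      mul_le_mul_of_nonneg_left (hqle _ c1) (by positivity)
    have g2 : 2 * (n : ℝ) ^ 2 * (1 / 2) ^ (s₁ / 2) ≤ 2 * n ^ 4 * q := by
      refine mul_le_mul ?_ (hqle _ c2) (by positivity) (by positivity)
      linarith
    linarith
  have hnq : (n : ℝ) ^ 9 * q ≤ (L : ℝ) ^ (9 * M) * q := by
    refine mul_le_mul_of_nonneg_right ?_ hq0
    rw [mul_comm 9 M, pow_mul]
    refine pow_le_pow_left₀ (by positivity) ?_ 9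
    exact_mod_cast hM
  -- the rest
  have hbe : (n : ℝ) ^ 4 * be 30 Q ≤ 30 * ((L : ℝ) ^ (4 * M) * Real.exp (-(θ / 4)) ^ L) + C / L := by
    have hQ0 : (0 : ℝ) < Q := by exact_mod_cast (by omega : 0 < Q)
    have hL0 : (0 : ℝ) < L := by exact_mod_cast (by omega : 0 < L)
    unfold be
    rw [← hθ, mul_add]
    refine add_le_add ?_ ?_
    · have g1 : Real.exp (-(θ * Q / 4)) ≤ Real.exp (-(θ / 4)) ^ L := by
        rw [← Real.exp_nat_mul]
        refine Real.exp_le_exp.2 ?_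
        have : (L : ℝ) ≤ Q := by exact_mod_cast c3
        nlinarith [mul_le_mul_of_nonneg_left this hθ0.le]
      have g2 : (n : ℝ) ^ 4 ≤ (L : ℝ) ^ (4 * M) := by
        rw [mul_comm 4 M, pow_mul]
        refine pow_le_pow_left₀ (by positivity) ?_ 4
        exact_mod_cast hM
      calc (n : ℝ) ^ 4 * (((30 : ℕ) : ℝ) * Real.exp (-(θ * Q / 4)))
          = 30 * (n ^ 4 * Real.exp (-(θ * Q / 4))) := by push_cast; ring
        _ ≤ 30 * ((L : ℝ) ^ (4 * M) * Real.exp (-(θ / 4)) ^ L) := by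
          refine mul_le_mul_of_nonneg_left ?_ (by norm_num)
          exact mul_le_mul g2 g1 (Real.exp_pos _).le (by positivity)
    · have g1 : Real.sqrt (4 / (θ * Q)) ^ 30 = (4 / (θ * Q)) ^ 15 := by
        rw [show (30 : ℕ) = 2 * 15 from rfl, pow_mul, Real.sq_sqrt (by positivity)]
      rw [g1]
      have g2 : (n : ℝ) ≤ 512 * L ^ 4704 * Q ^ 3 := by exact_mod_cast c4
      have g3 : (n : ℝ) ^ 5 ≤ (512 * L ^ 4704 * Q ^ 3) ^ 5 := pow_le_pow_left₀ (by positivity) g2 5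
      have g4 : (512 * (L : ℝ) ^ 4704 * Q ^ 3) ^ 5 = 512 ^ 5 * L ^ 23520 * Q ^ 15 := by
        rw [mul_pow, mul_pow, ← pow_mul, ← pow_mul, show 4704 * 5 = 23520 from rfl,
          show 3 * 5 = 15 from rfl]
      rw [g4] at g3
      have g5 : (L : ℝ) ^ 23520 * L ≤ n := by
        have : L ^ 23520 * L ≤ n := by
          rw [← pow_succ]
          exact (Nat.pow_le_pow_right (by omega) (by norm_num)).trans h1
        exact_mod_cast this
      have g6 : (n : ℝ) ^ 4 * (4 / (θ * Q)) ^ 15 = (4 / θ) ^ 15 * (n ^ 4 / Q ^ 15) := by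
        rw [div_mul_eq_div_div, div_pow (4 / θ) (Q : ℝ)]
        ring
      rw [g6, hC, mul_div_assoc]
      refine mul_le_mul_of_nonneg_left ?_ (by positivity)
      rw [div_le_div_iff₀ (by positivity) hL0]
      -- n^4 * L ≤ 512^5 * Q^15
      have hn0 : (0 : ℝ) < n := by linarith
      have hLp : (0 : ℝ) < (L : ℝ) ^ 23520 := by positivity
      have g7 : (n : ℝ) ^ 4 * L * ((L : ℝ) ^ 23520) ≤ 512 ^ 5 * (Q : ℝ) ^ 15 * ((L : ℝ) ^ 23520) := by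
        generalize (L : ℝ) ^ 23520 = X at *
        have g8 : (n : ℝ) ^ 4 * (X * L) ≤ (n : ℝ) ^ 4 * n :=
          mul_le_mul_of_nonneg_left g5 (by positivity)
        linarith
      exact le_of_mul_le_mul_right g7 hLp
  refine hU.trans ?_
  have f1 : (4 * ((30 : ℕ) : ℝ) * d + 2) * cnt n d (Bd A0 K s₁) ≤ 122 * n * (8 * n ^ 4 * q * R) := by
    refine mul_le_mul ?_ hBd (Nat.cast_nonneg _) (by positivity)
    push_cast
    linarith
  have f2 : (2 * ((30 : ℕ) : ℝ) * d * (1 / 2) ^ Q) ≤ 60 * n * q := by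
    push_cast
    refine mul_le_mul ?_ (hqle _ c3) (by positivity) (by positivity)
    linarith
  have f3 : (n : ℝ) ^ 4 * ((be 30 Q + 2 * ((30 : ℕ) : ℝ) * d * (1 / 2) ^ Q) * R +
      (4 * ((30 : ℕ) : ℝ) * d + 2) * cnt n d (Bd A0 K s₁)) ≤
      n ^ 4 * ((be 30 Q + 60 * n * q) * R + 122 * n * (8 * n ^ 4 * q * R)) := by
    refine mul_le_mul_of_nonneg_left ?_ (by positivity)
    refine add_le_add (mul_le_mul_of_nonneg_right ?_ hR0) f1
    linarith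
  refine f3.trans ?_
  have f4 : (n : ℝ) ^ 4 * ((be 30 Q + 60 * n * q) * R + 122 * n * (8 * n ^ 4 * q * R)) =
      (n ^ 4 * be 30 Q + 60 * (n ^ 5 * q) + 976 * (n ^ 9 * q)) * R := by ring
  rw [f4]
  refine mul_le_mul_of_nonneg_right ?_ hR0
  have f5 : (n : ℝ) ^ 5 * q ≤ n ^ 9 * q := mul_le_mul_of_nonneg_right n59 hq0
  linarith

/-- the same without numerals -/
theorem zone_B' (M₁ M : ℕ) (hM : 30000 ≤ M₁) {η : ℝ} (hη : 0 < η) : ∃ Λ : ℕ, ∀ n d L : ℕ, Λ ≤ L →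
    L ^ M₁ ≤ n → n ≤ L ^ M → n ≤ 8 * L ^ 24 * d ^ 3 → d ^ 2 ≤ n * L →
    (cnt n d (fun G => ¬ GoodG G) : ℝ) ≤ η * (reg n d).card := by
  obtain ⟨Λ, h⟩ := zone_B M hη
  refine ⟨Λ + 1, fun n d L hL h1 h2 h3 h4 => ?_⟩
  have hL0 : 0 < L := lt_of_lt_of_le (Nat.succ_pos Λ) hL
  exact h n d L ((Nat.le_succ Λ).trans hL) ((Nat.pow_le_pow_right hL0 hM).trans h1) h2 h3 h4

end Pool.Agent.U140.RG
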